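import Mathlib

/-!
# Norm forms of cubic Kummer extensions: definitions and first properties
-/

set_option autoImplicit false

namespace Pool.Agent.D5741

/-- The norm form of the cubic algebra `R[X]/(X^3 - α)`. -/
def nf {R : Type*} [CommRing R] (α x y z : R) : R :=
  x ^ 3 + α * y ^ 3 + α ^ 2 * z ^ 3 - 3 * α * x * y * z

/-- `c` is a value of the norm form. -/
def IsNm {R : Type*} [CommRing R] (α c : R) : Prop := ∃ x y z : R, nf α x y z = c

/-- The symbols `(α, a)` and `(α, b)` are independent. -/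
def Indep {R : Type*} [CommRing R] (α a b : R) : Prop :=
  α ≠ 0 ∧ a ≠ 0 ∧ b ≠ 0 ∧ ∀ i j : ℕ, IsNm α (a ^ i * b ^ j) → 3 ∣ i ∧ 3 ∣ j

/-- `K` is existentially closed in its extension `K'`. -/
def EC (K K' : Type*) [Field K] [Field K'] [Algebra K K'] : Prop :=
  ∀ S : Subalgebra K K', S.FG → Nonempty (S →ₐ[K] K)

/-- The `i`-th conjugate of `h 0 + μ h 1 + μ² h 2`, where `μ` is replaced by `ω^i μ`. -/
def cj {R : Type*} [CommRing R] (ω μ : R) (h : Fin 3 → R) (i : ℕ) : R :=
  h 0 + (ω ^ i * μ) * h 1 + (ω ^ i * μ) ^ 2 * h 2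

open scoped TensorProduct in
/-- The elements of `Ω ⊗ L` that are rational over the intermediate field `F`. -/
def RatSub {K Ω : Type*} (L : Type*) [Field K] [Field Ω] [Algebra K Ω] [Field L] [Algebra K L]
    (F : IntermediateField K Ω) : Subalgebra K (Ω ⊗[K] L) :=
  (Algebra.TensorProduct.map F.val (AlgHom.id K L)).range

/-- A triple of embeddings `L → Ω` is rational over `F` (a point of the Weil restriction from
`F(ν)` to `F`). -/
def Rat3 {K Ω L : Type*} [Field K] [Field Ω] [Algebra K Ω] [Field L] [Algebra K L]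
    (F : IntermediateField K Ω) (ω ν : Ω) (p : Fin 3 → (L →ₐ[K] Ω)) : Prop :=
  ∀ (l : L) (m : ℕ), ∑ r : Fin 3, ((ω ^ (r : ℕ) * ν)⁻¹) ^ m * p r l ∈ F

section Ring

variable {R : Type*} [CommRing R]

theorem nf_mul (α x y z x' y' z' : R) :
    nf α x y z * nf α x' y' z' =
      nf α (x * x' + α * (y * z' + z * y')) (x * y' + y * x' + α * z * z')
        (x * z' + y * y' + z * x') := by
  unfold nf
  ring

theorem nf_zero_zero (α x : R) : nf α x 0 0 = x ^ 3 := by
  unfold nf
  ring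

theorem nf_smul (α c x y z : R) : nf α (c * x) (c * y) (c * z) = c ^ 3 * nf α x y z := by
  unfold nf
  ring

theorem map_nf {S : Type*} [CommRing S] (f : R →+* S) (α x y z : R) :
    f (nf α x y z) = nf (f α) (f x) (f y) (f z) := by
  unfold nf
  simp only [map_sub, map_add, map_mul, map_pow, map_ofNat]

theorem IsNm.map {S : Type*} [CommRing S] (f : R →+* S) {α c : R} (h : IsNm α c) :
    IsNm (f α) (f c) := by
  obtain ⟨x, y, z, h⟩ := h
  exact ⟨f x, f y, f z, by rw [← map_nf, h]⟩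

theorem IsNm.mul {α c d : R} (hc : IsNm α c) (hd : IsNm α d) : IsNm α (c * d) := by
  obtain ⟨x, y, z, rfl⟩ := hc
  obtain ⟨x', y', z', rfl⟩ := hd
  exact ⟨_, _, _, (nf_mul α x y z x' y' z').symm⟩

theorem IsNm.cube (α c : R) : IsNm α (c ^ 3) := ⟨c, 0, 0, nf_zero_zero α c⟩

theorem IsNm.one (α : R) : IsNm α 1 := by
  simpa using IsNm.cube α 1

theorem IsNm.pow {α c : R} (hc : IsNm α c) (n : ℕ) : IsNm α (c ^ n) := by
  induction n with
  | zero => simpa using IsNm.one α
  | succ n ih => rw [pow_succ]; exact ih.mul hc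

theorem IsNm.alpha (α : R) : IsNm α α := ⟨0, 1, 0, by unfold nf; ring⟩

/-- Factorisation of the norm form. -/
theorem nf_eq_prod (ω μ x y z : R) (hω : ω ^ 2 + ω + 1 = 0) :
    nf (μ ^ 3) x y z = (x + μ * y + μ ^ 2 * z) * (x + ω * μ * y + ω ^ 2 * μ ^ 2 * z) *
      (x + ω ^ 2 * μ * y + ω ^ 4 * μ ^ 2 * z) := by
  have h3 : ω ^ 3 = 1 := by linear_combination (ω - 1) * hω
  have hω2 : ω ^ 2 = -ω - 1 := by linear_combination hω
  have h4 : ω ^ 4 = ω := by linear_combination ω * h3
  rw [h4]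
  unfold nf
  rw [hω2]
  linear_combination (x * μ ^ 2 * y ^ 2 - 2 * x * μ ^ 3 * y * z + x * μ ^ 4 * z ^ 2 + μ ^ 3 * y ^ 3
    - μ ^ 4 * y ^ 2 * z - μ ^ 5 * y * z ^ 2 + μ ^ 6 * z ^ 3) * hω

theorem nf_eq_prod_cj (ω μ : R) (h : Fin 3 → R) (hω : ω ^ 2 + ω + 1 = 0) :
    nf (μ ^ 3) (h 0) (h 1) (h 2) = cj ω μ h 0 * cj ω μ h 1 * cj ω μ h 2 := by
  rw [nf_eq_prod ω μ _ _ _ hω]
  unfold cj
  ring

theorem cj_add_three (ω μ : R) (h : Fin 3 → R) (i : ℕ) (hω : ω ^ 2 + ω + 1 = 0) :
    cj ω μ h (i + 3) = cj ω μ h i := by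
  have h3 : ω ^ 3 = 1 := by linear_combination (ω - 1) * hω
  unfold cj
  rw [pow_add, h3, mul_one]

end Ring

section Field

variable {F : Type*} [Field F]

theorem IsNm.inv {α c : F} (hc : IsNm α c) : IsNm α c⁻¹ := by
  by_cases h : c = 0
  · rw [h, inv_zero]
    exact ⟨0, 0, 0, by unfold nf; ring⟩
  · have h1 := (hc.mul hc).mul (IsNm.cube α c⁻¹)
    have h2 : c * c * c⁻¹ ^ 3 = c⁻¹ := by
      field_simp
    rwa [h2] at h1

theorem IsNm.div {α c d : F} (hc : IsNm α c) (hd : IsNm α d) : IsNm α (c / d) := by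
  rw [div_eq_mul_inv]
  exact hc.mul hd.inv

theorem isNm_mul_cube_iff {α c d : F} (hd : d ≠ 0) : IsNm α (c * d ^ 3) ↔ IsNm α c := by
  constructor
  · intro h
    have h1 := h.mul (IsNm.cube α d⁻¹)
    have h2 : c * d ^ 3 * d⁻¹ ^ 3 = c := by
      field_simp
    rwa [h2] at h1
  · intro h
    exact h.mul (IsNm.cube α d)

theorem IsNm.of_pow {α c : F} (hc : c ≠ 0) {r : ℕ} (hr : ¬ 3 ∣ r) (h : IsNm α (c ^ r)) :
    IsNm α c := by
  have h3 : r % 3 = 1 ∨ r % 3 = 2 := by omega
  rcases h3 with h3 | h3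
  · obtain ⟨k, hk⟩ : ∃ k, r = 3 * k + 1 := ⟨r / 3, by omega⟩
    rw [hk, pow_add, pow_one, mul_comm, pow_mul'] at h
    exact (isNm_mul_cube_iff (pow_ne_zero k hc)).mp h
  · obtain ⟨k, hk⟩ : ∃ k, 2 * r = 3 * k + 1 := ⟨(2 * r) / 3, by omega⟩
    have h' := h.mul h
    rw [← pow_add, ← two_mul, hk, pow_add, pow_one, mul_comm, pow_mul'] at h'
    exact (isNm_mul_cube_iff (pow_ne_zero k hc)).mp h'

theorem IsNm.of_cube [CharZero F] {γ : F} (hγ : γ ≠ 0) (c : F) : IsNm (γ ^ 3) c := by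
  refine ⟨(c + 2) / 3, (c - 1) / (3 * γ), (c - 1) / (3 * γ ^ 2), ?_⟩
  unfold nf
  field_simp
  ring

/-- The norm form of a non-cube is anisotropic. -/
theorem nf_eq_zero_iff {ω α : F} (hω : ω ^ 2 + ω + 1 = 0) (hα : ∀ x : F, x ^ 3 ≠ α) {x y z : F} :
    nf α x y z = 0 ↔ x = 0 ∧ y = 0 ∧ z = 0 := by
  constructor
  · intro h
    have key : ∀ μ' : AlgebraicClosure F, μ' ^ 3 = algebraMap F _ α →
        algebraMap F (AlgebraicClosure F) x + μ' * algebraMap F _ y + μ' ^ 2 * algebraMap F _ z = 0 →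
        x = 0 ∧ y = 0 ∧ z = 0 := by
      intro μ' hμ' h0
      have h1 : μ' * algebraMap F (AlgebraicClosure F) (x * z - y ^ 2) =
          algebraMap F _ (x * y - α * z ^ 2) := by
        simp only [map_sub, map_mul, map_pow, ← hμ']
        linear_combination (-algebraMap F (AlgebraicClosure F) y + μ' * algebraMap F _ z) * h0
      have h2 : x * z - y ^ 2 = 0 := by
        by_contra h3
        have h4 : algebraMap F (AlgebraicClosure F) ((x * y - α * z ^ 2) / (x * z - y ^ 2)) = μ' := by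
          rw [map_div₀, ← h1, mul_div_assoc, div_self, mul_one]
          rwa [Ne, map_eq_zero]
        refine hα ((x * y - α * z ^ 2) / (x * z - y ^ 2)) ?_
        apply (algebraMap F (AlgebraicClosure F)).injective
        rw [map_pow, h4, hμ']
      rw [h2, map_zero, mul_zero] at h1
      have h3 : x * y - α * z ^ 2 = 0 := by
        rwa [eq_comm, map_eq_zero] at h1
      have hz : z = 0 := by
        by_contra hz
        refine hα (y / z) ?_
        have : x = y ^ 2 / z := by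
          field_simp
          linear_combination h2
        rw [this] at h3
        field_simp at h3
        field_simp
        linear_combination h3
      have hy : y = 0 := by
        rw [hz] at h2
        have : y ^ 2 = 0 := by linear_combination -h2
        exact pow_eq_zero_iff (two_ne_zero) |>.mp this
      refine ⟨?_, hy, hz⟩
      rw [hy, hz] at h
      rw [nf_zero_zero] at h
      exact pow_eq_zero_iff (three_ne_zero) |>.mp h
    obtain ⟨μ, hμ⟩ := IsAlgClosed.exists_pow_nat_eq (algebraMap F (AlgebraicClosure F) α)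
      (n := 3) (by norm_num)
    have h1 : nf (algebraMap F (AlgebraicClosure F) α) (algebraMap F _ x) (algebraMap F _ y)
        (algebraMap F _ z) = 0 := by
      rw [← map_nf, h, map_zero]
    have hω' : (algebraMap F (AlgebraicClosure F) ω) ^ 2 + algebraMap F _ ω + 1 = 0 := by
      rw [← map_pow, ← map_add, ← map_one (algebraMap F (AlgebraicClosure F)), ← map_add, hω,
        map_zero]
    have hω3 : (algebraMap F (AlgebraicClosure F) ω) ^ 3 = 1 := by
      linear_combination (algebraMap F (AlgebraicClosure F) ω - 1) * hω'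
    rw [← hμ, nf_eq_prod _ _ _ _ _ hω', mul_eq_zero, mul_eq_zero] at h1
    rcases h1 with (h1 | h1) | h1
    · exact key μ hμ h1
    · refine key (algebraMap F _ ω * μ) ?_ ?_
      · rw [mul_pow, hω3, one_mul, hμ]
      · rw [← h1]; ring
    · refine key (algebraMap F _ ω ^ 2 * μ) ?_ ?_
      · rw [mul_pow, ← pow_mul, mul_comm 2 3, pow_mul, hω3, one_pow, one_mul, hμ]
      · rw [← h1]; ring
  · rintro ⟨rfl, rfl, rfl⟩
    unfold nf
    ring

end Field

end Pool.Agent.D5741
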