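import Mathlib

/-!
# Function fields of one variable: the two rings
-/

set_option autoImplicit false

namespace Pool.Agent.D5741

open Polynomial

section

variable {k 𝕃 : Type*} [Field k] [Field 𝕃] [Algebra k 𝕃]

/-- The polynomial ring `k[t]` inside `𝕃`. -/
def Rfin (k : Type*) {𝕃 : Type*} [Field k] [Field 𝕃] [Algebra k 𝕃] (t : 𝕃) : Subalgebra k 𝕃 :=
  Algebra.adjoin k {t}

/-- The local ring `k[t⁻¹]_{(t⁻¹)}` of `k(t)` at infinity, inside `𝕃`. -/
def Rinf (k : Type*) {𝕃 : Type*} [Field k] [Field 𝕃] [Algebra k 𝕃] (t : 𝕃) : Subalgebra k 𝕃 where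
  carrier := {x | ∃ p q : k[X], q.coeff 0 ≠ 0 ∧ x * aeval t⁻¹ q = aeval t⁻¹ p}
  mul_mem' := by
    rintro x y ⟨p, q, hq, h⟩ ⟨p', q', hq', h'⟩
    refine ⟨p * p', q * q', by rw [mul_coeff_zero]; exact mul_ne_zero hq hq', ?_⟩
    rw [map_mul, map_mul, ← h, ← h']
    ring
  add_mem' := by
    rintro x y ⟨p, q, hq, h⟩ ⟨p', q', hq', h'⟩
    refine ⟨p * q' + p' * q, q * q', by rw [mul_coeff_zero]; exact mul_ne_zero hq hq', ?_⟩
    rw [map_add, map_mul, map_mul, map_mul, ← h, ← h']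
    ring
  algebraMap_mem' := by
    intro c
    exact ⟨C c, 1, by simp, by simp⟩

/-- The integral closure of `k[t]` in `𝕃`. -/
def Ofin (k : Type*) {𝕃 : Type*} [Field k] [Field 𝕃] [Algebra k 𝕃] (t : 𝕃) : Subalgebra k 𝕃 :=
  (integralClosure (Rfin k t) 𝕃).restrictScalars k

/-- The integral closure of the local ring at infinity in `𝕃`. -/
def Oinf (k : Type*) {𝕃 : Type*} [Field k] [Field 𝕃] [Algebra k 𝕃] (t : 𝕃) : Subalgebra k 𝕃 :=
  (integralClosure (Rinf k t) 𝕃).restrictScalars k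

end

end Pool.Agent.D5741
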