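import Mathlib
import Pool.Agent.Lib.MP_d5741c_al.Basic
import Pool.Agent.Lib.MP_d5741c_al.FF

/-!
# Definitions for the curve part: cohomology of pairs, evaluation, the ideals of a norm-one cocycle
-/

set_option autoImplicit false

namespace Pool.Agent.D5741

open scoped TensorProduct nonZeroDivisors

section Chi

variable {k 𝕃 : Type} [Field k] [Field 𝕃] [Algebra k 𝕃]

/-- Dimension of the intersection. -/
noncomputable def h0 (I J : Submodule k 𝕃) : ℕ := Module.finrank k ↥(I ⊓ J)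

/-- Codimension of the sum. -/
noncomputable def h1 (I J : Submodule k 𝕃) : ℕ := Module.finrank k (𝕃 ⧸ (I ⊔ J))

/-- The pair has finite cohomology. -/
def Good (I J : Submodule k 𝕃) : Prop :=
  FiniteDimensional k ↥(I ⊓ J) ∧ FiniteDimensional k (𝕃 ⧸ (I ⊔ J))

/-- Euler characteristic. -/
noncomputable def chi (I J : Submodule k 𝕃) : ℤ := (h0 I J : ℤ) - (h1 I J : ℤ)

/-- A fractional ideal as a `k`-subspace. -/
def toK {R : Subalgebra k 𝕃} (I : FractionalIdeal R⁰ 𝕃) : Submodule k 𝕃 :=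
  (I : Submodule R 𝕃).restrictScalars k

/-- The number of prime factors (with multiplicity) of an ideal. -/
noncomputable def nfac {R : Type} [CommRing R] [IsDedekindDomain R] (I : Ideal R) : ℕ :=
  Multiset.card (UniqueFactorizationMonoid.normalizedFactors I)

/-- The fractional ideal generated by `1, f i, f i * f (i + 1)`. -/
noncomputable def Zid (R : Subalgebra k 𝕃) [IsFractionRing R 𝕃] (f : ℕ → 𝕃) (i : ℕ) :
    FractionalIdeal R⁰ 𝕃 :=
  1 + FractionalIdeal.spanSingleton R⁰ (f i) + FractionalIdeal.spanSingleton R⁰ (f i * f (i + 1))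

end Chi

section Tensor

variable {K L Ω : Type} [Field K] [Field L] [Algebra K L] [Field Ω] [Algebra K Ω]

/-- Evaluation of elements of `Ω ⊗ L` at an embedding `L → Ω`. -/
noncomputable def evp (p : L →ₐ[K] Ω) : Ω ⊗[K] L →ₐ[Ω] Ω :=
  Algebra.TensorProduct.lift (AlgHom.id Ω Ω) p (fun _ _ => Commute.all _ _)

/-- The triples in the `Ω`-span of `W` vanishing at the points `p i`. -/
noncomputable def VSub {ι : Type} (W : Submodule K (Fin 3 → L)) (p : ι → (L →ₐ[K] Ω)) :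
    Submodule Ω (Fin 3 → Ω ⊗[K] L) where
  carrier := {h | h ∈ Submodule.span Ω {h | ∃ w ∈ W, ∀ j, h j = 1 ⊗ₜ w j} ∧
    ∀ i j, evp (p i) (h j) = 0}
  add_mem' := by
    rintro x y ⟨hx, hx'⟩ ⟨hy, hy'⟩
    exact ⟨Submodule.add_mem _ hx hy, fun i j => by rw [Pi.add_apply, map_add, hx', hy', add_zero]⟩
  zero_mem' := ⟨Submodule.zero_mem _, fun i j => by rw [Pi.zero_apply, map_zero]⟩
  smul_mem' := by
    rintro c x ⟨hx, hx'⟩
    exact ⟨Submodule.smul_mem _ c hx, fun i j => by rw [Pi.smul_apply, map_smul, hx', smul_zero]⟩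

/-- The conjugates (in `Ω ⊗ L`) of a triple of elements of `Ω ⊗ L`. -/
noncomputable def cjT (ω : K) (μ : Ω) (h : Fin 3 → Ω ⊗[K] L) (i : ℕ) : Ω ⊗[K] L :=
  cj (algebraMap K (Ω ⊗[K] L) ω) (μ ⊗ₜ 1) h i

/-- The constant triple of `Ω ⊗ L` attached to a triple of elements of `L`. -/
noncomputable def cst (Ω : Type) [Field Ω] [Algebra K Ω] (w : Fin 3 → L) : Fin 3 → Ω ⊗[K] L :=
  fun j => 1 ⊗ₜ w j

variable (K L Ω) in
/-- The fraction field of `Ω ⊗ L`. -/
abbrev LL : Type := FractionRing (Ω ⊗[K] L)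

variable (K Ω) in
/-- The image of `t` in the fraction field of `Ω ⊗ L`. -/
noncomputable def tt (t : L) : LL K L Ω := algebraMap (Ω ⊗[K] L) (LL K L Ω) (1 ⊗ₜ t)

/-- The conjugates of `θ` in the fraction field. -/
noncomputable def fth (ω : K) (μ : Ω) (θ : Fin 3 → L) (i : ℕ) : LL K L Ω :=
  algebraMap (Ω ⊗[K] L) (LL K L Ω) (cjT ω μ (cst Ω θ) i)

variable [IsDomain (Ω ⊗[K] L)]

/-- The `Ω`-space of triples of elements of `Ω ⊗ L` whose conjugates lie in the powers of the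
ideals of `θ`, with a pole of order at most `n` at infinity. -/
noncomputable def Sp (ω : K) (μ : Ω) (θ : Fin 3 → L) (t : L)
    [IsFractionRing (Ofin Ω (tt K Ω t)) (LL K L Ω)] [IsFractionRing (Oinf Ω (tt K Ω t)) (LL K L Ω)]
    (e n : ℕ) : Set (Fin 3 → Ω ⊗[K] L) :=
  {h | ∀ i : Fin 3,
    algebraMap (Ω ⊗[K] L) (LL K L Ω) (cjT ω μ h i) ∈ (Zid (Ofin Ω (tt K Ω t)) (fth ω μ θ) i) ^ e ∧
    (tt K Ω t)⁻¹ ^ n * algebraMap (Ω ⊗[K] L) (LL K L Ω) (cjT ω μ h i) ∈
      (Zid (Oinf Ω (tt K Ω t)) (fth ω μ θ) i) ^ e}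

end Tensor

end Pool.Agent.D5741
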