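import Mathlib
import Pool.Agent.Lib.MP_d5741c_al.Basic
import Pool.Agent.Lib.MP_d5741c_al.Mg.G001
import Pool.Agent.Lib.MP_d5741c_al.Mg.G003

/-!
# The two-field argument for finite extensions
-/

set_option autoImplicit false
open scoped TensorProduct

namespace Pool.Agent.D5741

namespace Case0Aux

section Ring

variable {R : Type*} [CommRing R]

/-- Multiplication of the cubic algebra `R[T]/(T^3 - α)` on coordinates. -/
def mul3 (α : R) (x y : Fin 3 → R) : Fin 3 → R :=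
  ![x 0 * y 0 + α * (x 1 * y 2 + x 2 * y 1), x 0 * y 1 + x 1 * y 0 + α * (x 2 * y 2),
    x 0 * y 2 + x 1 * y 1 + x 2 * y 0]

/-- The automorphism `T ↦ ω T` on coordinates. -/
def sg (ω : R) (x : Fin 3 → R) : Fin 3 → R := ![x 0, ω * x 1, ω ^ 2 * x 2]

theorem om3 {ω : R} (hω : ω ^ 2 + ω + 1 = 0) : ω ^ 3 = 1 := by
  linear_combination (ω - 1) * hω

theorem cj_mul3 {ω μ : R} (hω : ω ^ 2 + ω + 1 = 0) (x y : Fin 3 → R) (i : ℕ) :
    cj ω μ (mul3 (μ ^ 3) x y) i = cj ω μ x i * cj ω μ y i := by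
  have h : (ω ^ i * μ) ^ 3 = μ ^ 3 := by
    rw [mul_pow, ← pow_mul, mul_comm i 3, pow_mul, om3 hω, one_pow, one_mul]
  unfold cj mul3
  simp only [Matrix.cons_val_zero, Matrix.cons_val_one, Matrix.cons_val]
  rw [← h]
  ring

theorem cj_sg (ω μ : R) (x : Fin 3 → R) (i : ℕ) :
    cj ω μ (sg ω x) i = cj ω μ x (i + 1) := by
  unfold cj sg
  simp only [Matrix.cons_val_zero, Matrix.cons_val_one, Matrix.cons_val]
  ring

theorem cj_smul (ω μ c : R) (x : Fin 3 → R) (i : ℕ) :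
    cj ω μ (fun j => c * x j) i = c * cj ω μ x i := by
  unfold cj
  ring

/-- Inverse Fourier transform; `μi` is the inverse of `μ` and `th` the inverse of `3`. -/
def ift (ω μi th : R) (H : Fin 3 → R) : Fin 3 → R :=
  ![th * (H 0 + H 1 + H 2), th * μi * (H 0 + ω ^ 2 * H 1 + ω * H 2),
    th * μi ^ 2 * (H 0 + ω * H 1 + ω ^ 2 * H 2)]

theorem cj_ift {ω μ μi th : R} (hω : ω ^ 2 + ω + 1 = 0) (hμ : μ * μi = 1) (hth : th * 3 = 1)
    (H : Fin 3 → R) (i : Fin 3) : cj ω μ (ift ω μi th H) i = H i := by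
  have h3 := om3 hω
  have hth' : th = th := rfl
  unfold cj ift
  simp only [Matrix.cons_val_zero, Matrix.cons_val_one, Matrix.cons_val]
  have e1 : ∀ u : R, (u * μ) * (th * μi * (H 0 + ω ^ 2 * H 1 + ω * H 2)) =
      u * th * (H 0 + ω ^ 2 * H 1 + ω * H 2) := by
    intro u
    linear_combination u * th * (H 0 + ω ^ 2 * H 1 + ω * H 2) * hμ
  have e2 : ∀ u : R, (u * μ) ^ 2 * (th * μi ^ 2 * (H 0 + ω * H 1 + ω ^ 2 * H 2)) =
      u ^ 2 * th * (H 0 + ω * H 1 + ω ^ 2 * H 2) := by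
    intro u
    linear_combination u ^ 2 * th * (H 0 + ω * H 1 + ω ^ 2 * H 2) * (μ * μi + 1) * hμ
  rw [e1, e2]
  fin_cases i
  · simp only [Fin.zero_eta, pow_zero]
    linear_combination H 0 * hth + th * (H 1 + H 2) * hω
  · simp only [Fin.mk_one, pow_one]
    linear_combination H 1 * hth + th * H 0 * hω + 2 * th * H 1 * h3 +
      th * H 2 * (1 - ω + ω ^ 2) * hω
  · simp only [Fin.reduceFinMk]
    linear_combination H 2 * hth + th * H 0 * (1 - ω + ω ^ 2) * hω + th * H 1 * hω +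
      th * H 1 * (ω + ω ^ 2) * h3 + th * H 2 * (ω ^ 3 + 2) * h3

theorem ift_cj {ω μ μi th : R} (hω : ω ^ 2 + ω + 1 = 0) (hμ : μ * μi = 1) (hth : th * 3 = 1)
    (x : Fin 3 → R) : ift ω μi th (fun i : Fin 3 => cj ω μ x i) = x := by
  have h3 := om3 hω
  funext i
  unfold cj ift
  fin_cases i
  · simp only [Fin.zero_eta, Matrix.cons_val_zero, Fin.val_zero, Fin.val_one, Fin.val_two,
      pow_zero, pow_one]
    linear_combination x 0 * hth + th * μ * x 1 * hω + th * μ ^ 2 * x 2 * (1 - ω + ω ^ 2) * hω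
  · simp only [Fin.mk_one, Matrix.cons_val_one, Matrix.cons_val_zero, Fin.val_zero, Fin.val_one,
      Fin.val_two, pow_zero, pow_one]
    linear_combination th * μi * x 0 * hω + 2 * th * μi * μ * x 1 * h3 +
      th * μi * μ ^ 2 * x 2 * hω + th * μi * μ ^ 2 * x 2 * (ω + ω ^ 2) * h3 +
      3 * th * x 1 * hμ + x 1 * hth
  · simp only [Fin.reduceFinMk, Matrix.cons_val, Fin.val_zero, Fin.val_one,
      Fin.val_two, pow_zero, pow_one]
    linear_combination th * μi ^ 2 * x 0 * hω + th * μi ^ 2 * μ * x 1 * (1 - ω + ω ^ 2) * hω +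
      th * μi ^ 2 * μ ^ 2 * x 2 * (ω ^ 3 + 2) * h3 + 3 * th * x 2 * (μ * μi + 1) * hμ +
      x 2 * hth

theorem cj_inj {ω μ μi th : R} (hω : ω ^ 2 + ω + 1 = 0) (hμ : μ * μi = 1) (hth : th * 3 = 1)
    {x y : Fin 3 → R} (h : ∀ i : Fin 3, cj ω μ x i = cj ω μ y i) : x = y := by
  rw [← ift_cj hω hμ hth x, ← ift_cj hω hμ hth y]
  congr 1
  funext i
  exact h i

theorem map_cj {S : Type*} [CommRing S] (f : R →+* S) (ω μ : R) (x : Fin 3 → R) (i : ℕ) :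
    f (cj ω μ x i) = cj (f ω) (f μ) (fun j => f (x j)) i := by
  unfold cj
  simp only [map_add, map_mul, map_pow]

theorem map_ift {S : Type*} [CommRing S] (f : R →+* S) (ω μi th : R) (H : Fin 3 → R) (j : Fin 3) :
    f (ift ω μi th H j) = ift (f ω) (f μi) (f th) (fun j => f (H j)) j := by
  unfold ift
  fin_cases j <;>
  simp only [Fin.zero_eta, Fin.mk_one, Fin.reduceFinMk, Matrix.cons_val, Matrix.cons_val_zero,
    Matrix.cons_val_one, map_add, map_mul, map_pow]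

end Ring

section Unit

variable {K L Ω : Type} [Field K] [Field L] [Algebra K L] [Field Ω] [Algebra K Ω]

/-- An element of `Ω ⊗ L` is a unit if all its images in `Ω` are nonzero. -/
theorem isUnit_of_forall [IsAlgClosed Ω] [FiniteDimensional K L] (x : Ω ⊗[K] L)
    (h : ∀ σ : L →ₐ[K] Ω,
      Algebra.TensorProduct.lift (AlgHom.id Ω Ω) σ (fun _ _ => Commute.all _ _) x ≠ 0) :
    IsUnit x := by
  by_contra hx
  obtain ⟨M, hM, hxM⟩ := exists_max_ideal_of_mem_nonunits (a := x) hx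
  let : Field ((Ω ⊗[K] L) ⧸ M) := Ideal.Quotient.field M
  have : Module.Finite Ω ((Ω ⊗[K] L) ⧸ M) :=
    Module.Finite.of_surjective (Ideal.Quotient.mkₐ Ω M).toLinearMap
      (Ideal.Quotient.mkₐ_surjective Ω M)
  have : Algebra.IsIntegral Ω ((Ω ⊗[K] L) ⧸ M) := Algebra.IsIntegral.of_finite _ _
  have hb := IsAlgClosed.algebraMap_bijective_of_isIntegral (k := Ω) (K := (Ω ⊗[K] L) ⧸ M)
  let e : Ω ≃ₐ[Ω] ((Ω ⊗[K] L) ⧸ M) := AlgEquiv.ofBijective (Algebra.ofId _ _) hb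
  let q : (Ω ⊗[K] L) →ₐ[Ω] Ω := e.symm.toAlgHom.comp (Ideal.Quotient.mkₐ Ω M)
  let σ : L →ₐ[K] Ω := (q.restrictScalars K).comp Algebra.TensorProduct.includeRight
  apply h σ
  have hq : Algebra.TensorProduct.lift (AlgHom.id Ω Ω) σ (fun _ _ => Commute.all _ _) = q := by
    apply Algebra.TensorProduct.ext'
    intro a b
    rw [Algebra.TensorProduct.lift_tmul]
    have h1 : a ⊗ₜ[K] b = a • ((1 : Ω) ⊗ₜ[K] b) := by
      rw [TensorProduct.smul_tmul', smul_eq_mul, mul_one]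
    rw [h1, map_smul]
    rfl
  rw [hq]
  change e.symm (Ideal.Quotient.mkₐ Ω M x) = 0
  rw [Ideal.Quotient.mkₐ_eq_mk, Ideal.Quotient.eq_zero_iff_mem.mpr hxM, map_zero]

theorem map_injective (F : IntermediateField K Ω) :
    Function.Injective (Algebra.TensorProduct.map F.val (AlgHom.id K L)) := by
  have h := Module.Flat.rTensor_preserves_injective_linearMap (M := L) F.val.toLinearMap
    F.val.injective
  exact h

theorem exists_inv_ratSub [FiniteDimensional K L] (F : IntermediateField K Ω) {x : Ω ⊗[K] L}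
    (hx : x ∈ RatSub L F) (hu : IsUnit x) : ∃ y ∈ RatSub L F, x * y = 1 := by
  obtain ⟨x', rfl⟩ := hx
  have hinj : Function.Injective (LinearMap.mulLeft F x') := by
    intro a b hab
    simp only [LinearMap.mulLeft_apply] at hab
    apply map_injective F
    apply hu.mul_left_cancel
    have := congrArg (Algebra.TensorProduct.map F.val (AlgHom.id K L)) hab
    rw [map_mul, map_mul] at this
    exact this
  obtain ⟨y', hy'⟩ := LinearMap.surjective_of_injective hinj 1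
  refine ⟨_, ⟨y', rfl⟩, ?_⟩
  simp only [LinearMap.mulLeft_apply] at hy'
  have := congrArg (Algebra.TensorProduct.map F.val (AlgHom.id K L)) hy'
  rw [map_mul, map_one] at this
  exact this

end Unit

section Gen

variable {K Ω Ω' : Type} [Field K] [Field Ω] [Field Ω'] [Algebra K Ω] [Algebra Ω Ω'] [Algebra K Ω']
  [IsScalarTower K Ω Ω']

theorem exists_gen_field [Infinite K] {ι : Type} (K₁ : IntermediateField K Ω) (η : ι → Ω')
    (hη : AlgebraicIndependent Ω η) (α : K) :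
    ∃ F : IntermediateField K Ω', (∀ x ∈ K₁, algebraMap Ω Ω' x ∈ F) ∧ (∀ i, η i ∈ F) ∧
      ∀ c : K, IsNm (algebraMap K F α) (algebraMap K F c) →
        IsNm (algebraMap K K₁ α) (algebraMap K K₁ c) := by
  have hη' : AlgebraicIndependent K₁ η := hη.restrictScalars (FaithfulSMul.algebraMap_injective K₁ Ω)
  let E := IntermediateField.adjoin K₁ (Set.range η)
  have : Infinite K₁ := Infinite.of_injective _ (FaithfulSMul.algebraMap_injective K K₁)
  refine ⟨E.restrictScalars K, ?_, ?_, ?_⟩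
  · intro x hx
    rw [IntermediateField.mem_restrictScalars]
    exact E.algebraMap_mem (⟨x, hx⟩ : K₁)
  · intro i
    rw [IntermediateField.mem_restrictScalars]
    exact IntermediateField.subset_adjoin _ _ ⟨i, rfl⟩
  · intro c hc
    have hc' : IsNm (algebraMap K E α) (algebraMap K E c) := hc
    have e := hη'.aevalEquivField
    have h1 := hc'.map (e.symm : E →+* FractionRing (MvPolynomial ι K₁))
    rw [IsScalarTower.algebraMap_apply K K₁ E, IsScalarTower.algebraMap_apply K K₁ E c] at h1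
    simp only [RingHom.coe_coe, AlgEquiv.commutes] at h1
    exact isNm_of_fractionRing_mvPolynomial K₁ ι _ _ h1

end Gen

section Indep

/-- A linear change of variables preserves algebraic independence. -/
theorem algInd_of_matrix {Ω Ω' ι : Type} [Field Ω] [Field Ω'] [Algebra Ω Ω'] [Fintype ι]
    [DecidableEq ι] (G H : Matrix ι ι Ω) (hGH : G * H = 1) (η : ι → Ω')
    (hη : AlgebraicIndependent Ω η) :
    AlgebraicIndependent Ω (fun i => ∑ j, algebraMap Ω Ω' (G i j) * η j) := by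
  let φ : Matrix ι ι Ω → (MvPolynomial ι Ω →ₐ[Ω] MvPolynomial ι Ω) := fun G =>
    MvPolynomial.aeval (fun i => ∑ j, MvPolynomial.C (G i j) * MvPolynomial.X j)
  have h1 : (φ H).comp (φ G) = AlgHom.id Ω _ := by
    apply MvPolynomial.algHom_ext
    intro i
    simp only [φ, AlgHom.comp_apply, MvPolynomial.aeval_X, map_sum, map_mul,
      MvPolynomial.algHom_C, MvPolynomial.algebraMap_eq, Finset.mul_sum, AlgHom.id_apply]
    rw [Finset.sum_comm]
    have h2 : ∀ k, ∑ j, MvPolynomial.C (G i j) * (MvPolynomial.C (H j k) *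
        (MvPolynomial.X k : MvPolynomial ι Ω)) = MvPolynomial.C ((G * H) i k) * MvPolynomial.X k := by
      intro k
      rw [Matrix.mul_apply, map_sum, Finset.sum_mul]
      apply Finset.sum_congr rfl
      intro j _
      rw [map_mul, mul_assoc]
    simp only [h2, hGH, Matrix.one_apply]
    simp
  have hinj : Function.Injective (φ G) := by
    apply Function.LeftInverse.injective (g := φ H)
    intro p
    have := congrArg (fun f : MvPolynomial ι Ω →ₐ[Ω] MvPolynomial ι Ω => f p) h1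
    exact this
  have h3 : MvPolynomial.aeval (fun i => ∑ j, algebraMap Ω Ω' (G i j) * η j) =
      (MvPolynomial.aeval η).comp (φ G) := by
    apply MvPolynomial.algHom_ext
    intro i
    simp only [φ, AlgHom.comp_apply, MvPolynomial.aeval_X, map_sum, map_mul,
      MvPolynomial.algHom_C]
  rw [AlgebraicIndependent, h3]
  exact Function.Injective.comp (g := MvPolynomial.aeval η) hη hinj

variable {K L Ω Ω' : Type} [Field K] [Field L] [Algebra K L] [Field Ω] [Field Ω'] [Algebra K Ω]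
  [Algebra Ω Ω'] [Algebra K Ω'] [IsScalarTower K Ω Ω']

/-- Extension of scalars. -/
def rho (K L Ω Ω' : Type) [Field K] [Field L] [Algebra K L] [Field Ω] [Field Ω'] [Algebra K Ω]
    [Algebra Ω Ω'] [Algebra K Ω'] [IsScalarTower K Ω Ω'] : Ω ⊗[K] L →ₐ[K] Ω' ⊗[K] L :=
  Algebra.TensorProduct.map (IsScalarTower.toAlgHom K Ω Ω') (AlgHom.id K L)

theorem rho_smul (c : Ω) (x : Ω ⊗[K] L) :
    rho K L Ω Ω' (c • x) = algebraMap Ω Ω' c • rho K L Ω Ω' x := by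
  induction x using TensorProduct.induction_on with
  | zero => rw [smul_zero, map_zero, smul_zero]
  | add a b ha hb => rw [smul_add, map_add, ha, hb, map_add, smul_add]
  | tmul a b =>
    rw [TensorProduct.smul_tmul', smul_eq_mul]
    change algebraMap Ω Ω' (c * a) ⊗ₜ[K] b = algebraMap Ω Ω' c • (algebraMap Ω Ω' a ⊗ₜ[K] b)
    rw [TensorProduct.smul_tmul', smul_eq_mul, map_mul]

theorem smul_mem_ratSub {F : IntermediateField K Ω'} {c : Ω'} (hc : c ∈ F) {x : Ω' ⊗[K] L}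
    (hx : x ∈ RatSub L F) : c • x ∈ RatSub L F := by
  have h1 : c ⊗ₜ[K] (1 : L) ∈ RatSub L F := ⟨(⟨c, hc⟩ : F) ⊗ₜ[K] 1, rfl⟩
  have h2 : c • x = (c ⊗ₜ[K] (1 : L)) * x := by
    have h3 : c ⊗ₜ[K] (1 : L) = algebraMap Ω' (Ω' ⊗[K] L) c := rfl
    rw [h3, Algebra.smul_def]
  rw [h2]
  exact Subalgebra.mul_mem _ h1 hx

theorem tmul_mem_ratSub {F : IntermediateField K Ω'} {c : Ω'} (hc : c ∈ F) (l : L) :
    c ⊗ₜ[K] l ∈ RatSub L F := ⟨(⟨c, hc⟩ : F) ⊗ₜ[K] l, rfl⟩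

/-- The generic triple. -/
noncomputable def gen {κ : Type} [Fintype κ] (b : Module.Basis κ K L) (η : (_ : Fin 3) × κ → Ω')
    (j : Fin 3) : Ω' ⊗[K] L := ∑ k, η ⟨j, k⟩ ⊗ₜ[K] b k

theorem gen_mem {κ : Type} [Fintype κ] (b : Module.Basis κ K L) (η : (_ : Fin 3) × κ → Ω')
    {F : IntermediateField K Ω'} (hF : ∀ i, η i ∈ F) (j : Fin 3) : gen b η j ∈ RatSub L F :=
  Subalgebra.sum_mem _ fun _ _ => tmul_mem_ratSub (hF _) _

/-- A linear change of the generic triple. -/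
theorem exists_change {κ : Type} [Fintype κ] (b : Module.Basis κ K L) (η : (_ : Fin 3) × κ → Ω')
    (hη : AlgebraicIndependent Ω η)
    (T : (Fin 3 → Ω ⊗[K] L) ≃ₗ[Ω] (Fin 3 → Ω ⊗[K] L))
    (T' : (Fin 3 → Ω' ⊗[K] L) →ₗ[Ω'] (Fin 3 → Ω' ⊗[K] L))
    (hT : ∀ x, T' (fun j => rho K L Ω Ω' (x j)) = fun j => rho K L Ω Ω' (T x j)) :
    ∃ η' : (_ : Fin 3) × κ → Ω', AlgebraicIndependent Ω η' ∧ ∀ F : IntermediateField K Ω',
      (∀ i, η' i ∈ F) → ∀ j, T' (gen b η) j ∈ RatSub L F := by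
  classical
  let B : Module.Basis ((_ : Fin 3) × κ) Ω (Fin 3 → Ω ⊗[K] L) :=
    Pi.basis (fun _ : Fin 3 => Algebra.TensorProduct.basis Ω b)
  let G := LinearMap.toMatrix B B T.toLinearMap
  let H := LinearMap.toMatrix B B T.symm.toLinearMap
  have hGH : G * H = 1 := by
    rw [← LinearMap.toMatrix_comp B B B]
    have : T.toLinearMap ∘ₗ T.symm.toLinearMap = LinearMap.id := by
      ext x
      simp
    rw [this, LinearMap.toMatrix_id]
  refine ⟨_, algInd_of_matrix G H hGH η hη, ?_⟩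
  intro F hF j
  set η' : (_ : Fin 3) × κ → Ω' := fun i => ∑ j, algebraMap Ω Ω' (G i j) * η j with hη'
  let R : (Fin 3 → Ω ⊗[K] L) → (Fin 3 → Ω' ⊗[K] L) := fun x j => rho K L Ω Ω' (x j)
  have hRadd : ∀ (s : Finset ((_ : Fin 3) × κ)) (f : (_ : Fin 3) × κ → (Fin 3 → Ω ⊗[K] L)),
      R (∑ i ∈ s, f i) = ∑ i ∈ s, R (f i) := by
    intro s f
    funext j
    simp only [R, Finset.sum_apply, map_sum]
  have hRsmul : ∀ (c : Ω) (x : Fin 3 → Ω ⊗[K] L), R (c • x) = algebraMap Ω Ω' c • R x := by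
    intro c x
    funext j
    simp only [R, Pi.smul_apply, rho_smul]
  have hgen : gen b η = ∑ p, η p • R (B p) := by
    funext j
    rw [Finset.sum_apply, Fintype.sum_sigma]
    have hBp : ∀ (i : Fin 3) (k : κ), R (B ⟨i, k⟩) j =
        if j = i then (1 : Ω') ⊗ₜ[K] b k else 0 := by
      intro i k
      simp only [R, B, Pi.basis_apply]
      split_ifs with hji
      · subst hji
        rw [Pi.single_eq_same, Algebra.TensorProduct.basis_apply]
        change algebraMap Ω Ω' 1 ⊗ₜ[K] b k = _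
        rw [map_one]
      · rw [Pi.single_eq_of_ne hji, map_zero]
    simp only [Pi.smul_apply, hBp, smul_ite, smul_zero]
    rw [Finset.sum_eq_single j]
    · simp only [if_true, TensorProduct.smul_tmul', smul_eq_mul, mul_one]
      rfl
    · intro i _ hij
      simp [Ne.symm hij]
    · simp
  have hTB : ∀ p, T' (R (B p)) = ∑ i, algebraMap Ω Ω' (G i p) • R (B i) := by
    intro p
    have h1 : T' (R (B p)) = R (T (B p)) := hT (B p)
    rw [h1]
    conv_lhs => rw [← B.sum_repr (T (B p))]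
    rw [hRadd]
    apply Finset.sum_congr rfl
    intro i _
    rw [hRsmul]
    simp only [G, LinearMap.toMatrix_apply, LinearEquiv.coe_coe]
  have hfin : T' (gen b η) = ∑ i, η' i • R (B i) := by
    rw [hgen, map_sum]
    simp only [map_smul, hTB, Finset.smul_sum]
    rw [Finset.sum_comm]
    apply Finset.sum_congr rfl
    intro i _
    rw [hη', Finset.sum_smul]
    apply Finset.sum_congr rfl
    intro p _
    rw [smul_smul, mul_comm]
  rw [hfin, Finset.sum_apply]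
  apply Subalgebra.sum_mem
  intro i _
  apply smul_mem_ratSub (hF i)
  change rho K L Ω Ω' (B i j) ∈ _
  simp only [B]
  obtain ⟨i, k⟩ := i
  rw [Pi.basis_apply]
  by_cases hji : j = i
  · subst hji
    rw [Pi.single_eq_same, Algebra.TensorProduct.basis_apply]
    change algebraMap Ω Ω' 1 ⊗ₜ[K] b k ∈ _
    rw [map_one]
    exact tmul_mem_ratSub F.one_mem _
  · rw [Pi.single_eq_of_ne hji, map_zero]
    exact Subalgebra.zero_mem _

end Indep

section Final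

variable {K L Ω Ω' : Type} [Field K] [Field L] [Algebra K L] [Field Ω] [Field Ω'] [Algebra K Ω]
  [Algebra Ω Ω'] [Algebra K Ω'] [IsScalarTower K Ω Ω']

theorem algHom_nf {F A B : Type*} [CommRing F] [CommRing A] [CommRing B] [Algebra F A]
    [Algebra F B] (f : A →ₐ[F] B) (α x y z : A) :
    f (nf α x y z) = nf (f α) (f x) (f y) (f z) := by
  unfold nf
  simp only [map_sub, map_add, map_mul, map_pow, map_ofNat]

theorem nf_gen_ne_zero [IsAlgClosed Ω] [FiniteDimensional K L] {κ : Type} [Fintype κ]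
    (b : Module.Basis κ K L) (η : (_ : Fin 3) × κ → Ω') (hη : AlgebraicIndependent Ω η) (α : K)
    (σ : L →ₐ[K] Ω') :
    nf (algebraMap K Ω' α) (∑ k, η ⟨0, k⟩ * σ (b k)) (∑ k, η ⟨1, k⟩ * σ (b k))
      (∑ k, η ⟨2, k⟩ * σ (b k)) ≠ 0 := by
  classical
  -- the values of `σ` are in `Ω`
  have hσ : ∀ l : L, ∃ x : Ω, algebraMap Ω Ω' x = σ l := by
    intro l
    have h1 : IsAlgebraic K l := Algebra.IsAlgebraic.isAlgebraic l
    have h2 : IsIntegral Ω (σ l) := by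
      have h3 : IsIntegral K (σ l) := (isAlgebraic_iff_isIntegral.mp h1).map σ
      exact h3.tower_top
    have h4 : (minpoly Ω (σ l)).degree = 1 :=
      IsAlgClosed.degree_eq_one_of_irreducible Ω (minpoly.irreducible h2)
    exact minpoly.mem_range_of_degree_eq_one Ω (σ l) h4
  choose f hf using hσ
  let P : MvPolynomial ((_ : Fin 3) × κ) Ω :=
    nf (MvPolynomial.C (algebraMap K Ω α)) (∑ k, MvPolynomial.X ⟨0, k⟩ * MvPolynomial.C (f (b k)))
      (∑ k, MvPolynomial.X ⟨1, k⟩ * MvPolynomial.C (f (b k)))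
      (∑ k, MvPolynomial.X ⟨2, k⟩ * MvPolynomial.C (f (b k)))
  have hP : MvPolynomial.aeval η P = nf (algebraMap K Ω' α) (∑ k, η ⟨0, k⟩ * σ (b k))
      (∑ k, η ⟨1, k⟩ * σ (b k)) (∑ k, η ⟨2, k⟩ * σ (b k)) := by
    simp only [P]
    rw [algHom_nf]
    simp only [map_sum, map_mul, MvPolynomial.aeval_X, MvPolynomial.algHom_C,
      hf, ← IsScalarTower.algebraMap_apply]
  rw [← hP]
  intro h0
  have hP0 : P = 0 := hη (by rw [h0, map_zero])
  let e : (_ : Fin 3) × κ → Ω := fun i => if i.1 = 0 then algebraMap K Ω (b.repr 1 i.2) else 0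
  have h1 := congrArg (MvPolynomial.eval e) hP0
  simp only [P] at h1
  rw [map_nf, map_zero] at h1
  simp only [map_sum, map_mul, MvPolynomial.eval_X, MvPolynomial.eval_C, e, if_true,
    Fin.reduceEq, if_false, zero_mul, Finset.sum_const_zero, one_ne_zero] at h1
  rw [nf_zero_zero] at h1
  have h2 : ∑ k, algebraMap K Ω (b.repr 1 k) * f (b k) = 1 := by
    apply (algebraMap Ω Ω').injective
    rw [map_sum, (algebraMap Ω Ω').map_one]
    simp only [map_mul, hf, ← IsScalarTower.algebraMap_apply]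
    have h3 := congrArg σ (b.sum_repr 1)
    rw [map_sum, map_one σ] at h3
    rw [← h3]
    apply Finset.sum_congr rfl
    intro k _
    rw [map_smul, Algebra.smul_def]
  rw [h2] at h1
  simp at h1

theorem isUnit_nf_gen [IsAlgClosed Ω] [IsAlgClosed Ω'] [FiniteDimensional K L] {κ : Type}
    [Fintype κ] (b : Module.Basis κ K L) (η : (_ : Fin 3) × κ → Ω')
    (hη : AlgebraicIndependent Ω η) (α : K) :
    IsUnit (nf (algebraMap K (Ω' ⊗[K] L) α) (gen b η 0) (gen b η 1) (gen b η 2)) := by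
  apply isUnit_of_forall
  intro σ
  rw [algHom_nf]
  have h := nf_gen_ne_zero b η hη α σ
  have e1 : ∀ j, Algebra.TensorProduct.lift (AlgHom.id Ω' Ω') σ (fun _ _ => Commute.all _ _)
      (gen b η j) = ∑ k, η ⟨j, k⟩ * σ (b k) := by
    intro j
    unfold gen
    rw [map_sum]
    rfl
  have e2 : Algebra.TensorProduct.lift (AlgHom.id Ω' Ω') σ (fun _ _ => Commute.all _ _)
      (algebraMap K (Ω' ⊗[K] L) α) = algebraMap K Ω' α := by
    have := (AlgHom.restrictScalars K (Algebra.TensorProduct.lift (AlgHom.id Ω' Ω') σ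
      (fun _ _ => Commute.all _ _))).commutes α
    exact this
  rw [e1, e1, e1, e2]
  exact h

/-- The linear map `h ↦ h'` with conjugates `s i * h i`. -/
def trans {R : Type*} [CommRing R] (ω μ μi th : R) (s x : Fin 3 → R) : Fin 3 → R :=
  ift ω μi th (fun i => s i * cj ω μ x i)

theorem cj_trans {R : Type*} [CommRing R] {ω μ μi th : R} (hω : ω ^ 2 + ω + 1 = 0)
    (hμ : μ * μi = 1) (hth : th * 3 = 1) (s x : Fin 3 → R) (i : Fin 3) :
    cj ω μ (trans ω μ μi th s x) i = s i * cj ω μ x i :=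
  cj_ift hω hμ hth _ i

theorem trans_trans {R : Type*} [CommRing R] {ω μ μi th : R} (hω : ω ^ 2 + ω + 1 = 0)
    (hμ : μ * μi = 1) (hth : th * 3 = 1) {s t : Fin 3 → R} (hst : ∀ i, t i * s i = 1)
    (x : Fin 3 → R) :
    trans ω μ μi th t (trans ω μ μi th s x) = x := by
  apply cj_inj hω hμ hth
  intro i
  rw [cj_trans hω hμ hth, cj_trans hω hμ hth, ← mul_assoc, hst, one_mul]

theorem map_trans {R S : Type*} [CommRing R] [CommRing S] (f : R →+* S) (ω μ μi th : R)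
    (s x : Fin 3 → R) (j : Fin 3) :
    f (trans ω μ μi th s x j) =
      trans (f ω) (f μ) (f μi) (f th) (fun i => f (s i)) (fun i => f (x i)) j := by
  unfold trans
  rw [map_ift]
  simp only [map_mul, map_cj]

/-- The linear map. -/
def transL {F R : Type*} [Field F] [CommRing R] [Algebra F R] (ω μ μi th : R) (s : Fin 3 → R) :
    (Fin 3 → R) →ₗ[F] (Fin 3 → R) where
  toFun x := trans ω μ μi th s x
  map_add' x y := by
    funext j
    unfold trans ift cj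
    fin_cases j <;>
    simp only [Fin.zero_eta, Fin.mk_one, Fin.reduceFinMk, Matrix.cons_val, Matrix.cons_val_zero,
      Matrix.cons_val_one, Pi.add_apply] <;> ring
  map_smul' c x := by
    funext j
    unfold trans ift cj
    fin_cases j <;>
    simp only [Fin.zero_eta, Fin.mk_one, Fin.reduceFinMk, Matrix.cons_val, Matrix.cons_val_zero,
      Matrix.cons_val_one, Pi.smul_apply, Algebra.smul_def, RingHom.id_apply] <;> ring

/-- The linear equivalence. -/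
def transE {F R : Type*} [Field F] [CommRing R] [Algebra F R] {ω μ μi th : R}
    (hω : ω ^ 2 + ω + 1 = 0) (hμ : μ * μi = 1) (hth : th * 3 = 1) {s t : Fin 3 → R}
    (hst : ∀ i, t i * s i = 1) : (Fin 3 → R) ≃ₗ[F] (Fin 3 → R) :=
  LinearEquiv.ofLinearMap (transL ω μ μi th s) (transL ω μ μi th t)
    (LinearMap.ext fun x => trans_trans hω hμ hth (fun i => by rw [mul_comm]; exact hst i) x)
    (LinearMap.ext fun x => trans_trans hω hμ hth hst x)

/-- The conclusion by existential closedness. -/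
theorem conclude (K' : Type) [Field K'] [Algebra K K'] (hec : EC K K')
    [FiniteDimensional K L] (α b : K) (f : Fin 3 → K' ⊗[K] L)
    (hf : nf (algebraMap K _ α) (f 0) (f 1) (f 2) = algebraMap K _ b) :
    IsNm (algebraMap K L α) (algebraMap K L b) := by
  classical
  let bL := Module.finBasis K L
  let B := Algebra.TensorProduct.basis K' bL
  let c : Fin 3 × Fin (Module.finrank K L) → K' := fun p => B.repr (f p.1) p.2
  let S := Algebra.adjoin K (Set.range c)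
  have hS : S.FG := by
    refine ⟨Finset.univ.image c, ?_⟩
    rw [Finset.coe_image, Finset.coe_univ, Set.image_univ]
  obtain ⟨φ⟩ := hec S hS
  have hcS : ∀ p, c p ∈ S := fun p => Algebra.subset_adjoin ⟨p, rfl⟩
  let f' : Fin 3 → S ⊗[K] L := fun j => ∑ k, (⟨c (j, k), hcS _⟩ : S) ⊗ₜ[K] bL k
  let m : S ⊗[K] L →ₐ[K] K' ⊗[K] L := Algebra.TensorProduct.map S.val (AlgHom.id K L)
  have hm : Function.Injective m := by
    have h := Module.Flat.rTensor_preserves_injective_linearMap (M := L) S.val.toLinearMap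
      Subtype.val_injective
    exact h
  have hmf : ∀ j, m (f' j) = f j := by
    intro j
    conv_rhs => rw [← B.sum_repr (f j)]
    simp only [f', map_sum]
    apply Finset.sum_congr rfl
    intro k _
    simp only [B, Algebra.TensorProduct.basis_apply, TensorProduct.smul_tmul', smul_eq_mul, mul_one]
    rfl
  have hf' : nf (algebraMap K _ α) (f' 0) (f' 1) (f' 2) = algebraMap K _ b := by
    apply hm
    rw [algHom_nf, hmf, hmf, hmf, m.commutes, m.commutes, hf]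
  let q : S ⊗[K] L →ₐ[K] L := Algebra.TensorProduct.lift ((Algebra.ofId K L).comp φ)
    (AlgHom.id K L) (fun _ _ => Commute.all _ _)
  have h2 := algHom_nf q (algebraMap K _ α) (f' 0) (f' 1) (f' 2)
  rw [hf', q.commutes, q.commutes] at h2
  exact ⟨_, _, _, h2.symm⟩

end Final

section Assembly

theorem mul3_mem {R : Type*} [CommRing R] {K : Type*} [CommRing K] [Algebra K R]
    (S : Subalgebra K R) {α : R} (hα : α ∈ S) {x y : Fin 3 → R} (hx : ∀ j, x j ∈ S)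
    (hy : ∀ j, y j ∈ S) (j : Fin 3) : mul3 α x y j ∈ S := by
  unfold mul3
  fin_cases j
  · exact S.add_mem (S.mul_mem (hx 0) (hy 0))
      (S.mul_mem hα (S.add_mem (S.mul_mem (hx 1) (hy 2)) (S.mul_mem (hx 2) (hy 1))))
  · exact S.add_mem (S.add_mem (S.mul_mem (hx 0) (hy 1)) (S.mul_mem (hx 1) (hy 0)))
      (S.mul_mem hα (S.mul_mem (hx 2) (hy 2)))
  · exact S.add_mem (S.add_mem (S.mul_mem (hx 0) (hy 2)) (S.mul_mem (hx 1) (hy 1)))
      (S.mul_mem (hx 2) (hy 0))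

theorem sg_mem {R : Type*} [CommRing R] {K : Type*} [CommRing K] [Algebra K R]
    (S : Subalgebra K R) {ω : R} (hω : ω ∈ S) {x : Fin 3 → R} (hx : ∀ j, x j ∈ S)
    (j : Fin 3) : sg ω x j ∈ S := by
  unfold sg
  fin_cases j
  · exact hx 0
  · exact S.mul_mem hω (hx 1)
  · exact S.mul_mem (S.pow_mem hω 2) (hx 2)

/-- The solution of the norm equation. -/
def sol {R : Type*} [CommRing R] (α ω m : R) (ξ θ h : Fin 3 → R) : Fin 3 → R :=
  fun j => m * mul3 α (mul3 α (mul3 α ξ θ) (mul3 α (sg ω h) (sg ω h))) (sg ω (sg ω h)) j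

theorem cj_sol {R : Type*} [CommRing R] {μ ω : R} (hω : ω ^ 2 + ω + 1 = 0) (m : R)
    (ξ θ h : Fin 3 → R) (i : ℕ) :
    cj ω μ (sol (μ ^ 3) ω m ξ θ h) i =
      m * (cj ω μ ξ i * cj ω μ θ i * (cj ω μ h (i + 1) * cj ω μ h (i + 1)) *
        cj ω μ h (i + 2)) := by
  unfold sol
  rw [cj_smul, cj_mul3 hω, cj_mul3 hω, cj_mul3 hω, cj_mul3 hω, cj_sg, cj_sg, cj_sg]

theorem sol_mem {R : Type*} [CommRing R] {K : Type*} [CommRing K] [Algebra K R]
    (S : Subalgebra K R) {α ω m : R} (hα : α ∈ S) (hω : ω ∈ S) (hm : m ∈ S)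
    {ξ θ h : Fin 3 → R} (hξ : ∀ j, ξ j ∈ S) (hθ : ∀ j, θ j ∈ S) (hh : ∀ j, h j ∈ S) (j : Fin 3) :
    sol α ω m ξ θ h j ∈ S := by
  unfold sol
  apply S.mul_mem hm
  have h1 := sg_mem S hω hh
  exact mul3_mem S hα (mul3_mem S hα (mul3_mem S hα hξ hθ) (mul3_mem S hα h1 h1))
    (sg_mem S hω h1) j

/-- The ring-theoretic core: two expressions of the same triple. -/
theorem core {R : Type*} [CommRing R] {ω μ μi th α a b : R} (hω : ω ^ 2 + ω + 1 = 0)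
    (hμ3 : μ ^ 3 = α) (hμ : μ * μi = 1) (hth : th * 3 = 1)
    (ξ₁ ξ₂ θ h h' s : Fin 3 → R) (m m' : R)
    (h0 : cj ω μ ξ₁ 0 = cj ω μ ξ₂ 0) (h1 : cj ω μ ξ₁ 1 = cj ω μ ξ₂ 1)
    (h2 : cj ω μ ξ₁ 2 = a * cj ω μ ξ₂ 2)
    (hn₁ : nf α (ξ₁ 0) (ξ₁ 1) (ξ₁ 2) * a = b)
    (hθ : nf α (θ 0) (θ 1) (θ 2) = a)
    (hs : ∀ i : Fin 3, cj ω μ h' i = s i * cj ω μ h i)
    (hs0 : s 0 = 1) (hs1 : s 1 * cj ω μ θ 0 = 1) (hs2 : s 2 * cj ω μ θ 1 = s 1)
    (hm : nf α (h 0) (h 1) (h 2) * m = 1) (hm' : nf α (h' 0) (h' 1) (h' 2) * m' = 1) :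
    sol α ω m ξ₁ θ h = sol α ω m' ξ₂ (mul3 α θ θ) h' ∧
      nf α (sol α ω m ξ₁ θ h 0) (sol α ω m ξ₁ θ h 1) (sol α ω m ξ₁ θ h 2) = b := by
  subst hμ3
  have c3 : ∀ x : Fin 3 → R, cj ω μ x 3 = cj ω μ x 0 := fun x => cj_add_three ω μ x 0 hω
  have c4 : ∀ x : Fin 3 → R, cj ω μ x 4 = cj ω μ x 1 := fun x => cj_add_three ω μ x 1 hω
  have e0 : cj ω μ h' 0 = s 0 * cj ω μ h 0 := hs 0
  have e1 : cj ω μ h' 1 = s 1 * cj ω μ h 1 := hs 1
  have e2 : cj ω μ h' 2 = s 2 * cj ω μ h 2 := hs 2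
  rw [nf_eq_prod_cj ω μ _ hω] at hn₁ hθ hm hm'
  rw [e0, e1, e2] at hm'
  have hmm : m' * (s 0 * s 1 * s 2) = m := by
    linear_combination m * hm' - m' * s 0 * s 1 * s 2 * hm
  have hs2' : s 2 * a = s 0 * cj ω μ θ 2 := by
    rw [hs0, one_mul, ← hθ]
    linear_combination cj ω μ θ 0 * cj ω μ θ 2 * hs2 + cj ω μ θ 2 * hs1
  constructor
  · apply cj_inj hω hμ hth
    intro i
    fin_cases i
    · rw [cj_sol hω, cj_sol hω, cj_mul3 hω]
      simp only [zero_add]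
      rw [e1, e2, h0, ← hmm, hs0]
      linear_combination (-m' * s 1 * s 2 * cj ω μ ξ₂ 0 * cj ω μ θ 0 * cj ω μ h 1 ^ 2 *
        cj ω μ h 2) * hs1
    · simp only [Fin.mk_one]
      rw [cj_sol hω, cj_sol hω, cj_mul3 hω]
      simp only [Nat.reduceAdd]
      rw [c3, c3, e2, e0, h1, ← hmm, hs0]
      linear_combination (-m' * s 2 * cj ω μ ξ₂ 1 * cj ω μ θ 1 * cj ω μ h 2 ^ 2 *
        cj ω μ h 0) * hs2
    · simp only [Fin.reduceFinMk]
      rw [cj_sol hω, cj_sol hω, cj_mul3 hω]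
      simp only [Nat.reduceAdd]
      rw [c3, c4, c3, c4, e0, e1, h2, ← hmm, hs0]
      rw [hs0] at hs2'
      linear_combination (m' * s 1 * cj ω μ ξ₂ 2 * cj ω μ θ 2 * cj ω μ h 0 ^ 2 *
        cj ω μ h 1) * hs2'
  · rw [nf_eq_prod_cj ω μ _ hω, cj_sol hω, cj_sol hω, cj_sol hω]
    simp only [zero_add, Nat.reduceAdd]
    rw [c3, c4, ← hn₁, ← hθ]
    generalize cj ω μ ξ₁ 0 = x0
    generalize cj ω μ ξ₁ 1 = x1
    generalize cj ω μ ξ₁ 2 = x2
    generalize cj ω μ θ 0 = t0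
    generalize cj ω μ θ 1 = t1
    generalize cj ω μ θ 2 = t2
    generalize cj ω μ h 0 = H0 at hm
    generalize cj ω μ h 1 = H1 at hm
    generalize cj ω μ h 2 = H2 at hm
    linear_combination x0 * x1 * x2 * t0 * t1 * t2 * ((H0 * H1 * H2 * m) ^ 2 + H0 * H1 * H2 * m + 1)
      * hm

theorem isNm_of_mem {K Ω : Type} [Field K] [Field Ω] [Algebra K Ω] (F : IntermediateField K Ω)
    {ξ : Fin 3 → Ω} (hξ : ∀ j, ξ j ∈ F) {α c : K}
    (h : nf (algebraMap K Ω α) (ξ 0) (ξ 1) (ξ 2) = algebraMap K Ω c) :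
    IsNm (algebraMap K F α) (algebraMap K F c) := by
  refine ⟨⟨ξ 0, hξ 0⟩, ⟨ξ 1, hξ 1⟩, ⟨ξ 2, hξ 2⟩, ?_⟩
  apply F.val.injective
  exact (algHom_nf F.val _ _ _ _).trans h

theorem nf_mem {R : Type*} [CommRing R] {K : Type*} [CommRing K] [Algebra K R]
    (S : Subalgebra K R) {α x y z : R} (hα : α ∈ S) (hx : x ∈ S) (hy : y ∈ S) (hz : z ∈ S) :
    nf α x y z ∈ S := by
  unfold nf
  have h3 : (3 : R) ∈ S := ofNat_mem S 3
  exact S.sub_mem (S.add_mem (S.add_mem (S.pow_mem hx 3) (S.mul_mem hα (S.pow_mem hy 3)))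
    (S.mul_mem (S.pow_mem hα 2) (S.pow_mem hz 3)))
    (S.mul_mem (S.mul_mem (S.mul_mem (S.mul_mem h3 hα) hx) hy) hz)

/-- Independence over the intersection of two fields. -/
theorem indep_inf {K Ω : Type} [Field K] [Field Ω] [Algebra K Ω] {α a b : K} (hα : α ≠ 0)
    (ha : a ≠ 0) (hb : b ≠ 0) (F₁ F₂ : IntermediateField K Ω)
    (h1 : IsNm (algebraMap K F₁ α) (algebraMap K F₁ (b / a)))
    (h1a : ¬ IsNm (algebraMap K F₁ α) (algebraMap K F₁ a))
    (h2 : IsNm (algebraMap K F₂ α) (algebraMap K F₂ (b / a ^ 2)))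
    (h2a : ¬ IsNm (algebraMap K F₂ α) (algebraMap K F₂ a)) :
    Indep (algebraMap K ↥(F₁ ⊓ F₂) α) (algebraMap K ↥(F₁ ⊓ F₂) a)
      (algebraMap K ↥(F₁ ⊓ F₂) b) := by
  refine ⟨(map_ne_zero _).mpr hα, (map_ne_zero _).mpr ha, (map_ne_zero _).mpr hb, ?_⟩
  intro i j hij
  rw [← map_pow, ← map_pow, ← map_mul] at hij
  have e1 : IsNm (algebraMap K F₁ α) (algebraMap K F₁ (a ^ i * b ^ j)) :=
    hij.map (IntermediateField.inclusion (inf_le_left : F₁ ⊓ F₂ ≤ F₁)).toRingHom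
  have e2 : IsNm (algebraMap K F₂ α) (algebraMap K F₂ (a ^ i * b ^ j)) :=
    hij.map (IntermediateField.inclusion (inf_le_right : F₁ ⊓ F₂ ≤ F₂)).toRingHom
  have f1 := e1.div (h1.pow j)
  have f2 := e2.div (h2.pow j)
  rw [← map_pow, ← map_div₀] at f1 f2
  have g1 : a ^ i * b ^ j / (b / a) ^ j = a ^ (i + j) := by
    rw [div_pow, pow_add]
    field_simp
  have g2 : a ^ i * b ^ j / (b / a ^ 2) ^ j = a ^ (i + 2 * j) := by
    rw [div_pow, pow_add, pow_mul]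
    field_simp
  rw [g1, map_pow] at f1
  rw [g2, map_pow] at f2
  have k1 : 3 ∣ i + j := by
    by_contra hc
    exact h1a (IsNm.of_pow ((map_ne_zero _).mpr ha) hc f1)
  have k2 : 3 ∣ i + 2 * j := by
    by_contra hc
    exact h2a (IsNm.of_pow ((map_ne_zero _).mpr ha) hc f2)
  omega

theorem exists_generic (K : Type) [Field K] (ι : Type) :
    ∃ (Ω : Type) (_ : Field Ω) (_ : IsAlgClosed Ω) (_ : Algebra K Ω) (v : ι → Ω),
      AlgebraicIndependent K v := by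
  refine ⟨AlgebraicClosure (FractionRing (MvPolynomial ι K)), inferInstance, inferInstance,
    inferInstance, fun i => algebraMap (MvPolynomial ι K) _ (MvPolynomial.X i), ?_⟩
  have h1 : MvPolynomial.aeval (fun i => algebraMap (MvPolynomial ι K)
      (AlgebraicClosure (FractionRing (MvPolynomial ι K))) (MvPolynomial.X i)) =
      IsScalarTower.toAlgHom K (MvPolynomial ι K)
        (AlgebraicClosure (FractionRing (MvPolynomial ι K))) := by
    apply MvPolynomial.algHom_ext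
    intro i
    rw [MvPolynomial.aeval_X]
    rfl
  rw [AlgebraicIndependent, h1]
  have h2 := (algebraMap (FractionRing (MvPolynomial ι K))
    (AlgebraicClosure (FractionRing (MvPolynomial ι K)))).injective.comp
    (IsFractionRing.injective (MvPolynomial ι K) (FractionRing (MvPolynomial ι K)))
  exact h2

/-- The relations in `Ω ⊗ L`. -/
theorem rels {K L Ω : Type} [Field K] [CharZero K] [Field L] [Algebra K L] [Field Ω] [Algebra K Ω]
    {ω α : K} (hω : ω ^ 2 + ω + 1 = 0) {μ : Ω} (hμ0 : μ ≠ 0) (hμ : μ ^ 3 = algebraMap K Ω α) :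
    (algebraMap K (Ω ⊗[K] L) ω) ^ 2 + algebraMap K (Ω ⊗[K] L) ω + 1 = 0 ∧
    (algebraMap Ω (Ω ⊗[K] L) μ) ^ 3 = algebraMap K _ α ∧
    algebraMap Ω (Ω ⊗[K] L) μ * algebraMap Ω (Ω ⊗[K] L) μ⁻¹ = 1 ∧
    algebraMap K (Ω ⊗[K] L) 3⁻¹ * 3 = 1 := by
  refine ⟨?_, ?_, ?_, ?_⟩
  · rw [← map_pow, ← map_add, ← map_one (algebraMap K (Ω ⊗[K] L)), ← map_add, hω, map_zero]
  · rw [← map_pow, hμ, ← IsScalarTower.algebraMap_apply]
  · rw [← map_mul, mul_inv_cancel₀ hμ0, map_one]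
  · have : (3 : Ω ⊗[K] L) = algebraMap K _ 3 := (map_ofNat _ 3).symm
    rw [this, ← map_mul, inv_mul_cancel₀ three_ne_zero, map_one]

theorem nf_tmul {K L Ω : Type} [Field K] [Field L] [Algebra K L] [Field Ω] [Algebra K Ω]
    {α a : K} (θ : Fin 3 → L) (hθ : nf (algebraMap K L α) (θ 0) (θ 1) (θ 2) = algebraMap K L a) :
    nf (algebraMap K (Ω ⊗[K] L) α) ((1 : Ω) ⊗ₜ[K] θ 0) ((1 : Ω) ⊗ₜ[K] θ 1) ((1 : Ω) ⊗ₜ[K] θ 2) =
      algebraMap K _ a := by
  have h3 := algHom_nf (Algebra.TensorProduct.includeRight : L →ₐ[K] Ω ⊗[K] L)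
    (algebraMap K L α) (θ 0) (θ 1) (θ 2)
  rw [hθ, AlgHom.commutes, AlgHom.commutes] at h3
  exact h3.symm

theorem exists_data {K L Ω Ω' : Type} [Field K] [CharZero K] [Field L] [Algebra K L] [Field Ω]
    [Field Ω'] [Algebra K Ω] [Algebra Ω Ω'] [Algebra K Ω'] [IsScalarTower K Ω Ω']
    {κ : Type} [Fintype κ] (b : Module.Basis κ K L) (η : (_ : Fin 3) × κ → Ω')
    (hη : AlgebraicIndependent Ω η) {ω α a : K} (hω : ω ^ 2 + ω + 1 = 0) (ha0 : a ≠ 0)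
    {μ : Ω} (hμ0 : μ ≠ 0) (hμ : μ ^ 3 = algebraMap K Ω α) (θ : Fin 3 → L)
    (hθ : nf (algebraMap K L α) (θ 0) (θ 1) (θ 2) = algebraMap K L a) :
    ∃ (η' : (_ : Fin 3) × κ → Ω') (h' s : Fin 3 → Ω' ⊗[K] L), AlgebraicIndependent Ω η' ∧
      (∀ F : IntermediateField K Ω', (∀ i, η' i ∈ F) → ∀ j, h' j ∈ RatSub L F) ∧
      (∀ i : Fin 3, cj (algebraMap K (Ω' ⊗[K] L) ω)
          (algebraMap Ω' (Ω' ⊗[K] L) (algebraMap Ω Ω' μ)) h' i =
        s i * cj (algebraMap K (Ω' ⊗[K] L) ω)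
          (algebraMap Ω' (Ω' ⊗[K] L) (algebraMap Ω Ω' μ)) (gen b η) i) ∧
      s 0 = 1 ∧
      s 1 * cj (algebraMap K (Ω' ⊗[K] L) ω)
          (algebraMap Ω' (Ω' ⊗[K] L) (algebraMap Ω Ω' μ)) (fun j => (1 : Ω') ⊗ₜ[K] θ j) 0 = 1 ∧
      s 2 * cj (algebraMap K (Ω' ⊗[K] L) ω)
          (algebraMap Ω' (Ω' ⊗[K] L) (algebraMap Ω Ω' μ)) (fun j => (1 : Ω') ⊗ₜ[K] θ j) 1 = s 1 ∧
      ∀ i, IsUnit (s i) := by
  obtain ⟨hωA, hμ3, hμi, hth⟩ := rels (L := L) hω hμ0 hμ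
  obtain ⟨c, hcdef⟩ : ∃ c : ℕ → Ω ⊗[K] L, ∀ i, c i = cj (algebraMap K (Ω ⊗[K] L) ω)
    (algebraMap Ω (Ω ⊗[K] L) μ) (fun j => (1 : Ω) ⊗ₜ[K] θ j) i := ⟨_, fun _ => rfl⟩
  have hc : c 0 * c 1 * c 2 * algebraMap K (Ω ⊗[K] L) a⁻¹ = 1 := by
    have h1 := nf_eq_prod_cj (algebraMap K (Ω ⊗[K] L) ω)
      (algebraMap Ω (Ω ⊗[K] L) μ) (fun j => (1 : Ω) ⊗ₜ[K] θ j) hωA
    rw [hμ3, nf_tmul θ hθ] at h1
    rw [hcdef, hcdef, hcdef, ← h1, ← map_mul, mul_inv_cancel₀ ha0, map_one]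
  obtain ⟨ai, hai⟩ : ∃ ai, ai = algebraMap K (Ω ⊗[K] L) a⁻¹ := ⟨_, rfl⟩
  rw [← hai] at hc
  obtain ⟨s, t, hst, hs0, hs1, hs2⟩ : ∃ s t : Fin 3 → Ω ⊗[K] L, (∀ i, t i * s i = 1) ∧
      s 0 = 1 ∧ s 1 * c 0 = 1 ∧ s 2 * c 1 = s 1 := by
    refine ⟨![1, c 1 * c 2 * ai, c 2 * ai], ![1, c 0, c 0 * c 1], ?_, rfl, ?_, ?_⟩
    · intro i
      fin_cases i
      · exact one_mul _
      · change c 0 * (c 1 * c 2 * ai) = 1
        rw [← hc]
        ring
      · change c 0 * c 1 * (c 2 * ai) = 1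
        rw [← hc]
        ring
    · change c 1 * c 2 * ai * c 0 = 1
      rw [← hc]
      ring
    · change c 2 * ai * c 1 = c 1 * c 2 * ai
      ring
  obtain ⟨r, hr⟩ : ∃ r : Ω ⊗[K] L →ₐ[K] Ω' ⊗[K] L, r = rho K L Ω Ω' := ⟨_, rfl⟩
  have hr1 : ∀ x : Ω, r (algebraMap Ω _ x) = algebraMap Ω' _ (algebraMap Ω Ω' x) := by
    intro x
    rw [hr]
    change algebraMap Ω Ω' x ⊗ₜ[K] (1 : L) = algebraMap Ω' (Ω' ⊗[K] L) (algebraMap Ω Ω' x)
    rfl
  have hr2 : ∀ x : K, r (algebraMap K _ x) = algebraMap K _ x := fun x => r.commutes x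
  have hr3 : ∀ l : L, r ((1 : Ω) ⊗ₜ[K] l) = (1 : Ω') ⊗ₜ[K] l := by
    intro l
    rw [hr]
    change algebraMap Ω Ω' 1 ⊗ₜ[K] l = _
    rw [map_one]
  have hrc : ∀ i, r (c i) = cj (algebraMap K (Ω' ⊗[K] L) ω)
          (algebraMap Ω' (Ω' ⊗[K] L) (algebraMap Ω Ω' μ)) (fun j => (1 : Ω') ⊗ₜ[K] θ j) i := by
    intro i
    rw [hcdef]
    have := map_cj (r : Ω ⊗[K] L →+* Ω' ⊗[K] L) (algebraMap K (Ω ⊗[K] L) ω)
      (algebraMap Ω (Ω ⊗[K] L) μ) (fun j => (1 : Ω) ⊗ₜ[K] θ j) i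
    simp only [RingHom.coe_coe, hr1, hr2, hr3] at this
    exact this
  have hmt : ∀ (x : Fin 3 → Ω ⊗[K] L) (j : Fin 3),
      r (trans (algebraMap K (Ω ⊗[K] L) ω) (algebraMap Ω (Ω ⊗[K] L) μ)
        (algebraMap Ω (Ω ⊗[K] L) μ⁻¹) (algebraMap K (Ω ⊗[K] L) 3⁻¹) s x j) =
      trans (algebraMap K (Ω' ⊗[K] L) ω) (algebraMap Ω' (Ω' ⊗[K] L) (algebraMap Ω Ω' μ))
        (algebraMap Ω' (Ω' ⊗[K] L) (algebraMap Ω Ω' μ⁻¹)) (algebraMap K (Ω' ⊗[K] L) 3⁻¹)
        (fun i => r (s i)) (fun i => r (x i)) j := by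
    intro x j
    have := map_trans (r : Ω ⊗[K] L →+* Ω' ⊗[K] L) (algebraMap K (Ω ⊗[K] L) ω)
      (algebraMap Ω (Ω ⊗[K] L) μ) (algebraMap Ω (Ω ⊗[K] L) μ⁻¹) (algebraMap K (Ω ⊗[K] L) 3⁻¹) s x j
    simp only [RingHom.coe_coe, hr1, hr2] at this
    exact this
  have hμ' : (algebraMap Ω Ω' μ) ^ 3 = algebraMap K Ω' α := by
    rw [← map_pow, hμ, ← IsScalarTower.algebraMap_apply]
  have hμ0' : algebraMap Ω Ω' μ ≠ 0 := (map_ne_zero _).mpr hμ0
  obtain ⟨hωA', hμ3', hμi', hth'⟩ := rels (L := L) hω hμ0' hμ'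
  rw [← map_inv₀] at hμi'
  obtain ⟨T, hT⟩ : ∃ T : (Fin 3 → Ω ⊗[K] L) ≃ₗ[Ω] (Fin 3 → Ω ⊗[K] L), ∀ x, T x =
      trans (algebraMap K (Ω ⊗[K] L) ω) (algebraMap Ω (Ω ⊗[K] L) μ)
        (algebraMap Ω (Ω ⊗[K] L) μ⁻¹) (algebraMap K (Ω ⊗[K] L) 3⁻¹) s x :=
    ⟨transE (F := Ω) hωA hμi hth hst, fun _ => rfl⟩
  obtain ⟨T', hT'⟩ : ∃ T' : (Fin 3 → Ω' ⊗[K] L) →ₗ[Ω'] (Fin 3 → Ω' ⊗[K] L), ∀ x, T' x =
      trans (algebraMap K (Ω' ⊗[K] L) ω) (algebraMap Ω' (Ω' ⊗[K] L) (algebraMap Ω Ω' μ))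
        (algebraMap Ω' (Ω' ⊗[K] L) (algebraMap Ω Ω' μ⁻¹)) (algebraMap K (Ω' ⊗[K] L) 3⁻¹)
        (fun i => r (s i)) x :=
    ⟨transL (F := Ω') (algebraMap K (Ω' ⊗[K] L) ω)
      (algebraMap Ω' (Ω' ⊗[K] L) (algebraMap Ω Ω' μ))
      (algebraMap Ω' (Ω' ⊗[K] L) (algebraMap Ω Ω' μ⁻¹)) (algebraMap K (Ω' ⊗[K] L) 3⁻¹)
      (fun i => r (s i)), fun _ => rfl⟩
  have hTT' : ∀ x, T' (fun j => rho K L Ω Ω' (x j)) = fun j => rho K L Ω Ω' (T x j) := by
    intro x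
    funext j
    rw [← hr, hT', hT, hmt]
  obtain ⟨η', hη', hη'F⟩ := exists_change b η hη T T' hTT'
  have hcjT : ∀ i : Fin 3, cj (algebraMap K (Ω' ⊗[K] L) ω)
          (algebraMap Ω' (Ω' ⊗[K] L) (algebraMap Ω Ω' μ)) (T' (gen b η)) i =
        r (s i) * cj (algebraMap K (Ω' ⊗[K] L) ω)
          (algebraMap Ω' (Ω' ⊗[K] L) (algebraMap Ω Ω' μ)) (gen b η) i := by
    intro i
    rw [hT']
    exact cj_trans hωA' hμi' hth' (fun i => r (s i)) (gen b η) i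
  refine ⟨η', T' (gen b η), fun i => r (s i), hη', hη'F, hcjT, ?_, ?_, ?_, ?_⟩
  · change r (s 0) = 1
    rw [hs0, map_one]
  · change r (s 1) * _ = 1
    rw [← hrc, ← map_mul, hs1, map_one]
  · change r (s 2) * _ = r (s 1)
    rw [← hrc, ← map_mul, hs2]
  · intro i
    exact IsUnit.of_mul_eq_one (r (t i)) (by rw [← map_mul, mul_comm, hst, map_one])

theorem exists_triple {K L Ω : Type} [Field K] [CharZero K] [Field L] [Algebra K L] [Field Ω]
    [Algebra K Ω] [FiniteDimensional K L]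
    {ω α a b : K} (hω : ω ^ 2 + ω + 1 = 0) (ha0 : a ≠ 0) (hb0 : b ≠ 0)
    {μ : Ω} (hμ0 : μ ≠ 0) (hμ : μ ^ 3 = algebraMap K Ω α) (θ : Fin 3 → L)
    (hθ : nf (algebraMap K L α) (θ 0) (θ 1) (θ 2) = algebraMap K L a)
    (F₁ F₂ : IntermediateField K Ω) (ξ₁ ξ₂ : Fin 3 → Ω) (hξ₁ : ∀ j, ξ₁ j ∈ F₁)
    (hξ₂ : ∀ j, ξ₂ j ∈ F₂)
    (h0 : cj (algebraMap K Ω ω) μ ξ₁ 0 = cj (algebraMap K Ω ω) μ ξ₂ 0)
    (h1 : cj (algebraMap K Ω ω) μ ξ₁ 1 = cj (algebraMap K Ω ω) μ ξ₂ 1)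
    (hn₁ : nf (algebraMap K Ω α) (ξ₁ 0) (ξ₁ 1) (ξ₁ 2) = algebraMap K Ω (b / a))
    (hn₂ : nf (algebraMap K Ω α) (ξ₂ 0) (ξ₂ 1) (ξ₂ 2) = algebraMap K Ω (b / a ^ 2))
    (h h' s : Fin 3 → Ω ⊗[K] L) (hh₁ : ∀ j, h j ∈ RatSub L F₁) (hh₂ : ∀ j, h' j ∈ RatSub L F₂)
    (hs : ∀ i : Fin 3, cj (algebraMap K (Ω ⊗[K] L) ω) (algebraMap Ω (Ω ⊗[K] L) μ) h' i =
        s i * cj (algebraMap K (Ω ⊗[K] L) ω) (algebraMap Ω (Ω ⊗[K] L) μ) h i)
    (hs0 : s 0 = 1)
    (hs1 : s 1 * cj (algebraMap K (Ω ⊗[K] L) ω) (algebraMap Ω (Ω ⊗[K] L) μ)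
      (fun j => (1 : Ω) ⊗ₜ[K] θ j) 0 = 1)
    (hs2 : s 2 * cj (algebraMap K (Ω ⊗[K] L) ω) (algebraMap Ω (Ω ⊗[K] L) μ)
      (fun j => (1 : Ω) ⊗ₜ[K] θ j) 1 = s 1)
    (hsu : ∀ i, IsUnit (s i))
    (hu : IsUnit (nf (algebraMap K (Ω ⊗[K] L) α) (h 0) (h 1) (h 2))) :
    ∃ f : Fin 3 → Ω ⊗[K] L, (∀ j, f j ∈ RatSub L (F₁ ⊓ F₂)) ∧
      nf (algebraMap K (Ω ⊗[K] L) α) (f 0) (f 1) (f 2) = algebraMap K _ b := by
  obtain ⟨hωA, hμ3, hμi, hth⟩ := rels (L := L) hω hμ0 hμ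
  have hωΩ : (algebraMap K Ω ω) ^ 2 + algebraMap K Ω ω + 1 = 0 := by
    rw [← map_pow, ← map_add, ← map_one (algebraMap K Ω), ← map_add, hω, map_zero]
  have hu' : IsUnit (nf (algebraMap K (Ω ⊗[K] L) α) (h' 0) (h' 1) (h' 2)) := by
    rw [← hμ3, nf_eq_prod_cj _ _ _ hωA] at hu ⊢
    have e0 := hs 0
    have e1 := hs 1
    have e2 := hs 2
    simp only [Fin.val_zero, Fin.val_one, Fin.val_two] at e0 e1 e2
    rw [e0, e1, e2]
    have e3 : ∀ x0 x1 x2 y0 y1 y2 : Ω ⊗[K] L, x0 * y0 * (x1 * y1) * (x2 * y2) =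
        (x0 * x1 * x2) * (y0 * y1 * y2) := by
      intros
      ring
    rw [e3]
    exact (((hsu 0).mul (hsu 1)).mul (hsu 2)).mul hu
  have hK : ∀ (F : IntermediateField K Ω) (x : K), algebraMap K (Ω ⊗[K] L) x ∈ RatSub L F :=
    fun F x => Subalgebra.algebraMap_mem _ x
  obtain ⟨m, hm, hnm⟩ := exists_inv_ratSub F₁ (nf_mem _ (hK F₁ α) (hh₁ 0) (hh₁ 1) (hh₁ 2)) hu
  obtain ⟨m', hm', hnm'⟩ := exists_inv_ratSub F₂ (nf_mem _ (hK F₂ α) (hh₂ 0) (hh₂ 1) (hh₂ 2)) hu'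
  have hξ2 : cj (algebraMap K Ω ω) μ ξ₁ 2 = algebraMap K Ω a * cj (algebraMap K Ω ω) μ ξ₂ 2 := by
    have p1 := hn₁
    have p2 := hn₂
    rw [← hμ, nf_eq_prod_cj _ _ _ hωΩ, h0, h1] at p1
    rw [← hμ, nf_eq_prod_cj _ _ _ hωΩ] at p2
    have hne : cj (algebraMap K Ω ω) μ ξ₂ 0 * cj (algebraMap K Ω ω) μ ξ₂ 1 ≠ 0 := by
      intro h0
      rw [h0, zero_mul, eq_comm, map_eq_zero] at p1
      exact div_ne_zero hb0 ha0 p1
    apply mul_left_cancel₀ hne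
    have p3 : algebraMap K Ω (b / a) = algebraMap K Ω a * algebraMap K Ω (b / a ^ 2) := by
      rw [← map_mul]
      congr 1
      field_simp
    rw [p1, p3, ← p2]
    ring
  have hcj : ∀ (ξ : Fin 3 → Ω) (i : ℕ),
      cj (algebraMap K (Ω ⊗[K] L) ω) (algebraMap Ω (Ω ⊗[K] L) μ)
        (fun j => algebraMap Ω (Ω ⊗[K] L) (ξ j)) i =
        algebraMap Ω _ (cj (algebraMap K Ω ω) μ ξ i) := by
    intro ξ i
    rw [map_cj, ← IsScalarTower.algebraMap_apply K Ω (Ω ⊗[K] L)]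
  obtain ⟨k1, k2⟩ := core (α := algebraMap K (Ω ⊗[K] L) α) (a := algebraMap K _ a)
    (b := algebraMap K _ b) hωA hμ3 hμi hth (fun j => algebraMap Ω (Ω ⊗[K] L) (ξ₁ j))
    (fun j => algebraMap Ω (Ω ⊗[K] L) (ξ₂ j)) (fun j => (1 : Ω) ⊗ₜ[K] θ j) h h' s m m'
    (by rw [hcj, hcj, h0]) (by rw [hcj, hcj, h1])
    (by rw [hcj, hcj, hξ2, map_mul, ← IsScalarTower.algebraMap_apply K Ω (Ω ⊗[K] L)])
    (by
      have e1 : nf (algebraMap K (Ω ⊗[K] L) α) (algebraMap Ω (Ω ⊗[K] L) (ξ₁ 0))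
          (algebraMap Ω (Ω ⊗[K] L) (ξ₁ 1)) (algebraMap Ω (Ω ⊗[K] L) (ξ₁ 2)) =
          algebraMap K _ (b / a) := by
        rw [IsScalarTower.algebraMap_apply K Ω (Ω ⊗[K] L),
          IsScalarTower.algebraMap_apply K Ω (Ω ⊗[K] L) (b / a), ← hn₁, map_nf]
      rw [e1, ← map_mul, div_mul_cancel₀ _ ha0])
    (nf_tmul θ hθ) hs hs0 hs1 hs2 hnm hnm'
  refine ⟨_, fun j => InterAux.mem_ratSub_inf ?_ ?_, k2⟩
  · apply sol_mem _ (hK F₁ α) (hK F₁ ω) hm (fun j => ?_) (fun j => ?_) hh₁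
    · exact tmul_mem_ratSub (hξ₁ j) 1
    · exact tmul_mem_ratSub F₁.one_mem _
  · rw [k1]
    apply sol_mem _ (hK F₂ α) (hK F₂ ω) hm' (fun j => ?_) (fun j => ?_) hh₂
    · exact tmul_mem_ratSub (hξ₂ j) 1
    · exact mul3_mem _ (hK F₂ α) (fun j => tmul_mem_ratSub F₂.one_mem _)
        (fun j => tmul_mem_ratSub F₂.one_mem _) j

theorem main (K : Type) [Field K] [CharZero K] (ω α a b : K) (hω : ω ^ 2 + ω + 1 = 0)
    (hP : Indep α a b)
    (hec : ∀ (K' : Type) [Field K'] [Algebra K K'],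
      Indep (algebraMap K K' α) (algebraMap K K' a) (algebraMap K K' b) → EC K K')
    (L : Type) [Field L] [Algebra K L] [FiniteDimensional K L]
    (hL : IsNm (algebraMap K L α) (algebraMap K L a))
    (Ω Ω' : Type) [Field Ω] [Field Ω'] [IsAlgClosed Ω] [IsAlgClosed Ω'] [Algebra K Ω]
    [Algebra Ω Ω'] [Algebra K Ω'] [IsScalarTower K Ω Ω'] (v : Fin 2 → Ω)
    (hv : AlgebraicIndependent K v) (η : (_ : Fin 3) × Fin (Module.finrank K L) → Ω')
    (hη : AlgebraicIndependent Ω η) :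
    IsNm (algebraMap K L α) (algebraMap K L b) := by
  obtain ⟨hα0, ha0, hb0, hind⟩ := id hP
  have hα : ∀ x : K, x ^ 3 ≠ α := by
    rintro x rfl
    have hx : x ≠ 0 := by
      rintro rfl
      simp at hα0
    have := hind 1 0 (IsNm.of_cube hx _)
    omega
  obtain ⟨μ, hμ⟩ := IsAlgClosed.exists_pow_nat_eq (algebraMap K Ω α) (n := 3) (by norm_num)
  have hμ0 : μ ≠ 0 := by
    rintro rfl
    apply hα0
    apply (algebraMap K Ω).injective
    rw [← hμ, map_zero]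
    ring
  obtain ⟨ξ₁, h10, h11, h1n, h1c⟩ := exists_generic_norm_in K ω α (b / a) hω hα
    (div_ne_zero hb0 ha0) Ω μ hμ v hv
  obtain ⟨ξ₂, h20, h21, h2n, h2c⟩ := exists_generic_norm_in K ω α (b / a ^ 2) hω hα
    (div_ne_zero hb0 (pow_ne_zero 2 ha0)) Ω μ hμ v hv
  obtain ⟨F₁, hF₁K, hF₁η, hF₁⟩ := exists_gen_field (IntermediateField.adjoin K (Set.range ξ₁)) η hη α
  obtain ⟨x, y, z, hxyz⟩ := hL
  obtain ⟨θ, hθ⟩ : ∃ θ : Fin 3 → L,
      nf (algebraMap K L α) (θ 0) (θ 1) (θ 2) = algebraMap K L a := ⟨![x, y, z], hxyz⟩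
  obtain ⟨η', h', s, hη', hη'F, hs, hs0, hs1, hs2, hsu⟩ :=
    exists_data (Module.finBasis K L) η hη hω ha0 hμ0 hμ θ hθ
  obtain ⟨F₂, hF₂K, hF₂η, hF₂⟩ := exists_gen_field (IntermediateField.adjoin K (Set.range ξ₂))
    η' hη' α
  have hμ' : (algebraMap Ω Ω' μ) ^ 3 = algebraMap K Ω' α := by
    rw [← map_pow, hμ, ← IsScalarTower.algebraMap_apply]
  have hμ0' : algebraMap Ω Ω' μ ≠ 0 := (map_ne_zero _).mpr hμ0
  have hcj : ∀ (ξ : Fin 3 → Ω) (i : ℕ),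
      cj (algebraMap K Ω' ω) (algebraMap Ω Ω' μ) (fun j => algebraMap Ω Ω' (ξ j)) i =
        algebraMap Ω Ω' (cj (algebraMap K Ω ω) μ ξ i) := by
    intro ξ i
    rw [map_cj, ← IsScalarTower.algebraMap_apply K Ω Ω']
  have hnf : ∀ (ξ : Fin 3 → Ω) (c : K), nf (algebraMap K Ω α) (ξ 0) (ξ 1) (ξ 2) = algebraMap K Ω c →
      nf (algebraMap K Ω' α) (algebraMap Ω Ω' (ξ 0)) (algebraMap Ω Ω' (ξ 1))
        (algebraMap Ω Ω' (ξ 2)) = algebraMap K Ω' c := by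
    intro ξ c h
    rw [IsScalarTower.algebraMap_apply K Ω Ω', IsScalarTower.algebraMap_apply K Ω Ω' c, ← h, map_nf]
  have hm₁ : ∀ j, algebraMap Ω Ω' (ξ₁ j) ∈ F₁ := fun j =>
    hF₁K _ (IntermediateField.subset_adjoin _ _ ⟨j, rfl⟩)
  have hm₂ : ∀ j, algebraMap Ω Ω' (ξ₂ j) ∈ F₂ := fun j =>
    hF₂K _ (IntermediateField.subset_adjoin _ _ ⟨j, rfl⟩)
  obtain ⟨f, hf, hfb⟩ := exists_triple hω ha0 hb0 hμ0' hμ' θ hθ F₁ F₂
    (fun j => algebraMap Ω Ω' (ξ₁ j)) (fun j => algebraMap Ω Ω' (ξ₂ j)) hm₁ hm₂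
    (by rw [hcj, hcj, h10, h20]) (by rw [hcj, hcj, h11, h21])
    (hnf ξ₁ _ h1n) (hnf ξ₂ _ h2n) (gen (Module.finBasis K L) η) h' s (gen_mem _ η hF₁η)
    (hη'F F₂ hF₂η) hs hs0 hs1 hs2 hsu (isUnit_nf_gen _ η hη α)
  choose g hg using hf
  have hInd : Indep (algebraMap K ↥(F₁ ⊓ F₂) α) (algebraMap K ↥(F₁ ⊓ F₂) a)
      (algebraMap K ↥(F₁ ⊓ F₂) b) := by
    apply indep_inf hα0 ha0 hb0 F₁ F₂ (isNm_of_mem F₁ hm₁ (hnf ξ₁ _ h1n)) ?_
      (isNm_of_mem F₂ hm₂ (hnf ξ₂ _ h2n)) ?_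
    · intro hc
      obtain ⟨j, hj⟩ := h1c a ha0 (hF₁ a hc)
      have e1 := hj.mul (IsNm.cube α (a ^ j))
      have e2 : a * (b / a) ^ j * (a ^ j) ^ 3 = a ^ (1 + 2 * j) * b ^ j := by
        rw [div_pow]
        field_simp
        ring
      rw [e2] at e1
      have := hind _ _ e1
      omega
    · intro hc
      obtain ⟨j, hj⟩ := h2c a ha0 (hF₂ a hc)
      have e1 := hj.mul (IsNm.cube α (a ^ j))
      have e2 : a * (b / a ^ 2) ^ j * (a ^ j) ^ 3 = a ^ (1 + j) * b ^ j := by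
        rw [div_pow, ← pow_mul]
        field_simp
        ring
      rw [e2] at e1
      have := hind _ _ e1
      omega
  refine conclude ↥(F₁ ⊓ F₂) (hec _ hInd) α b g ?_
  apply map_injective (F₁ ⊓ F₂)
  rw [algHom_nf, AlgHom.commutes, AlgHom.commutes]
  have hg' : ∀ j, (Algebra.TensorProduct.map (F₁ ⊓ F₂).val (AlgHom.id K L)) (g j) = f j := hg
  rw [hg', hg', hg', hfb]

end Assembly

end Case0Aux

/-- TASK CASE0 -/
theorem case_zero (K : Type) [Field K] [CharZero K] (ω α a b : K) (hω : ω ^ 2 + ω + 1 = 0)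
    (hP : Indep α a b)
    (hec : ∀ (K' : Type) [Field K'] [Algebra K K'],
      Indep (algebraMap K K' α) (algebraMap K K' a) (algebraMap K K' b) → EC K K')
    (L : Type) [Field L] [Algebra K L] [FiniteDimensional K L]
    (hL : IsNm (algebraMap K L α) (algebraMap K L a)) :
    IsNm (algebraMap K L α) (algebraMap K L b) := by
  obtain ⟨Ω, _, _, _, v, hv⟩ := Case0Aux.exists_generic K (Fin 2)
  obtain ⟨Ω', _, _, _, η, hη⟩ := Case0Aux.exists_generic Ω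
    ((_ : Fin 3) × Fin (Module.finrank K L))
  let : Algebra K Ω' := ((algebraMap Ω Ω').comp (algebraMap K Ω)).toAlgebra
  have : IsScalarTower K Ω Ω' := IsScalarTower.of_algebraMap_eq fun _ => rfl
  exact Case0Aux.main K ω α a b hω hP hec L hL Ω Ω' v hv η hη

end Pool.Agent.D5741
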