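import Mathlib
import Pool.Agent.Lib.MP_d5741c_al.Basic
import Pool.Agent.Lib.MP_d5741c_al.Curve
import Pool.Agent.Lib.MP_d5741c_al.Mg.G001

/-!
# Rationality of the space of triples vanishing at rational points, and specialisation
-/

set_option autoImplicit false
open scoped TensorProduct nonZeroDivisors

namespace Pool.Agent.D5741

namespace RatB

variable {K L Ω : Type} [Field K] [Field L] [Algebra K L] [Field Ω] [Algebra K Ω]

theorem evp_tmul (p : L →ₐ[K] Ω) (c : Ω) (l : L) : evp p (c ⊗ₜ l) = c * p l := by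
  unfold evp
  rw [Algebra.TensorProduct.lift_tmul]
  rfl

/-- Linear combinations of the constant triples of a family. -/
noncomputable def lam {N : ℕ} (w : Fin N → (Fin 3 → L)) : (Fin N → Ω) →ₗ[Ω] (Fin 3 → Ω ⊗[K] L) where
  toFun c := fun l => ∑ k, c k ⊗ₜ w k l
  map_add' c d := by
    ext l
    simp only [Pi.add_apply, TensorProduct.add_tmul, Finset.sum_add_distrib]
  map_smul' a c := by
    ext l
    simp only [Pi.smul_apply, Finset.smul_sum, TensorProduct.smul_tmul', RingHom.id_apply]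

theorem lam_apply {N : ℕ} (w : Fin N → (Fin 3 → L)) (c : Fin N → Ω) (l : Fin 3) :
    (lam w c : Fin 3 → Ω ⊗[K] L) l = ∑ k, c k ⊗ₜ w k l := rfl

theorem lam_mem {N : ℕ} (W : Submodule K (Fin 3 → L)) (w : Fin N → (Fin 3 → L))
    (hw : ∀ k, w k ∈ W) (c : Fin N → Ω) :
    lam w c ∈ Submodule.span Ω {h : Fin 3 → Ω ⊗[K] L | ∃ w ∈ W, ∀ j, h j = 1 ⊗ₜ w j} := by
  have : lam w c = ∑ k, c k • (fun j => (1 : Ω) ⊗ₜ[K] w k j : Fin 3 → Ω ⊗[K] L) := by
    ext l
    simp only [lam_apply, Finset.sum_apply, Pi.smul_apply, TensorProduct.smul_tmul', smul_eq_mul,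
      mul_one]
  rw [this]
  exact Submodule.sum_mem _ fun k _ => Submodule.smul_mem _ _
    (Submodule.subset_span ⟨w k, hw k, fun j => rfl⟩)

theorem span_le_range {N : ℕ} (W : Submodule K (Fin 3 → L)) (b : Module.Basis (Fin N) K W) :
    Submodule.span Ω {h : Fin 3 → Ω ⊗[K] L | ∃ w ∈ W, ∀ j, h j = 1 ⊗ₜ w j} ≤
      LinearMap.range (lam (K := K) (L := L) (Ω := Ω) (fun k => (b k : Fin 3 → L))) := by
  rw [Submodule.span_le]
  rintro h ⟨w, hw, hh⟩
  refine ⟨fun k => algebraMap K Ω (b.repr ⟨w, hw⟩ k), ?_⟩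
  ext l
  rw [lam_apply, hh]
  have h1 := congrArg (fun x : W => (x : Fin 3 → L) l) (b.sum_repr ⟨w, hw⟩)
  simp only [Submodule.coe_sum, Submodule.coe_smul, Finset.sum_apply, Pi.smul_apply] at h1
  rw [← h1, TensorProduct.tmul_sum]
  refine Finset.sum_congr rfl fun k _ => ?_
  rw [TensorProduct.tmul_smul, TensorProduct.smul_tmul', Algebra.algebraMap_eq_smul_one]

theorem evp_lam {N : ℕ} (w : Fin N → (Fin 3 → L)) (c : Fin N → Ω) (l : Fin 3) (p : L →ₐ[K] Ω) :
    evp p ((lam w c : Fin 3 → Ω ⊗[K] L) l) = ∑ k, c k * p (w k l) := by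
  rw [lam_apply, map_sum]
  exact Finset.sum_congr rfl fun k _ => evp_tmul _ _ _

/-- Inversion of the three-point Fourier transform. -/
theorem eq_zero_of_dft {ω ν : Ω} (h3 : (3 : Ω) ≠ 0) (hω : ω ^ 2 + ω + 1 = 0) (hν : ν ≠ 0)
    (X : Fin 3 → Ω)
    (h : ∀ m : ℕ, ∑ r : Fin 3, ((ω ^ (r : ℕ) * ν)⁻¹) ^ m * X r = 0) (r : Fin 3) : X r = 0 := by
  have hc := (by linear_combination (ω - 1) * hω : ω ^ 3 = 1)
  have hω0 : ω ≠ 0 := by
    rintro rfl
    norm_num at hω
  have e0 := h 0
  have e1 := h 1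
  have e2 := h 2
  rw [Fin.sum_univ_three] at e0 e1 e2
  simp only [Fin.val_zero, Fin.val_one, Fin.val_two, pow_zero, pow_one, one_mul, mul_inv] at e0 e1 e2
  have i1 : ω⁻¹ = ω ^ 2 := inv_eq_of_mul_eq_one_right (by linear_combination hc)
  have i2 : (ω ^ 2)⁻¹ = ω := inv_eq_of_mul_eq_one_right (by linear_combination hc)
  rw [i1, i2] at e1 e2
  have hν' : ν⁻¹ ≠ 0 := inv_ne_zero hν
  have f1 : X 0 + ω ^ 2 * X 1 + ω * X 2 = 0 := by
    apply mul_left_cancel₀ hν'
    linear_combination e1
  have f2 : X 0 + ω * X 1 + ω ^ 2 * X 2 = 0 := by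
    apply mul_left_cancel₀ (pow_ne_zero 2 hν')
    linear_combination e2 - ν⁻¹ ^ 2 * (ω * X 1) * hc
  apply mul_left_cancel₀ h3
  rw [mul_zero]
  fin_cases r
  · change 3 * X 0 = 0
    linear_combination e0 + f1 + f2 - (X 1 + X 2) * hω
  · change 3 * X 1 = 0
    linear_combination e0 + ω * f1 + ω ^ 2 * f2 - (X 0 + X 2) * hω - 2 * X 1 * hc - ω * X 2 * hc
  · change 3 * X 2 = 0
    linear_combination e0 + ω ^ 2 * f1 + ω * f2 - (X 0 + X 1) * hω - 2 * X 2 * hc - ω * X 1 * hc

/-- `f ⊗ l` is rational over `F` for `f ∈ F`. -/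
theorem tmul_mem_ratSub (F : IntermediateField K Ω) {f : Ω} (hf : f ∈ F) (l : L) :
    f ⊗ₜ[K] l ∈ RatSub L F :=
  ⟨(⟨f, hf⟩ : F) ⊗ₜ[K] l, rfl⟩

end RatB

open RatB in
/-- TASK RATB -/
theorem VSub_rational (K L Ω : Type) [Field K] [CharZero K] [Field L] [Algebra K L] [Field Ω]
    [Algebra K Ω] (ω β : K) (hω : ω ^ 2 + ω + 1 = 0) (hβ : β ≠ 0) (ν : Ω)
    (hν : ν ^ 3 = algebraMap K Ω β) (W : Submodule K (Fin 3 → L)) (hW : FiniteDimensional K W)
    (n : ℕ) (p : Fin n × Fin 3 → (L →ₐ[K] Ω)) (F : IntermediateField K Ω)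
    (hp : ∀ j, Rat3 F (algebraMap K Ω ω) ν (fun r => p (j, r))) :
    FiniteDimensional Ω (VSub W p) ∧
    VSub W p = Submodule.span Ω {h : Fin 3 → Ω ⊗[K] L | h ∈ VSub W p ∧ ∀ j, h j ∈ RatSub L F} := by
  have : CharZero Ω := charZero_of_injective_algebraMap (algebraMap K Ω).injective
  have hω' : (algebraMap K Ω ω) ^ 2 + algebraMap K Ω ω + 1 = 0 := by
    rw [← map_pow, ← map_add, ← map_one (algebraMap K Ω), ← map_add, hω, map_zero]
  have hν0 : ν ≠ 0 := by
    rintro rfl
    apply hβ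
    rw [zero_pow three_ne_zero, eq_comm, map_eq_zero] at hν
    exact hν
  have b := Module.finBasis K W
  have hle : VSub W p ≤
      LinearMap.range (lam (K := K) (L := L) (Ω := Ω) (fun k => (b k : Fin 3 → L))) :=
    fun h hh => span_le_range W b hh.1
  refine ⟨Submodule.finiteDimensional_of_le hle, le_antisymm ?_ ?_⟩
  · intro h hh
    obtain ⟨c, rfl⟩ := hle hh
    have hc : ∀ (j : Fin n) (r l : Fin 3),
        ∑ k, c k * p (j, r) ((b k : Fin 3 → L) l) = 0 := by
      intro j r l
      rw [← evp_lam]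
      exact hh.2 (j, r) l
    have bΩ := Module.Basis.ofVectorSpace F Ω
    have hcc : ∀ i (j : Fin n) (r l : Fin 3),
        ∑ k, (bΩ.coord i (c k) : Ω) * p (j, r) ((b k : Fin 3 → L) l) = 0 := by
      intro i j r l
      refine eq_zero_of_dft (by norm_num) hω' hν0
        (fun r => ∑ k, (bΩ.coord i (c k) : Ω) * p (j, r) ((b k : Fin 3 → L) l)) ?_ r
      intro m
      have hA := fun k => hp j ((b k : Fin 3 → L) l) m
      have h1 : ∑ k, (⟨_, hA k⟩ : F) • c k = 0 := by
        have h2 : ∀ k, (⟨_, hA k⟩ : F) • c k = ∑ r : Fin 3,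
            (((algebraMap K Ω ω) ^ (r : ℕ) * ν)⁻¹) ^ m *
              (c k * p (j, r) ((b k : Fin 3 → L) l)) := by
          intro k
          rw [Algebra.smul_def]
          change (∑ r : Fin 3, (((algebraMap K Ω ω) ^ (r : ℕ) * ν)⁻¹) ^ m *
            p (j, r) ((b k : Fin 3 → L) l)) * c k = _
          rw [Finset.sum_mul]
          exact Finset.sum_congr rfl fun r _ => by ring
        rw [Finset.sum_congr rfl fun k _ => h2 k, Finset.sum_comm]
        refine Finset.sum_eq_zero fun r _ => ?_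
        rw [← Finset.mul_sum, hc, mul_zero]
      have h3 := congrArg (fun x => ((bΩ.coord i x : F) : Ω)) h1
      simp only [map_sum, map_smul, map_zero, smul_eq_mul] at h3
      have h4 : ((∑ k, (⟨_, hA k⟩ : F) * bΩ.coord i (c k) : F) : Ω) =
          ∑ k, (∑ r : Fin 3, (((algebraMap K Ω ω) ^ (r : ℕ) * ν)⁻¹) ^ m *
            p (j, r) ((b k : Fin 3 → L) l)) * (bΩ.coord i (c k) : Ω) := by
        push_cast
        rfl
      rw [h4] at h3
      calc ∑ r : Fin 3, (((algebraMap K Ω ω) ^ (r : ℕ) * ν)⁻¹) ^ m *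
            ∑ k, (bΩ.coord i (c k) : Ω) * p (j, r) ((b k : Fin 3 → L) l)
          = ∑ k, (∑ r : Fin 3, (((algebraMap K Ω ω) ^ (r : ℕ) * ν)⁻¹) ^ m *
            p (j, r) ((b k : Fin 3 → L) l)) * (bΩ.coord i (c k) : Ω) := by
            simp only [Finset.mul_sum, Finset.sum_mul]
            rw [Finset.sum_comm]
            exact Finset.sum_congr rfl fun k _ => Finset.sum_congr rfl fun r _ => by ring
        _ = 0 := by rw [h3]; rfl
    classical
    set s : Finset _ := Finset.univ.biUnion fun k => (bΩ.repr (c k)).support with hs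
    have hcsum : c = ∑ i ∈ s, bΩ i • (fun k => (bΩ.coord i (c k) : Ω)) := by
      ext k
      have h1 := bΩ.linearCombination_repr (c k)
      rw [Finsupp.linearCombination_apply, Finsupp.sum_of_support_subset (s := s) _
        (Finset.subset_biUnion_of_mem (fun k => (bΩ.repr (c k)).support) (Finset.mem_univ k)) _
        (fun i _ => by rw [zero_smul])] at h1
      rw [Finset.sum_apply]
      conv_lhs => rw [← h1]
      refine Finset.sum_congr rfl fun i _ => ?_
      rw [Pi.smul_apply, smul_eq_mul, Algebra.smul_def, mul_comm]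
      rfl
    rw [hcsum, map_sum]
    refine Submodule.sum_mem _ fun i _ => ?_
    rw [map_smul]
    refine Submodule.smul_mem _ _ (Submodule.subset_span ⟨⟨?_, ?_⟩, ?_⟩)
    · exact lam_mem W _ (fun k => (b k).2) _
    · rintro ⟨j, r⟩ l
      rw [evp_lam]
      exact hcc i j r l
    · intro j
      rw [lam_apply]
      exact Subalgebra.sum_mem _ fun k _ => tmul_mem_ratSub F (bΩ.coord i (c k)).2 _
  · rw [Submodule.span_le]
    exact fun h hh => hh.1

namespace RatB

/-- Elements of `B ⊗ L` with coordinates in the subalgebra `S` come from `S ⊗ L`. -/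
theorem exists_preimage {K L B ι : Type} [Field K] [Field L] [Algebra K L] [Field B] [Algebra K B]
    (b : Module.Basis ι K L) (S : Subalgebra K B) (x : B ⊗[K] L)
    (hx : ∀ i, (Algebra.TensorProduct.basis B b).repr x i ∈ S) :
    ∃ y : S ⊗[K] L, Algebra.TensorProduct.map S.val (AlgHom.id K L) y = x := by
  have h1 := (Algebra.TensorProduct.basis B b).linearCombination_repr x
  rw [Finsupp.linearCombination_apply, Finsupp.sum] at h1
  refine ⟨∑ i ∈ ((Algebra.TensorProduct.basis B b).repr x).support,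
    (⟨_, hx i⟩ : S) ⊗ₜ[K] b i, ?_⟩
  rw [map_sum]
  conv_rhs => rw [← h1]
  refine Finset.sum_congr rfl fun i _ => ?_
  rw [Algebra.TensorProduct.map_tmul, Algebra.TensorProduct.basis_apply, TensorProduct.smul_tmul',
    smul_eq_mul, mul_one]
  rfl

theorem map_val_injective {K L B : Type} [Field K] [Field L] [Algebra K L] [CommRing B]
    [Algebra K B] {A : Type} [CommRing A] [Algebra K A] (f : A →ₐ[K] B)
    (hf : Function.Injective f) :
    Function.Injective (Algebra.TensorProduct.map f (AlgHom.id K L)) := by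
  have := Module.Flat.rTensor_preserves_injective_linearMap (M := L) f.toLinearMap hf
  exact this

theorem repr_map {K L B ι : Type} [Field K] [Field L] [Algebra K L] [Field B] [Algebra K B]
    (b : Module.Basis ι K L) (S : Subalgebra K B) (y : S ⊗[K] L) (i : ι) :
    (Algebra.TensorProduct.basis B b).repr (Algebra.TensorProduct.map S.val (AlgHom.id K L) y) i =
      ((Algebra.TensorProduct.basis S b).repr y i : B) := by
  induction y using TensorProduct.induction_on with
  | zero => simp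
  | add x y hx hy => simp only [map_add, Finsupp.add_apply, hx, hy, Subalgebra.coe_add]
  | tmul s l =>
    rw [Algebra.TensorProduct.map_tmul, Algebra.TensorProduct.basis_repr_tmul,
      Algebra.TensorProduct.basis_repr_tmul]
    simp only [Finsupp.smul_apply, Finsupp.mapRange_apply, smul_eq_mul, AlgHom.id_apply]
    rfl

theorem repr_eval {K L ι : Type} [Field K] [Field L] [Algebra K L]
    (b : Module.Basis ι K L) {A : Type} [CommRing A] [Algebra K A] (ε : A →ₐ[K] K)
    (ψ : A ⊗[K] L →ₐ[K] L) (hψ : ∀ (s : A) (l : L), ψ (s ⊗ₜ l) = ε s • l) (y : A ⊗[K] L) (i : ι) :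
    b.repr (ψ y) i = ε ((Algebra.TensorProduct.basis A b).repr y i) := by
  induction y using TensorProduct.induction_on with
  | zero => simp
  | add x y hx hy => simp only [map_add, Finsupp.add_apply, hx, hy]
  | tmul s l =>
    rw [hψ, Algebra.TensorProduct.basis_repr_tmul]
    simp only [map_smul, Finsupp.smul_apply, Finsupp.mapRange_apply, smul_eq_mul, map_mul,
      AlgHom.commutes, Algebra.algebraMap_self, RingHom.id_apply]

/-- Specialisation of a relation over an extension in which `K` is existentially closed. -/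
theorem isNm_of_EC (K L B : Type) [Field K] [Field L] [Algebra K L] [Field B] [Algebra K B]
    (hec : EC K B) (α b : K) (n' : B ⊗[K] L) (G' : Fin 3 → B ⊗[K] L) (hn0' : n' ≠ 0)
    (h' : nf (algebraMap K (B ⊗[K] L) α) (G' 0) (G' 1) (G' 2) =
      algebraMap K (B ⊗[K] L) b * n' ^ 3) :
    IsNm (algebraMap K L α) (algebraMap K L b) := by
  classical
  let bL := Module.Basis.ofVectorSpace K L
  let B' := Algebra.TensorProduct.basis B bL
  obtain ⟨i₀, hi₀⟩ : ∃ i, B'.repr n' i ≠ 0 := by
    by_contra hcon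
    push Not at hcon
    apply hn0'
    apply B'.repr.injective
    rw [map_zero]
    ext i
    rw [hcon i]
    rfl
  let T : Finset B := insert (B'.repr n' i₀)⁻¹ ((B'.repr n').support.image (fun i => B'.repr n' i) ∪
    Finset.univ.biUnion fun j : Fin 3 => (B'.repr (G' j)).support.image fun i => B'.repr (G' j) i)
  let S : Subalgebra K B := Algebra.adjoin K (T : Set B)
  have hS : S.FG := ⟨T, rfl⟩
  have hTn : ∀ i, B'.repr n' i ∈ S := by
    intro i
    by_cases hi : B'.repr n' i = 0
    · rw [hi]; exact Subalgebra.zero_mem _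
    · apply Algebra.subset_adjoin
      rw [Finset.mem_coe, Finset.mem_insert, Finset.mem_union]
      exact Or.inr (Or.inl (Finset.mem_image_of_mem _ (Finsupp.mem_support_iff.mpr hi)))
  have hTG : ∀ j i, B'.repr (G' j) i ∈ S := by
    intro j i
    by_cases hi : B'.repr (G' j) i = 0
    · rw [hi]; exact Subalgebra.zero_mem _
    · apply Algebra.subset_adjoin
      rw [Finset.mem_coe, Finset.mem_insert, Finset.mem_union]
      refine Or.inr (Or.inr (Finset.mem_biUnion.mpr ⟨j, Finset.mem_univ _, ?_⟩))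
      exact Finset.mem_image_of_mem _ (Finsupp.mem_support_iff.mpr hi)
  have hTi : (B'.repr n' i₀)⁻¹ ∈ S := by
    apply Algebra.subset_adjoin
    rw [Finset.mem_coe, Finset.mem_insert]
    exact Or.inl rfl
  obtain ⟨n'', hn''⟩ := exists_preimage bL S n' hTn
  choose G'' hG'' using fun j => exists_preimage bL S (G' j) (hTG j)
  obtain ⟨ε⟩ := hec S hS
  have h'' : nf (algebraMap K (S ⊗[K] L) α) (G'' 0) (G'' 1) (G'' 2) =
      algebraMap K (S ⊗[K] L) b * n'' ^ 3 := by
    apply map_val_injective (L := L) S.val Subtype.val_injective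
    have e1 : ∀ x : S ⊗[K] L, Algebra.TensorProduct.map S.val (AlgHom.id K L) x =
      (Algebra.TensorProduct.map S.val (AlgHom.id K L)).toRingHom x := fun x => rfl
    rw [e1, e1, map_nf, map_mul, map_pow]
    simp only [← e1, AlgHom.commutes, hG'', hn'']
    exact h'
  let ψ : S ⊗[K] L →ₐ[K] L := Algebra.TensorProduct.productMap ((Algebra.ofId K L).comp ε)
    (AlgHom.id K L)
  have hψ : ∀ (s : S) (l : L), ψ (s ⊗ₜ l) = ε s • l := by
    intro s l
    simp only [ψ, Algebra.TensorProduct.productMap_apply_tmul, AlgHom.comp_apply,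
      AlgHom.id_apply, Algebra.ofId_apply, Algebra.smul_def]
  have hfin : nf (algebraMap K L α) (ψ (G'' 0)) (ψ (G'' 1)) (ψ (G'' 2)) =
      algebraMap K L b * ψ n'' ^ 3 := by
    have e2 := congrArg ψ.toRingHom h''
    rw [map_nf, map_mul, map_pow] at e2
    simpa only [AlgHom.toRingHom_eq_coe, RingHom.coe_coe, AlgHom.commutes] using e2
  refine IsNm.of_eq_mul_cube ?_ hfin
  intro h0
  have e3 := repr_eval bL ε ψ hψ n'' i₀
  have e4 := repr_map bL S n'' i₀
  rw [hn''] at e4
  rw [h0, map_zero, Finsupp.zero_apply] at e3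
  have e5 : (Algebra.TensorProduct.basis S bL).repr n'' i₀ * ⟨(B'.repr n' i₀)⁻¹, hTi⟩ = 1 := by
    apply Subtype.ext
    rw [Subalgebra.coe_mul, ← e4]
    exact mul_inv_cancel₀ hi₀
  have e6 := congrArg ε e5
  rw [map_mul, ← e3, zero_mul, map_one] at e6
  exact zero_ne_one e6

/-- Pulling back a relation along an injective map of algebras. -/
theorem pullback {K R R' : Type} [Field K] [CommRing R] [Algebra K R] [CommRing R'] [Algebra K R']
    (f : R →ₐ[K] R') (hf : Function.Injective f) {α b : K} {n : R} {G : Fin 3 → R}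
    {n' : R'} {G' : Fin 3 → R'} (hn : f n = n') (hG : ∀ j, f (G j) = G' j)
    (h : nf (algebraMap K R' α) (G' 0) (G' 1) (G' 2) = algebraMap K R' b * n' ^ 3) :
    nf (algebraMap K R α) (G 0) (G 1) (G 2) = algebraMap K R b * n ^ 3 := by
  apply hf
  have e1 : ∀ x : R, f x = f.toRingHom x := fun x => rfl
  rw [e1, e1, map_nf, map_mul, map_pow]
  simp only [← e1, AlgHom.commutes, hG, hn]
  exact h

end RatB

open RatB in
/-- TASK SPECK -/
theorem isNm_of_rat (K L Ω : Type) [Field K] [Field L] [Algebra K L] [Field Ω] [Algebra K Ω]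
    (K' : IntermediateField K Ω) (hec : EC K K') (α b : K) (n : Ω ⊗[K] L) (G : Fin 3 → Ω ⊗[K] L)
    (hn : n ∈ RatSub L K') (hG : ∀ j, G j ∈ RatSub L K') (hn0 : n ≠ 0)
    (h : nf (algebraMap K (Ω ⊗[K] L) α) (G 0) (G 1) (G 2) = algebraMap K (Ω ⊗[K] L) b * n ^ 3) :
    IsNm (algebraMap K L α) (algebraMap K L b) := by
  obtain ⟨n', hn'⟩ := hn
  choose G' hG' using hG
  refine isNm_of_EC K L K' hec α b n' G' ?_ ?_
  · rintro rfl
    apply hn0
    rw [← hn']
    exact map_zero _
  · exact pullback (Algebra.TensorProduct.map K'.val (AlgHom.id K L))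
      (map_val_injective (L := L) K'.val K'.val.injective) hn' hG' h

end Pool.Agent.D5741
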