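import Mathlib
import Pool.Agent.Lib.MP_d5741c_al.Mg.G001
import Pool.Agent.Lib.MP_d5741c_al.RatB

/-!
# The main theorem in the curve case: the final argument
-/

set_option autoImplicit false

namespace Pool.Agent.D5741

open scoped TensorProduct

namespace FA

section Mem

variable {R A : Type*} [CommRing R] [CommRing A] [Algebra R A] (S : Subalgebra R A)

theorem nf_mem {α x y z : A} (hα : α ∈ S) (hx : x ∈ S) (hy : y ∈ S) (hz : z ∈ S) :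
    nf α x y z ∈ S := by
  unfold nf
  have h3 : (3 : A) ∈ S := ofNat_mem S 3
  exact sub_mem (add_mem (add_mem (pow_mem hx 3) (mul_mem hα (pow_mem hy 3)))
    (mul_mem (pow_mem hα 2) (pow_mem hz 3)))
    (mul_mem (mul_mem (mul_mem (mul_mem h3 hα) hx) hy) hz)

theorem mulT_mem {α : A} {x y : Fin 3 → A} (hα : α ∈ S) (hx : ∀ j, x j ∈ S) (hy : ∀ j, y j ∈ S)
    (j : Fin 3) : mulT α x y j ∈ S := by
  unfold mulT
  fin_cases j
  · exact add_mem (mul_mem (hx 0) (hy 0)) (mul_mem hα (add_mem (mul_mem (hx 1) (hy 2))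
      (mul_mem (hx 2) (hy 1))))
  · exact add_mem (add_mem (mul_mem (hx 0) (hy 1)) (mul_mem (hx 1) (hy 0)))
      (mul_mem (mul_mem hα (hx 2)) (hy 2))
  · exact add_mem (add_mem (mul_mem (hx 0) (hy 2)) (mul_mem (hx 1) (hy 1)))
      (mul_mem (hx 2) (hy 0))

theorem sg_mem {ω : A} {x : Fin 3 → A} (hω : ω ∈ S) (hx : ∀ j, x j ∈ S) (j : Fin 3) :
    sg ω x j ∈ S := by
  unfold sg
  fin_cases j
  · exact hx 0
  · exact mul_mem hω (hx 1)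
  · exact mul_mem (pow_mem hω 2) (hx 2)

theorem sh_mem {α : A} {x : Fin 3 → A} (hα : α ∈ S) (hx : ∀ j, x j ∈ S) (j : Fin 3) :
    sh α x j ∈ S := by
  unfold sh
  fin_cases j
  · exact sub_mem (pow_mem (hx 0) 2) (mul_mem (mul_mem hα (hx 1)) (hx 2))
  · exact sub_mem (mul_mem hα (pow_mem (hx 2) 2)) (mul_mem (hx 0) (hx 1))
  · exact sub_mem (pow_mem (hx 1) 2) (mul_mem (hx 0) (hx 2))

theorem gT_mem {ω α : A} {ξ θ h : Fin 3 → A} (hω : ω ∈ S) (hα : α ∈ S) (hξ : ∀ j, ξ j ∈ S)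
    (hθ : ∀ j, θ j ∈ S) (hh : ∀ j, h j ∈ S) (j : Fin 3) : gT ω α ξ θ h j ∈ S := by
  unfold gT
  exact mulT_mem S hα (mulT_mem S hα (mulT_mem S hα hξ hθ) (sg_mem S hω hh)) (sh_mem S hα hh) j

end Mem

/-- The final argument. -/
theorem final (K : Type) [Field K] [CharZero K] (ω α a b : K) (hω : ω ^ 2 + ω + 1 = 0)
    (hα0 : α ≠ 0) (ha0 : a ≠ 0) (hb0 : b ≠ 0)
    (hec : ∀ (K' : Type) [Field K'] [Algebra K K'],
      Indep (algebraMap K K' α) (algebraMap K K' a) (algebraMap K K' b) → EC K K')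
    (L : Type) [Field L] [Algebra K L]
    (hreg : ∀ (F : Type) [Field F] [Algebra K F], IsDomain (F ⊗[K] L))
    (θ : Fin 3 → L) (hθ : nf (algebraMap K L α) (θ 0) (θ 1) (θ 2) = algebraMap K L a)
    (Ω : Type) [Field Ω] [Algebra K Ω] (μ : Ω)
    (hμ : μ ^ 3 = algebraMap K Ω α) (F₁ F₂ : IntermediateField K Ω)
    (hF₁ : ¬ IsNm (algebraMap K F₁ α) (algebraMap K F₁ a))
    (hF₂ : ¬ IsNm (algebraMap K F₂ α) (algebraMap K F₂ a))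
    (ξ₁ ξ₂ : Fin 3 → Ω) (hξ₁F : ∀ i, ξ₁ i ∈ F₁) (hξ₂F : ∀ i, ξ₂ i ∈ F₂)
    (hξ₁ : nf (algebraMap K Ω α) (ξ₁ 0) (ξ₁ 1) (ξ₁ 2) = algebraMap K Ω (b / a))
    (hξ₂ : nf (algebraMap K Ω α) (ξ₂ 0) (ξ₂ 1) (ξ₂ 2) = algebraMap K Ω (b / a ^ 2))
    (v : Fin 2 → Ω)
    (e10 : cj (algebraMap K Ω ω) μ ξ₁ 0 = v 0) (e11 : cj (algebraMap K Ω ω) μ ξ₁ 1 = v 1)
    (e20 : cj (algebraMap K Ω ω) μ ξ₂ 0 = v 0) (e21 : cj (algebraMap K Ω ω) μ ξ₂ 1 = v 1)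
    (V₁ V₂ : Submodule Ω (Fin 3 → Ω ⊗[K] L)) (hfd₁ : FiniteDimensional Ω V₁)
    (hfd₂ : FiniteDimensional Ω V₂)
    (hV₁ : V₁ = Submodule.span Ω {h : Fin 3 → Ω ⊗[K] L | h ∈ V₁ ∧ ∀ j, h j ∈ RatSub L F₁})
    (hV₂ : V₂ = Submodule.span Ω {h : Fin 3 → Ω ⊗[K] L | h ∈ V₂ ∧ ∀ j, h j ∈ RatSub L F₂})
    (φ : Fin 3 → LL K L Ω) (hφ : ∀ i, φ i ≠ 0)
    (hφ0 : φ 0 = φ 1 * algebraMap _ (LL K L Ω) (cjT ω μ (cst Ω θ) 0))
    (hφ1 : φ 1 = φ 2 * algebraMap _ (LL K L Ω) (cjT ω μ (cst Ω θ) 1))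
    (hne : ∃ h ∈ V₁, nf (algebraMap K (Ω ⊗[K] L) α) (h 0) (h 1) (h 2) ≠ 0)
    (h12 : ∀ h ∈ V₁, ∃ h' ∈ V₂, ∀ i : Fin 3,
      algebraMap _ (LL K L Ω) (cjT ω μ h' i) = φ i * algebraMap _ (LL K L Ω) (cjT ω μ h i))
    (h21 : ∀ h' ∈ V₂, ∃ h ∈ V₁, ∀ i : Fin 3,
      algebraMap _ (LL K L Ω) (cjT ω μ h' i) = φ i * algebraMap _ (LL K L Ω) (cjT ω μ h i)) :
    IsNm (algebraMap K L α) (algebraMap K L b) := by
  classical
  have hdom : IsDomain (Ω ⊗[K] L) := hreg Ω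
  -- elementary facts in `Ω ⊗ L`
  set ωT : Ω ⊗[K] L := algebraMap K (Ω ⊗[K] L) ω with hωT
  set μT : Ω ⊗[K] L := μ ⊗ₜ 1 with hμT
  have hωT' : ωT ^ 2 + ωT + 1 = 0 := by
    rw [hωT, ← map_pow, ← map_add, ← map_one (algebraMap K (Ω ⊗[K] L)), ← map_add, hω, map_zero]
  have hinjK : Function.Injective (algebraMap K (Ω ⊗[K] L)) :=
    (algebraMap K (Ω ⊗[K] L)).injective
  have h3T : (3 : Ω ⊗[K] L) ≠ 0 := by
    have : (3 : Ω ⊗[K] L) = algebraMap K (Ω ⊗[K] L) 3 := by rw [map_ofNat]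
    rw [this]
    intro h
    rw [map_eq_zero_iff _ hinjK] at h
    exact three_ne_zero h
  have hμ0 : μ ≠ 0 := by
    intro h
    rw [h, zero_pow (by norm_num), eq_comm, map_eq_zero] at hμ
    exact hα0 hμ
  have hμT0 : μT ≠ 0 := by
    have : μT = algebraMap Ω (Ω ⊗[K] L) μ := rfl
    rw [this, Ne, map_eq_zero_iff _ (algebraMap Ω (Ω ⊗[K] L)).injective]
    exact hμ0
  have hinjQ : Function.Injective (algebraMap (Ω ⊗[K] L) (LL K L Ω)) :=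
    IsFractionRing.injective _ _
  have hfs : FaithfulSMul (Ω ⊗[K] L) (LL K L Ω) :=
    (faithfulSMul_iff_algebraMap_injective _ _).mpr hinjQ
  obtain ⟨Φ, hΦ⟩ := exists_equiv (F := Ω) (Q := LL K L Ω) hωT' h3T hμT0 φ hφ V₁ V₂ h12 h21
  -- rational bases
  obtain ⟨r, b₁, hb₁⟩ : ∃ (r : ℕ) (b : Module.Basis (Fin r) Ω V₁),
      ∀ k, (b k : Fin 3 → Ω ⊗[K] L) ∈
        {h : Fin 3 → Ω ⊗[K] L | h ∈ V₁ ∧ ∀ j, h j ∈ RatSub L F₁} :=
    ⟨_, exists_basis_of_span V₁ _ hV₁⟩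
  obtain ⟨b₂', hb₂'⟩ := exists_basis_of_span V₂ _ hV₂
  have hr : Module.finrank Ω V₁ = r := by
    rw [Module.finrank_eq_card_basis b₁, Fintype.card_fin]
  have hrr : Module.finrank Ω V₂ = r := Φ.finrank_eq.symm.trans hr
  let b₂ : Module.Basis (Fin r) Ω V₂ := b₂'.reindex (finCongr hrr)
  have hb₂ : ∀ l, ((b₂ l : V₂) : Fin 3 → Ω ⊗[K] L) ∈
      {h : Fin 3 → Ω ⊗[K] L | h ∈ V₂ ∧ ∀ j, h j ∈ RatSub L F₂} := by
    intro l
    show ((b₂'.reindex (finCongr hrr) l : V₂) : Fin 3 → Ω ⊗[K] L) ∈ _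
    rw [Module.Basis.reindex_apply]
    exact hb₂' _
  let G : Matrix (Fin r) (Fin r) Ω := LinearMap.toMatrix b₁ b₂ (Φ : V₁ →ₗ[Ω] V₂)
  let H : Matrix (Fin r) (Fin r) Ω := LinearMap.toMatrix b₂ b₁ (Φ.symm : V₂ →ₗ[Ω] V₁)
  have hGH : G * H = 1 := by
    show LinearMap.toMatrix b₁ b₂ (Φ : V₁ →ₗ[Ω] V₂) *
      LinearMap.toMatrix b₂ b₁ (Φ.symm : V₂ →ₗ[Ω] V₁) = 1
    rw [← LinearMap.toMatrix_comp]
    have : (Φ : V₁ →ₗ[Ω] V₂) ∘ₗ (Φ.symm : V₂ →ₗ[Ω] V₁) = LinearMap.id := by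
      ext x
      simp
    rw [this, LinearMap.toMatrix_id]
  have hΦb : ∀ k, ((Φ (b₁ k) : V₂) : Fin 3 → Ω ⊗[K] L) =
      ∑ l, G l k • ((b₂ l : V₂) : Fin 3 → Ω ⊗[K] L) := by
    intro k
    have h1 := (b₂.sum_repr (Φ (b₁ k))).symm
    have h2 : ((Φ (b₁ k) : V₂) : Fin 3 → Ω ⊗[K] L) =
        ((∑ l, b₂.repr (Φ (b₁ k)) l • b₂ l : V₂) : Fin 3 → Ω ⊗[K] L) := congrArg _ h1
    rw [h2, Submodule.coe_sum]
    apply Finset.sum_congr rfl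
    intro l _
    rw [Submodule.coe_smul]
    congr 1
    show _ = LinearMap.toMatrix b₁ b₂ (Φ : V₁ →ₗ[Ω] V₂) l k
    rw [LinearMap.toMatrix_apply]
    rfl
  -- denominators
  obtain ⟨w, hw⟩ := IsLocalization.exist_integer_multiples_of_finite
    (nonZeroDivisors (Ω ⊗[K] L)) φ
  choose u hu using hw
  have hw0 : (w : Ω ⊗[K] L) ≠ 0 := nonZeroDivisors.ne_zero w.2
  have hu' : ∀ i, algebraMap (Ω ⊗[K] L) (LL K L Ω) (u i) =
      algebraMap (Ω ⊗[K] L) (LL K L Ω) w * φ i := by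
    intro i
    rw [hu i, Algebra.smul_def]
  have hune : ∀ i, u i ≠ 0 := by
    intro i h
    have := hu' i
    rw [h, map_zero, eq_comm, mul_eq_zero, map_eq_zero_iff _ hinjQ] at this
    rcases this with h1 | h1
    · exact hw0 h1
    · exact hφ i h1
  have hrel : ∀ (h : V₁) (i : Fin 3), (w : Ω ⊗[K] L) * cj ωT μT (Φ h) i =
      u i * cj ωT μT (h : Fin 3 → Ω ⊗[K] L) i := by
    intro h i
    apply hinjQ
    rw [map_mul, map_mul, hΦ h i, hu' i]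
    ring
  have hu0 : u 0 = u 1 * cj ωT μT (cst Ω θ) 0 := by
    apply hinjQ
    rw [map_mul, hu' 0, hu' 1, hφ0]
    show _ = _ * φ 1 * algebraMap _ (LL K L Ω) (cjT ω μ (cst Ω θ) 0)
    ring
  have hu1 : u 1 = u 2 * cj ωT μT (cst Ω θ) 1 := by
    apply hinjQ
    rw [map_mul, hu' 1, hu' 2, hφ1]
    show _ = _ * φ 2 * algebraMap _ (LL K L Ω) (cjT ω μ (cst Ω θ) 1)
    ring
  -- the generic extension
  let R := MvPolynomial (Fin r) Ω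
  let Ω' := FractionRing R
  have hdom' : IsDomain (Ω' ⊗[K] L) := hreg Ω'
  let η : Fin r → Ω' := fun k => algebraMap R Ω' (MvPolynomial.X k)
  have hη : AlgebraicIndependent Ω η :=
    (MvPolynomial.algebraicIndependent_X (Fin r) Ω).map' (f := IsScalarTower.toAlgHom Ω R Ω')
      (IsFractionRing.injective R Ω')
  let η' : Fin r → Ω' := fun l => ∑ k, algebraMap Ω Ω' (G l k) * η k
  have hη' : AlgebraicIndependent Ω η' := algInd_linear hη G H hGH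
  let e₁ : Fin r → Fin 3 → Ω ⊗[K] L := fun k => ((b₁ k : V₁) : Fin 3 → Ω ⊗[K] L)
  let e₂ : Fin r → Fin 3 → Ω ⊗[K] L := fun k => ((b₂ k : V₂) : Fin 3 → Ω ⊗[K] L)
  let h : Fin 3 → Ω' ⊗[K] L := gen η e₁
  let h' : Fin 3 → Ω' ⊗[K] L := gen η' e₂
  let J := jx K L Ω Ω'
  have hJinj : Function.Injective J := jx_injective
  have hh' : h' = gen η (fun k => ((Φ (b₁ k) : V₂) : Fin 3 → Ω ⊗[K] L)) := by
    funext j
    show ∑ l, (η' l ⊗ₜ[K] (1 : L)) * J (e₂ l j) =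
      ∑ k, (η k ⊗ₜ[K] (1 : L)) * J (((Φ (b₁ k) : V₂) : Fin 3 → Ω ⊗[K] L) j)
    have s1 : ∀ l, (η' l ⊗ₜ[K] (1 : L)) * J (e₂ l j) =
        ∑ k, (η k ⊗ₜ[K] (1 : L)) * ((algebraMap Ω Ω' (G l k) ⊗ₜ[K] (1 : L)) * J (e₂ l j)) := by
      intro l
      have : η' l ⊗ₜ[K] (1 : L) = ∑ k, (η k ⊗ₜ[K] (1 : L)) *
          (algebraMap Ω Ω' (G l k) ⊗ₜ[K] (1 : L)) := by
        show (∑ k, algebraMap Ω Ω' (G l k) * η k) ⊗ₜ[K] (1 : L) = _
        rw [TensorProduct.sum_tmul]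
        apply Finset.sum_congr rfl
        intro k _
        rw [Algebra.TensorProduct.tmul_mul_tmul, mul_one, mul_comm]
      rw [this, Finset.sum_mul]
      apply Finset.sum_congr rfl
      intro k _
      ring
    have s2 : ∀ k, (η k ⊗ₜ[K] (1 : L)) * J (((Φ (b₁ k) : V₂) : Fin 3 → Ω ⊗[K] L) j) =
        ∑ l, (η k ⊗ₜ[K] (1 : L)) * ((algebraMap Ω Ω' (G l k) ⊗ₜ[K] (1 : L)) * J (e₂ l j)) := by
      intro k
      rw [hΦb k, Finset.sum_apply, map_sum, Finset.mul_sum]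
      apply Finset.sum_congr rfl
      intro l _
      rw [Pi.smul_apply, Algebra.smul_def, map_mul]
      have : J (algebraMap Ω (Ω ⊗[K] L) (G l k)) = algebraMap Ω Ω' (G l k) ⊗ₜ[K] (1 : L) :=
        jx_tmul _ _
      rw [this]
    rw [Finset.sum_congr rfl fun l _ => s1 l, Finset.sum_congr rfl fun k _ => s2 k,
      Finset.sum_comm]
  -- elementary facts in `Ω' ⊗ L`
  let σ : Ω →+* Ω' ⊗[K] L := (algebraMap Ω' (Ω' ⊗[K] L)).comp (algebraMap Ω Ω')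
  let ω' : Ω' ⊗[K] L := algebraMap K (Ω' ⊗[K] L) ω
  let α' : Ω' ⊗[K] L := algebraMap K (Ω' ⊗[K] L) α
  let μ' : Ω' ⊗[K] L := σ μ
  have hσK : ∀ x : K, σ (algebraMap K Ω x) = algebraMap K (Ω' ⊗[K] L) x := by
    intro x
    show (algebraMap Ω' (Ω' ⊗[K] L)) (algebraMap Ω Ω' (algebraMap K Ω x)) = _
    rw [← IsScalarTower.algebraMap_apply K Ω Ω', ← IsScalarTower.algebraMap_apply K Ω' _]
  have hσinj : Function.Injective σ := σ.injective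
  have hJω : J ωT = ω' := J.commutes ω
  have hJμ : J μT = μ' := jx_tmul μ 1
  have hω' : ω' ^ 2 + ω' + 1 = 0 := by
    rw [← hJω, ← map_pow, ← map_add, ← map_one J, ← map_add, hωT', map_zero]
  have hμ'3 : μ' ^ 3 = α' := by
    show σ μ ^ 3 = algebraMap K (Ω' ⊗[K] L) α
    rw [← map_pow, hμ, hσK]
  have h3' : (3 : Ω' ⊗[K] L) ≠ 0 := by
    have : (3 : Ω' ⊗[K] L) = J 3 := by rw [map_ofNat]
    rw [this, Ne, map_eq_zero_iff _ hJinj]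
    exact h3T
  have hμ'0 : μ' ≠ 0 := by
    show σ μ ≠ 0
    rw [Ne, map_eq_zero_iff _ hσinj]
    exact hμ0
  have hcjgen : ∀ (e : Fin r → Fin 3 → Ω ⊗[K] L) (i : ℕ), cj ω' μ' (gen η e) i =
      ∑ k, (η k ⊗ₜ[K] (1 : L)) * J (cj ωT μT (e k) i) := by
    intro e i
    have s1 : (gen η e : Fin 3 → Ω' ⊗[K] L) =
        fun j => ∑ k, (η k ⊗ₜ[K] (1 : L)) * J (e k j) := rfl
    rw [s1, cj_sum ω' μ' Finset.univ (fun k => η k ⊗ₜ[K] (1 : L)) (fun k j => J (e k j)) i]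
    apply Finset.sum_congr rfl
    intro k _
    have s2 := map_cj (J : Ω ⊗[K] L →+* Ω' ⊗[K] L) ωT μT (e k) i
    simp only [RingHom.coe_coe] at s2
    rw [s2, hJω, hJμ]
  have huJ : ∀ i : Fin 3, J w * cj ω' μ' h' i = J (u i) * cj ω' μ' h i := by
    intro i
    rw [hh', hcjgen]
    show _ = J (u i) * cj ω' μ' (gen η e₁) i
    rw [hcjgen, Finset.mul_sum, Finset.mul_sum]
    apply Finset.sum_congr rfl
    intro k _
    have s1 := congrArg J (hrel (b₁ k) i)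
    rw [map_mul, map_mul] at s1
    linear_combination (η k ⊗ₜ[K] (1 : L)) * s1
  have hnn1 : nf α' (h 0) (h 1) (h 2) ≠ 0 := by
    obtain ⟨h₀, hh₀, hne₀⟩ := hne
    refine nf_gen_ne_zero hη e₁ α (fun k => b₁.repr ⟨h₀, hh₀⟩ k) h₀ ?_ hne₀
    have h1 := (b₁.sum_repr ⟨h₀, hh₀⟩).symm
    have h2 := congrArg (fun x : V₁ => (x : Fin 3 → Ω ⊗[K] L)) h1
    dsimp only at h2
    rw [Submodule.coe_sum] at h2
    exact h2
  have hnn2 : nf α' (h' 0) (h' 1) (h' 2) ≠ 0 := by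
    have s1 := nf_eq_prod_cj ω' μ' h hω'
    have s2 := nf_eq_prod_cj ω' μ' h' hω'
    rw [hμ'3] at s1 s2
    have k0 := huJ 0
    have k1 := huJ 1
    have k2 := huJ 2
    simp only [Fin.val_zero, Fin.val_one, Fin.val_two] at k0 k1 k2
    have s3 : J w ^ 3 * nf α' (h' 0) (h' 1) (h' 2) =
        J (u 0) * J (u 1) * J (u 2) * nf α' (h 0) (h 1) (h 2) := by
      rw [s1, s2]
      calc J w ^ 3 * (cj ω' μ' h' 0 * cj ω' μ' h' 1 * cj ω' μ' h' 2) =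
          (J w * cj ω' μ' h' 0) * (J w * cj ω' μ' h' 1) * (J w * cj ω' μ' h' 2) := by ring
        _ = _ := by rw [k0, k1, k2]; ring
    intro h0
    rw [h0, mul_zero, eq_comm] at s3
    have hJne : ∀ i, J (u i) ≠ 0 := fun i => by
      rw [Ne, map_eq_zero_iff _ hJinj]; exact hune i
    exact mul_ne_zero (mul_ne_zero (mul_ne_zero (hJne 0) (hJne 1)) (hJne 2)) hnn1 s3
  -- the two triples
  let θ' : Fin 3 → Ω' ⊗[K] L := fun j => 1 ⊗ₜ θ j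
  let ξ₁' : Fin 3 → Ω' ⊗[K] L := fun j => σ (ξ₁ j)
  let ξ₂' : Fin 3 → Ω' ⊗[K] L := fun j => σ (ξ₂ j)
  have hJθ : ∀ j, J (cst Ω θ j) = θ' j := by
    intro j
    show J ((1 : Ω) ⊗ₜ θ j) = 1 ⊗ₜ θ j
    rw [show J ((1 : Ω) ⊗ₜ θ j) = algebraMap Ω Ω' 1 ⊗ₜ θ j from jx_tmul 1 (θ j), map_one]
  have hJcjθ : ∀ i, J (cj ωT μT (cst Ω θ) i) = cj ω' μ' θ' i := by
    intro i
    have s2 := map_cj (J : Ω ⊗[K] L →+* Ω' ⊗[K] L) ωT μT (cst Ω θ) i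
    simp only [RingHom.coe_coe] at s2
    rw [s2, hJω, hJμ]
    congr 1
    funext j
    exact hJθ j
  have hnfθ : nf α' (θ' 0) (θ' 1) (θ' 2) = algebraMap K (Ω' ⊗[K] L) a := by
    let ρ : L →ₐ[K] Ω' ⊗[K] L := Algebra.TensorProduct.includeRight
    have s1 := congrArg ρ hθ
    have s2 := map_nf (ρ : L →+* Ω' ⊗[K] L) (algebraMap K L α) (θ 0) (θ 1) (θ 2)
    simp only [RingHom.coe_coe] at s2
    rw [s2, AlgHom.commutes, AlgHom.commutes] at s1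
    exact s1
  have hnfξ₁ : nf α' (ξ₁' 0) (ξ₁' 1) (ξ₁' 2) = algebraMap K (Ω' ⊗[K] L) (b / a) := by
    have s1 := congrArg σ hξ₁
    rwa [map_nf, hσK, hσK] at s1
  have hnfξ₂ : nf α' (ξ₂' 0) (ξ₂' 1) (ξ₂' 2) = algebraMap K (Ω' ⊗[K] L) (b / a ^ 2) := by
    have s1 := congrArg σ hξ₂
    rwa [map_nf, hσK, hσK] at s1
  have hcjξ : ∀ (x : Fin 3 → Ω) (i : ℕ), cj ω' μ' (fun j => σ (x j)) i =
      σ (cj (algebraMap K Ω ω) μ x i) := by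
    intro x i
    rw [map_cj, hσK]
  have hv0 : v 0 ≠ 0 := by
    intro h0
    have s1 := nf_eq_prod_cj (algebraMap K Ω ω) μ ξ₁ (by
      rw [← map_pow, ← map_add, ← map_one (algebraMap K Ω), ← map_add, hω, map_zero])
    rw [hμ, hξ₁, e10, h0, zero_mul, zero_mul, map_eq_zero] at s1
    exact div_ne_zero hb0 ha0 s1
  have hv1 : v 1 ≠ 0 := by
    intro h0
    have s1 := nf_eq_prod_cj (algebraMap K Ω ω) μ ξ₁ (by
      rw [← map_pow, ← map_add, ← map_one (algebraMap K Ω), ← map_add, hω, map_zero])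
    rw [hμ, hξ₁, e11, h0, mul_zero, zero_mul, map_eq_zero] at s1
    exact div_ne_zero hb0 ha0 s1
  let G₁ : Fin 3 → Ω' ⊗[K] L := gT ω' α' ξ₁' θ' h
  let G₂ : Fin 3 → Ω' ⊗[K] L := gT ω' α' ξ₂' (mulT α' θ' θ') h'
  have hG : ∀ j, G₁ j * nf α' (h' 0) (h' 1) (h' 2) = G₂ j * nf α' (h 0) (h 1) (h 2) := by
    intro j
    refine g_rel (a := algebraMap K (Ω' ⊗[K] L) a) (v0 := σ (v 0)) (v1 := σ (v 1)) (w := J w)
      (u := fun i => J (u i)) hω' hμ'3 h3' hμ'0 ?_ huJ ?_ ?_ hnfθ ?_ ?_ ?_ ?_ ?_ ?_ ?_ j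
    · rw [Ne, map_eq_zero_iff _ hJinj]; exact hw0
    · show J (u 0) = J (u 1) * cj ω' μ' θ' 0
      rw [hu0, map_mul, hJcjθ]
    · show J (u 1) = J (u 2) * cj ω' μ' θ' 1
      rw [hu1, map_mul, hJcjθ]
    · rw [hcjξ, e10]
    · rw [hcjξ, e11]
    · rw [hcjξ, e20]
    · rw [hcjξ, e21]
    · rw [Ne, map_eq_zero_iff _ hσinj]; exact hv0
    · rw [Ne, map_eq_zero_iff _ hσinj]; exact hv1
    · rw [hnfξ₁, hnfξ₂, ← map_mul]
      congr 1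
      field_simp
  -- fields of definition
  let E₁ : IntermediateField K Ω' :=
    (IntermediateField.adjoin F₁ (Set.range η)).restrictScalars K
  let E₂ : IntermediateField K Ω' :=
    (IntermediateField.adjoin F₂ (Set.range η')).restrictScalars K
  have hF₁E : ∀ c ∈ F₁, algebraMap Ω Ω' c ∈ E₁ := by
    intro c hc
    exact (IntermediateField.adjoin F₁ (Set.range η)).algebraMap_mem ⟨c, hc⟩
  have hF₂E : ∀ c ∈ F₂, algebraMap Ω Ω' c ∈ E₂ := by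
    intro c hc
    exact (IntermediateField.adjoin F₂ (Set.range η')).algebraMap_mem ⟨c, hc⟩
  have hηE : ∀ k, η k ∈ E₁ := fun k => IntermediateField.subset_adjoin F₁ _ ⟨k, rfl⟩
  have hη'E : ∀ k, η' k ∈ E₂ := fun k => IntermediateField.subset_adjoin F₂ _ ⟨k, rfl⟩
  have hE₁a := not_isNm_adjoin F₁ hη α a hF₁
  have hE₂a := not_isNm_adjoin F₂ hη' α a hF₂
  have hhm : ∀ j, h j ∈ RatSub L E₁ := gen_mem hF₁E hηE fun k j => (hb₁ k).2 j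
  have hh'm : ∀ j, h' j ∈ RatSub L E₂ := gen_mem hF₂E hη'E fun k j => (hb₂ k).2 j
  have hξ₁m : ∀ j, ξ₁' j ∈ RatSub L E₁ := fun j => tmul_mem_RatSub (hF₁E _ (hξ₁F j)) 1
  have hξ₂m : ∀ j, ξ₂' j ∈ RatSub L E₂ := fun j => tmul_mem_RatSub (hF₂E _ (hξ₂F j)) 1
  have hθm : ∀ (E : IntermediateField K Ω') (j : Fin 3), θ' j ∈ RatSub L E :=
    fun E j => tmul_mem_RatSub (one_mem E) (θ j)
  have hKm : ∀ (E : IntermediateField K Ω') (x : K), algebraMap K (Ω' ⊗[K] L) x ∈ RatSub L E :=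
    fun E x => (RatSub L E).algebraMap_mem x
  have hn1m : nf α' (h 0) (h 1) (h 2) ∈ RatSub L E₁ :=
    nf_mem _ (hKm E₁ α) (hhm 0) (hhm 1) (hhm 2)
  have hn2m : nf α' (h' 0) (h' 1) (h' 2) ∈ RatSub L E₂ :=
    nf_mem _ (hKm E₂ α) (hh'm 0) (hh'm 1) (hh'm 2)
  have hG₁m : ∀ j, G₁ j ∈ RatSub L E₁ := gT_mem _ (hKm E₁ ω) (hKm E₁ α) hξ₁m (hθm E₁) hhm
  have hG₂m : ∀ j, G₂ j ∈ RatSub L E₂ :=
    gT_mem _ (hKm E₂ ω) (hKm E₂ α) hξ₂m (mulT_mem _ (hKm E₂ α) (hθm E₂) (hθm E₂)) hh'm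
  obtain ⟨n, GG, hn, hGG, hn0, hGn⟩ := exists_inter K L Ω' E₁ E₂ (nf α' (h 0) (h 1) (h 2))
    (nf α' (h' 0) (h' 1) (h' 2)) G₁ G₂ hn1m hn2m hG₁m hG₂m hnn1 hnn2 hG
  have hnfGG : nf α' (GG 0) (GG 1) (GG 2) = algebraMap K (Ω' ⊗[K] L) b * n ^ 3 := by
    apply mul_left_cancel₀ (pow_ne_zero 3 hnn1)
    rw [← nf_smul, mul_comm _ (GG 0), mul_comm _ (GG 1), mul_comm _ (GG 2), hGn 0, hGn 1, hGn 2,
      mul_comm (G₁ 0), mul_comm (G₁ 1), mul_comm (G₁ 2), nf_smul]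
    have s1 : nf α' (G₁ 0) (G₁ 1) (G₁ 2) = nf α' (ξ₁' 0) (ξ₁' 1) (ξ₁' 2) *
        nf α' (θ' 0) (θ' 1) (θ' 2) * nf α' (h 0) (h 1) (h 2) ^ 3 := nf_gT hω' ξ₁' θ' h
    rw [s1, hnfξ₁, hnfθ, ← map_mul]
    have s2 : b / a * a = b := by field_simp
    rw [s2]
    ring
  -- independence over the intersection
  have hEC : EC K ↥(E₁ ⊓ E₂) := by
    apply hec
    let i₁ : ↥(E₁ ⊓ E₂) →ₐ[K] E₁ := IntermediateField.inclusion inf_le_left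
    let i₂ : ↥(E₁ ⊓ E₂) →ₐ[K] E₂ := IntermediateField.inclusion inf_le_right
    have hinj := (algebraMap K ↥(E₁ ⊓ E₂)).injective
    refine indep_of_two (i₁ : ↥(E₁ ⊓ E₂) →+* E₁) (i₂ : ↥(E₁ ⊓ E₂) →+* E₂) ?_ ?_ ?_ ?_ ?_ ?_ ?_
    · rw [Ne, map_eq_zero_iff _ hinj]; exact hα0
    · rw [Ne, map_eq_zero_iff _ hinj]; exact ha0
    · rw [Ne, map_eq_zero_iff _ hinj]; exact hb0
    · rw [← map_div₀]
      simp only [RingHom.coe_coe, AlgHom.commutes]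
      refine ⟨⟨_, hF₁E _ (hξ₁F 0)⟩, ⟨_, hF₁E _ (hξ₁F 1)⟩, ⟨_, hF₁E _ (hξ₁F 2)⟩, ?_⟩
      apply (algebraMap E₁ Ω').injective
      rw [map_nf]
      have s1 := congrArg (algebraMap Ω Ω') hξ₁
      rw [map_nf, ← IsScalarTower.algebraMap_apply, ← IsScalarTower.algebraMap_apply] at s1
      exact s1
    · simp only [RingHom.coe_coe, AlgHom.commutes]
      exact hE₁a
    · rw [← map_pow, ← map_div₀]
      simp only [RingHom.coe_coe, AlgHom.commutes]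
      refine ⟨⟨_, hF₂E _ (hξ₂F 0)⟩, ⟨_, hF₂E _ (hξ₂F 1)⟩, ⟨_, hF₂E _ (hξ₂F 2)⟩, ?_⟩
      apply (algebraMap E₂ Ω').injective
      rw [map_nf]
      have s1 := congrArg (algebraMap Ω Ω') hξ₂
      rw [map_nf, ← IsScalarTower.algebraMap_apply, ← IsScalarTower.algebraMap_apply] at s1
      exact s1
    · simp only [RingHom.coe_coe, AlgHom.commutes]
      exact hE₂a
  exact isNm_of_rat K L Ω' (E₁ ⊓ E₂) hEC α b n GG hn hGG hn0 hnfGG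

end FA

end Pool.Agent.D5741
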