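import Mathlib
import Pool.Agent.Lib.MP_d5741c_al.FAFinal
import Pool.Agent.Lib.MP_d5741c_al.Mg.G003
import Pool.Agent.Lib.MP_d5741c_al.Mg.G002
import Pool.Agent.Lib.MP_d5741c_al.Mg.G001

/-!
# The main theorem for finite extensions
-/

set_option autoImplicit false

namespace Pool.Agent.D5741

open scoped TensorProduct

namespace CZ

open FA

/-- Specialisation of a rational solution without denominators. -/
theorem isNm_of_rat' (K L Ω : Type) [Field K] [Field L] [Algebra K L] [FiniteDimensional K L]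
    [Field Ω] [Algebra K Ω] (K' : IntermediateField K Ω) (hec : EC K K') (α b : K)
    (G : Fin 3 → Ω ⊗[K] L) (hG : ∀ j, G j ∈ RatSub L K')
    (h : nf (algebraMap K (Ω ⊗[K] L) α) (G 0) (G 1) (G 2) = algebraMap K (Ω ⊗[K] L) b) :
    IsNm (algebraMap K L α) (algebraMap K L b) := by
  refine isNm_of_rat K L Ω K' hec α b 1 G (one_mem _) hG ?_ ?_
  · have : (algebraMap Ω (Ω ⊗[K] L)) 1 = 1 := map_one _
    exact one_ne_zero
  · rw [h, one_pow, mul_one]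

/-- The identity behind the two-field trick, with unit factors. -/
theorem rel {R : Type*} [CommRing R] {ω μ μ' c α a : R} (hω : ω ^ 2 + ω + 1 = 0) (hμ : μ ^ 3 = α)
    (hμ' : μ * μ' = 1) (hc : 3 * c = 1) {ξ₁ ξ₂ θ h h' : Fin 3 → R} {u : Fin 3 → R}
    (hu : ∀ i : Fin 3, cj ω μ h' i = u i * cj ω μ h i)
    (hu0 : u 0 = u 1 * cj ω μ θ 0) (hu1 : u 1 = u 2 * cj ω μ θ 1)
    (hθ : nf α (θ 0) (θ 1) (θ 2) = a)
    (e0 : cj ω μ ξ₁ 0 = cj ω μ ξ₂ 0) (e1 : cj ω μ ξ₁ 1 = cj ω μ ξ₂ 1)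
    (e2 : cj ω μ ξ₁ 2 = a * cj ω μ ξ₂ 2) (j : Fin 3) :
    gT ω α ξ₁ θ h j * nf α (h' 0) (h' 1) (h' 2) =
      gT ω α ξ₂ (mulT α θ θ) h' j * nf α (h 0) (h 1) (h 2) := by
  have c0 : ∀ x : Fin 3 → R, cj ω μ x 3 = cj ω μ x 0 := fun x => cj_add_three ω μ x 0 hω
  have c1 : ∀ x : Fin 3 → R, cj ω μ x 4 = cj ω μ x 1 := fun x => cj_add_three ω μ x 1 hω
  have hn := nf_eq_prod_cj ω μ h hω
  have hn' := nf_eq_prod_cj ω μ h' hω
  have hnθ := nf_eq_prod_cj ω μ θ hω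
  rw [hμ] at hn hn' hnθ
  rw [hθ] at hnθ
  have k0 := hu 0
  have k1 := hu 1
  have k2 := hu 2
  simp only [Fin.val_zero, Fin.val_one, Fin.val_two] at k0 k1 k2
  have key : (fun j => gT ω α ξ₁ θ h j * nf α (h' 0) (h' 1) (h' 2)) =
      fun j => gT ω α ξ₂ (mulT α θ θ) h' j * nf α (h 0) (h 1) (h 2) := by
    refine Pool.Agent.D5741.cj_injective hω hμ' hc ?_
    intro i
    fin_cases i
    · simp only [Fin.zero_eta, Fin.isValue, Fin.val_zero]
      rw [cj_mul_const, cj_mul_const, cj_gT hω hμ, cj_gT hω hμ, cj_mulT hω hμ, hn, hn', e0]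
      simp only [zero_add]
      rw [k0, k1, k2, hu0]
      ring
    · simp only [Fin.mk_one, Fin.isValue, Fin.val_one]
      rw [cj_mul_const, cj_mul_const, cj_gT hω hμ, cj_gT hω hμ, cj_mulT hω hμ, hn, hn', e1]
      norm_num only [c0]
      rw [k0, k1, k2, hu1]
      ring
    · simp only [Fin.reduceFinMk, Fin.isValue, Fin.val_two]
      rw [cj_mul_const, cj_mul_const, cj_gT hω hμ, cj_gT hω hμ, cj_mulT hω hμ, hn, hn', e2]
      norm_num only [c0, c1]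
      rw [k0, k1, k2, hnθ, hu0, hu1]
      ring
  exact congrFun key j

section Ext

variable {K L Ω Ω' : Type} [Field K] [Field L] [Algebra K L] [Field Ω] [Algebra K Ω] [Field Ω']
  [Algebra K Ω'] [Algebra Ω Ω'] [IsScalarTower K Ω Ω']

/-- The generic combination is a unit if some special combination is. -/
theorem nf_gen_isUnit {n : ℕ} (b : Module.Basis (Fin n) K L) {r : ℕ} {η : Fin r → Ω'}
    (hη : AlgebraicIndependent Ω η)
    (e : Fin r → Fin 3 → Ω ⊗[K] L) (α : K) (c : Fin r → Ω) (h0 : Fin 3 → Ω ⊗[K] L)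
    (hc : h0 = ∑ k, c k • e k)
    (hne : IsUnit (nf (algebraMap K (Ω ⊗[K] L) α) (h0 0) (h0 1) (h0 2))) :
    IsUnit (nf (algebraMap K (Ω' ⊗[K] L) α) (gen η e 0) (gen η e 1) (gen η e 2)) := by
  let R := MvPolynomial (Fin r) Ω
  let ιc : R →ₐ[K] Ω' := (MvPolynomial.aeval η).restrictScalars K
  let evc : R →ₐ[K] Ω := (MvPolynomial.aeval c : R →ₐ[Ω] Ω).restrictScalars K
  let ι : R ⊗[K] L →ₐ[K] Ω' ⊗[K] L := Algebra.TensorProduct.map ιc (AlgHom.id K L)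
  let ev : R ⊗[K] L →ₐ[K] Ω ⊗[K] L := Algebra.TensorProduct.map evc (AlgHom.id K L)
  let j₀ : Ω ⊗[K] L →ₐ[K] R ⊗[K] L :=
    Algebra.TensorProduct.map (IsScalarTower.toAlgHom K Ω R) (AlgHom.id K L)
  have e1 : ∀ x, ι (j₀ x) = jx K L Ω Ω' x := by
    intro x
    induction x using TensorProduct.induction_on with
    | zero => simp
    | add a b ha hb => rw [map_add, map_add, map_add, ha, hb]
    | tmul a l =>
      rw [jx_tmul]
      show ι ((algebraMap Ω R a) ⊗ₜ l) = _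
      show (MvPolynomial.aeval η (algebraMap Ω R a)) ⊗ₜ[K] l = _
      rw [MvPolynomial.algebraMap_eq, MvPolynomial.aeval_C]
  have e2 : ∀ x, ev (j₀ x) = x := by
    intro x
    induction x using TensorProduct.induction_on with
    | zero => simp
    | add a b ha hb => rw [map_add, map_add, ha, hb]
    | tmul a l =>
      show (MvPolynomial.aeval c (algebraMap Ω R a)) ⊗ₜ[K] l = _
      rw [MvPolynomial.algebraMap_eq, MvPolynomial.aeval_C]
      rfl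
  let g : Fin 3 → R ⊗[K] L := fun j => ∑ k, ((MvPolynomial.X k : R) ⊗ₜ 1) * j₀ (e k j)
  have g1 : ∀ j, ι (g j) = gen η e j := by
    intro j
    simp only [g, gen]
    rw [map_sum]
    apply Finset.sum_congr rfl
    intro k _
    rw [map_mul, e1]
    congr 1
    show (MvPolynomial.aeval η (MvPolynomial.X k : R)) ⊗ₜ[K] (1 : L) = _
    rw [MvPolynomial.aeval_X]
  have g2 : ∀ j, ev (g j) = h0 j := by
    intro j
    simp only [g, hc]
    rw [map_sum, Finset.sum_apply]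
    apply Finset.sum_congr rfl
    intro k _
    rw [map_mul, e2, Pi.smul_apply]
    have : ev ((MvPolynomial.X k : R) ⊗ₜ 1) = (c k) ⊗ₜ[K] (1 : L) := by
      show (MvPolynomial.aeval c (MvPolynomial.X k : R)) ⊗ₜ[K] (1 : L) = _
      rw [MvPolynomial.aeval_X]
    rw [this, Algebra.smul_def]
    rfl
  have h1 : ι (nf (algebraMap K (R ⊗[K] L) α) (g 0) (g 1) (g 2)) =
      nf (algebraMap K (Ω' ⊗[K] L) α) (gen η e 0) (gen η e 1) (gen η e 2) := by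
    have := map_nf (ι : R ⊗[K] L →+* Ω' ⊗[K] L) (algebraMap K (R ⊗[K] L) α) (g 0) (g 1) (g 2)
    simp only [RingHom.coe_coe] at this
    rw [this, g1, g1, g1, AlgHom.commutes]
  have h2 : ev (nf (algebraMap K (R ⊗[K] L) α) (g 0) (g 1) (g 2)) =
      nf (algebraMap K (Ω ⊗[K] L) α) (h0 0) (h0 1) (h0 2) := by
    have := map_nf (ev : R ⊗[K] L →+* Ω ⊗[K] L) (algebraMap K (R ⊗[K] L) α) (g 0) (g 1) (g 2)
    simp only [RingHom.coe_coe] at this
    rw [this, g2, g2, g2, AlgHom.commutes]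
  rw [← h1]
  refine isUnit_of_specialise b evc ιc hη _ ?_
  show IsUnit (ev _)
  rw [h2]
  exact hne

end Ext

/-- The rational vectors span. -/
theorem top_eq_span {K L Ω : Type} [Field K] [Field L] [Algebra K L] [Field Ω] [Algebra K Ω]
    {n : ℕ} (b : Module.Basis (Fin n) K L) (F : IntermediateField K Ω) :
    (⊤ : Submodule Ω (Fin 3 → Ω ⊗[K] L)) = Submodule.span Ω {h : Fin 3 → Ω ⊗[K] L |
      h ∈ (⊤ : Submodule Ω (Fin 3 → Ω ⊗[K] L)) ∧ ∀ j, h j ∈ RatSub L F} := by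
  symm
  rw [eq_top_iff]
  intro h _
  have h1 : h = ∑ j : Fin 3, ∑ k : Fin n, (Algebra.TensorProduct.basis Ω b).repr (h j) k •
      Pi.single (M := fun _ => Ω ⊗[K] L) j ((1 : Ω) ⊗ₜ[K] b k) := by
    ext i
    rw [Finset.sum_apply]
    rw [Finset.sum_eq_single i]
    · rw [Finset.sum_apply]
      conv_lhs => rw [← (Algebra.TensorProduct.basis Ω b).sum_repr (h i)]
      refine Finset.sum_congr rfl fun k _ => ?_
      rw [Pi.smul_apply, Pi.single_eq_same, Algebra.TensorProduct.basis_apply]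
    · intro j _ hj
      rw [Finset.sum_apply]
      refine Finset.sum_eq_zero fun k _ => ?_
      rw [Pi.smul_apply, Pi.single_eq_of_ne (Ne.symm hj), smul_zero]
    · intro hi
      exact absurd (Finset.mem_univ i) hi
  rw [h1]
  refine Submodule.sum_mem _ fun j _ => Submodule.sum_mem _ fun k _ => Submodule.smul_mem _ _ ?_
  refine Submodule.subset_span ⟨trivial, ?_⟩
  intro i
  by_cases hij : i = j
  · subst hij
    rw [Pi.single_eq_same]
    exact tmul_mem_RatSub (one_mem F) _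
  · rw [Pi.single_eq_of_ne hij]
    exact zero_mem _

/-- The two-field argument for finite extensions. -/
theorem final (K : Type) [Field K] [CharZero K] (ω α a b : K) (hω : ω ^ 2 + ω + 1 = 0)
    (hα0 : α ≠ 0) (ha0 : a ≠ 0) (hb0 : b ≠ 0)
    (hec : ∀ (K' : Type) [Field K'] [Algebra K K'],
      Indep (algebraMap K K' α) (algebraMap K K' a) (algebraMap K K' b) → EC K K')
    (L : Type) [Field L] [Algebra K L] [FiniteDimensional K L]
    (θ : Fin 3 → L) (hθ : nf (algebraMap K L α) (θ 0) (θ 1) (θ 2) = algebraMap K L a)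
    (Ω : Type) [Field Ω] [Algebra K Ω] (μ : Ω)
    (hμ : μ ^ 3 = algebraMap K Ω α) (F₁ F₂ : IntermediateField K Ω)
    (hF₁ : ¬ IsNm (algebraMap K F₁ α) (algebraMap K F₁ a))
    (hF₂ : ¬ IsNm (algebraMap K F₂ α) (algebraMap K F₂ a))
    (ξ₁ ξ₂ : Fin 3 → Ω) (hξ₁F : ∀ i, ξ₁ i ∈ F₁) (hξ₂F : ∀ i, ξ₂ i ∈ F₂)
    (hξ₁ : nf (algebraMap K Ω α) (ξ₁ 0) (ξ₁ 1) (ξ₁ 2) = algebraMap K Ω (b / a))
    (hξ₂ : nf (algebraMap K Ω α) (ξ₂ 0) (ξ₂ 1) (ξ₂ 2) = algebraMap K Ω (b / a ^ 2))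
    (v : Fin 2 → Ω)
    (e10 : cj (algebraMap K Ω ω) μ ξ₁ 0 = v 0) (e11 : cj (algebraMap K Ω ω) μ ξ₁ 1 = v 1)
    (e20 : cj (algebraMap K Ω ω) μ ξ₂ 0 = v 0) (e21 : cj (algebraMap K Ω ω) μ ξ₂ 1 = v 1) :
    IsNm (algebraMap K L α) (algebraMap K L b) := by
  classical
  obtain ⟨n, ⟨b₀⟩⟩ : ∃ n, Nonempty (Module.Basis (Fin n) K L) :=
    ⟨_, ⟨Module.finBasis K L⟩⟩
  -- elementary facts
  have hωΩ : (algebraMap K Ω ω) ^ 2 + algebraMap K Ω ω + 1 = 0 := by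
    rw [← map_pow, ← map_add, ← map_one (algebraMap K Ω), ← map_add, hω, map_zero]
  have hprodt := cjT_cst_prod (L := L) hω hμ hθ
  set A : Ω ⊗[K] L := algebraMap K (Ω ⊗[K] L) a with hA
  set A' : Ω ⊗[K] L := algebraMap K (Ω ⊗[K] L) a⁻¹ with hA'
  have hAA : A * A' = 1 := by
    rw [hA, hA', ← map_mul, mul_inv_cancel₀ ha0, map_one]
  set t0 := cjT ω μ (cst Ω θ) 0 with ht0
  set t1 := cjT ω μ (cst Ω θ) 1 with ht1
  set t2 := cjT ω μ (cst Ω θ) 2 with ht2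
  let u : Fin 3 → Ω ⊗[K] L := ![1, A' * (t1 * t2), A' * t2]
  let u' : Fin 3 → Ω ⊗[K] L := ![1, t0, t0 * t1]
  have huu : ∀ i, u i * u' i = 1 := by
    intro i
    fin_cases i
    · exact mul_one 1
    · show A' * (t1 * t2) * t0 = 1
      linear_combination A' * hprodt + hAA
    · show A' * t2 * (t0 * t1) = 1
      linear_combination A' * hprodt + hAA
  have hu0 : u 0 = u 1 * t0 := by
    show 1 = A' * (t1 * t2) * t0
    linear_combination -A' * hprodt - hAA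
  have hu1 : u 1 = u 2 * t1 := by
    show A' * (t1 * t2) = A' * t2 * t1
    ring
  -- the automorphism of the space of triples
  let V := Fin 3 → Ω ⊗[K] L
  let Φ₀ : V → V := fun h => dftT ω μ (fun i => u i * cjT ω μ h i)
  let Φ₁ : V → V := fun h => dftT ω μ (fun i => u' i * cjT ω μ h i)
  have hΦ₀ : ∀ h (i : Fin 3), cjT ω μ (Φ₀ h) i = u i * cjT ω μ h i :=
    fun h i => cjT_dftT hω hα0 hμ _ i
  have hΦ₁ : ∀ h (i : Fin 3), cjT ω μ (Φ₁ h) i = u' i * cjT ω μ h i :=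
    fun h i => cjT_dftT hω hα0 hμ _ i
  let Φ : V ≃ₗ[Ω] V :=
    { toFun := Φ₀
      invFun := Φ₁
      map_add' := fun x y => by
        refine cjT_injective hω hα0 hμ fun i => ?_
        rw [hΦ₀, cjT_add, cjT_add, hΦ₀, hΦ₀]
        ring
      map_smul' := fun c x => by
        refine cjT_injective hω hα0 hμ fun i => ?_
        rw [hΦ₀, cjT_smul, RingHom.id_apply, cjT_smul, hΦ₀, mul_smul_comm]
      left_inv := fun x => by
        refine cjT_injective hω hα0 hμ fun i => ?_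
        rw [hΦ₁, hΦ₀, ← mul_assoc, mul_comm (u' i), huu, one_mul]
      right_inv := fun x => by
        refine cjT_injective hω hα0 hμ fun i => ?_
        rw [hΦ₀, hΦ₁, ← mul_assoc, huu, one_mul] }
  have hrel : ∀ (h : V) (i : Fin 3), cjT ω μ (Φ h) i = u i * cjT ω μ h i := hΦ₀
  -- rational bases
  have hfd : FiniteDimensional Ω V := inferInstance
  obtain ⟨r, hr⟩ : ∃ r, Module.finrank Ω (⊤ : Submodule Ω V) = r := ⟨_, rfl⟩
  obtain ⟨b₁', hb₁'⟩ := exists_basis_of_span (⊤ : Submodule Ω V) _ (top_eq_span b₀ F₁)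
  obtain ⟨b₂', hb₂'⟩ := exists_basis_of_span (⊤ : Submodule Ω V) _ (top_eq_span b₀ F₂)
  let b₁ : Module.Basis (Fin r) Ω V := (b₁'.map Submodule.topEquiv).reindex (finCongr hr)
  let b₂ : Module.Basis (Fin r) Ω V := (b₂'.map Submodule.topEquiv).reindex (finCongr hr)
  have hb₁ : ∀ k j, b₁ k j ∈ RatSub L F₁ := by
    intro k j
    show ((b₁'.map Submodule.topEquiv).reindex (finCongr hr)) k j ∈ _
    rw [Module.Basis.reindex_apply, Module.Basis.map_apply]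
    exact (hb₁' _).2 j
  have hb₂ : ∀ k j, b₂ k j ∈ RatSub L F₂ := by
    intro k j
    show ((b₂'.map Submodule.topEquiv).reindex (finCongr hr)) k j ∈ _
    rw [Module.Basis.reindex_apply, Module.Basis.map_apply]
    exact (hb₂' _).2 j
  let G : Matrix (Fin r) (Fin r) Ω := LinearMap.toMatrix b₁ b₂ (Φ : V →ₗ[Ω] V)
  let H : Matrix (Fin r) (Fin r) Ω := LinearMap.toMatrix b₂ b₁ (Φ.symm : V →ₗ[Ω] V)
  have hGH : G * H = 1 := by
    show LinearMap.toMatrix b₁ b₂ (Φ : V →ₗ[Ω] V) *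
      LinearMap.toMatrix b₂ b₁ (Φ.symm : V →ₗ[Ω] V) = 1
    rw [← LinearMap.toMatrix_comp]
    have : (Φ : V →ₗ[Ω] V) ∘ₗ (Φ.symm : V →ₗ[Ω] V) = LinearMap.id := by
      apply LinearMap.ext
      intro x
      exact Φ.apply_symm_apply x
    rw [this, LinearMap.toMatrix_id]
  have hΦb : ∀ k, Φ (b₁ k) = ∑ l, G l k • b₂ l := by
    intro k
    have h1 := (b₂.sum_repr (Φ (b₁ k))).symm
    rw [h1]
    apply Finset.sum_congr rfl
    intro l _
    congr 1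
    show _ = LinearMap.toMatrix b₁ b₂ (Φ : V →ₗ[Ω] V) l k
    rw [LinearMap.toMatrix_apply]
    rfl
  -- the generic extension
  let R := MvPolynomial (Fin r) Ω
  let Ω' := FractionRing R
  let η : Fin r → Ω' := fun k => algebraMap R Ω' (MvPolynomial.X k)
  have hη : AlgebraicIndependent Ω η :=
    (MvPolynomial.algebraicIndependent_X (Fin r) Ω).map' (f := IsScalarTower.toAlgHom Ω R Ω')
      (IsFractionRing.injective R Ω')
  let η' : Fin r → Ω' := fun l => ∑ k, algebraMap Ω Ω' (G l k) * η k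
  have hη' : AlgebraicIndependent Ω η' := algInd_linear hη G H hGH
  let e₁ : Fin r → Fin 3 → Ω ⊗[K] L := fun k => b₁ k
  let e₂ : Fin r → Fin 3 → Ω ⊗[K] L := fun k => b₂ k
  let h : Fin 3 → Ω' ⊗[K] L := gen η e₁
  let h' : Fin 3 → Ω' ⊗[K] L := gen η' e₂
  let J := jx K L Ω Ω'
  have hh' : h' = gen η (fun k => Φ (b₁ k)) := by
    funext j
    show ∑ l, (η' l ⊗ₜ[K] (1 : L)) * J (e₂ l j) =
      ∑ k, (η k ⊗ₜ[K] (1 : L)) * J ((Φ (b₁ k)) j)
    have s1 : ∀ l, (η' l ⊗ₜ[K] (1 : L)) * J (e₂ l j) =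
        ∑ k, (η k ⊗ₜ[K] (1 : L)) * ((algebraMap Ω Ω' (G l k) ⊗ₜ[K] (1 : L)) * J (e₂ l j)) := by
      intro l
      have : η' l ⊗ₜ[K] (1 : L) = ∑ k, (η k ⊗ₜ[K] (1 : L)) *
          (algebraMap Ω Ω' (G l k) ⊗ₜ[K] (1 : L)) := by
        show (∑ k, algebraMap Ω Ω' (G l k) * η k) ⊗ₜ[K] (1 : L) = _
        rw [TensorProduct.sum_tmul]
        apply Finset.sum_congr rfl
        intro k _
        rw [Algebra.TensorProduct.tmul_mul_tmul, mul_one, mul_comm]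
      rw [this, Finset.sum_mul]
      apply Finset.sum_congr rfl
      intro k _
      ring
    have s2 : ∀ k, (η k ⊗ₜ[K] (1 : L)) * J ((Φ (b₁ k)) j) =
        ∑ l, (η k ⊗ₜ[K] (1 : L)) * ((algebraMap Ω Ω' (G l k) ⊗ₜ[K] (1 : L)) * J (e₂ l j)) := by
      intro k
      rw [hΦb k, Finset.sum_apply, map_sum, Finset.mul_sum]
      apply Finset.sum_congr rfl
      intro l _
      rw [Pi.smul_apply, Algebra.smul_def, map_mul]
      have : J (algebraMap Ω (Ω ⊗[K] L) (G l k)) = algebraMap Ω Ω' (G l k) ⊗ₜ[K] (1 : L) :=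
        jx_tmul _ _
      rw [this]
    rw [Finset.sum_congr rfl fun l _ => s1 l, Finset.sum_congr rfl fun k _ => s2 k,
      Finset.sum_comm]
  -- elementary facts in `Ω' ⊗ L`
  set ωT : Ω ⊗[K] L := algebraMap K (Ω ⊗[K] L) ω with hωT
  set μT : Ω ⊗[K] L := μ ⊗ₜ 1 with hμT
  let σ : Ω →+* Ω' ⊗[K] L := (algebraMap Ω' (Ω' ⊗[K] L)).comp (algebraMap Ω Ω')
  let ω' : Ω' ⊗[K] L := algebraMap K (Ω' ⊗[K] L) ω
  let α' : Ω' ⊗[K] L := algebraMap K (Ω' ⊗[K] L) α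
  let μ' : Ω' ⊗[K] L := σ μ
  have hσK : ∀ x : K, σ (algebraMap K Ω x) = algebraMap K (Ω' ⊗[K] L) x := by
    intro x
    show (algebraMap Ω' (Ω' ⊗[K] L)) (algebraMap Ω Ω' (algebraMap K Ω x)) = _
    rw [← IsScalarTower.algebraMap_apply K Ω Ω', ← IsScalarTower.algebraMap_apply K Ω' _]
  have hJω : J ωT = ω' := J.commutes ω
  have hJμ : J μT = μ' := jx_tmul μ 1
  have hω' : ω' ^ 2 + ω' + 1 = 0 := tensor_omega hω
  have hμ'3 : μ' ^ 3 = α' := by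
    show σ μ ^ 3 = algebraMap K (Ω' ⊗[K] L) α
    rw [← map_pow, hμ, hσK]
  have hμinv : μ * μ⁻¹ = 1 := by
    apply mul_inv_cancel₀
    rintro h0
    rw [h0, zero_pow (by norm_num), eq_comm, map_eq_zero] at hμ
    exact hα0 hμ
  have hμ'inv : μ' * σ μ⁻¹ = 1 := by
    show σ μ * σ μ⁻¹ = 1
    rw [← map_mul, hμinv, map_one]
  have h3' : (3 : Ω' ⊗[K] L) * algebraMap K (Ω' ⊗[K] L) (3⁻¹) = 1 := tensor_three
  have hcjgen : ∀ (e : Fin r → Fin 3 → Ω ⊗[K] L) (i : ℕ), cj ω' μ' (gen η e) i =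
      ∑ k, (η k ⊗ₜ[K] (1 : L)) * J (cj ωT μT (e k) i) := by
    intro e i
    have s1 : (gen η e : Fin 3 → Ω' ⊗[K] L) =
        fun j => ∑ k, (η k ⊗ₜ[K] (1 : L)) * J (e k j) := rfl
    rw [s1, cj_sum ω' μ' Finset.univ (fun k => η k ⊗ₜ[K] (1 : L)) (fun k j => J (e k j)) i]
    apply Finset.sum_congr rfl
    intro k _
    have s2 := FA.map_cj (J : Ω ⊗[K] L →+* Ω' ⊗[K] L) ωT μT (e k) i
    simp only [RingHom.coe_coe] at s2
    rw [s2, hJω, hJμ]
  have huJ : ∀ i : Fin 3, cj ω' μ' h' i = J (u i) * cj ω' μ' h i := by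
    intro i
    rw [hh', hcjgen]
    show _ = J (u i) * cj ω' μ' (gen η e₁) i
    rw [hcjgen, Finset.mul_sum]
    apply Finset.sum_congr rfl
    intro k _
    have s1 := congrArg J (hrel (b₁ k) i)
    rw [map_mul] at s1
    show (η k ⊗ₜ[K] (1 : L)) * J (cjT ω μ (Φ (b₁ k)) i) =
      J (u i) * ((η k ⊗ₜ[K] (1 : L)) * J (cjT ω μ (b₁ k) i))
    linear_combination (η k ⊗ₜ[K] (1 : L)) * s1
  have hnn1 : IsUnit (nf α' (h 0) (h 1) (h 2)) := by
    refine nf_gen_isUnit b₀ hη e₁ α (fun k => b₁.repr ![1, 0, 0] k) ![1, 0, 0]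
      (b₁.sum_repr ![1, 0, 0]).symm ?_
    have h1 : nf (algebraMap K (Ω ⊗[K] L) α) ((![1, 0, 0] : Fin 3 → Ω ⊗[K] L) 0)
        ((![1, 0, 0] : Fin 3 → Ω ⊗[K] L) 1) ((![1, 0, 0] : Fin 3 → Ω ⊗[K] L) 2) = 1 ^ 3 :=
      nf_zero_zero _ _
    rw [h1, one_pow]
    exact isUnit_one
  have hJu : ∀ i, IsUnit (J (u i)) := by
    intro i
    refine IsUnit.map J ?_
    exact IsUnit.of_mul_eq_one _ (huu i)
  have hnn2 : IsUnit (nf α' (h' 0) (h' 1) (h' 2)) := by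
    have s1 := nf_eq_prod_cj ω' μ' h hω'
    have s2 := nf_eq_prod_cj ω' μ' h' hω'
    rw [hμ'3] at s1 s2
    have k0 := huJ 0
    have k1 := huJ 1
    have k2 := huJ 2
    simp only [Fin.val_zero, Fin.val_one, Fin.val_two] at k0 k1 k2
    have s3 : nf α' (h' 0) (h' 1) (h' 2) =
        J (u 0) * J (u 1) * J (u 2) * nf α' (h 0) (h 1) (h 2) := by
      rw [s1, s2, k0, k1, k2]
      ring
    rw [s3]
    exact (((hJu 0).mul (hJu 1)).mul (hJu 2)).mul hnn1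
  -- the two triples
  let θ' : Fin 3 → Ω' ⊗[K] L := fun j => 1 ⊗ₜ θ j
  let ξ₁' : Fin 3 → Ω' ⊗[K] L := fun j => σ (ξ₁ j)
  let ξ₂' : Fin 3 → Ω' ⊗[K] L := fun j => σ (ξ₂ j)
  have hJθ : ∀ j, J (cst Ω θ j) = θ' j := by
    intro j
    show J ((1 : Ω) ⊗ₜ θ j) = 1 ⊗ₜ θ j
    rw [show J ((1 : Ω) ⊗ₜ θ j) = algebraMap Ω Ω' 1 ⊗ₜ θ j from jx_tmul 1 (θ j), map_one]
  have hJcjθ : ∀ i, J (cj ωT μT (cst Ω θ) i) = cj ω' μ' θ' i := by
    intro i
    have s2 := FA.map_cj (J : Ω ⊗[K] L →+* Ω' ⊗[K] L) ωT μT (cst Ω θ) i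
    simp only [RingHom.coe_coe] at s2
    rw [s2, hJω, hJμ]
    congr 1
    funext j
    exact hJθ j
  have hnfθ : nf α' (θ' 0) (θ' 1) (θ' 2) = algebraMap K (Ω' ⊗[K] L) a := by
    let ρ : L →ₐ[K] Ω' ⊗[K] L := Algebra.TensorProduct.includeRight
    have s1 := congrArg ρ hθ
    have s2 := map_nf (ρ : L →+* Ω' ⊗[K] L) (algebraMap K L α) (θ 0) (θ 1) (θ 2)
    simp only [RingHom.coe_coe] at s2
    rw [s2, AlgHom.commutes, AlgHom.commutes] at s1
    exact s1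
  have hnfξ₁ : nf α' (ξ₁' 0) (ξ₁' 1) (ξ₁' 2) = algebraMap K (Ω' ⊗[K] L) (b / a) := by
    have s1 := congrArg σ hξ₁
    rwa [map_nf, hσK, hσK] at s1
  have hcjξ : ∀ (x : Fin 3 → Ω) (i : ℕ), cj ω' μ' (fun j => σ (x j)) i =
      σ (cj (algebraMap K Ω ω) μ x i) := by
    intro x i
    rw [FA.map_cj, hσK]
  have hn1 := nf_eq_prod_cj (algebraMap K Ω ω) μ ξ₁ hωΩ
  have hn2 := nf_eq_prod_cj (algebraMap K Ω ω) μ ξ₂ hωΩ
  rw [hμ, hξ₁, e10, e11] at hn1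
  rw [hμ, hξ₂, e20, e21] at hn2
  have hv : v 0 * v 1 ≠ 0 := by
    intro h0
    rw [h0, zero_mul, map_eq_zero] at hn1
    exact div_ne_zero hb0 ha0 hn1
  have hξ2 : cj (algebraMap K Ω ω) μ ξ₁ 2 = algebraMap K Ω a * cj (algebraMap K Ω ω) μ ξ₂ 2 := by
    apply mul_left_cancel₀ hv
    rw [← hn1]
    have h1 : b / a = a * (b / a ^ 2) := by field_simp
    rw [h1, map_mul, hn2]
    ring
  let G₁ : Fin 3 → Ω' ⊗[K] L := gT ω' α' ξ₁' θ' h
  let G₂ : Fin 3 → Ω' ⊗[K] L := gT ω' α' ξ₂' (mulT α' θ' θ') h'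
  have hG : ∀ j, G₁ j * nf α' (h' 0) (h' 1) (h' 2) = G₂ j * nf α' (h 0) (h 1) (h 2) := by
    intro j
    refine rel (a := algebraMap K (Ω' ⊗[K] L) a) (u := fun i => J (u i)) hω' hμ'3 hμ'inv h3' huJ
      ?_ ?_ hnfθ ?_ ?_ ?_ j
    · show J (u 0) = J (u 1) * cj ω' μ' θ' 0
      rw [hu0, map_mul, ← hJcjθ]
      rfl
    · show J (u 1) = J (u 2) * cj ω' μ' θ' 1
      rw [hu1, map_mul, ← hJcjθ]
      rfl
    · rw [hcjξ, hcjξ, e10, e20]
    · rw [hcjξ, hcjξ, e11, e21]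
    · rw [hcjξ, hcjξ, hξ2, map_mul, hσK]
  -- fields of definition
  let E₁ : IntermediateField K Ω' :=
    (IntermediateField.adjoin F₁ (Set.range η)).restrictScalars K
  let E₂ : IntermediateField K Ω' :=
    (IntermediateField.adjoin F₂ (Set.range η')).restrictScalars K
  have hF₁E : ∀ c ∈ F₁, algebraMap Ω Ω' c ∈ E₁ := by
    intro c hc
    exact (IntermediateField.adjoin F₁ (Set.range η)).algebraMap_mem ⟨c, hc⟩
  have hF₂E : ∀ c ∈ F₂, algebraMap Ω Ω' c ∈ E₂ := by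
    intro c hc
    exact (IntermediateField.adjoin F₂ (Set.range η')).algebraMap_mem ⟨c, hc⟩
  have hηE : ∀ k, η k ∈ E₁ := fun k => IntermediateField.subset_adjoin F₁ _ ⟨k, rfl⟩
  have hη'E : ∀ k, η' k ∈ E₂ := fun k => IntermediateField.subset_adjoin F₂ _ ⟨k, rfl⟩
  have hE₁a := not_isNm_adjoin F₁ hη α a hF₁
  have hE₂a := not_isNm_adjoin F₂ hη' α a hF₂
  have hhm : ∀ j, h j ∈ RatSub L E₁ := gen_mem hF₁E hηE hb₁
  have hh'm : ∀ j, h' j ∈ RatSub L E₂ := gen_mem hF₂E hη'E hb₂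
  have hξ₁m : ∀ j, ξ₁' j ∈ RatSub L E₁ := fun j => tmul_mem_RatSub (hF₁E _ (hξ₁F j)) 1
  have hξ₂m : ∀ j, ξ₂' j ∈ RatSub L E₂ := fun j => tmul_mem_RatSub (hF₂E _ (hξ₂F j)) 1
  have hθm : ∀ (E : IntermediateField K Ω') (j : Fin 3), θ' j ∈ RatSub L E :=
    fun E j => tmul_mem_RatSub (one_mem E) (θ j)
  have hKm : ∀ (E : IntermediateField K Ω') (x : K), algebraMap K (Ω' ⊗[K] L) x ∈ RatSub L E :=
    fun E x => (RatSub L E).algebraMap_mem x
  have hn1m : nf α' (h 0) (h 1) (h 2) ∈ RatSub L E₁ :=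
    nf_mem _ (hKm E₁ α) (hhm 0) (hhm 1) (hhm 2)
  have hn2m : nf α' (h' 0) (h' 1) (h' 2) ∈ RatSub L E₂ :=
    nf_mem _ (hKm E₂ α) (hh'm 0) (hh'm 1) (hh'm 2)
  have hG₁m : ∀ j, G₁ j ∈ RatSub L E₁ := gT_mem _ (hKm E₁ ω) (hKm E₁ α) hξ₁m (hθm E₁) hhm
  have hG₂m : ∀ j, G₂ j ∈ RatSub L E₂ :=
    gT_mem _ (hKm E₂ ω) (hKm E₂ α) hξ₂m (mulT_mem _ (hKm E₂ α) (hθm E₂) (hθm E₂)) hh'm
  obtain ⟨y₁, hy₁m, hy₁⟩ := inv_mem_RatSub E₁ _ hn1m hnn1
  obtain ⟨y₂, hy₂m, hy₂⟩ := inv_mem_RatSub E₂ _ hn2m hnn2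
  have hf : ∀ j, G₁ j * y₁ = G₂ j * y₂ := by
    intro j
    calc G₁ j * y₁ = (G₁ j * nf α' (h' 0) (h' 1) (h' 2)) * y₂ * y₁ := by
          rw [mul_assoc (G₁ j), hy₂, mul_one]
      _ = (G₂ j * (nf α' (h 0) (h 1) (h 2) * y₁)) * y₂ := by rw [hG]; ring
      _ = _ := by rw [hy₁, mul_one]
  have hfm : ∀ j, G₁ j * y₁ ∈ RatSub L (E₁ ⊓ E₂) := by
    intro j
    refine InterAux.mem_ratSub_inf (mul_mem (hG₁m j) hy₁m) ?_
    rw [hf]
    exact mul_mem (hG₂m j) hy₂m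
  have hnff : nf α' (G₁ 0 * y₁) (G₁ 1 * y₁) (G₁ 2 * y₁) = algebraMap K (Ω' ⊗[K] L) b := by
    rw [mul_comm (G₁ 0), mul_comm (G₁ 1), mul_comm (G₁ 2), nf_smul]
    have s1 : nf α' (G₁ 0) (G₁ 1) (G₁ 2) = nf α' (ξ₁' 0) (ξ₁' 1) (ξ₁' 2) *
        nf α' (θ' 0) (θ' 1) (θ' 2) * nf α' (h 0) (h 1) (h 2) ^ 3 := nf_gT hω' ξ₁' θ' h
    rw [s1, hnfξ₁, hnfθ, ← map_mul]
    have s2 : b / a * a = b := by field_simp
    rw [s2]
    calc _ = algebraMap K (Ω' ⊗[K] L) b * (nf α' (h 0) (h 1) (h 2) * y₁) ^ 3 := by ring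
      _ = _ := by rw [hy₁, one_pow, mul_one]
  -- independence over the intersection
  have hEC : EC K ↥(E₁ ⊓ E₂) := by
    apply hec
    let i₁ : ↥(E₁ ⊓ E₂) →ₐ[K] E₁ := IntermediateField.inclusion inf_le_left
    let i₂ : ↥(E₁ ⊓ E₂) →ₐ[K] E₂ := IntermediateField.inclusion inf_le_right
    have hinj := (algebraMap K ↥(E₁ ⊓ E₂)).injective
    refine indep_of_two (i₁ : ↥(E₁ ⊓ E₂) →+* E₁) (i₂ : ↥(E₁ ⊓ E₂) →+* E₂) ?_ ?_ ?_ ?_ ?_ ?_ ?_
    · rw [Ne, map_eq_zero_iff _ hinj]; exact hα0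
    · rw [Ne, map_eq_zero_iff _ hinj]; exact ha0
    · rw [Ne, map_eq_zero_iff _ hinj]; exact hb0
    · rw [← map_div₀]
      simp only [RingHom.coe_coe, AlgHom.commutes]
      refine ⟨⟨_, hF₁E _ (hξ₁F 0)⟩, ⟨_, hF₁E _ (hξ₁F 1)⟩, ⟨_, hF₁E _ (hξ₁F 2)⟩, ?_⟩
      apply (algebraMap E₁ Ω').injective
      rw [map_nf]
      have s1 := congrArg (algebraMap Ω Ω') hξ₁
      rw [map_nf, ← IsScalarTower.algebraMap_apply, ← IsScalarTower.algebraMap_apply] at s1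
      exact s1
    · simp only [RingHom.coe_coe, AlgHom.commutes]
      exact hE₁a
    · rw [← map_pow, ← map_div₀]
      simp only [RingHom.coe_coe, AlgHom.commutes]
      refine ⟨⟨_, hF₂E _ (hξ₂F 0)⟩, ⟨_, hF₂E _ (hξ₂F 1)⟩, ⟨_, hF₂E _ (hξ₂F 2)⟩, ?_⟩
      apply (algebraMap E₂ Ω').injective
      rw [map_nf]
      have s1 := congrArg (algebraMap Ω Ω') hξ₂
      rw [map_nf, ← IsScalarTower.algebraMap_apply, ← IsScalarTower.algebraMap_apply] at s1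
      exact s1
    · simp only [RingHom.coe_coe, AlgHom.commutes]
      exact hE₂a
  exact isNm_of_rat' K L Ω' (E₁ ⊓ E₂) hEC α b _ hfm hnff

end CZ

theorem case_zero (K : Type) [Field K] [CharZero K] (ω α a b : K) (hω : ω ^ 2 + ω + 1 = 0)
    (hP : Indep α a b)
    (hec : ∀ (K' : Type) [Field K'] [Algebra K K'],
      Indep (algebraMap K K' α) (algebraMap K K' a) (algebraMap K K' b) → EC K K')
    (L : Type) [Field L] [Algebra K L] [FiniteDimensional K L]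
    (hL : IsNm (algebraMap K L α) (algebraMap K L a)) :
    IsNm (algebraMap K L α) (algebraMap K L b) := by
  obtain ⟨hα0, ha0, hb0, hind⟩ := hP
  have hna : ¬ IsNm α a := by
    intro h
    have := (hind 1 0 (by rwa [pow_one, pow_zero, mul_one])).1
    omega
  have hα : ∀ x : K, x ^ 3 ≠ α := by
    rintro x rfl
    refine hna (IsNm.of_cube ?_ a)
    rintro rfl
    exact hα0 (by ring)
  obtain ⟨x, y, z, hθ⟩ := hL
  let Ω := AlgebraicClosure (FractionRing (MvPolynomial (Fin 2) K))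
  let v : Fin 2 → Ω := fun i => algebraMap (FractionRing (MvPolynomial (Fin 2) K)) Ω
    (algebraMap (MvPolynomial (Fin 2) K) (FractionRing (MvPolynomial (Fin 2) K))
      (MvPolynomial.X i))
  have hv : AlgebraicIndependent K v := by
    have h1 := (MvPolynomial.algebraicIndependent_X (Fin 2) K).map'
      (f := IsScalarTower.toAlgHom K (MvPolynomial (Fin 2) K)
        (FractionRing (MvPolynomial (Fin 2) K)))
      (IsFractionRing.injective _ _)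
    exact h1.map' (f := IsScalarTower.toAlgHom K (FractionRing (MvPolynomial (Fin 2) K)) Ω)
      (algebraMap (FractionRing (MvPolynomial (Fin 2) K)) Ω).injective
  obtain ⟨μ, hμ⟩ := IsAlgClosed.exists_pow_nat_eq (algebraMap K Ω α) (n := 3) (by norm_num)
  have ha1 : ∀ j : ℕ, ¬ IsNm α (a * (b / a) ^ j) := by
    intro j h
    have h1 : IsNm α (a ^ (2 * j + 1) * b ^ j) := by
      have h2 := h.mul (IsNm.cube α (a ^ j))
      have h3 : a * (b / a) ^ j * (a ^ j) ^ 3 = a ^ (2 * j + 1) * b ^ j := by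
        rw [div_pow, pow_add, pow_mul, pow_one]
        field_simp
        ring
      rwa [h3] at h2
    have h4 := hind _ _ h1
    omega
  have ha2 : ∀ j : ℕ, ¬ IsNm α (a * (b / a ^ 2) ^ j) := by
    intro j h
    have h1 : IsNm α (a ^ (j + 1) * b ^ j) := by
      have h2 := h.mul (IsNm.cube α (a ^ j))
      have h3 : a * (b / a ^ 2) ^ j * (a ^ j) ^ 3 = a ^ (j + 1) * b ^ j := by
        rw [div_pow, pow_add, pow_one, ← pow_mul a 2 j, mul_comm 2 j, pow_mul a j 2]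
        field_simp
      rwa [h3] at h2
    have h4 := hind _ _ h1
    omega
  obtain ⟨ξ₁, e10, e11, hξ₁, hd₁⟩ := exists_generic_norm_in K ω α (b / a) hω hα
    (div_ne_zero hb0 ha0) Ω μ hμ v hv
  obtain ⟨ξ₂, e20, e21, hξ₂, hd₂⟩ := exists_generic_norm_in K ω α (b / a ^ 2) hω hα
    (div_ne_zero hb0 (pow_ne_zero 2 ha0)) Ω μ hμ v hv
  refine CZ.final K ω α a b hω hα0 ha0 hb0 hec L ![x, y, z] hθ Ω μ hμ
    (IntermediateField.adjoin K (Set.range ξ₁)) (IntermediateField.adjoin K (Set.range ξ₂))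
    ?_ ?_ ξ₁ ξ₂ ?_ ?_ hξ₁ hξ₂ v e10 e11 e20 e21
  · intro h
    obtain ⟨j, hj⟩ := hd₁ a ha0 h
    exact ha1 j hj
  · intro h
    obtain ⟨j, hj⟩ := hd₂ a ha0 h
    exact ha2 j hj
  · exact fun i => IntermediateField.subset_adjoin K _ ⟨i, rfl⟩
  · exact fun i => IntermediateField.subset_adjoin K _ ⟨i, rfl⟩

end Pool.Agent.D5741
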