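import Pool.Agent.Lib.MP_d5741c_al.FF

/-!
# Function fields of one variable: Dedekind property, finiteness and the ring at infinity
-/

set_option autoImplicit false

namespace Pool.Agent.D5741.DTA

open Polynomial

section General

variable {k 𝕃 : Type*} [Field k] [Field 𝕃] [Algebra k 𝕃]

/-- `R` is a principal ideal domain with field of fractions `K₀` and its proper quotients are
finite-dimensional. -/
structure Good (K₀ : IntermediateField k 𝕃) (R : Subalgebra k 𝕃) : Prop where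
  le : ∀ x ∈ R, x ∈ K₀
  frac : ∀ x ∈ K₀, ∃ a ∈ R, ∃ b ∈ R, b ≠ 0 ∧ x * b = a
  pir : IsPrincipalIdealRing R
  quot : ∀ c : R, c ≠ 0 → FiniteDimensional k (R ⧸ Ideal.span {c})

/-- The integral closure of `R` in `𝕃` as a `k`-algebra. -/
abbrev Oc (R : Subalgebra k 𝕃) : Subalgebra k 𝕃 := (integralClosure R 𝕃).restrictScalars k

variable {K₀ : IntermediateField k 𝕃} {R : Subalgebra k 𝕃}

/-- The inclusion of `R` in `K₀`. -/
@[instance_reducible]
def Good.alg (h : Good K₀ R) : Algebra R K₀ :=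
  (Subalgebra.inclusion (show R ≤ K₀.toSubalgebra from h.le)).toRingHom.toAlgebra

lemma Good.tower (h : Good K₀ R) :
    letI := h.alg
    IsScalarTower R K₀ 𝕃 :=
  letI := h.alg
  IsScalarTower.of_algebraMap_eq (fun _ => rfl)

lemma Good.isFractionRing (h : Good K₀ R) :
    letI := h.alg
    IsFractionRing R K₀ := by
  let := h.alg
  have := h.tower
  have hinj : Function.Injective (algebraMap R K₀) := by
    intro x y hxy
    have := congrArg (algebraMap K₀ 𝕃) hxy
    exact Subtype.ext this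
  have : FaithfulSMul R K₀ := (faithfulSMul_iff_algebraMap_injective R K₀).2 hinj
  apply IsFractionRing.of_field R K₀
  intro z
  obtain ⟨a, ha, b, hb, hb0, hab⟩ := h.frac z z.2
  refine ⟨⟨a, ha⟩, ⟨b, hb⟩, ?_⟩
  apply Subtype.ext
  change (z : 𝕃) = a / b
  rw [eq_div_iff hb0, hab]

/-- Denominators of elements of `𝕃` can be cleared. -/
lemma Good.clear [FiniteDimensional K₀ 𝕃] (h : Good K₀ R) (y : 𝕃) :
    ∃ c ∈ R, c ≠ 0 ∧ c * y ∈ Oc R := by
  classical
  let := h.alg
  have := h.tower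
  have := h.isFractionRing
  obtain ⟨c, hc, hcy⟩ := exists_integral_multiples R K₀ ({y} : Finset 𝕃)
  refine ⟨c, c.2, fun h0 => hc (Subtype.ext h0), ?_⟩
  exact hcy y (Finset.mem_singleton_self y)

/-- The minimal polynomial of an integral element has integral coefficients. -/
lemma Good.minpoly_coeff (h : Good K₀ R) (y : 𝕃) (hy : y ∈ Oc R) (i : ℕ) :
    (((minpoly K₀ y).coeff i : K₀) : 𝕃) ∈ R := by
  let := h.alg
  have := h.tower
  have := h.isFractionRing
  have := h.pir
  have hy' : IsIntegral R y := hy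
  rw [minpoly.isIntegrallyClosed_eq_field_fractions' K₀ hy', coeff_map]
  exact ((minpoly R y).coeff i).2

lemma Good.isIntegral (h : Good K₀ R) (y : 𝕃) (hy : y ∈ Oc R) : IsIntegral K₀ y := by
  let := h.alg
  have := h.tower
  have hy' : IsIntegral R y := hy
  exact hy'.tower_top

variable [CharZero k] [FiniteDimensional K₀ 𝕃]

lemma Good.dedekind (h : Good K₀ R) :
    IsDedekindDomain (Oc R) ∧ IsFractionRing (Oc R) 𝕃 := by
  let := h.alg
  have := h.tower
  have := h.isFractionRing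
  have := h.pir
  exact ⟨integralClosure.isDedekindDomain R K₀ 𝕃,
    integralClosure.isFractionRing_of_finite_extension K₀ 𝕃⟩

lemma Good.finite (h : Good K₀ R) : Module.Finite R (integralClosure R 𝕃) := by
  let := h.alg
  have := h.tower
  have := h.isFractionRing
  have := h.pir
  exact IsIntegralClosure.finite R K₀ 𝕃 _

omit [CharZero k] in
lemma finite_quot_aux {A B : Type*} [CommRing A] [CommRing B] [Algebra k A] [Algebra k B]
    [Algebra A B] [IsScalarTower k A B] [Module.Finite A B] (b : B) (c : A)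
    (hc : algebraMap A B c ∈ Ideal.span {b}) (hfin : Module.Finite k (A ⧸ Ideal.span {c})) :
    Module.Finite k (B ⧸ Ideal.span {b}) := by
  have hle : Ideal.span {c} ≤ (Ideal.span {b}).comap (algebraMap A B) := by
    rw [Ideal.span_singleton_le_iff_mem]
    exact hc
  let : Algebra (A ⧸ Ideal.span {c}) (B ⧸ Ideal.span {b}) :=
    Ideal.Quotient.algebraQuotientOfLEComap hle
  have : IsScalarTower A (A ⧸ Ideal.span {c}) (B ⧸ Ideal.span {b}) :=
    IsScalarTower.of_algebraMap_eq (fun _ => rfl)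
  have : IsScalarTower k (A ⧸ Ideal.span {c}) (B ⧸ Ideal.span {b}) :=
    IsScalarTower.of_algebraMap_eq (fun x => by
      change Ideal.Quotient.mk _ (algebraMap k B x) =
        Ideal.Quotient.mk _ (algebraMap A B (algebraMap k A x))
      rw [← IsScalarTower.algebraMap_apply])
  have : Module.Finite (A ⧸ Ideal.span {c}) (B ⧸ Ideal.span {b}) :=
    Module.Finite.of_restrictScalars_finite A _ _
  exact Module.Finite.trans (A ⧸ Ideal.span {c}) _

lemma Good.finite_quot (h : Good K₀ R) (a : Oc R) (ha : a ≠ 0) :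
    FiniteDimensional k (Oc R ⧸ Ideal.span {a}) := by
  have h1 := h.finite
  let a' : integralClosure R 𝕃 := a
  have ha' : a' ≠ 0 := ha
  have hint : IsIntegral R a' := Algebra.IsIntegral.isIntegral a'
  have h2 := Ideal.comap_ne_bot_of_integral_mem (I := Ideal.span {a'}) ha'
    (Ideal.mem_span_singleton_self a') hint
  obtain ⟨c, hc, hc0⟩ := Submodule.exists_mem_ne_zero_of_ne_bot h2
  exact finite_quot_aux (A := R) (B := integralClosure R 𝕃) a' c hc (h.quot c hc0)

end General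

section Rings

variable {k 𝕃 : Type*} [Field k] [Field 𝕃] [Algebra k 𝕃]

lemma aeval_ne_zero {s : 𝕃} (hs : Transcendental k s) {q : k[X]} (hq : q ≠ 0) :
    aeval s q ≠ 0 := fun h => hs ⟨q, hq, h⟩

lemma aeval_inj {s : 𝕃} (hs : Transcendental k s) {p q : k[X]} (h : aeval s p = aeval s q) :
    p = q := by
  by_contra hne
  refine aeval_ne_zero hs (sub_ne_zero.2 hne) ?_
  rw [map_sub, h, sub_self]

lemma transcendental_inv {t : 𝕃} (ht : Transcendental k t) : Transcendental k t⁻¹ := by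
  intro h
  apply ht
  have := h.inv
  rwa [inv_inv] at this

lemma finite_polynomial_quot (p : k[X]) (hp : p ≠ 0) : Module.Finite k (k[X] ⧸ Ideal.span {p}) :=
  (AdjoinRoot.powerBasis hp).finite

lemma quot_finite_of_surj {A : Type*} [CommRing A] [Algebra k A] (φ : k[X] →ₐ[k] A) (c : A)
    (p : k[X]) (hp : p ≠ 0) (hc : φ p ∈ Ideal.span {c})
    (hs : ∀ a : A, ∃ b : k[X], a - φ b ∈ Ideal.span {c}) :
    FiniteDimensional k (A ⧸ Ideal.span {c}) := by
  have := finite_polynomial_quot p hp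
  let f : k[X] →ₐ[k] (A ⧸ Ideal.span {c}) := (Ideal.Quotient.mkₐ k _).comp φ
  let g : (k[X] ⧸ Ideal.span {p}) →ₐ[k] (A ⧸ Ideal.span {c}) :=
    Ideal.Quotient.liftₐ (Ideal.span {p}) f (by
      intro a ha
      rw [Ideal.mem_span_singleton] at ha
      obtain ⟨b, rfl⟩ := ha
      change Ideal.Quotient.mk _ (φ (p * b)) = 0
      rw [Ideal.Quotient.eq_zero_iff_mem, map_mul]
      exact Ideal.mul_mem_right _ _ hc)
  refine Module.Finite.of_surjective g.toLinearMap ?_
  intro y
  obtain ⟨a, rfl⟩ := Ideal.Quotient.mk_surjective y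
  obtain ⟨b, hb⟩ := hs a
  refine ⟨Ideal.Quotient.mk _ b, ?_⟩
  change Ideal.Quotient.mk _ (φ b) = Ideal.Quotient.mk _ a
  exact (Ideal.Quotient.eq.2 hb).symm

/-- The map from `k[X]` to `k[t]`. -/
noncomputable def φfin (k : Type*) {𝕃 : Type*} [Field k] [Field 𝕃] [Algebra k 𝕃] (t : 𝕃) :
    k[X] →ₐ[k] Rfin k t := aeval ⟨t, Algebra.self_mem_adjoin_singleton k t⟩

lemma coe_φfin (t : 𝕃) (p : k[X]) : ((φfin k t p : Rfin k t) : 𝕃) = aeval t p := by
  rw [φfin, ← Subalgebra.coe_val, ← Polynomial.aeval_algHom_apply]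
  rfl

lemma φfin_surj (t : 𝕃) : Function.Surjective (φfin k t) := by
  rintro ⟨x, hx⟩
  rw [Rfin, Algebra.adjoin_singleton_eq_range_aeval] at hx
  obtain ⟨p, rfl⟩ := hx
  exact ⟨p, Subtype.ext (coe_φfin t p)⟩

lemma good_fin (t : 𝕃) :
    Good (IntermediateField.adjoin k {t}) (Rfin k t) where
  le x hx := IntermediateField.algebra_adjoin_le_adjoin k {t} hx
  frac x hx := by
    rw [IntermediateField.mem_adjoin_simple_iff] at hx
    obtain ⟨r, s, rfl⟩ := hx
    by_cases hs : aeval t s = 0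
    · rw [hs, div_zero]
      exact ⟨0, zero_mem _, 1, one_mem _, one_ne_zero, by rw [zero_mul]⟩
    · refine ⟨aeval t r, ?_, aeval t s, ?_, hs, div_mul_cancel₀ _ hs⟩
      · rw [← coe_φfin]; exact (φfin k t r).2
      · rw [← coe_φfin]; exact (φfin k t s).2
  pir := IsPrincipalIdealRing.of_surjective (φfin k t) (φfin_surj t)
  quot c hc := by
    obtain ⟨p, rfl⟩ := φfin_surj t c
    refine quot_finite_of_surj (φfin k t) _ p ?_ (Ideal.mem_span_singleton_self _) ?_
    · rintro rfl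
      exact hc (map_zero _)
    · intro a
      obtain ⟨b, rfl⟩ := φfin_surj t a
      exact ⟨b, by rw [sub_self]; exact zero_mem _⟩

lemma mem_Rinf {t x : 𝕃} : x ∈ Rinf k t ↔
    ∃ p q : k[X], q.coeff 0 ≠ 0 ∧ x * aeval t⁻¹ q = aeval t⁻¹ p := Iff.rfl

lemma aeval_mem_Rinf (t : 𝕃) (p : k[X]) : aeval t⁻¹ p ∈ Rinf k t :=
  ⟨p, 1, by simp, by simp⟩

/-- The map from `k[X]` to `Rinf`. -/
noncomputable def φinf (k : Type*) {𝕃 : Type*} [Field k] [Field 𝕃] [Algebra k 𝕃] (t : 𝕃) :
    k[X] →ₐ[k] Rinf k t := (aeval t⁻¹).codRestrict (Rinf k t) (aeval_mem_Rinf t)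

lemma coe_φinf (t : 𝕃) (p : k[X]) : ((φinf k t p : Rinf k t) : 𝕃) = aeval t⁻¹ p := rfl

lemma isUnit_φinf {t : 𝕃} (ht : Transcendental k t) {q : k[X]} (hq : q.coeff 0 ≠ 0) :
    IsUnit (φinf k t q) := by
  have hq0 : q ≠ 0 := by
    rintro rfl
    exact hq (coeff_zero 0)
  have h1 : aeval t⁻¹ q ≠ 0 := aeval_ne_zero (transcendental_inv ht) hq0
  refine IsUnit.of_mul_eq_one ⟨(aeval t⁻¹ q)⁻¹, 1, q, hq, ?_⟩ ?_
  · rw [inv_mul_cancel₀ h1, map_one]
  · exact Subtype.ext (mul_inv_cancel₀ h1)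

lemma exists_φinf {t : 𝕃} (x : Rinf k t) :
    ∃ p q : k[X], q.coeff 0 ≠ 0 ∧ x * φinf k t q = φinf k t p := by
  obtain ⟨p, q, hq, h⟩ := x.2
  exact ⟨p, q, hq, Subtype.ext h⟩

lemma isCoprime_X {q : k[X]} (hq : q.coeff 0 ≠ 0) : IsCoprime q X := by
  rw [isCoprime_comm]
  refine (Irreducible.coprime_iff_not_dvd irreducible_X).2 ?_
  rwa [X_dvd_iff]

/-- Each nonzero element of `Rinf` divides a power of `t⁻¹`. -/
lemma exists_pow_mem {t : 𝕃} (ht : Transcendental k t) (c : Rinf k t) (hc : c ≠ 0) :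
    ∃ m : ℕ, φinf k t (X ^ m) ∈ Ideal.span {c} := by
  obtain ⟨p, q, hq, h⟩ := exists_φinf c
  have hp0 : p ≠ 0 := by
    rintro rfl
    rw [map_zero] at h
    exact hc ((isUnit_φinf ht hq).mul_left_eq_zero.1 h)
  obtain ⟨m, p₁, hm, hp⟩ : ∃ (m : ℕ) (p₁ : k[X]), p₁.coeff 0 ≠ 0 ∧ p = X ^ m * p₁ := by
    obtain ⟨g, hg1, hg2⟩ := exists_eq_pow_rootMultiplicity_mul_and_not_dvd p hp0 0
    rw [map_zero, sub_zero] at hg1 hg2
    exact ⟨_, g, by rwa [X_dvd_iff] at hg2, hg1⟩
  refine ⟨m, ?_⟩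
  rw [Ideal.mem_span_singleton]
  have h1 : c ∣ φinf k t p := ⟨_, h.symm⟩
  rw [hp, map_mul] at h1
  exact (isUnit_φinf ht hm).dvd_mul_right.1 h1

lemma good_inf (t : 𝕃) (ht : Transcendental k t) :
    Good (IntermediateField.adjoin k {t}) (Rinf k t) where
  le x hx := by
    obtain ⟨p, q, hq, h⟩ := hx
    have hq0 : q ≠ 0 := by
      rintro rfl
      exact hq (coeff_zero 0)
    have h1 : aeval t⁻¹ q ≠ 0 := aeval_ne_zero (transcendental_inv ht) hq0
    have h2 : t⁻¹ ∈ IntermediateField.adjoin k {t} :=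
      inv_mem (IntermediateField.mem_adjoin_simple_self k t)
    have h3 : ∀ p : k[X], aeval t⁻¹ p ∈ IntermediateField.adjoin k {t} := by
      intro p
      have : aeval t⁻¹ p = ((aeval (⟨t⁻¹, h2⟩ : IntermediateField.adjoin k {t}) p :
          IntermediateField.adjoin k {t}) : 𝕃) := by
        rw [← IntermediateField.coe_val, ← Polynomial.aeval_algHom_apply]
        rfl
      rw [this]
      exact SetLike.coe_mem _
    rw [eq_div_of_mul_eq h1 h]
    exact div_mem (h3 p) (h3 q)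
  frac x hx := by
    have hx' : x ∈ IntermediateField.adjoin k {t⁻¹} := by
      refine (IntermediateField.adjoin_simple_le_iff.2 ?_) hx
      have := inv_mem (IntermediateField.mem_adjoin_simple_self k t⁻¹)
      rwa [inv_inv] at this
    rw [IntermediateField.mem_adjoin_simple_iff] at hx'
    obtain ⟨r, s, rfl⟩ := hx'
    by_cases hs : aeval t⁻¹ s = 0
    · rw [hs, div_zero]
      exact ⟨0, zero_mem _, 1, one_mem _, one_ne_zero, by rw [zero_mul]⟩
    · exact ⟨aeval t⁻¹ r, aeval_mem_Rinf t r, aeval t⁻¹ s, aeval_mem_Rinf t s, hs,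
        div_mul_cancel₀ _ hs⟩
  pir := by
    refine ⟨fun I => ?_⟩
    obtain ⟨g, hg⟩ := (inferInstance : (I.comap (φinf k t)).IsPrincipal)
    refine ⟨φinf k t g, le_antisymm ?_ ?_⟩
    · intro x hx
      obtain ⟨p, q, hq, h⟩ := exists_φinf x
      have h1 : p ∈ I.comap (φinf k t) := by
        rw [Ideal.mem_comap, ← h]
        exact Ideal.mul_mem_right _ _ hx
      rw [hg] at h1
      obtain ⟨b, hb⟩ := Submodule.mem_span_singleton.1 h1
      have h2 : φinf k t g ∣ x * φinf k t q := by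
        rw [h, ← hb, smul_eq_mul, map_mul]
        exact dvd_mul_left _ _
      exact Ideal.mem_span_singleton.2 ((isUnit_φinf ht hq).dvd_mul_right.1 h2)
    · rw [Submodule.span_singleton_le_iff_mem]
      have : g ∈ I.comap (φinf k t) := by
        rw [hg]
        exact Submodule.mem_span_singleton_self g
      exact this
  quot c hc := by
    obtain ⟨m, hm⟩ := exists_pow_mem ht c hc
    refine quot_finite_of_surj (φinf k t) _ (X ^ m) (pow_ne_zero _ X_ne_zero) hm ?_
    intro a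
    obtain ⟨p, q, hq, h⟩ := exists_φinf a
    obtain ⟨u, v, huv⟩ := (isCoprime_X hq).pow_right (n := m)
    refine ⟨p * u, ?_⟩
    have h1 : a - φinf k t (p * u) = a * φinf k t v * φinf k t (X ^ m) := by
      have := congrArg (φinf k t) huv
      rw [map_add, map_mul, map_mul, map_one] at this
      rw [map_mul, ← h]
      linear_combination (-a) * this
    rw [h1]
    exact Ideal.mul_mem_left _ _ hm

end Rings

section Inf

variable {k 𝕃 : Type*} [Field k] [Field 𝕃] [Algebra k 𝕃]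

lemma ne_zero_of_transcendental {t : 𝕃} (ht : Transcendental k t) : t ≠ 0 := by
  rintro rfl
  exact ht isAlgebraic_zero

lemma aeval_reverse {t : 𝕃} (ht : t ≠ 0) (f : k[X]) :
    aeval t⁻¹ f.reverse * t ^ f.natDegree = aeval t f := by
  let : Invertible t := invertibleOfNonzero ht
  have h := eval₂_reverse_mul_pow (algebraMap k 𝕃) t f
  rw [invOf_eq_inv] at h
  exact h

/-- `k[t] ∩ Rinf = k`. -/
lemma inter_eq {t : 𝕃} (ht : Transcendental k t) {x : 𝕃} (h1 : x ∈ Rfin k t)
    (h2 : x ∈ Rinf k t) : x ∈ Set.range (algebraMap k 𝕃) := by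
  have ht0 := ne_zero_of_transcendental ht
  have hs := transcendental_inv ht
  obtain ⟨f, hf⟩ := φfin_surj t ⟨x, h1⟩
  have hx : x = aeval t f := by
    rw [← coe_φfin, hf]
  obtain ⟨p, q, hq, h⟩ := h2
  by_cases hd : f.natDegree = 0
  · rw [natDegree_eq_zero] at hd
    obtain ⟨c, rfl⟩ := hd
    exact ⟨c, by rw [hx, aeval_C]⟩
  · exfalso
    have hf0 : f ≠ 0 := by
      rintro rfl
      exact hd natDegree_zero
    have h3 : f.reverse * q = X ^ f.natDegree * p := by
      apply aeval_inj hs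
      rw [map_mul, map_mul, map_pow, aeval_X, ← h, hx, ← aeval_reverse ht0 f, inv_pow]
      field_simp
    have h4 := congrArg (fun g => coeff g 0) h3
    simp only [mul_coeff_zero, coeff_zero_reverse, coeff_X_pow, if_neg (Ne.symm hd), zero_mul] at h4
    exact (mul_ne_zero (leadingCoeff_ne_zero.2 hf0) hq) h4

/-- `k(t) = k[t] + Rinf`. -/
lemma exists_add {t : 𝕃} (ht : Transcendental k t) {x : 𝕃}
    (hx : x ∈ IntermediateField.adjoin k {t}) :
    ∃ y ∈ Rfin k t, ∃ z ∈ Rinf k t, x = y + z := by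
  have ht0 := ne_zero_of_transcendental ht
  have hs := transcendental_inv ht
  rw [IntermediateField.mem_adjoin_simple_iff] at hx
  obtain ⟨f, g, rfl⟩ := hx
  by_cases hg : g = 0
  · rw [hg, map_zero, div_zero]
    exact ⟨0, zero_mem _, 0, zero_mem _, by rw [add_zero]⟩
  have hg' : aeval t g ≠ 0 := aeval_ne_zero ht hg
  refine ⟨aeval t (f / g), ?_, aeval t (f % g) / aeval t g, ?_, ?_⟩
  · rw [← coe_φfin]; exact (φfin k t _).2
  · refine ⟨(f % g).reverse * X ^ (g.natDegree - (f % g).natDegree), g.reverse, ?_, ?_⟩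
    · rw [coeff_zero_reverse]
      exact leadingCoeff_ne_zero.2 hg
    · have hle : (f % g).natDegree ≤ g.natDegree :=
        natDegree_le_natDegree (degree_mod_lt f hg).le
      have e1 : aeval t⁻¹ g.reverse = aeval t g / t ^ g.natDegree := by
        rw [eq_div_iff (pow_ne_zero _ ht0), aeval_reverse ht0]
      have e2 : aeval t⁻¹ (f % g).reverse = aeval t (f % g) / t ^ (f % g).natDegree := by
        rw [eq_div_iff (pow_ne_zero _ ht0), aeval_reverse ht0]
      have e3 : t ^ g.natDegree = t ^ (f % g).natDegree * t ^ (g.natDegree - (f % g).natDegree) := by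
        rw [← pow_add, Nat.add_sub_cancel' hle]
      rw [map_mul, map_pow, aeval_X, e1, e2, e3, inv_pow]
      field_simp
  · rw [div_eq_iff hg', add_mul, div_mul_cancel₀ _ hg', ← map_mul, ← map_add,
      EuclideanDomain.div_add_mod']

lemma integral_inter [IsAlgClosed k] {t : 𝕃} (ht : Transcendental k t) {x : 𝕃}
    (h1 : x ∈ Oc (Rfin k t)) (h2 : x ∈ Oc (Rinf k t)) : x ∈ Set.range (algebraMap k 𝕃) := by
  have hc : ∀ i, (minpoly (IntermediateField.adjoin k {t}) x).coeff i ∈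
      Set.range (algebraMap k (IntermediateField.adjoin k {t})) := by
    intro i
    obtain ⟨c, hc⟩ := inter_eq ht ((good_fin t).minpoly_coeff x h1 i)
      ((good_inf t ht).minpoly_coeff x h2 i)
    exact ⟨c, Subtype.ext hc⟩
  rw [← lifts_iff_coeff_lifts] at hc
  obtain ⟨P, hP⟩ := hc
  rw [coe_mapRingHom] at hP
  have hint : IsIntegral (IntermediateField.adjoin k {t}) x := (good_fin t).isIntegral x h1
  have hP0 : P ≠ 0 := by
    rintro rfl
    rw [Polynomial.map_zero] at hP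
    exact minpoly.ne_zero hint hP.symm
  have halg : IsAlgebraic k x := by
    refine ⟨P, hP0, ?_⟩
    have := minpoly.aeval (IntermediateField.adjoin k {t}) x
    rw [← hP, aeval_map_algebraMap] at this
    exact this
  exact minpoly.mem_range_of_degree_eq_one k x
    (IsAlgClosed.degree_eq_one_of_irreducible k (minpoly.irreducible halg.isIntegral))

lemma inv_mem_maximal {t : 𝕃} (ht : Transcendental k t) :
    ∃ h : t⁻¹ ∈ Oc (Rinf k t), ∀ P : Ideal (Oc (Rinf k t)), P.IsMaximal →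
      (⟨t⁻¹, h⟩ : Oc (Rinf k t)) ∈ P := by
  have hmem : t⁻¹ ∈ Oc (Rinf k t) := by
    have := isIntegral_algebraMap (R := Rinf k t) (A := 𝕃) (x := φinf k t X)
    have h2 : algebraMap (Rinf k t) 𝕃 (φinf k t X) = t⁻¹ := aeval_X _
    rwa [h2] at this
  refine ⟨hmem, fun P hP => ?_⟩
  let P' : Ideal (integralClosure (Rinf k t) 𝕃) := P
  have hP' : P'.IsMaximal := hP
  have h1 := Ideal.isMaximal_comap_of_isIntegral_of_isMaximal (R := Rinf k t) P'
  have key : φinf k t X ∈ P'.comap (algebraMap (Rinf k t) (integralClosure (Rinf k t) 𝕃)) := by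
    by_contra hX
    obtain ⟨y, z, hz, hyz⟩ := h1.exists_inv hX
    obtain ⟨p, q, hq, h⟩ := exists_φinf y
    have hu : IsUnit (z * φinf k t q) := by
      have h3 : z * φinf k t q = φinf k t (q - X * p) := by
        rw [map_sub, map_mul, ← h]
        linear_combination (φinf k t q) * hyz
      rw [h3]
      apply isUnit_φinf ht
      rw [coeff_sub, mul_coeff_zero, coeff_X_zero, zero_mul, sub_zero]
      exact hq
    have hz' : IsUnit z := isUnit_of_mul_isUnit_left hu
    exact h1.ne_top (Ideal.eq_top_of_isUnit_mem _ hz hz')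
  have : (algebraMap (Rinf k t) (integralClosure (Rinf k t) 𝕃) (φinf k t X)) =
      (⟨t⁻¹, hmem⟩ : integralClosure (Rinf k t) 𝕃) := Subtype.ext (aeval_X _)
  rw [Ideal.mem_comap, this] at key
  exact key

end Inf

section Approx

variable {k 𝕃 : Type*} [Field k] [Field 𝕃] [Algebra k 𝕃]

lemma mem_Oc_of_mem {R : Subalgebra k 𝕃} {x : 𝕃} (hx : x ∈ R) : x ∈ Oc R := by
  have : IsIntegral R (algebraMap R 𝕃 ⟨x, hx⟩) := isIntegral_algebraMap
  exact this

lemma approx {t : 𝕃} (ht : Transcendental k t)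
    (hfin : FiniteDimensional (IntermediateField.adjoin k {t}) 𝕃) (a b : 𝕃) (ha : a ≠ 0)
    (hb : b ≠ 0) : ∃ n₀ : ℕ, ∀ n ≥ n₀, ∀ x : 𝕃,
      ∃ u ∈ Oc (Rfin k t), ∃ v ∈ Oc (Rinf k t), x = a * u + t ^ n * (b * v) := by
  classical
  have ht0 := ne_zero_of_transcendental ht
  let B := Module.finBasis (IntermediateField.adjoin k {t}) 𝕃
  choose c hcR hc0 hc using fun i => (good_fin (k := k) t).clear (B i / a)
  choose c' hcR' hc0' hc' using fun i => (good_inf t ht).clear (c i * B i / b)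
  have hm : ∀ i, ∃ m : ℕ, t⁻¹ ^ m * (c i * B i / b) ∈ Oc (Rinf k t) := by
    intro i
    obtain ⟨m, hm⟩ := exists_pow_mem ht ⟨c' i, hcR' i⟩ (fun h => hc0' i (congrArg Subtype.val h))
    rw [Ideal.mem_span_singleton] at hm
    obtain ⟨d, hd⟩ := hm
    have hd' : t⁻¹ ^ m = c' i * d := by
      have := congrArg (Subtype.val) hd
      rw [coe_φinf, map_pow, aeval_X] at this
      exact this
    refine ⟨m, ?_⟩
    rw [hd', mul_comm (c' i), mul_assoc]
    exact mul_mem (mem_Oc_of_mem d.2) (hc' i)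
  choose m hm using hm
  refine ⟨Finset.univ.sup m, fun n hn x => ?_⟩
  have hn' : ∀ i, t⁻¹ ^ n * (c i * B i / b) ∈ Oc (Rinf k t) := by
    intro i
    have h1 : m i ≤ n := le_trans (Finset.le_sup (f := m) (Finset.mem_univ i)) hn
    rw [← Nat.sub_add_cancel h1, pow_add, mul_assoc]
    refine mul_mem (pow_mem (mem_Oc_of_mem ?_) _) (hm i)
    have := aeval_mem_Rinf (k := k) t X
    rwa [aeval_X] at this
  have hr : ∀ i, ((B.repr x i : IntermediateField.adjoin k {t}) : 𝕃) / c i ∈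
      IntermediateField.adjoin k {t} := by
    intro i
    exact div_mem (B.repr x i).2 ((good_fin t).le _ (hcR i))
  choose y hy z hz hyz using fun i => exists_add ht (hr i)
  refine ⟨∑ i, y i * (c i * (B i / a)), sum_mem fun i _ => mul_mem (mem_Oc_of_mem (hy i)) (hc i),
    ∑ i, z i * (t⁻¹ ^ n * (c i * B i / b)),
    sum_mem fun i _ => mul_mem (mem_Oc_of_mem (hz i)) (hn' i), ?_⟩
  conv_lhs => rw [← B.sum_repr x]
  rw [Finset.mul_sum, Finset.mul_sum, Finset.mul_sum, ← Finset.sum_add_distrib]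
  refine Finset.sum_congr rfl fun i _ => ?_
  have h1 : ((B.repr x i : IntermediateField.adjoin k {t}) : 𝕃) = (y i + z i) * c i := by
    rw [← hyz i, div_mul_cancel₀ _ (hc0 i)]
  rw [IntermediateField.smul_def, smul_eq_mul, h1, inv_pow]
  have := pow_ne_zero n ht0
  field_simp

end Approx

end Pool.Agent.D5741.DTA

namespace Pool.Agent.D5741

/-- TASK DTA: `k` algebraically closed, `𝕃 / k(t)` finite. -/
theorem dta_dedekind (k 𝕃 : Type) [Field k] [IsAlgClosed k] [CharZero k] [Field 𝕃] [Algebra k 𝕃]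
    (t : 𝕃) (ht : Transcendental k t)
    (hfin : FiniteDimensional (IntermediateField.adjoin k {t}) 𝕃) :
    (IsDedekindDomain (Ofin k t) ∧ IsFractionRing (Ofin k t) 𝕃) ∧
    (IsDedekindDomain (Oinf k t) ∧ IsFractionRing (Oinf k t) 𝕃) :=
  ⟨(DTA.good_fin t).dedekind, (DTA.good_inf t ht).dedekind⟩

theorem dta_finite (k 𝕃 : Type) [Field k] [IsAlgClosed k] [CharZero k] [Field 𝕃] [Algebra k 𝕃]
    (t : 𝕃) (ht : Transcendental k t)
    (hfin : FiniteDimensional (IntermediateField.adjoin k {t}) 𝕃) :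
    (∀ a : Ofin k t, a ≠ 0 → FiniteDimensional k (Ofin k t ⧸ Ideal.span {a})) ∧
    (∀ a : Oinf k t, a ≠ 0 → FiniteDimensional k (Oinf k t ⧸ Ideal.span {a})) :=
  ⟨(DTA.good_fin t).finite_quot, (DTA.good_inf t ht).finite_quot⟩

theorem dta_inf (k 𝕃 : Type) [Field k] [IsAlgClosed k] [CharZero k] [Field 𝕃] [Algebra k 𝕃]
    (t : 𝕃) (ht : Transcendental k t)
    (hfin : FiniteDimensional (IntermediateField.adjoin k {t}) 𝕃) :
    (∀ x : 𝕃, x ∈ Ofin k t → x ∈ Oinf k t → x ∈ Set.range (algebraMap k 𝕃)) ∧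
    (∃ h : t⁻¹ ∈ Oinf k t, ∀ P : Ideal (Oinf k t), P.IsMaximal → (⟨t⁻¹, h⟩ : Oinf k t) ∈ P) ∧
    (∀ a b : 𝕃, a ≠ 0 → b ≠ 0 → ∃ n₀ : ℕ, ∀ n ≥ n₀, ∀ x : 𝕃,
      ∃ u ∈ Ofin k t, ∃ v ∈ Oinf k t, x = a * u + t ^ n * (b * v)) :=
  ⟨fun _ h1 h2 => DTA.integral_inter ht h1 h2, DTA.inv_mem_maximal ht, DTA.approx ht hfin⟩

end Pool.Agent.D5741
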