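import Mathlib
import Pool.Agent.Lib.MP_d5741c_al.Basic
import Pool.Agent.Lib.MP_d5741c_al.FF
import Pool.Agent.Lib.MP_d5741c_al.Curve
import Pool.Agent.Lib.MP_d5741c_al.Mg.G004

/-!
# The Galois action on the function field and the finite orbit argument
-/

set_option autoImplicit false
open scoped TensorProduct nonZeroDivisors

namespace Pool.Agent.D5741

namespace GalAux

section Semilin

variable {k 𝕃 : Type} [Field k] [Field 𝕃] [Algebra k 𝕃]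

theorem map_Rfin {t : 𝕃} {T : 𝕃 →+* 𝕃} {τ : k →+* k}
    (hT : ∀ c, T (algebraMap k 𝕃 c) = algebraMap k 𝕃 (τ c)) (ht : T t = t) {x : 𝕃}
    (hx : x ∈ Rfin k t) : T x ∈ Rfin k t := by
  unfold Rfin at hx ⊢
  induction hx using Algebra.adjoin_induction with
  | mem x hx =>
    rw [Set.mem_singleton_iff] at hx
    rw [hx, ht]
    exact Algebra.subset_adjoin (Set.mem_singleton t)
  | algebraMap r => rw [hT]; exact Subalgebra.algebraMap_mem _ _
  | add x y hx hy h1 h2 => rw [map_add]; exact Subalgebra.add_mem _ h1 h2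
  | mul x y hx hy h1 h2 => rw [map_mul]; exact Subalgebra.mul_mem _ h1 h2

theorem map_aeval {t : 𝕃} {T : 𝕃 →+* 𝕃} {τ : k →+* k}
    (hT : ∀ c, T (algebraMap k 𝕃 c) = algebraMap k 𝕃 (τ c)) (ht : T t = t)
    (p : Polynomial k) :
    T (Polynomial.aeval t⁻¹ p) = Polynomial.aeval t⁻¹ (p.map τ) := by
  rw [Polynomial.aeval_def, Polynomial.hom_eval₂, Polynomial.aeval_def, Polynomial.eval₂_map,
    map_inv₀, ht]
  congr 1
  ext c
  exact hT c

theorem map_Rinf {t : 𝕃} {T : 𝕃 →+* 𝕃} {τ : k →+* k}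
    (hT : ∀ c, T (algebraMap k 𝕃 c) = algebraMap k 𝕃 (τ c)) (ht : T t = t) {x : 𝕃}
    (hx : x ∈ Rinf k t) : T x ∈ Rinf k t := by
  obtain ⟨p, q, hq, h⟩ := hx
  refine ⟨p.map τ, q.map τ, ?_, ?_⟩
  · rw [Polynomial.coeff_map]
    exact (map_ne_zero τ).2 hq
  · rw [← map_aeval hT ht, ← map_aeval hT ht, ← map_mul, h]

theorem map_closure {R : Subalgebra k 𝕃} {T : 𝕃 →+* 𝕃} (hR : ∀ x ∈ R, T x ∈ R) {x : 𝕃}
    (hx : x ∈ (integralClosure R 𝕃).restrictScalars k) :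
    T x ∈ (integralClosure R 𝕃).restrictScalars k := by
  change IsIntegral R x at hx
  change IsIntegral R (T x)
  let φ : R →+* R :=
    { toFun := fun x => ⟨T x, hR x x.2⟩
      map_one' := Subtype.ext (by simp)
      map_zero' := Subtype.ext (by simp)
      map_add' := fun a b => Subtype.ext (by simp)
      map_mul' := fun a b => Subtype.ext (by simp) }
  exact IsIntegral.map_of_comp_eq φ T (by ext x; rfl) hx

theorem map_Ofin {t : 𝕃} {T : 𝕃 →+* 𝕃} {τ : k →+* k}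
    (hT : ∀ c, T (algebraMap k 𝕃 c) = algebraMap k 𝕃 (τ c)) (ht : T t = t) {x : 𝕃}
    (hx : x ∈ Ofin k t) : T x ∈ Ofin k t :=
  map_closure (fun _ h => map_Rfin hT ht h) hx

theorem map_Oinf {t : 𝕃} {T : 𝕃 →+* 𝕃} {τ : k →+* k}
    (hT : ∀ c, T (algebraMap k 𝕃 c) = algebraMap k 𝕃 (τ c)) (ht : T t = t) {x : 𝕃}
    (hx : x ∈ Oinf k t) : T x ∈ Oinf k t :=
  map_closure (fun _ h => map_Rinf hT ht h) hx

end Semilin

section Orbit

/-- The action of ring automorphisms on ideals. -/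
def act {A : Type} [CommRing A] (g : RingAut A) (I : Ideal A) : Ideal A :=
  Ideal.map (RingEquiv.toRingHom g) I

variable {A : Type} [CommRing A]

theorem mem_act {g : RingAut A} {I : Ideal A} {y : A} : y ∈ act g I ↔ ∃ x ∈ I, g x = y :=
  Ideal.mem_map_iff_of_surjective _ (RingEquiv.surjective g)

theorem apply_mem_act {g : RingAut A} {I : Ideal A} {x : A} (hx : x ∈ I) : g x ∈ act g I :=
  mem_act.2 ⟨x, hx, rfl⟩

theorem act_mul (g h : RingAut A) (I : Ideal A) : act (g * h) I = act g (act h I) := by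
  unfold act
  rw [Ideal.map_map]
  rfl

theorem act_one (I : Ideal A) : act (1 : RingAut A) I = I := Ideal.map_id I

theorem act_inj {g : RingAut A} {I J : Ideal A} (h : act g I = act g J) : I = J := by
  have := congrArg (act g⁻¹) h
  rwa [← act_mul, ← act_mul, inv_mul_cancel, act_one, act_one] at this

theorem act_ideal_mul (g : RingAut A) (I J : Ideal A) : act g (I * J) = act g I * act g J :=
  Ideal.map_mul _ _ _

theorem act_pow_fix {g : RingAut A} {I : Ideal A} (h : act g I = I) (n : ℕ) :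
    act (g ^ n) I = I := by
  induction n with
  | zero => rw [pow_zero, act_one]
  | succ n ih => rw [pow_succ, act_mul, h, ih]

theorem act_mono {g : RingAut A} {I J : Ideal A} (h : I ≤ J) : act g I ≤ act g J :=
  Ideal.map_mono h

theorem pow_fix {g : RingAut A} {y : A} (h : g y = y) (n : ℕ) : (g ^ n) y = y := by
  induction n with
  | zero => rfl
  | succ n ih => rw [pow_succ, RingAut.mul_apply, h, ih]

theorem finite_ideals [IsDedekindDomain A] {y : A} (hy : y ≠ 0) :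
    Finite {I : Ideal A // y ∈ I} := by
  classical
  have h0 : (Ideal.span {y} : Ideal A) ≠ 0 := by
    rwa [Ne, Submodule.zero_eq_bot, Ideal.span_singleton_eq_bot]
  have : Finite {x : Ideal A // x ∣ Ideal.span {y}} := by
    have := UniqueFactorizationMonoid.fintypeSubtypeDvd (Ideal.span {y} : Ideal A) h0
    exact Finite.of_fintype _
  exact Finite.of_injective
    (fun I : {I : Ideal A // y ∈ I} =>
      (⟨I.1, Ideal.dvd_span_singleton.2 I.2⟩ : {x : Ideal A // x ∣ Ideal.span {y}}))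
    (fun I J h => Subtype.ext (congrArg (fun z => z.1) h))

theorem fix_of_eq {g : RingAut A} {I : Ideal A} {i j : ℕ} (hij : i < j)
    (h : act (g ^ i) I = act (g ^ j) I) : act (g ^ (j - i)) I = I := by
  have e : g ^ j = g ^ i * g ^ (j - i) := by rw [← pow_add]; congr 1; omega
  rw [e, act_mul] at h
  exact (act_inj h).symm

theorem exists_pow_fix {B : Type} [CommRing B] [IsDedekindDomain A] [IsDedekindDomain B]
    (g : RingAut A) (h : RingAut B) {y : A} (hy : y ≠ 0) (hgy : g y = y)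
    {y' : B} (hy' : y' ≠ 0) (hhy : h y' = y') {I₁ I₂ I₃ : Ideal A} {J₁ J₂ : Ideal B}
    (m₁ : y ∈ I₁) (m₂ : y ∈ I₂) (m₃ : y ∈ I₃) (m₄ : y' ∈ J₁) (m₅ : y' ∈ J₂) :
    ∃ d : ℕ, 0 < d ∧ act (g ^ d) I₁ = I₁ ∧ act (g ^ d) I₂ = I₂ ∧ act (g ^ d) I₃ = I₃ ∧
      act (h ^ d) J₁ = J₁ ∧ act (h ^ d) J₂ = J₂ := by
  have := finite_ideals hy
  have := finite_ideals hy'
  have memA : ∀ {I : Ideal A} (n : ℕ), y ∈ I → y ∈ act (g ^ n) I := fun n hI => by
    have := apply_mem_act (g := g ^ n) hI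
    rwa [pow_fix hgy] at this
  have memB : ∀ {I : Ideal B} (n : ℕ), y' ∈ I → y' ∈ act (h ^ n) I := fun n hI => by
    have := apply_mem_act (g := h ^ n) hI
    rwa [pow_fix hhy] at this
  let f : ℕ → {I : Ideal A // y ∈ I} × {I : Ideal A // y ∈ I} × {I : Ideal A // y ∈ I} ×
      {I : Ideal B // y' ∈ I} × {I : Ideal B // y' ∈ I} := fun n =>
    (⟨act (g ^ n) I₁, memA n m₁⟩, ⟨act (g ^ n) I₂, memA n m₂⟩, ⟨act (g ^ n) I₃, memA n m₃⟩,
      ⟨act (h ^ n) J₁, memB n m₄⟩, ⟨act (h ^ n) J₂, memB n m₅⟩)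
  obtain ⟨i, j, hij, hf⟩ := Finite.exists_ne_map_eq_of_infinite f
  have key : ∀ i j : ℕ, i < j → f i = f j → ∃ d : ℕ, 0 < d ∧ act (g ^ d) I₁ = I₁ ∧
      act (g ^ d) I₂ = I₂ ∧ act (g ^ d) I₃ = I₃ ∧ act (h ^ d) J₁ = J₁ ∧ act (h ^ d) J₂ = J₂ := by
    intro i j hij hf
    simp only [f, Prod.mk.injEq, Subtype.mk.injEq] at hf
    obtain ⟨e1, e2, e3, e4, e5⟩ := hf
    exact ⟨j - i, by omega, fix_of_eq hij e1, fix_of_eq hij e2, fix_of_eq hij e3,
      fix_of_eq hij e4, fix_of_eq hij e5⟩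
  rcases lt_or_gt_of_ne hij with hlt | hlt
  · exact key i j hlt hf
  · exact key j i hlt hf.symm

variable {k F : Type} [Field k] [Field F] [Algebra k F]

/-- The restriction of a ring automorphism to a stable subalgebra. -/
def res (R : Subalgebra k F) (T : RingAut F) (h : ∀ x, T x ∈ R ↔ x ∈ R) : RingAut R where
  toFun x := ⟨T x, (h x).2 x.2⟩
  invFun x := ⟨T.symm x, (h _).1 (by rw [RingEquiv.apply_symm_apply]; exact x.2)⟩
  left_inv x := Subtype.ext (by simp)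
  right_inv x := Subtype.ext (by simp)
  map_mul' x y := Subtype.ext (by simp)
  map_add' x y := Subtype.ext (by simp)

theorem res_pow (R : Subalgebra k F) (T : RingAut F) (h : ∀ x, T x ∈ R ↔ x ∈ R) (n : ℕ) (x : R) :
    (((res R T h) ^ n) x : F) = (T ^ n) (x : F) := by
  induction n generalizing x with
  | zero => rfl
  | succ n ih =>
    rw [pow_succ, pow_succ, RingAut.mul_apply, RingAut.mul_apply, ih]
    rfl

theorem pow_mem_iff {R : Subalgebra k F} {T : RingAut F} (h : ∀ x, T x ∈ R ↔ x ∈ R) (n : ℕ)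
    (x : F) : (T ^ n) x ∈ R ↔ x ∈ R := by
  induction n generalizing x with
  | zero => exact Iff.rfl
  | succ n ih => rw [pow_succ, RingAut.mul_apply, ih, h]

/-- Transport of an equation of fractional ideals. -/
theorem transport {R : Subalgebra k F} [IsFractionRing R F] {S : RingAut F} {g : RingAut R}
    (hg : ∀ x : R, (g x : F) = S (x : F)) {φ : F} {I J : Ideal R}
    (e : FractionalIdeal.spanSingleton R⁰ φ * (I : FractionalIdeal R⁰ F) =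
      (J : FractionalIdeal R⁰ F)) :
    FractionalIdeal.spanSingleton R⁰ (S φ) * ((act g I : Ideal R) : FractionalIdeal R⁰ F) =
      ((act g J : Ideal R) : FractionalIdeal R⁰ F) := by
  ext w
  rw [FractionalIdeal.mem_singleton_mul]
  constructor
  · rintro ⟨y, hy, rfl⟩
    obtain ⟨a, ha, rfl⟩ := (FractionalIdeal.mem_coeIdeal _).1 hy
    obtain ⟨b, hb, rfl⟩ := mem_act.1 ha
    have h1 : φ * (b : F) ∈ (J : FractionalIdeal R⁰ F) := by
      rw [← e, FractionalIdeal.mem_singleton_mul]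
      exact ⟨b, (FractionalIdeal.mem_coeIdeal _).2 ⟨b, hb, rfl⟩, rfl⟩
    obtain ⟨c, hc, hc'⟩ := (FractionalIdeal.mem_coeIdeal _).1 h1
    refine (FractionalIdeal.mem_coeIdeal _).2 ⟨g c, apply_mem_act hc, ?_⟩
    change (g c : F) = S φ * (g b : F)
    rw [hg, hg, ← map_mul]
    exact congrArg S hc'
  · intro hw
    obtain ⟨a, ha, rfl⟩ := (FractionalIdeal.mem_coeIdeal _).1 hw
    obtain ⟨c, hc, rfl⟩ := mem_act.1 ha
    have h1 : (c : F) ∈ (J : FractionalIdeal R⁰ F) :=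
      (FractionalIdeal.mem_coeIdeal _).2 ⟨c, hc, rfl⟩
    rw [← e, FractionalIdeal.mem_singleton_mul] at h1
    obtain ⟨y, hy, hy'⟩ := h1
    obtain ⟨b, hb, rfl⟩ := (FractionalIdeal.mem_coeIdeal _).1 hy
    refine ⟨(g b : F), (FractionalIdeal.mem_coeIdeal _).2 ⟨g b, apply_mem_act hb, rfl⟩, ?_⟩
    change (g c : F) = S φ * (g b : F)
    rw [hg, hg, hy', map_mul]
    rfl

end Orbit

end GalAux

open GalAux

section Tensor

variable (K L Ω : Type) [Field K] [CharZero K] [Field L] [Algebra K L] (t : L)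
    [Field Ω] [IsAlgClosed Ω] [Algebra K Ω] [IsDomain (Ω ⊗[K] L)]

/-- TASK GAL (1) -/
theorem exists_gal (τ : Ω ≃ₐ[K] Ω) :
    ∃ T : LL K L Ω ≃+* LL K L Ω,
      (∀ x : Ω ⊗[K] L, T (algebraMap _ (LL K L Ω) x) =
        algebraMap _ (LL K L Ω) (Algebra.TensorProduct.map τ.toAlgHom (AlgHom.id K L) x)) ∧
      (∀ x, T x ∈ Ofin Ω (tt K Ω t) ↔ x ∈ Ofin Ω (tt K Ω t)) ∧
      (∀ x, T x ∈ Oinf Ω (tt K Ω t) ↔ x ∈ Oinf Ω (tt K Ω t)) := by
  let ρ : Ω ⊗[K] L ≃ₐ[K] Ω ⊗[K] L := Algebra.TensorProduct.congr τ AlgEquiv.refl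
  let T : LL K L Ω ≃+* LL K L Ω :=
    IsFractionRing.ringEquivOfRingEquiv (K := LL K L Ω) (L := LL K L Ω) ρ.toRingEquiv
  have hTa : ∀ x : Ω ⊗[K] L, T (algebraMap _ (LL K L Ω) x) = algebraMap _ (LL K L Ω) (ρ x) :=
    fun x => IsFractionRing.ringEquivOfRingEquiv_algebraMap (h := ρ.toRingEquiv) x
  have hTs : ∀ x : Ω ⊗[K] L, T.symm (algebraMap _ (LL K L Ω) x) =
      algebraMap _ (LL K L Ω) (ρ.symm x) := fun x => by
    rw [RingEquiv.symm_apply_eq, hTa, AlgEquiv.apply_symm_apply]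
  have c1 : ∀ c : Ω, T (algebraMap Ω (LL K L Ω) c) = algebraMap Ω (LL K L Ω) (τ c) := by
    intro c
    rw [IsScalarTower.algebraMap_apply Ω (Ω ⊗[K] L) (LL K L Ω), hTa,
      IsScalarTower.algebraMap_apply Ω (Ω ⊗[K] L) (LL K L Ω)]
    congr 1
  have c2 : ∀ c : Ω, T.symm (algebraMap Ω (LL K L Ω) c) = algebraMap Ω (LL K L Ω) (τ.symm c) := by
    intro c
    rw [RingEquiv.symm_apply_eq, c1, AlgEquiv.apply_symm_apply]
  have t1 : T (tt K Ω t) = tt K Ω t := by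
    unfold tt
    rw [hTa]
    simp [ρ]
  have t2 : T.symm (tt K Ω t) = tt K Ω t := by
    rw [RingEquiv.symm_apply_eq, t1]
  refine ⟨T, fun x => hTa x, fun x => ⟨fun h => ?_, fun h => ?_⟩, fun x => ⟨fun h => ?_, fun h => ?_⟩⟩
  · have := map_Ofin (T := (T.symm : LL K L Ω →+* LL K L Ω)) (τ := (τ.symm : Ω →+* Ω)) c2 t2 h
    simpa using this
  · exact map_Ofin (T := (T : LL K L Ω →+* LL K L Ω)) (τ := (τ : Ω →+* Ω)) c1 t1 h
  · have := map_Oinf (T := (T.symm : LL K L Ω →+* LL K L Ω)) (τ := (τ.symm : Ω →+* Ω)) c2 t2 h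
    simpa using this
  · exact map_Oinf (T := (T : LL K L Ω →+* LL K L Ω)) (τ := (τ : Ω →+* Ω)) c1 t1 h

variable (ht : Transcendental K t)
    (hfin : FiniteDimensional (IntermediateField.adjoin K {t}) L)
    [IsDedekindDomain (Ofin Ω (tt K Ω t))] [IsFractionRing (Ofin Ω (tt K Ω t)) (LL K L Ω)]
    [IsDedekindDomain (Oinf Ω (tt K Ω t))] [IsFractionRing (Oinf Ω (tt K Ω t)) (LL K L Ω)]

include ht hfin

/-- TASK GAL (2): the finite orbit argument -/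
theorem mem_of_finite_orbit (k₁ : IntermediateField K Ω) [IsAlgClosed k₁]
    (𝔫 x z J₀ : Ideal (Ofin Ω (tt K Ω t))) (𝔫' J₁ : Ideal (Oinf Ω (tt K Ω t)))
    (h𝔫 : 𝔫 ≠ ⊥) (hx0 : x ≠ ⊥) (hz : z ≠ ⊥) (hJ₀ : J₀ ≠ ⊥) (h𝔫' : 𝔫' ≠ ⊥) (hJ₁ : J₁ ≠ ⊥)
    (y₀ : Ω ⊗[K] L) (hy₀ : y₀ ≠ 0)
    (hfix : ∀ τ : Ω ≃ₐ[K] Ω, (∀ c ∈ k₁, τ c = c) →
      Algebra.TensorProduct.map τ.toAlgHom (AlgHom.id K L) y₀ = y₀)
    (hmem : ∃ h : algebraMap _ (LL K L Ω) y₀ ∈ Ofin Ω (tt K Ω t),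
      (⟨_, h⟩ : Ofin Ω (tt K Ω t)) ∈ 𝔫 ∧ (⟨_, h⟩ : Ofin Ω (tt K Ω t)) ∈ z ∧
      (⟨_, h⟩ : Ofin Ω (tt K Ω t)) ∈ J₀)
    (N : ℕ) (hmem' : ∃ h : (tt K Ω t)⁻¹ ^ N ∈ Oinf Ω (tt K Ω t),
      (⟨_, h⟩ : Oinf Ω (tt K Ω t)) ∈ 𝔫' ∧ (⟨_, h⟩ : Oinf Ω (tt K Ω t)) ∈ J₁)
    (φ : LL K L Ω) (hφ : φ ≠ 0)
    (e0 : FractionalIdeal.spanSingleton _ φ * (𝔫 : FractionalIdeal (Ofin Ω (tt K Ω t))⁰ (LL K L Ω)) *
      (x : FractionalIdeal (Ofin Ω (tt K Ω t))⁰ (LL K L Ω)) =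
      (J₀ : FractionalIdeal (Ofin Ω (tt K Ω t))⁰ (LL K L Ω)) *
      (z : FractionalIdeal (Ofin Ω (tt K Ω t))⁰ (LL K L Ω)))
    (e1 : FractionalIdeal.spanSingleton _ φ * (𝔫' : FractionalIdeal (Oinf Ω (tt K Ω t))⁰ (LL K L Ω)) =
      (J₁ : FractionalIdeal (Oinf Ω (tt K Ω t))⁰ (LL K L Ω)))
    (hx : ∀ u : LL K L Ω, u ∈ (x : FractionalIdeal (Ofin Ω (tt K Ω t))⁰ (LL K L Ω))⁻¹ →
      u ∈ Oinf Ω (tt K Ω t) → u ∈ Set.range (algebraMap Ω (LL K L Ω)))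
    (P : Ideal (Ofin Ω (tt K Ω t))) (hP : P.IsMaximal) (hxP : x ≤ P) (s : Ω)
    (hs : ∃ h : tt K Ω t - algebraMap Ω (LL K L Ω) s ∈ Ofin Ω (tt K Ω t),
      (⟨_, h⟩ : Ofin Ω (tt K Ω t)) ∈ P) :
    s ∈ k₁ := by
  by_contra hsk
  obtain ⟨τ, hτ⟩ := exists_aut_shift k₁ Ω s (by
    rintro ⟨c, hc⟩
    exact hsk (hc ▸ c.2))
  let τK : Ω ≃ₐ[K] Ω := τ.restrictScalars K
  obtain ⟨T, hTa, hTA, hTB⟩ := exists_gal K L Ω t τK
  -- values of the powers of `T`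
  have hTc : ∀ c : Ω, T (algebraMap Ω (LL K L Ω) c) = algebraMap Ω (LL K L Ω) (τ c) := by
    intro c
    rw [IsScalarTower.algebraMap_apply Ω (Ω ⊗[K] L) (LL K L Ω), hTa,
      IsScalarTower.algebraMap_apply Ω (Ω ⊗[K] L) (LL K L Ω)]
    congr 1
  have hTt : T (tt K Ω t) = tt K Ω t := by
    unfold tt
    rw [hTa]
    simp
  have hTy : T (algebraMap _ (LL K L Ω) y₀) = algebraMap _ (LL K L Ω) y₀ := by
    rw [hTa, hfix τK (fun c hc => τ.commutes ⟨c, hc⟩)]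
  have hTnc : ∀ (n : ℕ) (c : Ω), ((T : RingAut (LL K L Ω)) ^ n) (algebraMap Ω (LL K L Ω) c) =
      algebraMap Ω (LL K L Ω) ((τ ^ n : Ω ≃ₐ[k₁] Ω) c) := by
    intro n
    induction n with
    | zero => intro c; rfl
    | succ n ih =>
      intro c
      rw [pow_succ, RingAut.mul_apply, hTc, ih, pow_succ, AlgEquiv.mul_apply]
  have hTnt : ∀ n : ℕ, ((T : RingAut (LL K L Ω)) ^ n) (tt K Ω t) = tt K Ω t := by
    intro n
    induction n with
    | zero => rfl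
    | succ n ih => rw [pow_succ, RingAut.mul_apply, hTt, ih]
  have hτn : ∀ n : ℕ, (τ ^ n : Ω ≃ₐ[k₁] Ω) s = s + n := by
    intro n
    induction n with
    | zero => simp
    | succ n ih =>
      rw [pow_succ', AlgEquiv.mul_apply, ih, map_add, hτ, map_natCast]
      push_cast
      ring
  obtain ⟨hyA, m1, m2, m3⟩ := hmem
  obtain ⟨hyB, m4, m5⟩ := hmem'
  have htt : tt K Ω t ≠ 0 := by
    unfold tt
    intro h0
    have h1 : (1 ⊗ₜ t : Ω ⊗[K] L) = 0 := by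
      apply IsFractionRing.injective (Ω ⊗[K] L) (LL K L Ω)
      rw [h0, map_zero]
    have ht0 : t ≠ 0 := fun h => ht (h ▸ isAlgebraic_zero)
    have h2 : (1 ⊗ₜ t : Ω ⊗[K] L) * (1 ⊗ₜ t⁻¹) = 1 := by
      rw [Algebra.TensorProduct.tmul_mul_tmul, mul_one, mul_inv_cancel₀ ht0]
      rfl
    rw [h1, zero_mul] at h2
    exact zero_ne_one h2
  let gA := res (Ofin Ω (tt K Ω t)) T hTA
  let gB := res (Oinf Ω (tt K Ω t)) T hTB
  have hyA0 : (⟨_, hyA⟩ : Ofin Ω (tt K Ω t)) ≠ 0 := by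
    intro h0
    have h1 := congrArg (fun u : Ofin Ω (tt K Ω t) => (u : LL K L Ω)) h0
    apply hy₀
    apply IsFractionRing.injective (Ω ⊗[K] L) (LL K L Ω)
    rw [map_zero]
    exact h1
  have hyB0 : (⟨_, hyB⟩ : Oinf Ω (tt K Ω t)) ≠ 0 := by
    intro h0
    have h1 := congrArg (fun u : Oinf Ω (tt K Ω t) => (u : LL K L Ω)) h0
    exact pow_ne_zero N (inv_ne_zero htt) h1
  obtain ⟨d, hd, f1, f2, f3, f4, f5⟩ := exists_pow_fix gA gB hyA0 (Subtype.ext hTy) hyB0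
    (Subtype.ext (by
      change T ((tt K Ω t)⁻¹ ^ N) = _
      rw [map_pow, map_inv₀, hTt])) m1 m2 m3 m4 m5
  -- the automorphism `S = T ^ d`
  obtain ⟨S, hS⟩ : ∃ S : RingAut (LL K L Ω), S = (T : RingAut (LL K L Ω)) ^ d := ⟨_, rfl⟩
  have hgA : ∀ a : Ofin Ω (tt K Ω t), (((gA ^ d) a : Ofin Ω (tt K Ω t)) : LL K L Ω) = S a := by
    intro a; rw [hS]; exact res_pow _ _ hTA d a
  have hgB : ∀ a : Oinf Ω (tt K Ω t), (((gB ^ d) a : Oinf Ω (tt K Ω t)) : LL K L Ω) = S a := by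
    intro a; rw [hS]; exact res_pow _ _ hTB d a
  have hSA : ∀ a, S a ∈ Ofin Ω (tt K Ω t) ↔ a ∈ Ofin Ω (tt K Ω t) := by
    intro a; rw [hS]; exact pow_mem_iff hTA d a
  have hSB : ∀ a, S a ∈ Oinf Ω (tt K Ω t) ↔ a ∈ Oinf Ω (tt K Ω t) := by
    intro a; rw [hS]; exact pow_mem_iff hTB d a
  have hSφ : S φ ≠ 0 := (map_ne_zero S).2 hφ
  -- transport of the two equations
  have E0 : FractionalIdeal.spanSingleton (Ofin Ω (tt K Ω t))⁰ φ *
      ((𝔫 * x : Ideal (Ofin Ω (tt K Ω t))) : FractionalIdeal (Ofin Ω (tt K Ω t))⁰ (LL K L Ω)) =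
      ((J₀ * z : Ideal (Ofin Ω (tt K Ω t))) :
        FractionalIdeal (Ofin Ω (tt K Ω t))⁰ (LL K L Ω)) := by
    rw [FractionalIdeal.coeIdeal_mul, FractionalIdeal.coeIdeal_mul, ← mul_assoc]
    exact e0
  have E0' := transport hgA E0
  rw [act_ideal_mul, act_ideal_mul, f1, f2, f3, FractionalIdeal.coeIdeal_mul,
    FractionalIdeal.coeIdeal_mul, ← e0] at E0'
  have H1 : FractionalIdeal.spanSingleton (Ofin Ω (tt K Ω t))⁰ (S φ) *
      ((act (gA ^ d) x : Ideal (Ofin Ω (tt K Ω t))) :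
        FractionalIdeal (Ofin Ω (tt K Ω t))⁰ (LL K L Ω)) =
      FractionalIdeal.spanSingleton (Ofin Ω (tt K Ω t))⁰ φ *
        (x : FractionalIdeal (Ofin Ω (tt K Ω t))⁰ (LL K L Ω)) := by
    have hn : (𝔫 : FractionalIdeal (Ofin Ω (tt K Ω t))⁰ (LL K L Ω)) ≠ 0 :=
      FractionalIdeal.coeIdeal_ne_zero.2 h𝔫
    apply mul_left_cancel₀ hn
    calc _ = _ := by ring
      _ = _ := E0'
      _ = _ := by ring
  have E1' := transport hgB e1
  rw [f4, f5, ← e1] at E1'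
  have H2 : FractionalIdeal.spanSingleton (Oinf Ω (tt K Ω t))⁰ (S φ) =
      FractionalIdeal.spanSingleton (Oinf Ω (tt K Ω t))⁰ φ := by
    have hn : (𝔫' : FractionalIdeal (Oinf Ω (tt K Ω t))⁰ (LL K L Ω)) ≠ 0 :=
      FractionalIdeal.coeIdeal_ne_zero.2 h𝔫'
    exact mul_right_cancel₀ hn E1'
  have H3 : S φ ∈ FractionalIdeal.spanSingleton (Oinf Ω (tt K Ω t))⁰ φ := by
    rw [← H2]; exact FractionalIdeal.mem_spanSingleton_self _ _
  obtain ⟨b, hb⟩ := (FractionalIdeal.mem_spanSingleton _).1 H3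
  have hb' : (b : LL K L Ω) * φ = S φ := hb
  -- the constant `c`
  obtain ⟨c, hc⟩ : ∃ c : LL K L Ω, S c = b := ⟨S.symm b, S.apply_symm_apply _⟩
  have hcB : c ∈ Oinf Ω (tt K Ω t) := by rw [← hSB, hc]; exact b.2
  have hx0' : (x : FractionalIdeal (Ofin Ω (tt K Ω t))⁰ (LL K L Ω)) ≠ 0 :=
    FractionalIdeal.coeIdeal_ne_zero.2 hx0
  have hcx : c ∈ (x : FractionalIdeal (Ofin Ω (tt K Ω t))⁰ (LL K L Ω))⁻¹ := by
    rw [FractionalIdeal.mem_inv_iff hx0']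
    intro w hw
    obtain ⟨a, ha, rfl⟩ := (FractionalIdeal.mem_coeIdeal _).1 hw
    have h1 : S φ * S (a : LL K L Ω) ∈ FractionalIdeal.spanSingleton (Ofin Ω (tt K Ω t))⁰ φ *
        (x : FractionalIdeal (Ofin Ω (tt K Ω t))⁰ (LL K L Ω)) := by
      rw [← H1, FractionalIdeal.mem_singleton_mul]
      refine ⟨S (a : LL K L Ω), (FractionalIdeal.mem_coeIdeal _).2
        ⟨(gA ^ d) a, apply_mem_act ha, ?_⟩, rfl⟩
      exact hgA a
    obtain ⟨y', hy', hy''⟩ := FractionalIdeal.mem_singleton_mul.1 h1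
    obtain ⟨a', ha', rfl⟩ := (FractionalIdeal.mem_coeIdeal _).1 hy'
    have h2 : S (c * (a : LL K L Ω)) = (a' : LL K L Ω) := by
      rw [map_mul, hc]
      have h3 : φ * ((b : LL K L Ω) * S (a : LL K L Ω)) = φ * (a' : LL K L Ω) := by
        rw [← mul_assoc, mul_comm φ, hb']
        exact hy''
      exact mul_left_cancel₀ hφ h3
    have h3 : c * (a : LL K L Ω) ∈ Ofin Ω (tt K Ω t) := by
      rw [← hSA, h2]; exact a'.2
    exact (FractionalIdeal.mem_one_iff _).2 ⟨⟨_, h3⟩, rfl⟩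
  obtain ⟨c₀, hc₀⟩ := hx c hcx hcB
  have hb0 : (b : LL K L Ω) ≠ 0 := by
    intro h0
    rw [h0, zero_mul] at hb'
    exact hSφ hb'.symm
  obtain ⟨c₁, hc₁⟩ : ∃ c₁ : Ω, (b : LL K L Ω) = algebraMap Ω (LL K L Ω) c₁ := by
    refine ⟨(τ ^ d : Ω ≃ₐ[k₁] Ω) c₀, ?_⟩
    rw [← hc, ← hc₀, hS, hTnc]
  have hc₁0 : c₁ ≠ 0 := by
    rintro rfl
    rw [map_zero] at hc₁
    exact hb0 hc₁
  -- `x` is stable under `S`
  have hunit : FractionalIdeal.spanSingleton (Ofin Ω (tt K Ω t))⁰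
      (algebraMap Ω (LL K L Ω) c₁) = 1 := by
    have h1 : (Ideal.span {algebraMap Ω (Ofin Ω (tt K Ω t)) c₁} : Ideal (Ofin Ω (tt K Ω t))) = ⊤ :=
      Ideal.span_singleton_eq_top.2 ((isUnit_iff_ne_zero.2 hc₁0).map (algebraMap Ω _))
    have h2 := FractionalIdeal.coeIdeal_span_singleton (S := (Ofin Ω (tt K Ω t))⁰)
      (P := LL K L Ω) (algebraMap Ω (Ofin Ω (tt K Ω t)) c₁)
    rw [h1, FractionalIdeal.coeIdeal_top] at h2
    exact h2.symm
  have hxS : act (gA ^ d) x = x := by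
    have h1 : FractionalIdeal.spanSingleton (Ofin Ω (tt K Ω t))⁰ (S φ) =
        FractionalIdeal.spanSingleton (Ofin Ω (tt K Ω t))⁰ φ := by
      rw [← hb', hc₁, ← FractionalIdeal.spanSingleton_mul_spanSingleton, hunit, one_mul]
    rw [h1] at H1
    have hsφ : FractionalIdeal.spanSingleton (Ofin Ω (tt K Ω t))⁰ φ ≠ 0 :=
      FractionalIdeal.spanSingleton_ne_zero_iff.2 hφ
    exact FractionalIdeal.coeIdeal_injective (mul_left_cancel₀ hsφ H1)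
  -- the orbit of `P`
  obtain ⟨y₁, hy₁x, hy₁0⟩ := Submodule.exists_mem_ne_zero_of_ne_bot hx0
  have hfin1 := finite_ideals hy₁0
  have hmemP : ∀ m : ℕ, y₁ ∈ act ((gA ^ d) ^ m) P := by
    intro m
    have h1 := act_mono (g := (gA ^ d) ^ m) hxP
    rw [act_pow_fix hxS m] at h1
    exact h1 hy₁x
  obtain ⟨i, j, hij, hf⟩ := Finite.exists_ne_map_eq_of_infinite
    (fun m : ℕ => (⟨act ((gA ^ d) ^ m) P, hmemP m⟩ : {I : Ideal (Ofin Ω (tt K Ω t)) // y₁ ∈ I}))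
  simp only [Subtype.mk.injEq] at hf
  obtain ⟨hsA, hsP⟩ := hs
  have hval : ∀ m : ℕ, ((((gA ^ d) ^ m) ⟨_, hsA⟩ : Ofin Ω (tt K Ω t)) : LL K L Ω) =
      tt K Ω t - algebraMap Ω (LL K L Ω) (s + (d * m : ℕ)) := by
    intro m
    rw [← pow_mul]
    have h1 := res_pow (Ofin Ω (tt K Ω t)) T hTA (d * m) ⟨_, hsA⟩
    refine h1.trans ?_
    change ((T : RingAut (LL K L Ω)) ^ (d * m)) (tt K Ω t - algebraMap Ω (LL K L Ω) s) = _
    rw [map_sub, hTnt, hTnc, hτn]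
  have hi : ((gA ^ d) ^ i) ⟨_, hsA⟩ ∈ act ((gA ^ d) ^ i) P := apply_mem_act hsP
  have hj : ((gA ^ d) ^ j) ⟨_, hsA⟩ ∈ act ((gA ^ d) ^ i) P := by
    rw [hf]; exact apply_mem_act hsP
  have hsub := Ideal.sub_mem _ hi hj
  have hK : CharZero Ω := charZero_of_injective_algebraMap (algebraMap K Ω).injective
  have hdiff : ((gA ^ d) ^ i) ⟨_, hsA⟩ - ((gA ^ d) ^ j) ⟨_, hsA⟩ =
      algebraMap Ω (Ofin Ω (tt K Ω t)) ((d * j : ℕ) - (d * i : ℕ)) := by
    apply Subtype.ext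
    change ((((gA ^ d) ^ i) ⟨_, hsA⟩ : Ofin Ω (tt K Ω t)) : LL K L Ω) -
      ((((gA ^ d) ^ j) ⟨_, hsA⟩ : Ofin Ω (tt K Ω t)) : LL K L Ω) =
      algebraMap Ω (LL K L Ω) ((d * j : ℕ) - (d * i : ℕ))
    rw [hval, hval, map_add, map_add, map_sub]
    ring
  rw [hdiff] at hsub
  have hne : ((d * j : ℕ) : Ω) - ((d * i : ℕ) : Ω) ≠ 0 := by
    rw [sub_ne_zero]
    intro h0
    have h1 : d * j = d * i := by exact_mod_cast h0
    exact hij (Nat.eq_of_mul_eq_mul_left hd h1).symm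
  have htop : act ((gA ^ d) ^ i) P = ⊤ :=
    Ideal.eq_top_of_isUnit_mem _ hsub ((isUnit_iff_ne_zero.2 hne).map (algebraMap Ω _))
  have hPtop : P = ⊤ := by
    apply act_inj (g := (gA ^ d) ^ i)
    rw [htop]
    symm
    rw [Ideal.eq_top_iff_one]
    exact mem_act.2 ⟨1, Submodule.mem_top, map_one _⟩
  exact hP.ne_top hPtop

end Tensor

end Pool.Agent.D5741
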