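import Mathlib
import Pool.Agent.Lib.MP_d5741c_al.Basic
import Pool.Agent.Lib.MP_d5741c_al.FF
import Pool.Agent.Lib.MP_d5741c_al.Curve
import Pool.Agent.Lib.MP_d5741c_al.Mg.G002
import Pool.Agent.Lib.MP_d5741c_al.Mg.G006
import Pool.Agent.Lib.MP_d5741c_al.Mg.G004
import Pool.Agent.Lib.MP_d5741c_al.Mg.G005
import Pool.Agent.Lib.MP_d5741c_al.Gal

/-!
# Descent of the spaces `Sp`
-/

set_option autoImplicit false

namespace Pool.Agent.D5741

open scoped TensorProduct nonZeroDivisors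

namespace Desc

section lin

variable {K L Ω : Type} [Field K] [Field L] [Algebra K L] [Field Ω] [Algebra K Ω]

/-- The constant triples as a linear map. -/
noncomputable def cstL (K : Type) {L : Type} (Ω : Type) [Field K] [Field L] [Algebra K L]
    [Field Ω] [Algebra K Ω] : (Fin 3 → L) →ₗ[K] (Fin 3 → Ω ⊗[K] L) where
  toFun w := cst Ω w
  map_add' w w' := by
    ext j
    exact TensorProduct.tmul_add _ _ _
  map_smul' c w := by
    ext j
    exact TensorProduct.tmul_smul c (1 : Ω) (w j)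

theorem cstL_apply (w : Fin 3 → L) : cstL K Ω w = cst Ω w := rfl

theorem piRight_one_tmul (w : Fin 3 → L) :
    TensorProduct.piRight K Ω Ω (fun _ : Fin 3 => L) (1 ⊗ₜ w) = cst Ω w := by
  ext j
  simp [cst]

theorem piRight_map (τ : Ω ≃ₐ[K] Ω) (u : Ω ⊗[K] (Fin 3 → L)) :
    TensorProduct.piRight K Ω Ω (fun _ : Fin 3 => L)
      (TensorProduct.map τ.toLinearMap LinearMap.id u) = fun j =>
      Algebra.TensorProduct.map τ.toAlgHom (AlgHom.id K L)
        (TensorProduct.piRight K Ω Ω (fun _ : Fin 3 => L) u j) := by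
  induction u with
  | zero => ext j; simp
  | tmul x w => ext j; simp
  | add x y hx hy =>
    ext j
    simp only [map_add, Pi.add_apply, hx, hy]

theorem linInd_cst {ι : Type} {b : ι → (Fin 3 → L)} (hb : LinearIndependent K b) :
    LinearIndependent Ω (fun i => (cst Ω (b i) : Fin 3 → Ω ⊗[K] L)) := by
  have h1 : LinearIndependent Ω (fun i => (1 : Ω) ⊗ₜ[K] b i) :=
    Module.Flat.linearIndependent_one_tmul hb
  have h2 := h1.map' (TensorProduct.piRight K Ω Ω (fun _ : Fin 3 => L)).toLinearMap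
    (LinearEquiv.ker _)
  have h3 : (TensorProduct.piRight K Ω Ω (fun _ : Fin 3 => L)).toLinearMap ∘
      (fun i => (1 : Ω) ⊗ₜ[K] b i) = fun i => (cst Ω (b i) : Fin 3 → Ω ⊗[K] L) := by
    ext i : 1
    exact piRight_one_tmul (b i)
  rwa [h3] at h2

/-- Descent for subspaces of `(Ω ⊗ L)^3`. -/
theorem descent_triples [CharZero K] [IsAlgClosed Ω] (S : Submodule Ω (Fin 3 → Ω ⊗[K] L))
    (hS : ∀ (τ : Ω ≃ₐ[K] Ω) (h : Fin 3 → Ω ⊗[K] L), h ∈ S →
      (fun j => Algebra.TensorProduct.map τ.toAlgHom (AlgHom.id K L) (h j)) ∈ S) :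
    S = Submodule.span Ω {h | h ∈ S ∧ ∃ w : Fin 3 → L, h = cst Ω w} := by
  apply le_antisymm
  · set e := TensorProduct.piRight K Ω Ω (fun _ : Fin 3 => L) with he
    have h1 := descent K Ω (Fin 3 → L) (mem_range_of_fixed K Ω) (S.comap e.toLinearMap) (by
      intro τ u hu
      rw [Submodule.mem_comap] at hu ⊢
      have := hS τ _ hu
      have h2 := piRight_map τ u
      rw [← he] at h2
      change e _ ∈ S
      rw [h2]
      exact this)
    intro h hh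
    have h2 : e.symm h ∈ S.comap e.toLinearMap := by
      rw [Submodule.mem_comap]
      change e (e.symm h) ∈ S
      rwa [e.apply_symm_apply]
    rw [h1] at h2
    have h3 : Submodule.span Ω {u : Ω ⊗[K] (Fin 3 → L) | u ∈ S.comap e.toLinearMap ∧
        ∃ v : Fin 3 → L, u = 1 ⊗ₜ v} ≤
        (Submodule.span Ω {h | h ∈ S ∧ ∃ w : Fin 3 → L, h = cst Ω w}).comap e.toLinearMap := by
      rw [Submodule.span_le]
      rintro u ⟨hu, v, rfl⟩
      refine Submodule.subset_span ⟨hu, v, ?_⟩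
      exact piRight_one_tmul v
    have h4 := h3 h2
    rw [Submodule.mem_comap] at h4
    change e (e.symm h) ∈ _ at h4
    rwa [e.apply_symm_apply] at h4
  · rw [Submodule.span_le]
    intro h hh
    exact hh.1

/-- Dimensions of descended spaces. -/
theorem finrank_descent (S : Submodule Ω (Fin 3 → Ω ⊗[K] L)) (hfd : FiniteDimensional Ω S)
    (W : Submodule K (Fin 3 → L)) (hW : ∀ w, w ∈ W ↔ cst Ω w ∈ S)
    (hS : S = Submodule.span Ω {h | h ∈ S ∧ ∃ w : Fin 3 → L, h = cst Ω w}) :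
    FiniteDimensional K W ∧ Module.finrank K W = Module.finrank Ω S := by
  classical
  let b := Module.Basis.ofVectorSpace K W
  have hb : LinearIndependent K (fun i => (b i : Fin 3 → L)) :=
    b.linearIndependent.map' W.subtype (Submodule.ker_subtype W)
  have hli := linInd_cst (Ω := Ω) hb
  have hmem : ∀ i, cst Ω (b i : Fin 3 → L) ∈ S := fun i => (hW _).mp (b i).2
  have hli' : LinearIndependent Ω (fun i => (⟨cst Ω (b i : Fin 3 → L), hmem i⟩ : S)) :=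
    LinearIndependent.of_comp S.subtype hli
  have hfinite : Finite (Module.Basis.ofVectorSpaceIndex K W) := hli'.finite
  have : Fintype (Module.Basis.ofVectorSpaceIndex K W) := Fintype.ofFinite _
  have hspan : S = Submodule.span Ω (Set.range fun i => cst Ω (b i : Fin 3 → L)) := by
    apply le_antisymm
    · rw [hS, Submodule.span_le]
      rintro h ⟨hh, w, rfl⟩
      have hw : w ∈ W := (hW w).mpr hh
      have h1 := b.sum_repr ⟨w, hw⟩
      have h2 : w = ∑ i, b.repr ⟨w, hw⟩ i • (b i : Fin 3 → L) := by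
        have := congrArg (Submodule.subtype W) h1
        rw [map_sum] at this
        exact this.symm
      have h3 : (cst Ω w : Fin 3 → Ω ⊗[K] L) =
          ∑ i, b.repr ⟨w, hw⟩ i • (cst Ω (b i : Fin 3 → L) : Fin 3 → Ω ⊗[K] L) := by
        have := congrArg (cstL K Ω) h2
        rw [map_sum] at this
        refine this.trans (Finset.sum_congr rfl fun i _ => ?_)
        rw [map_smul, cstL_apply]
      change (cst Ω w : Fin 3 → Ω ⊗[K] L) ∈ _
      rw [h3]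
      refine Submodule.sum_mem _ fun i _ => ?_
      exact Submodule.smul_of_tower_mem _ _ (Submodule.subset_span ⟨i, rfl⟩)
    · rw [Submodule.span_le]
      rintro _ ⟨i, rfl⟩
      exact hmem i
  refine ⟨Module.Finite.of_basis b, ?_⟩
  rw [Module.finrank_eq_card_basis b, hspan, finrank_span_eq_card hli]

end lin

section main

variable {K L Ω : Type} [Field K] [Field L] [Algebra K L] [Field Ω] [Algebra K Ω]

theorem fth_period {ω : K} (hω : ω ^ 2 + ω + 1 = 0) (μ : Ω) (θ : Fin 3 → L) (i : ℕ) :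
    fth ω μ θ (i + 3) = fth ω μ θ i := by
  unfold fth
  rw [cjT_period hω]

theorem fth_prod {ω α a : K} (hω : ω ^ 2 + ω + 1 = 0) {μ : Ω} (hμ : μ ^ 3 = algebraMap K Ω α)
    (θ : Fin 3 → L) (hθ : nf (algebraMap K L α) (θ 0) (θ 1) (θ 2) = algebraMap K L a) (i : ℕ) :
    fth ω μ θ i * fth ω μ θ (i + 1) * fth ω μ θ (i + 2) =
      algebraMap Ω (LL K L Ω) (algebraMap K Ω a) := by
  unfold fth
  rw [← map_mul, ← map_mul, cjT_prod hω hμ, nf_cst θ hθ, algebraMap_K_tensor,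
    IsScalarTower.algebraMap_apply Ω (Ω ⊗[K] L) (LL K L Ω)]
  rfl

/-- The map onto the conjugates. -/
noncomputable def Fi (ω : K) (μ : Ω) (i : ℕ) : (Fin 3 → Ω ⊗[K] L) →ₗ[Ω] LL K L Ω :=
  (IsScalarTower.toAlgHom Ω (Ω ⊗[K] L) (LL K L Ω)).toLinearMap.comp (cjL ω μ i)

theorem Fi_apply (ω : K) (μ : Ω) (i : ℕ) (h : Fin 3 → Ω ⊗[K] L) :
    Fi ω μ i h = algebraMap (Ω ⊗[K] L) (LL K L Ω) (cjT ω μ h i) := rfl

variable (t : L) [IsDomain (Ω ⊗[K] L)]
    [IsFractionRing (Ofin Ω (tt K Ω t)) (LL K L Ω)]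
    [IsFractionRing (Oinf Ω (tt K Ω t)) (LL K L Ω)]

/-- The spaces `H_i`. -/
noncomputable abbrev Hi (ω : K) (μ : Ω) (θ : Fin 3 → L) (e n i : ℕ) : Submodule Ω (LL K L Ω) :=
  Hs (Ofin Ω (tt K Ω t)) (Oinf Ω (tt K Ω t)) (fth ω μ θ) (tt K Ω t) e n i

/-- `Sp` as a submodule. -/
noncomputable def SpM (ω : K) (μ : Ω) (θ : Fin 3 → L) (e n : ℕ) :
    Submodule Ω (Fin 3 → Ω ⊗[K] L) :=
  ⨅ i : Fin 3, (Hi t ω μ θ e n i).comap (Fi ω μ i)

theorem mem_SpM {ω : K} {μ : Ω} {θ : Fin 3 → L} {e n : ℕ} (h : Fin 3 → Ω ⊗[K] L) :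
    h ∈ SpM t ω μ θ e n ↔ ∀ i : Fin 3, algebraMap (Ω ⊗[K] L) (LL K L Ω) (cjT ω μ h i) ∈
      Hi t ω μ θ e n i := by
  unfold SpM
  rw [Submodule.mem_iInf]
  rfl

theorem mem_SpM_iff (htt : tt K Ω t ≠ 0) {ω : K} {μ : Ω} {θ : Fin 3 → L} {e n : ℕ}
    (h : Fin 3 → Ω ⊗[K] L) : h ∈ SpM t ω μ θ e n ↔ h ∈ Sp ω μ θ t e n := by
  rw [mem_SpM]
  refine forall_congr' fun i => ?_
  exact mem_Hs _ _ _ htt _ _ _ _

theorem Hi_period {ω : K} (hω : ω ^ 2 + ω + 1 = 0) (μ : Ω) (θ : Fin 3 → L) (e n i : ℕ) :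
    Hi t ω μ θ e n (i + 3) = Hi t ω μ θ e n i := by
  unfold Hi Hs
  rw [Zid_period _ _ _ (fth_period hω μ θ), Zid_period _ _ _ (fth_period hω μ θ)]

theorem mem_SpM' {ω : K} (hω : ω ^ 2 + ω + 1 = 0) {μ : Ω} {θ : Fin 3 → L} {e n : ℕ}
    (h : Fin 3 → Ω ⊗[K] L) :
    h ∈ SpM t ω μ θ e n ↔ ∀ i : ℕ, algebraMap (Ω ⊗[K] L) (LL K L Ω) (cjT ω μ h i) ∈
      Hi t ω μ θ e n i := by
  rw [mem_SpM]
  constructor
  · intro hh i
    induction i using Nat.strong_induction_on with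
    | _ i ih =>
      by_cases hi : i < 3
      · exact hh ⟨i, hi⟩
      · obtain ⟨j, rfl⟩ : ∃ j, i = j + 3 := ⟨i - 3, by omega⟩
        rw [cjT_period hω, Hi_period t hω]
        exact ih j (by omega)
  · intro hh i
    exact hh i

/-- Automorphisms of the function field and the spaces `H_i`. -/
theorem map_Hi (T : LL K L Ω ≃+* LL K L Ω) {ω : K} {μ : Ω} {θ : Fin 3 → L} (htt : tt K Ω t ≠ 0)
    (hT1 : ∀ x, T x ∈ Ofin Ω (tt K Ω t) ↔ x ∈ Ofin Ω (tt K Ω t))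
    (hT2 : ∀ x, T x ∈ Oinf Ω (tt K Ω t) ↔ x ∈ Oinf Ω (tt K Ω t))
    (hTt : T (tt K Ω t) = tt K Ω t) (c : ℕ)
    (hTf : ∀ i, T (fth ω μ θ i) = fth ω μ θ (i + c)) (e n i : ℕ) (x : LL K L Ω)
    (hx : x ∈ Hi t ω μ θ e n i) : T x ∈ Hi t ω μ θ e n (i + c) := by
  rw [mem_Hs _ _ _ htt] at hx ⊢
  refine ⟨?_, ?_⟩
  · exact map_pow_mem (Ofin Ω (tt K Ω t)) T.toRingHom (fun y hy => (hT1 y).mpr hy) _ _
      (map_Zid (Ofin Ω (tt K Ω t)) T.toRingHom (fun y hy => (hT1 y).mpr hy) _ i (i + c) (hTf i)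
        (by
          have := hTf (i + 1)
          rwa [add_right_comm] at this)) e x hx.1
  · have h1 := map_pow_mem (Oinf Ω (tt K Ω t)) T.toRingHom (fun y hy => (hT2 y).mpr hy) _ _
      (map_Zid (Oinf Ω (tt K Ω t)) T.toRingHom (fun y hy => (hT2 y).mpr hy) _ i (i + c) (hTf i)
        (by
          have := hTf (i + 1)
          rwa [add_right_comm] at this)) e _ hx.2
    have h2 : T.toRingHom ((tt K Ω t)⁻¹ ^ n * x) = (tt K Ω t)⁻¹ ^ n * T x := by
      change T _ = _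
      rw [map_mul, map_pow, map_inv₀, hTt]
    rwa [h2] at h1

/-- Galois stability. -/
theorem SpM_stable [CharZero K] [IsAlgClosed Ω] {ω α : K} (hω : ω ^ 2 + ω + 1 = 0) {μ : Ω}
    (hμ : μ ^ 3 = algebraMap K Ω α) {θ : Fin 3 → L} (htt : tt K Ω t ≠ 0) {e n : ℕ}
    (τ : Ω ≃ₐ[K] Ω) (h : Fin 3 → Ω ⊗[K] L) (hh : h ∈ SpM t ω μ θ e n) :
    (fun j => Algebra.TensorProduct.map τ.toAlgHom (AlgHom.id K L) (h j)) ∈ SpM t ω μ θ e n := by
  obtain ⟨T, hT, hT1, hT2⟩ := exists_gal K L Ω t τ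
  obtain ⟨c, hc3, hc⟩ := exists_shift_mu τ hω hμ
  have hTt : T (tt K Ω t) = tt K Ω t := by
    unfold tt
    rw [hT]
    simp
  have hTf : ∀ i, T (fth ω μ θ i) = fth ω μ θ (i + c) := by
    intro i
    unfold fth
    rw [hT, map_cjT τ μ c hc]
    congr 2
    ext j
    simp [cst]
  rw [mem_SpM' t hω] at hh ⊢
  intro k
  have h1 := map_Hi t T htt hT1 hT2 hTt c hTf e n (k + (3 - c)) _ (hh (k + (3 - c)))
  rw [hT, map_cjT τ μ c hc, show k + (3 - c) + c = k + 3 by omega, cjT_period hω,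
    Hi_period t hω] at h1
  exact h1

/-- The space `Sp` is the sum of the three spaces `H_i`. -/
theorem finrank_SpM [CharZero K] {ω α a : K} (hω : ω ^ 2 + ω + 1 = 0) (ha0 : a ≠ 0) {μ : Ω}
    (hμ : μ ^ 3 = algebraMap K Ω α) (hμ0 : μ ≠ 0) {θ : Fin 3 → L}
    (hθ : nf (algebraMap K L α) (θ 0) (θ 1) (θ 2) = algebraMap K L a)
    (htt : tt K Ω t ≠ 0) (e n : ℕ)
    (hrange : ∀ x ∈ Ofin Ω (tt K Ω t), ∃ y : Ω ⊗[K] L, algebraMap (Ω ⊗[K] L) (LL K L Ω) y = x)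
    (hfd : FiniteDimensional Ω (Hi t ω μ θ e n 0)) :
    FiniteDimensional Ω (SpM t ω μ θ e n) ∧
      Module.finrank Ω (SpM t ω μ θ e n) = 3 * Module.finrank Ω (Hi t ω μ θ e n 0) := by
  have ha0' : algebraMap K Ω a ≠ 0 := by rwa [Ne, map_eq_zero]
  have hs := fun i => finrank_Hs_succ (Ofin Ω (tt K Ω t)) (Oinf Ω (tt K Ω t)) (fth ω μ θ) htt e n i
    ha0' (fth_prod hω hμ θ hθ i)
  have hfd' : ∀ i, FiniteDimensional Ω (Hi t ω μ θ e n i) := by
    intro i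
    induction i with
    | zero => exact hfd
    | succ i ih => exact (hs i).2 ih
  have hfr : ∀ i, Module.finrank Ω (Hi t ω μ θ e n i) = Module.finrank Ω (Hi t ω μ θ e n 0) := by
    intro i
    induction i with
    | zero => rfl
    | succ i ih => exact (hs i).1.trans ih
  -- elements of `H_i` come from `Ω ⊗ L`
  have hHr : ∀ i, ∀ x ∈ Hi t ω μ θ e n i, ∃ y : Ω ⊗[K] L,
      algebraMap (Ω ⊗[K] L) (LL K L Ω) y = x := by
    intro i x hx
    have h1 := ((mem_Hs _ _ _ htt _ _ _ _).mp hx).1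
    have hsub : ∀ y ∈ Ofin Ω (tt K Ω t), y ∈ (algebraMap (Ω ⊗[K] L) (LL K L Ω)).range :=
      fun y hy => hrange y hy
    refine pow_mem_range (Ofin Ω (tt K Ω t)) (algebraMap (Ω ⊗[K] L) (LL K L Ω)).range hsub _
      ?_ e x h1
    intro y hy
    rw [mem_Zid] at hy
    obtain ⟨r₀, hr₀, r₁, hr₁, r₂, hr₂, rfl⟩ := hy
    have hf : ∀ i, fth ω μ θ i ∈ (algebraMap (Ω ⊗[K] L) (LL K L Ω)).range := fun i => ⟨_, rfl⟩
    exact add_mem (add_mem (hsub _ hr₀) (mul_mem (hsub _ hr₁) (hf _)))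
      (mul_mem (hsub _ hr₂) (mul_mem (hf _) (hf _)))
  -- the isomorphism
  let Φ : SpM t ω μ θ e n →ₗ[Ω] (∀ i : Fin 3, Hi t ω μ θ e n i) :=
    LinearMap.pi fun i => ((Fi ω μ i).comp (SpM t ω μ θ e n).subtype).codRestrict
      (Hi t ω μ θ e n i) (fun h => (mem_SpM t _).mp h.2 i)
  have hΦ : ∀ (h : SpM t ω μ θ e n) (i : Fin 3), ((Φ h i : Hi t ω μ θ e n i) : LL K L Ω) =
      algebraMap (Ω ⊗[K] L) (LL K L Ω) (cjT ω μ h.1 i) := fun h i => rfl
  have hinj : Function.Injective Φ := by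
    intro h h' hh
    apply Subtype.ext
    apply cjT_injective hω hμ0
    intro i
    apply IsFractionRing.injective (Ω ⊗[K] L) (LL K L Ω)
    rw [← hΦ, ← hΦ, hh]
  have hsurj : Function.Surjective Φ := by
    intro x
    choose y hy using fun i : Fin 3 => hHr i _ (x i).2
    obtain ⟨h, hh⟩ := cjT_surjective hω hμ0 y
    refine ⟨⟨h, ?_⟩, ?_⟩
    · rw [mem_SpM]
      intro i
      rw [hh, hy]
      exact (x i).2
    · ext i
      rw [hΦ, hh, hy]
  let Φ' := LinearEquiv.ofBijective Φ ⟨hinj, hsurj⟩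
  refine ⟨LinearEquiv.finiteDimensional Φ'.symm, ?_⟩
  rw [Φ'.finrank_eq, Module.finrank_pi_fintype]
  simp only [hfr, Finset.sum_const, Finset.card_univ, Fintype.card_fin, smul_eq_mul]

end main

end Desc

section Tensor

variable (K L Ω : Type) [Field K] [CharZero K] [Field L] [Algebra K L] (t : L)
    [Field Ω] [IsAlgClosed Ω] [Algebra K Ω] [IsDomain (Ω ⊗[K] L)]

variable (ht : Transcendental K t)
    (hfin : FiniteDimensional (IntermediateField.adjoin K {t}) L)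
    [IsDedekindDomain (Ofin Ω (tt K Ω t))] [IsFractionRing (Ofin Ω (tt K Ω t)) (LL K L Ω)]
    [IsDedekindDomain (Oinf Ω (tt K Ω t))] [IsFractionRing (Oinf Ω (tt K Ω t)) (LL K L Ω)]

include ht hfin

/-- TASK DESC: descent of the spaces `Sp` from `Ω` to `K` -/
theorem descent_Sp (ω α a : K) (hω : ω ^ 2 + ω + 1 = 0) (ha0 : a ≠ 0) (hα0 : α ≠ 0)
    (θ : Fin 3 → L) (hθ : nf (algebraMap K L α) (θ 0) (θ 1) (θ 2) = algebraMap K L a)
    (μ : Ω) (hμ : μ ^ 3 = algebraMap K Ω α) (e n : ℕ) :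
    ∃ W : Submodule K (Fin 3 → L), (∀ w : Fin 3 → L, w ∈ W ↔ cst Ω w ∈ Sp ω μ θ t e n) ∧
      FiniteDimensional K W ∧
      (∀ h : Fin 3 → Ω ⊗[K] L, h ∈ Sp ω μ θ t e n ↔
        h ∈ Submodule.span Ω {h : Fin 3 → Ω ⊗[K] L | ∃ w ∈ W, ∀ j, h j = 1 ⊗ₜ w j}) ∧
      Module.finrank K W = 3 * h0 (toK ((Zid (Ofin Ω (tt K Ω t)) (fth ω μ θ) 0) ^ e))
        (toK (FractionalIdeal.spanSingleton _ (tt K Ω t ^ n) *
          (Zid (Oinf Ω (tt K Ω t)) (fth ω μ θ) 0) ^ e)) := by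
  obtain ⟨hT, hF, hrange⟩ := integral_mem_range K L Ω (LL K L Ω) t ht hfin
  have : CharZero Ω := charZero_of_injective_algebraMap (algebraMap K Ω).injective
  have htt : tt K Ω t ≠ 0 := by
    intro h0
    apply hT
    change IsAlgebraic Ω (tt K Ω t)
    rw [h0]
    exact isAlgebraic_zero
  have hμ0 : μ ≠ 0 := by
    rintro rfl
    rw [zero_pow (by norm_num), eq_comm, map_eq_zero] at hμ
    exact hα0 hμ
  have hne : ∀ (R : Subalgebra Ω (LL K L Ω)) [IsFractionRing R (LL K L Ω)] (i : ℕ),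
      Zid R (fth ω μ θ) i ≠ 0 := by
    intro R _ i
    exact Desc.Zid_ne_zero' R _ i
  have hgood := good_of_ne_zero (tt K Ω t) hT hF
    ((Zid (Ofin Ω (tt K Ω t)) (fth ω μ θ) 0) ^ e) (pow_ne_zero e (hne _ 0))
    (FractionalIdeal.spanSingleton _ (tt K Ω t ^ n) *
      (Zid (Oinf Ω (tt K Ω t)) (fth ω μ θ) 0) ^ e)
    (mul_ne_zero (by
      rw [Ne, FractionalIdeal.spanSingleton_eq_zero_iff]
      exact pow_ne_zero n htt) (pow_ne_zero e (hne _ 0)))
  obtain ⟨hfdS, hfr⟩ := Desc.finrank_SpM t hω ha0 hμ hμ0 hθ htt e n hrange hgood.1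
  have hdesc := Desc.descent_triples (Desc.SpM t ω μ θ e n)
    (fun τ h hh => Desc.SpM_stable t hω hμ htt τ h hh)
  let W : Submodule K (Fin 3 → L) :=
    ((Desc.SpM t ω μ θ e n).restrictScalars K).comap (Desc.cstL K Ω)
  have hW : ∀ w : Fin 3 → L, w ∈ W ↔ cst Ω w ∈ Desc.SpM t ω μ θ e n := fun w => Iff.rfl
  obtain ⟨hfdW, hfrW⟩ := Desc.finrank_descent (Desc.SpM t ω μ θ e n) hfdS W hW hdesc
  refine ⟨W, ?_, hfdW, ?_, ?_⟩
  · intro w
    rw [hW, Desc.mem_SpM_iff t htt]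
  · intro h
    rw [← Desc.mem_SpM_iff t htt]
    have hset : {h : Fin 3 → Ω ⊗[K] L | ∃ w ∈ W, ∀ j, h j = 1 ⊗ₜ w j} =
        {h | h ∈ Desc.SpM t ω μ θ e n ∧ ∃ w : Fin 3 → L, h = cst Ω w} := by
      ext h
      constructor
      · rintro ⟨w, hw, hh⟩
        have h1 : h = cst Ω w := funext hh
        refine ⟨?_, w, h1⟩
        rw [h1]
        exact (hW w).mp hw
      · rintro ⟨hh, w, rfl⟩
        exact ⟨w, (hW w).mpr hh, fun j => rfl⟩
    rw [hset, ← hdesc]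
  · rw [hfrW, hfr]
    rfl

end Tensor

end Pool.Agent.D5741
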