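import Mathlib
import Pool.Agent.Lib.MP_d5741c_al.Curve

/-!
# Riemann-Roch type existence statements for a pair of Dedekind domains
-/

set_option autoImplicit false
set_option linter.unusedSectionVars false
open scoped nonZeroDivisors

namespace Pool.Agent.D5741.RR

variable {k 𝕃 : Type} [Field k] [Field 𝕃] [Algebra k 𝕃]

section toK

variable {R : Subalgebra k 𝕃}

theorem mem_toK {I : FractionalIdeal R⁰ 𝕃} {x : 𝕃} : x ∈ toK I ↔ x ∈ I := Iff.rfl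

theorem toK_mono {I J : FractionalIdeal R⁰ 𝕃} (h : I ≤ J) : toK I ≤ toK J := by
  intro x hx
  exact h hx

theorem toK_add (I J : FractionalIdeal R⁰ 𝕃) : toK (I + J) = toK I ⊔ toK J := by
  ext x
  rw [mem_toK, FractionalIdeal.mem_add, Submodule.mem_sup]
  rfl

theorem toK_one [IsFractionRing R 𝕃] :
    toK (1 : FractionalIdeal R⁰ 𝕃) = Subalgebra.toSubmodule R := by
  ext x
  rw [mem_toK, FractionalIdeal.mem_one_iff]
  constructor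
  · rintro ⟨y, rfl⟩
    exact y.2
  · intro hx
    exact ⟨⟨x, hx⟩, rfl⟩

theorem toK_spanSingleton_mul [IsFractionRing R 𝕃] (u : 𝕃) (I : FractionalIdeal R⁰ 𝕃) :
    toK (FractionalIdeal.spanSingleton R⁰ u * I) = (toK I).map (LinearMap.mulLeft k u) := by
  ext x
  rw [mem_toK, FractionalIdeal.mem_singleton_mul, Submodule.mem_map]
  constructor
  · rintro ⟨y, hy, rfl⟩
    exact ⟨y, hy, rfl⟩
  · rintro ⟨y, hy, rfl⟩
    exact ⟨y, hy, rfl⟩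

end toK

section nfac

variable {R : Type} [CommRing R] [IsDedekindDomain R]

theorem nfac_mul {I J : Ideal R} (hI : I ≠ ⊥) (hJ : J ≠ ⊥) : nfac (I * J) = nfac I + nfac J := by
  unfold nfac
  rw [UniqueFactorizationMonoid.normalizedFactors_mul hI hJ, Multiset.card_add]

theorem nfac_one : nfac (1 : Ideal R) = 0 := by
  unfold nfac
  rw [UniqueFactorizationMonoid.normalizedFactors_one, Multiset.card_zero]

theorem nfac_maximal {P : Ideal R} (hP : P.IsMaximal) (hP0 : P ≠ ⊥) : nfac P = 1 := by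
  unfold nfac
  have h1 : Irreducible P := (Ideal.prime_of_isPrime hP0 hP.isPrime).irreducible
  rw [UniqueFactorizationMonoid.normalizedFactors_irreducible h1, Multiset.card_singleton]

theorem nfac_pow {I : Ideal R} (hI : I ≠ ⊥) (n : ℕ) : nfac (I ^ n) = n * nfac I := by
  induction n with
  | zero => rw [pow_zero, nfac_one, zero_mul]
  | succ n ih => rw [pow_succ, nfac_mul (pow_ne_zero n hI) hI, ih]; ring

theorem nfac_eq_zero {I : Ideal R} (hI : I ≠ ⊥) (h : nfac I = 0) : I = ⊤ := by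
  unfold nfac at h
  rw [Multiset.card_eq_zero] at h
  have h1 := UniqueFactorizationMonoid.prod_normalizedFactors hI
  rw [h, Multiset.prod_zero] at h1
  have h2 : I = 1 := by
    have := associated_iff_eq.mp h1
    exact this.symm
  rw [h2, Ideal.one_eq_top]

theorem prod_ne_bot {ι : Type} (s : Finset ι) (P : ι → Ideal R) (h : ∀ i, P i ≠ ⊥) :
    ∏ i ∈ s, P i ≠ ⊥ := by
  rw [← Ideal.zero_eq_bot]
  exact Finset.prod_ne_zero_iff.mpr fun i _ => h i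

theorem nfac_prod {ι : Type} (s : Finset ι) (P : ι → Ideal R) (h0 : ∀ i, P i ≠ ⊥)
    (h : ∀ i, (P i).IsMaximal) : nfac (∏ i ∈ s, P i) = s.card := by
  classical
  induction s using Finset.induction_on with
  | empty => rw [Finset.prod_empty, nfac_one, Finset.card_empty]
  | insert i s hi ih =>
    rw [Finset.prod_insert hi, nfac_mul (h0 i) (prod_ne_bot s P h0), nfac_maximal (h i) (h0 i), ih,
      Finset.card_insert_of_notMem hi]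
    ring

/-- A nonzero ideal is a product of `nfac` maximal ideals. -/
theorem exists_factors (I : Ideal R) (hI : I ≠ ⊥) :
    ∃ Q : Fin (nfac I) → Ideal R, (∀ i, (Q i).IsMaximal) ∧ ∏ i, Q i = I := by
  classical
  set l := (UniqueFactorizationMonoid.normalizedFactors I).toList with hl
  have hlen : l.length = nfac I := by rw [hl, Multiset.length_toList]; rfl
  refine ⟨fun i => l.get (i.cast hlen.symm), ?_, ?_⟩
  · intro i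
    have h1 : l.get (i.cast hlen.symm) ∈ UniqueFactorizationMonoid.normalizedFactors I := by
      rw [← Multiset.mem_toList]
      exact List.get_mem _ _
    have h2 := UniqueFactorizationMonoid.prime_of_normalized_factor _ h1
    have h3 : (l.get (i.cast hlen.symm)).IsPrime := Ideal.isPrime_of_prime h2
    exact h3.isMaximal h2.ne_zero
  · have h1 : ∏ i : Fin (nfac I), l.get (i.cast hlen.symm) = l.prod := by
      have h2 : ∏ i : Fin l.length, l.get i = l.prod := by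
        rw [← List.prod_ofFn, List.ofFn_get]
      rw [← h2]
      exact (Fintype.prod_equiv (finCongr hlen) _ _ (fun i => rfl)).symm
    rw [h1]
    have h2 := UniqueFactorizationMonoid.prod_normalizedFactors hI
    have h3 := associated_iff_eq.mp h2
    rw [← Multiset.prod_toList, ← hl] at h3
    exact h3

end nfac

section pair

variable (A B : Subalgebra k 𝕃) [IsDedekindDomain A] [IsFractionRing A 𝕃]
  [IsDedekindDomain B] [IsFractionRing B 𝕃]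

/-- The properties of the Euler characteristic used below. -/
structure Pair : Prop where
  good : ∀ (I : FractionalIdeal A⁰ 𝕃) (J : FractionalIdeal B⁰ 𝕃), I ≠ 0 → J ≠ 0 →
    Good (toK I) (toK J)
  mulA : ∀ (I : FractionalIdeal A⁰ 𝕃) (J : FractionalIdeal B⁰ 𝕃) (𝔞 : Ideal A), I ≠ 0 → J ≠ 0 →
    𝔞 ≠ ⊥ → chi (toK (I * (𝔞 : FractionalIdeal A⁰ 𝕃))) (toK J) = chi (toK I) (toK J) - nfac 𝔞
  mulB : ∀ (I : FractionalIdeal A⁰ 𝕃) (J : FractionalIdeal B⁰ 𝕃) (𝔟 : Ideal B), I ≠ 0 → J ≠ 0 →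
    𝔟 ≠ ⊥ → chi (toK I) (toK (J * (𝔟 : FractionalIdeal B⁰ 𝕃))) = chi (toK I) (toK J) - nfac 𝔟
  cov : ∀ (I : FractionalIdeal A⁰ 𝕃) (J : FractionalIdeal B⁰ 𝕃) (P : Ideal A), I ≠ 0 → J ≠ 0 →
    P.IsMaximal → P ≠ ⊥ →
    h1 (toK (I * (P : FractionalIdeal A⁰ 𝕃))) (toK J) = h1 (toK I) (toK J) ∨
      h1 (toK (I * (P : FractionalIdeal A⁰ 𝕃))) (toK J) = h1 (toK I) (toK J) + 1
  smul : ∀ (u : 𝕃), u ≠ 0 → ∀ (I J : Submodule k 𝕃),
    chi (I.map (LinearMap.mulLeft k u)) (J.map (LinearMap.mulLeft k u)) = chi I J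
  inter : ∀ x : 𝕃, x ∈ A → x ∈ B → x ∈ Set.range (algebraMap k 𝕃)

variable {A B}

theorem coe_ne_zero {𝔞 : Ideal A} (h : 𝔞 ≠ ⊥) : (𝔞 : FractionalIdeal A⁰ 𝕃) ≠ 0 := by
  rw [Ne, FractionalIdeal.coeIdeal_eq_zero]
  exact h

theorem inf_one (hp : Pair A B) : toK (1 : FractionalIdeal A⁰ 𝕃) ⊓ toK (1 : FractionalIdeal B⁰ 𝕃) =
    Submodule.span k {(1 : 𝕃)} := by
  rw [toK_one, toK_one]
  ext x
  rw [Submodule.mem_inf, Submodule.mem_span_singleton]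
  constructor
  · rintro ⟨h1, h2⟩
    obtain ⟨c, hc⟩ := hp.inter x h1 h2
    exact ⟨c, by rw [← hc, Algebra.smul_def, mul_one]⟩
  · rintro ⟨c, rfl⟩
    exact ⟨A.smul_mem A.one_mem c, B.smul_mem B.one_mem c⟩

theorem h0_one (hp : Pair A B) :
    h0 (toK (1 : FractionalIdeal A⁰ 𝕃)) (toK (1 : FractionalIdeal B⁰ 𝕃)) = 1 := by
  unfold h0
  rw [inf_one hp]
  exact finrank_span_singleton one_ne_zero

theorem chiA_inv (hp : Pair A B) (I : FractionalIdeal A⁰ 𝕃) (J : FractionalIdeal B⁰ 𝕃)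
    (𝔞 : Ideal A) (hI : I ≠ 0) (hJ : J ≠ 0) (h𝔞 : 𝔞 ≠ ⊥) :
    chi (toK (I * (𝔞 : FractionalIdeal A⁰ 𝕃)⁻¹)) (toK J) = chi (toK I) (toK J) + nfac 𝔞 := by
  have h1 := coe_ne_zero (𝕃 := 𝕃) h𝔞
  have h2 := hp.mulA (I * (𝔞 : FractionalIdeal A⁰ 𝕃)⁻¹) J 𝔞 (mul_ne_zero hI (inv_ne_zero h1)) hJ h𝔞
  rw [mul_assoc, inv_mul_cancel₀ h1, mul_one] at h2
  rw [h2]
  ring

theorem chiB_inv (hp : Pair A B) (I : FractionalIdeal A⁰ 𝕃) (J : FractionalIdeal B⁰ 𝕃)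
    (𝔟 : Ideal B) (hI : I ≠ 0) (hJ : J ≠ 0) (h𝔟 : 𝔟 ≠ ⊥) :
    chi (toK I) (toK (J * (𝔟 : FractionalIdeal B⁰ 𝕃)⁻¹)) = chi (toK I) (toK J) + nfac 𝔟 := by
  have h1 := coe_ne_zero (𝕃 := 𝕃) h𝔟
  have h2 := hp.mulB I (J * (𝔟 : FractionalIdeal B⁰ 𝕃)⁻¹) 𝔟 hI (mul_ne_zero hJ (inv_ne_zero h1)) h𝔟
  rw [mul_assoc, inv_mul_cancel₀ h1, mul_one] at h2
  rw [h2]
  ring

theorem exists_of_chi_pos {U W : Submodule k 𝕃} (h : 0 < chi U W) :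
    ∃ u : 𝕃, u ≠ 0 ∧ u ∈ U ∧ u ∈ W := by
  have h1 : 0 < h0 U W := by
    unfold chi at h
    omega
  have h2 : U ⊓ W ≠ ⊥ := by
    intro h2
    unfold h0 at h1
    rw [h2, finrank_bot] at h1
    exact lt_irrefl _ h1
  obtain ⟨u, hu, hu0⟩ := Submodule.exists_mem_ne_zero_of_ne_bot h2
  exact ⟨u, hu0, hu.1, hu.2⟩

theorem inv_mul_coprime {𝔞 𝔟 : Ideal A} (h : IsCoprime 𝔞 𝔟) (h𝔞 : 𝔞 ≠ ⊥) (h𝔟 : 𝔟 ≠ ⊥) :
    ((𝔞 * 𝔟 : Ideal A) : FractionalIdeal A⁰ 𝕃)⁻¹ =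
      (𝔞 : FractionalIdeal A⁰ 𝕃)⁻¹ + (𝔟 : FractionalIdeal A⁰ 𝕃)⁻¹ := by
  have h1 := coe_ne_zero (𝕃 := 𝕃) h𝔞
  have h2 := coe_ne_zero (𝕃 := 𝕃) h𝔟
  have h3 : (𝔞 : FractionalIdeal A⁰ 𝕃) + (𝔟 : FractionalIdeal A⁰ 𝕃) = 1 := by
    rw [← FractionalIdeal.coeIdeal_sup, Ideal.isCoprime_iff_sup_eq.mp h,
      FractionalIdeal.coeIdeal_top]
  rw [FractionalIdeal.coeIdeal_mul, mul_inv]
  calc (𝔞 : FractionalIdeal A⁰ 𝕃)⁻¹ * (𝔟 : FractionalIdeal A⁰ 𝕃)⁻¹ =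
      (𝔞 : FractionalIdeal A⁰ 𝕃)⁻¹ * (𝔟 : FractionalIdeal A⁰ 𝕃)⁻¹ *
        ((𝔞 : FractionalIdeal A⁰ 𝕃) + (𝔟 : FractionalIdeal A⁰ 𝕃)) := by rw [h3, mul_one]
    _ = ((𝔞 : FractionalIdeal A⁰ 𝕃)⁻¹ * (𝔞 : FractionalIdeal A⁰ 𝕃)) *
          (𝔟 : FractionalIdeal A⁰ 𝕃)⁻¹ +
        ((𝔟 : FractionalIdeal A⁰ 𝕃)⁻¹ * (𝔟 : FractionalIdeal A⁰ 𝕃)) *
          (𝔞 : FractionalIdeal A⁰ 𝕃)⁻¹ := by ring
    _ = _ := by rw [inv_mul_cancel₀ h1, inv_mul_cancel₀ h2, one_mul, one_mul, add_comm]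

theorem eq_of_le_of_h1 {U W : Submodule k 𝕃} (hle : U ≤ W) (hU : FiniteDimensional k (𝕃 ⧸ U))
    (h : Module.finrank k (𝕃 ⧸ U) = Module.finrank k (𝕃 ⧸ W)) : U = W := by
  refine le_antisymm hle ?_
  have hW : FiniteDimensional k (𝕃 ⧸ W) :=
    Module.Finite.of_surjective (Submodule.factor hle) (Submodule.factor_surjective hle)
  have h1 : Function.Injective (Submodule.factor hle) :=
    (LinearMap.injective_iff_surjective_of_finrank_eq_finrank h).mpr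
      (Submodule.factor_surjective hle)
  intro x hx
  have h2 : Submodule.factor hle (Submodule.Quotient.mk x) = 0 := by
    rw [← Submodule.mkQ_apply, Submodule.factor_mk]
    exact (Submodule.Quotient.mk_eq_zero W).mpr hx
  have h3 := h1 (h2.trans (map_zero _).symm)
  exact (Submodule.Quotient.mk_eq_zero U).mp h3

/-- The product of the ideals with index in `S`. -/
noncomputable def pr (P : ℕ → Ideal A) (S : Finset ℕ) : Ideal A := ∏ i ∈ S, P i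

theorem pr_ne_bot {P : ℕ → Ideal A} (h0 : ∀ i, P i ≠ ⊥) (S : Finset ℕ) : pr P S ≠ ⊥ :=
  prod_ne_bot S P h0

theorem stable {P : ℕ → Ideal A} (h0 : ∀ i, P i ≠ ⊥) (hm : ∀ i, (P i).IsMaximal)
    (hinj : Function.Injective P) (I : FractionalIdeal A⁰ 𝕃)
    (W : Submodule k 𝕃) (S : Finset ℕ)
    (hS : ∀ j, j ∉ S → toK (I * (P j : FractionalIdeal A⁰ 𝕃)⁻¹) ⊔ W = toK I ⊔ W)
    (T : Finset ℕ) (hT : Disjoint T S) :
    toK (I * (pr P T : FractionalIdeal A⁰ 𝕃)⁻¹) ⊔ W = toK I ⊔ W := by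
  classical
  induction T using Finset.induction_on with
  | empty =>
    have h1 : pr P ∅ = 1 := by unfold pr; rw [Finset.prod_empty]
    rw [h1, Ideal.one_eq_top, FractionalIdeal.coeIdeal_top, inv_one, mul_one]
  | insert j T hj ih =>
    rw [Finset.disjoint_insert_left] at hT
    have ih := ih hT.2
    have h1 : pr P (insert j T) = P j * pr P T := by unfold pr; rw [Finset.prod_insert hj]
    have h2 : IsCoprime (P j) (pr P T) := by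
      refine IsCoprime.prod_right fun i hi => ?_
      rw [Ideal.isCoprime_iff_sup_eq]
      refine (hm j).coprime_of_ne (hm i) fun h => ?_
      exact hj (by rw [hinj h]; exact hi)
    rw [h1, inv_mul_coprime h2 (h0 j) (pr_ne_bot h0 T), mul_add, toK_add]
    calc toK (I * (P j : FractionalIdeal A⁰ 𝕃)⁻¹) ⊔ toK (I * (pr P T : FractionalIdeal A⁰ 𝕃)⁻¹) ⊔ W
        = (toK (I * (P j : FractionalIdeal A⁰ 𝕃)⁻¹) ⊔ W) ⊔
          (toK (I * (pr P T : FractionalIdeal A⁰ 𝕃)⁻¹) ⊔ W) := by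
          rw [sup_sup_sup_comm, sup_idem]
      _ = toK I ⊔ W := by rw [hS j hT.1, ih, sup_idem]

theorem big (hp : Pair A B) {P : ℕ → Ideal A} (h0 : ∀ i, P i ≠ ⊥) (hm : ∀ i, (P i).IsMaximal)
    (I : FractionalIdeal A⁰ 𝕃) (hI1 : 1 ≤ I) (t : 𝕃) (ht0 : t ≠ 0) (ht : t⁻¹ ∈ B)
    (n : ℕ) (hn : ∀ x : 𝕃, ∃ u ∈ A, ∃ v ∈ B, x = u + t ^ n * v) :
    ∃ N : ℕ, ∀ T : Finset ℕ, N ≤ T.card →
      toK (I * (pr P T : FractionalIdeal A⁰ 𝕃)⁻¹) ⊔ toK (1 : FractionalIdeal B⁰ 𝕃) = ⊤ := by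
  have htB : t⁻¹ ^ n ∈ B := B.pow_mem ht n
  set τ : B := ⟨t⁻¹ ^ n, htB⟩ with hτ
  have hτ0 : τ ≠ 0 := by
    intro h
    have h1 : (τ : 𝕃) = 0 := by rw [h]; rfl
    exact pow_ne_zero n (inv_ne_zero ht0) h1
  set 𝔟 : Ideal B := Ideal.span {τ} with h𝔟
  have h𝔟0 : 𝔟 ≠ ⊥ := by
    rw [h𝔟, Ne, Ideal.span_singleton_eq_bot]
    exact hτ0
  refine ⟨h1 (toK (1 : FractionalIdeal A⁰ 𝕃)) (toK (1 : FractionalIdeal B⁰ 𝕃)) + nfac 𝔟,
    fun T hT => ?_⟩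
  have hchi : chi (toK ((pr P T : FractionalIdeal A⁰ 𝕃)⁻¹)) (toK (𝔟 : FractionalIdeal B⁰ 𝕃)) =
      chi (toK (1 : FractionalIdeal A⁰ 𝕃)) (toK (1 : FractionalIdeal B⁰ 𝕃)) + T.card - nfac 𝔟 := by
    have e1 := chiA_inv hp 1 (𝔟 : FractionalIdeal B⁰ 𝕃) (pr P T) one_ne_zero (coe_ne_zero h𝔟0)
      (pr_ne_bot h0 T)
    have e2 := hp.mulB 1 1 𝔟 one_ne_zero one_ne_zero h𝔟0
    rw [one_mul] at e1 e2
    rw [e1, e2, show nfac (pr P T) = T.card from nfac_prod T P h0 hm]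
    ring
  have hpos : 0 < chi (toK ((pr P T : FractionalIdeal A⁰ 𝕃)⁻¹))
      (toK (𝔟 : FractionalIdeal B⁰ 𝕃)) := by
    rw [hchi]
    have h2 : chi (toK (1 : FractionalIdeal A⁰ 𝕃)) (toK (1 : FractionalIdeal B⁰ 𝕃)) =
        1 - h1 (toK (1 : FractionalIdeal A⁰ 𝕃)) (toK (1 : FractionalIdeal B⁰ 𝕃)) := by
      unfold chi
      rw [h0_one hp]
      rfl
    rw [h2]
    omega
  obtain ⟨u, hu0, hu1, hu2⟩ := exists_of_chi_pos hpos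
  rw [eq_top_iff]
  intro y _
  obtain ⟨a, ha, b, hb, hab⟩ := hn (y / u)
  have hy : y = u * a + u * (t ^ n * b) := by
    rw [← mul_add, ← hab, mul_div_cancel₀ _ hu0]
  rw [hy]
  refine Submodule.add_mem_sup ?_ ?_
  · have h3 : u * a ∈ ((pr P T : FractionalIdeal A⁰ 𝕃)⁻¹) := by
      have h4 := Submodule.smul_mem
        (((pr P T : FractionalIdeal A⁰ 𝕃)⁻¹ : FractionalIdeal A⁰ 𝕃) : Submodule A 𝕃)
        (⟨a, ha⟩ : A) (show u ∈ _ from hu1)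
      rw [mul_comm]
      exact h4
    have h5 : ((pr P T : FractionalIdeal A⁰ 𝕃)⁻¹) ≤ I * (pr P T : FractionalIdeal A⁰ 𝕃)⁻¹ := by
      calc ((pr P T : FractionalIdeal A⁰ 𝕃)⁻¹) = 1 * (pr P T : FractionalIdeal A⁰ 𝕃)⁻¹ :=
            (one_mul _).symm
        _ ≤ I * (pr P T : FractionalIdeal A⁰ 𝕃)⁻¹ := by gcongr
    exact h5 h3
  · rw [toK_one]
    have h3 : u ∈ (𝔟 : FractionalIdeal B⁰ 𝕃) := hu2
    rw [FractionalIdeal.mem_coeIdeal] at h3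
    obtain ⟨c, hc, hcu⟩ := h3
    rw [h𝔟, Ideal.mem_span_singleton] at hc
    obtain ⟨d, hd⟩ := hc
    have h4 : u = t⁻¹ ^ n * d := by
      rw [← hcu, hd]
      rfl
    have h5 : u * (t ^ n * b) = d * b := by
      rw [h4, inv_pow]
      field_simp
    rw [h5]
    exact B.mul_mem d.2 hb

theorem one_le_inv_coe {𝔞 : Ideal A} (h : 𝔞 ≠ ⊥) :
    (1 : FractionalIdeal A⁰ 𝕃) ≤ (𝔞 : FractionalIdeal A⁰ 𝕃)⁻¹ := by
  have h1 := coe_ne_zero (𝕃 := 𝕃) h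
  have h2 : (𝔞 : FractionalIdeal A⁰ 𝕃) ≤ 1 := FractionalIdeal.coeIdeal_le_one
  calc (1 : FractionalIdeal A⁰ 𝕃) = (𝔞 : FractionalIdeal A⁰ 𝕃) * (𝔞 : FractionalIdeal A⁰ 𝕃)⁻¹ :=
        (mul_inv_cancel₀ h1).symm
    _ ≤ 1 * (𝔞 : FractionalIdeal A⁰ 𝕃)⁻¹ := by gcongr
    _ = _ := one_mul _

theorem greedy (hp : Pair A B) {P : ℕ → Ideal A} (h0 : ∀ i, P i ≠ ⊥) (hm : ∀ i, (P i).IsMaximal)
    (hinj : Function.Injective P) (t : 𝕃) (ht0 : t ≠ 0) (ht : t⁻¹ ∈ B)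
    (n : ℕ) (hn : ∀ x : 𝕃, ∃ u ∈ A, ∃ v ∈ B, x = u + t ^ n * v) (m : ℕ)
    (hmg : m ≤ h1 (toK (1 : FractionalIdeal A⁰ 𝕃)) (toK (1 : FractionalIdeal B⁰ 𝕃))) :
    ∃ S : Finset ℕ, S.card = m ∧
      h1 (toK ((pr P S : FractionalIdeal A⁰ 𝕃)⁻¹)) (toK (1 : FractionalIdeal B⁰ 𝕃)) + m =
        h1 (toK (1 : FractionalIdeal A⁰ 𝕃)) (toK (1 : FractionalIdeal B⁰ 𝕃)) := by
  classical
  induction m with
  | zero =>
    refine ⟨∅, rfl, ?_⟩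
    have h1 : pr P ∅ = 1 := by unfold pr; rw [Finset.prod_empty]
    rw [h1, Ideal.one_eq_top, FractionalIdeal.coeIdeal_top, inv_one, add_zero]
  | succ m ih =>
    obtain ⟨S, hS, hh⟩ := ih (by omega)
    set x : FractionalIdeal A⁰ 𝕃 := (pr P S : FractionalIdeal A⁰ 𝕃)⁻¹ with hx
    have hx0 : x ≠ 0 := inv_ne_zero (coe_ne_zero (pr_ne_bot h0 S))
    by_contra hcon
    push Not at hcon
    have key : ∀ j, j ∉ S → toK (x * (P j : FractionalIdeal A⁰ 𝕃)⁻¹) ⊔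
        toK (1 : FractionalIdeal B⁰ 𝕃) = toK x ⊔ toK (1 : FractionalIdeal B⁰ 𝕃) := by
      intro j hj
      have hPj := coe_ne_zero (𝕃 := 𝕃) (h0 j)
      have h2 : x * (P j : FractionalIdeal A⁰ 𝕃)⁻¹ =
          (pr P (insert j S) : FractionalIdeal A⁰ 𝕃)⁻¹ := by
        have : pr P (insert j S) = P j * pr P S := by unfold pr; rw [Finset.prod_insert hj]
        rw [this, FractionalIdeal.coeIdeal_mul, mul_inv, hx, mul_comm]
      have h3 := hcon (insert j S) (by rw [Finset.card_insert_of_notMem hj, hS])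
      rw [← h2] at h3
      have h4 := hp.cov (x * (P j : FractionalIdeal A⁰ 𝕃)⁻¹) 1 (P j)
        (mul_ne_zero hx0 (inv_ne_zero hPj)) one_ne_zero (hm j) (h0 j)
      rw [mul_assoc, inv_mul_cancel₀ hPj, mul_one] at h4
      have h5 : h1 (toK x) (toK (1 : FractionalIdeal B⁰ 𝕃)) =
          h1 (toK (x * (P j : FractionalIdeal A⁰ 𝕃)⁻¹)) (toK (1 : FractionalIdeal B⁰ 𝕃)) := by
        rcases h4 with h4 | h4
        · exact h4
        · exfalso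
          apply h3
          omega
      have h6 : x ≤ x * (P j : FractionalIdeal A⁰ 𝕃)⁻¹ := by
        calc x = x * 1 := (mul_one _).symm
          _ ≤ x * (P j : FractionalIdeal A⁰ 𝕃)⁻¹ := by
            have := one_le_inv_coe (𝕃 := 𝕃) (h0 j)
            gcongr
      exact (eq_of_le_of_h1 (sup_le_sup_right (toK_mono h6) _)
        (hp.good x 1 hx0 one_ne_zero).2 h5).symm
    obtain ⟨N, hN⟩ := big hp h0 hm x (one_le_inv_coe (pr_ne_bot h0 S)) t ht0 ht n hn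
    have h7 := stable h0 hm hinj x (toK (1 : FractionalIdeal B⁰ 𝕃)) S key
      (Finset.range (N + S.card) \ S) Finset.sdiff_disjoint
    have h8 := hN (Finset.range (N + S.card) \ S) (by
      have := Finset.le_card_sdiff S (Finset.range (N + S.card))
      rw [Finset.card_range] at this
      omega)
    rw [h8] at h7
    have h9 : h1 (toK x) (toK (1 : FractionalIdeal B⁰ 𝕃)) = 0 := by
      unfold h1
      rw [← h7]
      have : Subsingleton (𝕃 ⧸ (⊤ : Submodule k 𝕃)) :=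
        Submodule.Quotient.subsingleton_iff.mpr rfl
      exact Module.finrank_zero_of_subsingleton
    omega

theorem exists_phi_abs (hp : Pair A B) (t : 𝕃) (ht0 : t ≠ 0) (ht : t⁻¹ ∈ B)
    (htm : ∀ P : Ideal B, P.IsMaximal → (⟨t⁻¹, ht⟩ : B) ∈ P)
    (n : ℕ) (hn : ∀ x : 𝕃, ∃ u ∈ A, ∃ v ∈ B, x = u + t ^ n * v) (g : ℕ)
    (hg : g = h1 (toK (1 : FractionalIdeal A⁰ 𝕃)) (toK (1 : FractionalIdeal B⁰ 𝕃)))
    (P : ℕ → Ideal A) (hP0 : ∀ i, P i ≠ ⊥) (hPm : ∀ i, (P i).IsMaximal)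
    (hPi : Function.Injective P) (𝔫 z : Ideal A) (𝔫' : Ideal B) (h𝔫 : 𝔫 ≠ ⊥) (hz : z ≠ ⊥)
    (h𝔫' : 𝔫' ≠ ⊥) (hdeg : nfac z = nfac 𝔫 + nfac 𝔫') :
    ∃ (J : Fin g ↪ ℕ) (φ : 𝕃) (m : ℕ) (Q : Fin m → Ideal A) (J₁ : Ideal B),
      φ ≠ 0 ∧ m ≤ g ∧ (∀ i, (Q i).IsMaximal) ∧ J₁ ≠ ⊥ ∧ (m = g → J₁ = ⊤) ∧
      FractionalIdeal.spanSingleton _ φ * (𝔫 : FractionalIdeal A⁰ 𝕃) *
          ((∏ i, P (J i) : Ideal A) : FractionalIdeal A⁰ 𝕃) =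
        ((∏ i, Q i : Ideal A) : FractionalIdeal A⁰ 𝕃) * (z : FractionalIdeal A⁰ 𝕃) ∧
      FractionalIdeal.spanSingleton _ φ * (𝔫' : FractionalIdeal B⁰ 𝕃) =
        (J₁ : FractionalIdeal B⁰ 𝕃) ∧
      (∃ N : ℕ, ∃ h : t⁻¹ ^ N ∈ B, (⟨t⁻¹ ^ N, h⟩ : B) ∈ J₁) ∧
      (∀ u : 𝕃, u ∈ ((∏ i, P (J i) : Ideal A) : FractionalIdeal A⁰ 𝕃)⁻¹ →
        u ∈ B → u ∈ Set.range (algebraMap k 𝕃)) := by
  classical
  obtain ⟨S, hS, hh⟩ := greedy hp hP0 hPm hPi t ht0 ht n hn g hg.le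
  have hx0 : (pr P S : FractionalIdeal A⁰ 𝕃) ≠ 0 := coe_ne_zero (pr_ne_bot hP0 S)
  have hh1 : h1 (toK ((pr P S : FractionalIdeal A⁰ 𝕃)⁻¹)) (toK (1 : FractionalIdeal B⁰ 𝕃)) = 0 := by
    omega
  have hchi1 : chi (toK (1 : FractionalIdeal A⁰ 𝕃)) (toK (1 : FractionalIdeal B⁰ 𝕃)) = 1 - g := by
    unfold chi
    rw [h0_one hp, ← hg]
    rfl
  have hnf : nfac (pr P S) = g := by
    rw [← hS]
    exact nfac_prod S P hP0 hPm
  have hchix : chi (toK ((pr P S : FractionalIdeal A⁰ 𝕃)⁻¹)) (toK (1 : FractionalIdeal B⁰ 𝕃)) = 1 := by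
    have e1 := chiA_inv hp 1 1 (pr P S) one_ne_zero one_ne_zero (pr_ne_bot hP0 S)
    rw [one_mul] at e1
    rw [e1, hchi1, hnf]
    ring
  have hh0 : h0 (toK ((pr P S : FractionalIdeal A⁰ 𝕃)⁻¹)) (toK (1 : FractionalIdeal B⁰ 𝕃)) = 1 := by
    unfold chi at hchix
    rw [hh1] at hchix
    omega
  let e : Fin g ≃ S := (Fintype.equivFinOfCardEq (by rw [Fintype.card_coe, hS])).symm
  let J : Fin g ↪ ℕ := ⟨fun i => (e i : ℕ), fun i j hij => e.injective (Subtype.ext hij)⟩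
  have hprod : ∏ i, P (J i) = pr P S := by
    unfold pr
    rw [← Finset.prod_coe_sort S P]
    exact Fintype.prod_equiv e _ _ (fun i => rfl)
  -- the element
  set X : FractionalIdeal A⁰ 𝕃 := (pr P S : FractionalIdeal A⁰ 𝕃) with hX
  set N : FractionalIdeal A⁰ 𝕃 := (𝔫 : FractionalIdeal A⁰ 𝕃) with hN
  set Z : FractionalIdeal A⁰ 𝕃 := (z : FractionalIdeal A⁰ 𝕃) with hZ
  set N' : FractionalIdeal B⁰ 𝕃 := (𝔫' : FractionalIdeal B⁰ 𝕃) with hN'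
  have hN0 : N ≠ 0 := coe_ne_zero h𝔫
  have hZ0 : Z ≠ 0 := coe_ne_zero hz
  have hN'0 : N' ≠ 0 := coe_ne_zero h𝔫'
  have hc1 : chi (toK (X⁻¹ * N⁻¹ * Z)) (toK (N'⁻¹)) = 1 := by
    have e1 := hp.mulA (X⁻¹ * N⁻¹) N'⁻¹ z (mul_ne_zero (inv_ne_zero hx0) (inv_ne_zero hN0))
      (inv_ne_zero hN'0) hz
    have e2 := chiA_inv hp X⁻¹ N'⁻¹ 𝔫 (inv_ne_zero hx0) (inv_ne_zero hN'0) h𝔫
    have e3 := chiB_inv hp X⁻¹ 1 𝔫' (inv_ne_zero hx0) one_ne_zero h𝔫'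
    rw [one_mul] at e3
    rw [e1, e2, e3, hchix, hdeg]
    push_cast
    ring
  obtain ⟨φ, hφ0, hφ1, hφ2⟩ := exists_of_chi_pos (by rw [hc1]; exact one_pos)
  set s : FractionalIdeal A⁰ 𝕃 := FractionalIdeal.spanSingleton A⁰ φ with hs
  set s' : FractionalIdeal B⁰ 𝕃 := FractionalIdeal.spanSingleton B⁰ φ with hs'
  have hs0 : s ≠ 0 := by
    rw [hs, Ne, FractionalIdeal.spanSingleton_eq_zero_iff]; exact hφ0
  have hs'0 : s' ≠ 0 := by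
    rw [hs', Ne, FractionalIdeal.spanSingleton_eq_zero_iff]; exact hφ0
  have hsle : s ≤ X⁻¹ * N⁻¹ * Z := by
    rw [hs, FractionalIdeal.spanSingleton_le_iff_mem]
    exact hφ1
  have hs'le : s' ≤ N'⁻¹ := by
    rw [hs', FractionalIdeal.spanSingleton_le_iff_mem]
    exact hφ2
  have hJ0le : s * N * X * Z⁻¹ ≤ 1 := by
    calc s * N * X * Z⁻¹ ≤ (X⁻¹ * N⁻¹ * Z) * N * X * Z⁻¹ := by gcongr
      _ = (X⁻¹ * X) * (N⁻¹ * N) * (Z * Z⁻¹) := by ring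
      _ = 1 := by rw [inv_mul_cancel₀ hx0, inv_mul_cancel₀ hN0, mul_inv_cancel₀ hZ0]; simp
  have hJ1le : s' * N' ≤ 1 := by
    calc s' * N' ≤ N'⁻¹ * N' := by gcongr
      _ = 1 := inv_mul_cancel₀ hN'0
  obtain ⟨J₀, hJ₀⟩ := FractionalIdeal.le_one_iff_exists_coeIdeal.mp hJ0le
  obtain ⟨J₁, hJ₁⟩ := FractionalIdeal.le_one_iff_exists_coeIdeal.mp hJ1le
  have hJ₀0 : J₀ ≠ ⊥ := by
    intro h
    rw [h, FractionalIdeal.coeIdeal_bot] at hJ₀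
    exact (mul_ne_zero (mul_ne_zero (mul_ne_zero hs0 hN0) hx0) (inv_ne_zero hZ0)) hJ₀.symm
  have hJ₁0 : J₁ ≠ ⊥ := by
    intro h
    rw [h, FractionalIdeal.coeIdeal_bot] at hJ₁
    exact (mul_ne_zero hs'0 hN'0) hJ₁.symm
  have hdegJ : nfac J₀ + nfac J₁ = g := by
    have e1 := hp.mulA 1 1 J₀ one_ne_zero one_ne_zero hJ₀0
    have e2 := hp.mulB (J₀ : FractionalIdeal A⁰ 𝕃) 1 J₁ (coe_ne_zero hJ₀0) one_ne_zero hJ₁0
    rw [one_mul] at e1 e2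
    have e3 : chi (toK (J₀ : FractionalIdeal A⁰ 𝕃)) (toK (J₁ : FractionalIdeal B⁰ 𝕃)) =
        chi (toK (N * X * Z⁻¹)) (toK N') := by
      have h3 : (J₀ : FractionalIdeal A⁰ 𝕃) = s * (N * X * Z⁻¹) := by rw [hJ₀]; ring
      rw [h3, hJ₁, hs, hs', toK_spanSingleton_mul, toK_spanSingleton_mul, hp.smul φ hφ0]
    have e4 := chiA_inv hp (N * X) N' z (mul_ne_zero hN0 hx0) hN'0 hz
    have e5 := hp.mulA N N' (pr P S) hN0 hN'0 (pr_ne_bot hP0 S)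
    have e6 := hp.mulA 1 N' 𝔫 one_ne_zero hN'0 h𝔫
    have e7 := hp.mulB 1 1 𝔫' one_ne_zero one_ne_zero h𝔫'
    rw [one_mul] at e6 e7
    rw [e3, e4, e5, e6, e7, e1, hchi1, hnf, hdeg] at e2
    push_cast at e2
    omega
  obtain ⟨Q, hQ, hQprod⟩ := exists_factors J₀ hJ₀0
  refine ⟨J, φ, nfac J₀, Q, J₁, hφ0, by omega, hQ, hJ₁0,
    fun hm => nfac_eq_zero hJ₁0 (by omega), ?_, hJ₁.symm, ?_, ?_⟩
  · rw [hprod, hQprod, hJ₀, mul_assoc (s * N * X), inv_mul_cancel₀ hZ0, mul_one]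
  · obtain ⟨Q', hQ', hQ'prod⟩ := exists_factors J₁ hJ₁0
    refine ⟨nfac J₁, B.pow_mem ht _, ?_⟩
    have h3 : (⟨t⁻¹ ^ nfac J₁, B.pow_mem ht _⟩ : B) = ∏ _i : Fin (nfac J₁), (⟨t⁻¹, ht⟩ : B) := by
      rw [Finset.prod_const, Finset.card_univ, Fintype.card_fin]
      ext
      rfl
    have h4 : (∏ _i : Fin (nfac J₁), (⟨t⁻¹, ht⟩ : B)) ∈ ∏ i, Q' i :=
      Ideal.prod_mem_prod fun i _ => htm (Q' i) (hQ' i)
    rw [hQ'prod] at h4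
    rw [h3]
    exact h4
  · intro u hu huB
    rw [hprod] at hu
    have h1mem : (1 : 𝕃) ∈ toK X⁻¹ ⊓ toK (1 : FractionalIdeal B⁰ 𝕃) := by
      refine ⟨?_, ?_⟩
      · have h3 : (1 : FractionalIdeal A⁰ 𝕃) ≤ X⁻¹ := one_le_inv_coe (pr_ne_bot hP0 S)
        exact h3 (FractionalIdeal.one_mem_one A⁰)
      · exact FractionalIdeal.one_mem_one B⁰
    have humem : u ∈ toK X⁻¹ ⊓ toK (1 : FractionalIdeal B⁰ 𝕃) := by
      refine ⟨hu, ?_⟩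
      rw [toK_one]
      exact huB
    have h3 : (⟨1, h1mem⟩ : ↥(toK X⁻¹ ⊓ toK (1 : FractionalIdeal B⁰ 𝕃))) ≠ 0 := by
      intro h
      exact one_ne_zero (congrArg Subtype.val h)
    obtain ⟨c, hc⟩ := (finrank_eq_one_iff_of_nonzero' _ h3).mp hh0 ⟨u, humem⟩
    refine ⟨c, ?_⟩
    have h4 : c • (1 : 𝕃) = u := congrArg Subtype.val hc
    rw [← h4, Algebra.smul_def, mul_one]

/-- For every `d`, sections of large degree at infinity exist in all ideals of degree at most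
`d`. -/
theorem exists_ne_zero_mem_abs (hp : Pair A B) (t : 𝕃) (ht0 : t ≠ 0) (ht : t⁻¹ ∈ B)
    (htm : ∀ P : Ideal B, P.IsMaximal → (⟨t⁻¹, ht⟩ : B) ∈ P) (d : ℕ) :
    ∃ n₀ : ℕ, ∀ n ≥ n₀, ∀ 𝔞 : Ideal A, 𝔞 ≠ ⊥ → nfac 𝔞 ≤ d →
      ∃ u : 𝕃, u ≠ 0 ∧ (∃ h : u ∈ A, (⟨u, h⟩ : A) ∈ 𝔞) ∧ t⁻¹ ^ n * u ∈ B := by
  refine ⟨h1 (toK (1 : FractionalIdeal A⁰ 𝕃)) (toK (1 : FractionalIdeal B⁰ 𝕃)) + d,
    fun n hn 𝔞 h𝔞 hd => ?_⟩
  set τ : B := ⟨t⁻¹, ht⟩ with hτ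
  have hτ0 : τ ≠ 0 := by
    intro h
    have h1 : (τ : 𝕃) = 0 := by rw [h]; rfl
    exact inv_ne_zero ht0 h1
  set 𝔟 : Ideal B := Ideal.span {τ} with h𝔟
  have h𝔟0 : 𝔟 ≠ ⊥ := by
    rw [h𝔟, Ne, Ideal.span_singleton_eq_bot]
    exact hτ0
  have h𝔟1 : 1 ≤ nfac 𝔟 := by
    rw [Nat.one_le_iff_ne_zero]
    intro h
    have h2 := nfac_eq_zero h𝔟0 h
    obtain ⟨P, hP⟩ := Ideal.exists_maximal B
    have h3 : 𝔟 ≤ P := by
      rw [h𝔟, Ideal.span_singleton_le_iff_mem]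
      exact htm P hP
    rw [h2, top_le_iff] at h3
    exact hP.ne_top h3
  have hbn : ((𝔟 ^ n : Ideal B) : FractionalIdeal B⁰ 𝕃) ≠ 0 := coe_ne_zero (pow_ne_zero n h𝔟0)
  have hchi1 : chi (toK (1 : FractionalIdeal A⁰ 𝕃)) (toK (1 : FractionalIdeal B⁰ 𝕃)) =
      1 - h1 (toK (1 : FractionalIdeal A⁰ 𝕃)) (toK (1 : FractionalIdeal B⁰ 𝕃)) := by
    unfold chi
    rw [h0_one hp]
    rfl
  have e1 := hp.mulA 1 (((𝔟 ^ n : Ideal B) : FractionalIdeal B⁰ 𝕃)⁻¹) 𝔞 one_ne_zero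
    (inv_ne_zero hbn) h𝔞
  have e2 := chiB_inv hp 1 1 (𝔟 ^ n) one_ne_zero one_ne_zero (pow_ne_zero n h𝔟0)
  rw [one_mul] at e1 e2
  rw [e2, hchi1, nfac_pow h𝔟0] at e1
  have hpos : 0 < chi (toK (𝔞 : FractionalIdeal A⁰ 𝕃))
      (toK (((𝔟 ^ n : Ideal B) : FractionalIdeal B⁰ 𝕃)⁻¹)) := by
    rw [e1]
    have h5 : n ≤ n * nfac 𝔟 := Nat.le_mul_of_pos_right n h𝔟1
    push_cast
    have h6 : (n : ℤ) ≤ n * nfac 𝔟 := by exact_mod_cast h5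
    have h7 : ((h1 (toK (1 : FractionalIdeal A⁰ 𝕃)) (toK (1 : FractionalIdeal B⁰ 𝕃)) : ℕ) : ℤ) + d ≤
      n := by exact_mod_cast hn
    have h8 : ((nfac 𝔞 : ℕ) : ℤ) ≤ d := by exact_mod_cast hd
    linarith
  obtain ⟨u, hu0, hu1, hu2⟩ := exists_of_chi_pos hpos
  refine ⟨u, hu0, ?_, ?_⟩
  · have h3 : u ∈ (𝔞 : FractionalIdeal A⁰ 𝕃) := hu1
    rw [FractionalIdeal.mem_coeIdeal] at h3
    obtain ⟨c, hc, rfl⟩ := h3
    exact ⟨c.2, hc⟩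
  · have h3 : u ∈ (((𝔟 ^ n : Ideal B) : FractionalIdeal B⁰ 𝕃)⁻¹) := hu2
    rw [FractionalIdeal.mem_inv_iff hbn] at h3
    have h4 : t⁻¹ ^ n ∈ ((𝔟 ^ n : Ideal B) : FractionalIdeal B⁰ 𝕃) := by
      rw [FractionalIdeal.mem_coeIdeal]
      refine ⟨τ ^ n, Ideal.pow_mem_pow (Ideal.mem_span_singleton_self τ) n, ?_⟩
      rfl
    have h5 := h3 _ h4
    rw [FractionalIdeal.mem_one_iff] at h5
    obtain ⟨c, hc⟩ := h5
    rw [mul_comm, ← hc]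
    exact c.2

end pair

end Pool.Agent.D5741.RR
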