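import Mathlib
import Pool.Agent.Lib.MP_d5741c_al.Mg.G009

/-!
# The D-theory
-/

set_option autoImplicit false
set_option linter.unusedSectionVars false
set_option linter.style.haveILetI false

namespace Pool.Agent.D5741

open scoped TensorProduct nonZeroDivisors
open FractionalIdeal

section

variable {K L Ω : Type} [Field K] [CharZero K] [Field L] [Algebra K L]
    [Field Ω] [IsAlgClosed Ω] [Algebra K Ω] [IsDomain (Ω ⊗[K] L)]
    (t : L)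
    [IsDedekindDomain (Ofin Ω (tt K Ω t))] [IsFractionRing (Ofin Ω (tt K Ω t)) (LL K L Ω)]

/-- The element `t - c` of the affine ring. -/
theorem tt_sub_mem (c : Ω) : tt K Ω t - algebraMap Ω (LL K L Ω) c ∈ Ofin Ω (tt K Ω t) := by
  refine sub_mem ?_ (algebraMap_mem_Ofin t c)
  have h1 : tt K Ω t ∈ Rfin Ω (tt K Ω t) := Algebra.subset_adjoin rfl
  exact isIntegral_algebraMap (R := Rfin Ω (tt K Ω t)) (x := ⟨_, h1⟩)

theorem iota_t_sub (c : Ω) : algebraMap (Ω ⊗[K] L) (LL K L Ω) (1 ⊗ₜ t - c ⊗ₜ 1) =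
    tt K Ω t - algebraMap Ω (LL K L Ω) c := by
  rw [map_sub]
  congr 1

variable (P : (L →ₐ[K] Ω) → Ideal (Ofin Ω (tt K Ω t)))
    (hP : ∀ (p : L →ₐ[K] Ω) (x : Ofin Ω (tt K Ω t)) (y : Ω ⊗[K] L),
      algebraMap _ (LL K L Ω) y = x → (x ∈ P p ↔ evp p y = 0))

include hP

theorem tt_sub_mem_P (p : L →ₐ[K] Ω) :
    (⟨_, tt_sub_mem t (p t)⟩ : Ofin Ω (tt K Ω t)) ∈ P p := by
  rw [hP p _ (1 ⊗ₜ t - p t ⊗ₜ 1) (iota_t_sub t (p t)), map_sub, evp_tmul, evp_tmul, map_one]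
  ring

theorem P_inj {p p' : L →ₐ[K] Ω} (h : P p = P p') : p t = p' t := by
  have h1 := tt_sub_mem_P t P hP p
  rw [h, hP p' _ (1 ⊗ₜ t - p t ⊗ₜ 1) (iota_t_sub t (p t)), map_sub, evp_tmul, evp_tmul, map_one]
    at h1
  linear_combination -h1

end

theorem map_id_tmul {K L Ω : Type} [Field K] [Field L] [Algebra K L] [Field Ω] [Algebra K Ω]
    (τ : Ω ≃ₐ[K] Ω) (c : Ω) (l : L) :
    Algebra.TensorProduct.map τ.toAlgHom (AlgHom.id K L) (c ⊗ₜ l) = (τ c) ⊗ₜ l := by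
  rw [Algebra.TensorProduct.map_tmul]
  rfl

theorem mem_prod_of_mem {R : Type} [CommRing R] {ι : Type} [Fintype ι] (I : ι → Ideal R)
    (x : ι → R) (h : ∀ i, x i ∈ I i) : ∏ i, x i ∈ ∏ i, I i := by
  exact Ideal.prod_mem_prod fun i _ => h i

theorem d_theory (K : Type) [Field K] [CharZero K] (ω α a : K) (hω : ω ^ 2 + ω + 1 = 0)
    (hα0 : α ≠ 0) (ha : a ≠ 0) (hna : ¬ IsNm α a)
    (L : Type) [Field L] [Algebra K L] (t : L) (ht : Transcendental K t)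
    (hfin : FiniteDimensional (IntermediateField.adjoin K {t}) L)
    (hreg : ∀ (F : Type) [Field F] [Algebra K F], IsDomain (F ⊗[K] L))
    (θ : Fin 3 → L) (hθ : nf (algebraMap K L α) (θ 0) (θ 1) (θ 2) = algebraMap K L a)
    (Ω : Type) [Field Ω] [IsAlgClosed Ω] [Algebra K Ω] (μ : Ω) (hμ : μ ^ 3 = algebraMap K Ω α)
    (s : ℕ → Ω) (hs : AlgebraicIndependent K s) :
    ∃ (n₁ n₂ : ℕ) (p₁ : Fin n₁ × Fin 3 → (L →ₐ[K] Ω)) (p₂ : Fin n₂ × Fin 3 → (L →ₐ[K] Ω))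
      (v : Fin 2 → Ω) (W₁ W₂ : Submodule K (Fin 3 → L)) (φ : Fin 3 → LL K L Ω),
      FiniteDimensional K W₁ ∧ FiniteDimensional K W₂ ∧
      AlgebraicIndependent K (Sum.elim (fun i => p₁ i t) v) ∧
      AlgebraicIndependent K (Sum.elim (fun i => p₂ i t) v) ∧
      (∀ i, φ i ≠ 0) ∧
      φ 0 = φ 1 * algebraMap _ (LL K L Ω) (cjT ω μ (cst Ω θ) 0) ∧
      φ 1 = φ 2 * algebraMap _ (LL K L Ω) (cjT ω μ (cst Ω θ) 1) ∧
      (∃ h ∈ VSub W₁ p₁, nf (algebraMap K (Ω ⊗[K] L) α) (h 0) (h 1) (h 2) ≠ 0) ∧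
      (∀ h ∈ VSub W₁ p₁, ∃ h' ∈ VSub W₂ p₂, ∀ i : Fin 3,
        algebraMap _ (LL K L Ω) (cjT ω μ h' i) = φ i * algebraMap _ (LL K L Ω) (cjT ω μ h i)) ∧
      (∀ h' ∈ VSub W₂ p₂, ∃ h ∈ VSub W₁ p₁, ∀ i : Fin 3,
        algebraMap _ (LL K L Ω) (cjT ω μ h' i) = φ i * algebraMap _ (LL K L Ω) (cjT ω μ h i)) := by
  classical
  haveI hdom : IsDomain (Ω ⊗[K] L) := hreg Ω
  haveI : CharZero Ω := charZero_of_injective_algebraMap (algebraMap K Ω).injective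
  obtain ⟨htt, hfintt, hrange⟩ := integral_mem_range K L Ω (LL K L Ω) t ht hfin
  have htt' : Transcendental Ω (tt K Ω t) := htt
  have hfintt' : FiniteDimensional (IntermediateField.adjoin Ω {tt K Ω t}) (LL K L Ω) := hfintt
  have dd := dta_dedekind Ω (LL K L Ω) (tt K Ω t) htt' hfintt'
  haveI i1 : IsDedekindDomain (Ofin Ω (tt K Ω t)) := dd.1.1
  haveI i2 : IsFractionRing (Ofin Ω (tt K Ω t)) (LL K L Ω) := dd.1.2
  haveI i3 : IsDedekindDomain (Oinf Ω (tt K Ω t)) := dd.2.1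
  haveI i4 : IsFractionRing (Oinf Ω (tt K Ω t)) (LL K L Ω) := dd.2.2
  -- the inverse ideals
  obtain ⟨𝔫, h𝔫0, h𝔫, h𝔫c⟩ := exists_inv_ideal (Ofin Ω (tt K Ω t))
    (Zid (Ofin Ω (tt K Ω t)) (fth ω μ θ) 0) (one_le_Zid _ _ _)
  obtain ⟨𝔫', h𝔫'0, h𝔫', h𝔫'c⟩ := exists_inv_ideal (Oinf Ω (tt K Ω t))
    (Zid (Oinf Ω (tt K Ω t)) (fth ω μ θ) 0) (one_le_Zid _ _ _)
  obtain ⟨δ, hδ⟩ := three_dvd_deg_of K L Ω t ht hfin ω α a hω ha hα0 hna θ hθ μ hμ (fun e n => by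
    obtain ⟨W, h1, h2, -, h4⟩ := descent_Sp K L Ω t ht hfin ω α a hω ha hα0 θ hθ μ hμ e n
    exact ⟨W, h1, h2, h4⟩) 𝔫 𝔫' h𝔫 h𝔫'
  obtain ⟨g, hg⟩ : ∃ g, g = h1 (Subalgebra.toSubmodule (Ofin Ω (tt K Ω t)))
    (Subalgebra.toSubmodule (Oinf Ω (tt K Ω t))) := ⟨_, rfl⟩
  -- reindexing
  obtain ⟨e⟩ : Nonempty ((ℕ ⊕ ((Fin g × Fin 2) ⊕ ((Fin δ × Fin 3) ⊕ Fin 2))) ≃ ℕ) :=
    nonempty_equiv_of_countable
  obtain ⟨s', hs'def⟩ : ∃ s' : (ℕ ⊕ ((Fin g × Fin 2) ⊕ ((Fin δ × Fin 3) ⊕ Fin 2))) → Ω,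
    s' = s ∘ e := ⟨_, rfl⟩
  have hs' : AlgebraicIndependent K s' := by
    rw [hs'def]
    exact hs.comp e e.injective
  have hs'inj : Function.Injective s' := hs'.injective
  choose pt hpt using fun x => exists_emb K L Ω t ht hfin (s' x) (hs'.transcendental x)
  -- points
  obtain ⟨P, hPm, hP0, hP, hPQ⟩ := exists_points K L Ω t ht hfin
  have hPinj : ∀ x y, P (pt x) = P (pt y) → x = y := by
    intro x y h
    have h1 := P_inj t P hP h
    rw [hpt, hpt] at h1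
    exact hs'inj h1
  -- the ideal of the points `z`
  have hzI := nfac_prod (fun x : Fin δ × Fin 3 => P (pt (Sum.inr (Sum.inr (Sum.inl x)))))
    (fun x => hPm _) (fun x => hP0 _)
  have hznfac : nfac (∏ x : Fin δ × Fin 3, P (pt (Sum.inr (Sum.inr (Sum.inl x))))) =
      nfac 𝔫 + nfac 𝔫' := by
    rw [hzI.1, hδ, Fintype.card_prod, Fintype.card_fin, Fintype.card_fin]
    ring
  obtain ⟨J, φ, m, Q, J₁, hφ, hm, hQm, hJ₁0, hJ₁top, e0, e1, ⟨N1, hN1, hN1'⟩, hconst⟩ :=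
    exists_phi (tt K Ω t) htt' hfintt' g hg (fun i => P (pt (Sum.inl i))) (fun i => hPm _)
      (fun i j hij => Sum.inl_injective (hPinj _ _ hij)) 𝔫
      (∏ x : Fin δ × Fin 3, P (pt (Sum.inr (Sum.inr (Sum.inl x))))) 𝔫' h𝔫0 hzI.2 h𝔫'0 hznfac
  have hxI := nfac_prod (fun i : Fin g => P (pt (Sum.inl (J i)))) (fun x => hPm _) (fun x => hP0 _)
  have hQ0 : ∀ i, Q i ≠ ⊥ := by
    intro i hi
    have h1 : (∏ i, Q i) = ⊥ := by
      rw [← Ideal.zero_eq_bot, Finset.prod_eq_zero (Finset.mem_univ i)]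
      rw [hi, Ideal.zero_eq_bot]
    rw [h1, coeIdeal_bot, zero_mul, mul_eq_zero, mul_eq_zero, spanSingleton_eq_zero_iff,
      coeIdeal_eq_zero, coeIdeal_eq_zero] at e0
    rcases e0 with (h | h) | h
    · exact hφ h
    · exact h𝔫0 h
    · exact hxI.2 h
  have hQI := nfac_prod Q hQm hQ0
  choose y hy hy' using fun i => hPQ (Q i) (hQm i)
  -- the field `k₁`
  obtain ⟨w, hw⟩ : ∃ w : ((Fin g × Fin 2) ⊕ ((Fin δ × Fin 3) ⊕ Fin 2)) → Ω,
    ∀ x, w x = s' (Sum.inr x) := ⟨fun x => s' (Sum.inr x), fun _ => rfl⟩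
  obtain ⟨S, hS⟩ : ∃ S : Set Ω, S = Set.range (Sum.elim y w) := ⟨_, rfl⟩
  have hyS : ∀ i, y i ∈ (acl S : IntermediateField K Ω) := fun i =>
    subset_acl S _ (by rw [hS]; exact ⟨Sum.inl i, rfl⟩)
  have hwS : ∀ x, w x ∈ (acl S : IntermediateField K Ω) := fun x =>
    subset_acl S _ (by rw [hS]; exact ⟨Sum.inr x, rfl⟩)
  obtain ⟨sd, hsd0, hsd, hsd'⟩ := exists_denom_Zid (Ω := Ω) t ht hfin ω μ θ
  have hsdO : algebraMap (Ω ⊗[K] L) (LL K L Ω) (1 ⊗ₜ sd) ∈ Ofin Ω (tt K Ω t) := by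
    have h1 := hsd' 0 1 (one_le_Zid _ _ _ (one_mem_one _))
    rwa [mul_one] at h1
  obtain ⟨y₀, hy₀⟩ : ∃ y₀ : Ω ⊗[K] L, y₀ = ((1 : Ω) ⊗ₜ[K] sd) *
    (∏ x : Fin δ × Fin 3, ((1 : Ω) ⊗ₜ[K] t - w (Sum.inr (Sum.inl x)) ⊗ₜ[K] (1 : L))) *
    (∏ i, ((1 : Ω) ⊗ₜ[K] t - y i ⊗ₜ[K] (1 : L))) := ⟨_, rfl⟩
  obtain ⟨a₀, ha₀⟩ : ∃ a₀ : Ofin Ω (tt K Ω t), a₀ = ⟨_, hsdO⟩ *
    (∏ x : Fin δ × Fin 3, (⟨_, tt_sub_mem t (w (Sum.inr (Sum.inl x)))⟩ : Ofin Ω (tt K Ω t))) *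
    (∏ i, (⟨_, tt_sub_mem t (y i)⟩ : Ofin Ω (tt K Ω t))) := ⟨_, rfl⟩
  have hya : algebraMap (Ω ⊗[K] L) (LL K L Ω) y₀ = a₀ := by
    have h1 : (a₀ : LL K L Ω) = algebraMap (Ofin Ω (tt K Ω t)) (LL K L Ω) a₀ := rfl
    rw [h1, hy₀, ha₀, map_mul, map_mul, map_mul, map_mul, map_prod, map_prod, map_prod, map_prod]
    congr 1
    · congr 1
      refine Finset.prod_congr rfl fun x _ => ?_
      rw [iota_t_sub]
      rfl
    · refine Finset.prod_congr rfl fun x _ => ?_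
      rw [iota_t_sub]
      rfl
  have hfix : ∀ τ : Ω ≃ₐ[K] Ω, (∀ c ∈ (acl S : IntermediateField K Ω), τ c = c) →
      Algebra.TensorProduct.map τ.toAlgHom (AlgHom.id K L) y₀ = y₀ := by
    intro τ hτ
    rw [hy₀, map_mul, map_mul, map_prod, map_prod]
    congr 1
    · congr 1
      · rw [map_id_tmul, map_one]
      · refine Finset.prod_congr rfl fun x _ => ?_
        rw [map_sub, map_id_tmul, map_id_tmul, map_one, hτ _ (hwS _)]
    · refine Finset.prod_congr rfl fun x _ => ?_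
      rw [map_sub, map_id_tmul, map_id_tmul, map_one, hτ _ (hyS _)]
  have ha₀0 : a₀ ≠ 0 := by
    have h1 : ∀ c : Ω, tt K Ω t - algebraMap Ω (LL K L Ω) c ≠ 0 := by
      intro c h
      apply htt'
      rw [sub_eq_zero] at h
      rw [h]
      exact isAlgebraic_algebraMap c
    rw [ha₀]
    refine mul_ne_zero (mul_ne_zero ?_ ?_) ?_
    · intro h
      have h2 := congrArg Subtype.val h
      simp only [ZeroMemClass.coe_zero] at h2
      rw [map_eq_zero_iff _ (IsFractionRing.injective (Ω ⊗[K] L) (LL K L Ω))] at h2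
      have h3 : (1 : Ω) ⊗ₜ[K] sd = Algebra.TensorProduct.includeRight (R := K) (A := Ω) sd := rfl
      rw [h3, map_eq_zero] at h2
      exact hsd0 h2
    · rw [Finset.prod_ne_zero_iff]
      intro x _ h
      exact h1 _ (congrArg Subtype.val h)
    · rw [Finset.prod_ne_zero_iff]
      intro x _ h
      exact h1 _ (congrArg Subtype.val h)
  have hy₀0 : y₀ ≠ 0 := by
    rintro h
    rw [h, map_zero] at hya
    exact ha₀0 (Subtype.ext hya.symm)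
  have hm1 : a₀ ∈ 𝔫 := by
    rw [ha₀]
    exact Ideal.mul_mem_right _ _ (Ideal.mul_mem_right _ _ (h𝔫c _ (fun x hx => hsd' 0 x hx)))
  have hm2 : a₀ ∈ ∏ x : Fin δ × Fin 3, P (pt (Sum.inr (Sum.inr (Sum.inl x)))) := by
    rw [ha₀]
    refine Ideal.mul_mem_right _ _ (Ideal.mul_mem_left _ _ (mem_prod_of_mem _ _ fun x => ?_))
    have h1 := tt_sub_mem_P t P hP (pt (Sum.inr (Sum.inr (Sum.inl x))))
    have h2 : w (Sum.inr (Sum.inl x)) = pt (Sum.inr (Sum.inr (Sum.inl x))) t := by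
      rw [hw, hpt]
    convert h1
  have hm3 : a₀ ∈ ∏ i, Q i := by
    rw [ha₀]
    refine Ideal.mul_mem_left _ _ (mem_prod_of_mem _ _ fun x => ?_)
    obtain ⟨h1, h2⟩ := hy x
    exact h2
  obtain ⟨N2, hN2, hN2'⟩ := exists_tinv_pow_mem (tt K Ω t) htt' hfintt' 𝔫' h𝔫'0
  have hN3 : (tt K Ω t)⁻¹ ^ (N1 + N2) ∈ Oinf Ω (tt K Ω t) := by
    rw [pow_add]
    exact mul_mem hN1 hN2
  have hN4 : (⟨_, hN3⟩ : Oinf Ω (tt K Ω t)) = ⟨_, hN1⟩ * ⟨_, hN2⟩ := by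
    apply Subtype.ext
    exact pow_add _ _ _
  have hqk : ∀ i, s' (Sum.inl (J i)) ∈ (acl S : IntermediateField K Ω) := by
    intro i
    refine mem_of_finite_orbit K L Ω t ht hfin (acl S) 𝔫
      (∏ i, P (pt (Sum.inl (J i))))
      (∏ x : Fin δ × Fin 3, P (pt (Sum.inr (Sum.inr (Sum.inl x))))) (∏ i, Q i) 𝔫' J₁ h𝔫0 hxI.2
      hzI.2 hQI.2 h𝔫'0 hJ₁0 y₀ hy₀0 hfix ⟨?_, ?_⟩ (N1 + N2) ⟨hN3, ?_⟩ φ hφ e0 e1 hconst
      (P (pt (Sum.inl (J i)))) (hPm _) ?_ _ ?_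
    · rw [hya]; exact a₀.2
    · have h1 : (⟨algebraMap (Ω ⊗[K] L) (LL K L Ω) y₀, by rw [hya]; exact a₀.2⟩ :
          Ofin Ω (tt K Ω t)) = a₀ := Subtype.ext hya
      rw [h1]
      exact ⟨hm1, hm2, hm3⟩
    · rw [hN4]
      exact ⟨Ideal.mul_mem_left _ _ hN2', Ideal.mul_mem_right _ _ hN1'⟩
    · exact Ideal.le_of_dvd (Finset.dvd_prod_of_mem _ (Finset.mem_univ i))
    · have h1 := tt_sub_mem_P t P hP (pt (Sum.inl (J i)))
      rw [← hpt]
      exact ⟨_, h1⟩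
  -- the count
  obtain ⟨hmg, hind⟩ := algInd_of_count K Ω _ g m hm (fun i => s' (Sum.inl (J i))) y w (by
      have h1 := hs'.comp (Sum.map J id) (Sum.map_injective.mpr ⟨J.injective, Function.injective_id⟩)
      convert h1 using 1
      ext x
      rcases x with x | x
      · rfl
      · exact hw x) (by
      intro i
      have h1 := hqk i
      rwa [mem_acl, hS] at h1)
  subst hmg
  have hJ₁ : J₁ = ⊤ := hJ₁top rfl
  rw [hJ₁, coeIdeal_top] at e1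
  have hyt : ∀ i, Transcendental K (y i) := fun i => hind.transcendental (Sum.inl i)
  choose x' hx't hx'P using fun i => hy' i (hyt i)
  obtain ⟨p₁, hp₁⟩ : ∃ p₁, p₁ = tri₁ (fun i => pt (Sum.inl (J i)))
    (fun x => pt (Sum.inr (Sum.inl x))) := ⟨_, rfl⟩
  obtain ⟨p₂, hp₂⟩ : ∃ p₂, p₂ = tri₂ x' (fun x => pt (Sum.inr (Sum.inl x)))
    (fun x : Fin δ × Fin 3 => pt (Sum.inr (Sum.inr (Sum.inl x)))) := ⟨_, rfl⟩
  have hprod₁ : (∏ x, P (p₁ x)) = (∏ i, P (pt (Sum.inl (J i)))) *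
      ∏ x, P (pt (Sum.inr (Sum.inl x))) := by
    rw [hp₁]
    exact prod_tri₁ P _ _
  have hprod₂ : (∏ x, P (p₂ x)) = (∏ i, Q i) * (∏ x, P (pt (Sum.inr (Sum.inl x)))) *
      ∏ x : Fin δ × Fin 3, P (pt (Sum.inr (Sum.inr (Sum.inl x)))) := by
    rw [hp₂, prod_tri₂ P]
    congr 2
    exact Finset.prod_congr rfl fun i _ => (hx'P i).symm
  have e0' : spanSingleton _ φ * ((∏ x, P (p₁ x) : Ideal (Ofin Ω (tt K Ω t))) :
        FractionalIdeal (Ofin Ω (tt K Ω t))⁰ (LL K L Ω)) =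
      Zid (Ofin Ω (tt K Ω t)) (fth ω μ θ) 0 * ((∏ x, P (p₂ x) : Ideal (Ofin Ω (tt K Ω t))) :
        FractionalIdeal (Ofin Ω (tt K Ω t))⁰ (LL K L Ω)) := by
    rw [hprod₁, hprod₂, coeIdeal_mul, coeIdeal_mul, coeIdeal_mul]
    have h1 := congrArg (fun x => Zid (Ofin Ω (tt K Ω t)) (fth ω μ θ) 0 * x *
      ((∏ x, P (pt (Sum.inr (Sum.inl x))) : Ideal (Ofin Ω (tt K Ω t))) :
        FractionalIdeal (Ofin Ω (tt K Ω t))⁰ (LL K L Ω))) e0
    calc _ = ((𝔫 : FractionalIdeal (Ofin Ω (tt K Ω t))⁰ (LL K L Ω)) *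
          Zid (Ofin Ω (tt K Ω t)) (fth ω μ θ) 0) * _ := by rw [h𝔫, one_mul]
      _ = _ := by
        rw [show ∀ A B C D E : FractionalIdeal (Ofin Ω (tt K Ω t))⁰ (LL K L Ω),
          A * B * (C * (D * E)) = B * (C * A * D) * E from fun A B C D E => by ring, h1]
        ring
  have e1' : spanSingleton _ φ = Zid (Oinf Ω (tt K Ω t)) (fth ω μ θ) 0 := by
    calc _ = spanSingleton _ φ * ((𝔫' : FractionalIdeal (Oinf Ω (tt K Ω t))⁰ (LL K L Ω)) *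
          Zid (Oinf Ω (tt K Ω t)) (fth ω μ θ) 0) := by rw [h𝔫', mul_one]
      _ = _ := by rw [← mul_assoc, e1, one_mul]
  obtain ⟨φ', hφ'0, hφ'1, hφ'2, hφi⟩ := phi_ideals t hω ha hμ hθ (∏ x, P (p₁ x)) (∏ x, P (p₂ x))
    φ hφ e0' e1'
  obtain ⟨n, hn⟩ := exists_ne_zero_mem (tt K Ω t) htt' hfintt' (m * 3)
  have hp₁I := nfac_prod (fun x => P (p₁ x)) (fun x => hPm _) (fun x => hP0 _)
  obtain ⟨u, hu0, ⟨huA, hu1⟩, hu2⟩ := hn n le_rfl (∏ x, P (p₁ x)) hp₁I.2 (by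
    rw [hp₁I.1, Fintype.card_prod, Fintype.card_fin, Fintype.card_fin])
  obtain ⟨W₁, -, hW₁f, hW₁, -⟩ := descent_Sp K L Ω t ht hfin ω α a hω ha hα0 θ hθ μ hμ 0 n
  obtain ⟨W₂, -, hW₂f, hW₂, -⟩ := descent_Sp K L Ω t ht hfin ω α a hω ha hα0 θ hθ μ hμ 1 n
  -- independence
  have hI₁ : AlgebraicIndependent K (Sum.elim (fun i => p₁ i t)
      (fun i : Fin 2 => s' (Sum.inr (Sum.inr (Sum.inr i))))) := by
    have hc : Function.Injective (Sum.elim (tri₁ (fun i : Fin m => Sum.inl (J i))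
        (fun x : Fin m × Fin 2 => Sum.inr (Sum.inl x)))
        (fun i : Fin 2 => Sum.inr (Sum.inr (Sum.inr i))) :
          (Fin m × Fin 3) ⊕ Fin 2 → ℕ ⊕ ((Fin m × Fin 2) ⊕ ((Fin δ × Fin 3) ⊕ Fin 2))) := by
      refine Function.Injective.sumElim (tri₁_injective ?_) ?_ ?_
      · refine Function.Injective.sumElim ?_ ?_ ?_
        · intro i j hij
          exact J.injective (Sum.inl_injective hij)
        · intro i j hij
          exact Sum.inl_injective (Sum.inr_injective hij)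
        · intro i j hij
          cases hij
      · intro i j hij
        exact Sum.inr_injective (Sum.inr_injective (Sum.inr_injective hij))
      · intro x i
        refine tri₁_ne ?_ ?_ x
        · intro i h; cases h
        · intro i h; cases h
    have h1 := hs'.comp _ hc
    convert h1 using 1
    ext x
    rcases x with x | x
    · simp only [Sum.elim_inl, Function.comp_apply]
      rw [hp₁, map_tri₁ (fun p : L →ₐ[K] Ω => p t), map_tri₁ s']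
      simp only [hpt]
    · rfl
  have hI₂ : AlgebraicIndependent K (Sum.elim (fun i => p₂ i t)
      (fun i : Fin 2 => s' (Sum.inr (Sum.inr (Sum.inr i))))) := by
    have hc : Function.Injective (Sum.elim (tri₂ (fun i : Fin m => Sum.inl i)
        (fun x : Fin m × Fin 2 => Sum.inr (Sum.inl x))
        (fun x : Fin δ × Fin 3 => Sum.inr (Sum.inr (Sum.inl x))))
        (fun i : Fin 2 => Sum.inr (Sum.inr (Sum.inr i))) :
          (Fin (m + δ) × Fin 3) ⊕ Fin 2 → Fin m ⊕ ((Fin m × Fin 2) ⊕ ((Fin δ × Fin 3) ⊕ Fin 2))) := by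
      refine Function.Injective.sumElim (tri₂_injective ?_) ?_ ?_
      · refine Function.Injective.sumElim ?_ (Function.Injective.sumElim ?_ ?_ ?_) ?_
        · intro i j hij
          exact Sum.inl_injective hij
        · intro i j hij
          exact Sum.inl_injective (Sum.inr_injective hij)
        · intro i j hij
          exact Sum.inl_injective (Sum.inr_injective (Sum.inr_injective hij))
        · intro i j hij
          cases hij
        · intro i j hij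
          rcases j with j | j <;> cases hij
      · intro i j hij
        exact Sum.inr_injective (Sum.inr_injective (Sum.inr_injective hij))
      · intro x i
        refine tri₂_ne ?_ ?_ ?_ x
        · intro i h; cases h
        · intro i h; cases h
        · intro i h; cases h
    have h1 := hind.comp _ hc
    convert h1 using 1
    ext x
    rcases x with x | x
    · simp only [Sum.elim_inl, Function.comp_apply]
      rw [hp₂, map_tri₂ (fun p : L →ₐ[K] Ω => p t), map_tri₂ (Sum.elim y w)]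
      simp only [hpt, hx't, hw, Sum.elim_inl, Sum.elim_inr]
    · simp only [Sum.elim_inr, Function.comp_apply, hw]
  have hV₁ := fun h => mem_VSub_iff (Ω := Ω) t ht hfin hω hα0 hμ θ 0 (Or.inl rfl) n W₁ hW₁ P hPm hP
    p₁ (fun x => hI₁.transcendental (Sum.inl x))
    (fun x x' hxx => Sum.inl_injective (hI₁.injective (a₁ := Sum.inl x) (a₂ := Sum.inl x') hxx)) h
  have hV₂ := fun h => mem_VSub_iff (Ω := Ω) t ht hfin hω hα0 hμ θ 1 (Or.inr rfl) n W₂ hW₂ P hPm hP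
    p₂ (fun x => hI₂.transcendental (Sum.inl x))
    (fun x x' hxx => Sum.inl_injective (hI₂.injective (a₁ := Sum.inl x) (a₂ := Sum.inl x') hxx)) h
  obtain ⟨hb1, hb2⟩ := VSub_bij (Ω := Ω) t ht hfin hω hα0 hμ θ n (VSub W₁ p₁) (VSub W₂ p₂)
    (∏ x, P (p₁ x)) (∏ x, P (p₂ x)) hV₁ hV₂ φ' hφ'0 hφi
  refine ⟨m, m + δ, p₁, p₂, fun i : Fin 2 => s' (Sum.inr (Sum.inr (Sum.inr i))), W₁, W₂, φ',
    hW₁f, hW₂f, hI₁, hI₂, hφ'0, hφ'1, hφ'2, ?_, hb1, hb2⟩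
  -- a nonzero element
  obtain ⟨yu, hyu⟩ := hrange u huA
  have hyu0 : yu ≠ 0 := by
    rintro rfl
    rw [map_zero] at hyu
    exact hu0 hyu.symm
  refine ⟨![yu, 0, 0], ?_, ?_⟩
  · rw [hV₁]
    intro i
    have h1 : cjT ω μ ![yu, 0, 0] i = yu := by
      unfold cjT cj
      simp
    rw [h1, hyu, pow_zero, pow_zero, one_mul]
    refine ⟨?_, ?_⟩
    · rw [mem_coeIdeal]
      exact ⟨_, hu1, rfl⟩
    · rw [mem_one_iff]
      exact ⟨⟨_, hu2⟩, rfl⟩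
  · have h1 : nf (algebraMap K (Ω ⊗[K] L) α) ((![yu, 0, 0] : Fin 3 → Ω ⊗[K] L) 0)
        ((![yu, 0, 0] : Fin 3 → Ω ⊗[K] L) 1) ((![yu, 0, 0] : Fin 3 → Ω ⊗[K] L) 2) = yu ^ 3 :=
      nf_zero_zero _ _
    rw [h1]
    exact pow_ne_zero _ hyu0

end Pool.Agent.D5741
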