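import Mathlib
import Pool.Agent.Lib.MP_d5741c_al.Basic
import Pool.Agent.Lib.MP_d5741c_al.Mg.G007
import Pool.Agent.Lib.MP_d5741c_al.Mg.G006

set_option autoImplicit false
open scoped TensorProduct nonZeroDivisors

namespace Pool.Agent.D5741

namespace RSL

/-- Inverse Fourier transform of `v`. -/
def ift {F : Type*} [Field F] (ω μ v₀ v₁ v₂ : F) : Fin 3 → F :=
  ![(v₀ + v₁ + v₂) / 3, (v₀ + ω ^ 2 * v₁ + ω * v₂) / (3 * μ),
      (v₀ + ω * v₁ + ω ^ 2 * v₂) / (3 * μ ^ 2)]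

/-- Inverse Fourier transform. -/
theorem cj_ift {F : Type*} [Field F] [CharZero F] (ω μ v₀ v₁ v₂ : F) (hω : ω ^ 2 + ω + 1 = 0)
    (hμ : μ ≠ 0) :
    cj ω μ (ift ω μ v₀ v₁ v₂) 0 = v₀ ∧ cj ω μ (ift ω μ v₀ v₁ v₂) 1 = v₁ ∧
    cj ω μ (ift ω μ v₀ v₁ v₂) 2 = v₂ := by
  have h3 : ω ^ 3 = 1 := by linear_combination (ω - 1) * hω
  have e1 : μ * ((v₀ + ω ^ 2 * v₁ + ω * v₂) / (3 * μ)) = (v₀ + ω ^ 2 * v₁ + ω * v₂) / 3 := by
    field_simp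
  have e2 : μ ^ 2 * ((v₀ + ω * v₁ + ω ^ 2 * v₂) / (3 * μ ^ 2)) =
      (v₀ + ω * v₁ + ω ^ 2 * v₂) / 3 := by
    field_simp
  simp only [cj, ift, Matrix.cons_val_zero, Matrix.cons_val_one, Matrix.cons_val]
  refine ⟨?_, ?_, ?_⟩
  · rw [pow_zero, one_mul, e1, e2]
    linear_combination (v₁ / 3 + v₂ / 3) * hω
  · rw [pow_one, mul_assoc, mul_pow, mul_assoc, e1, e2]
    linear_combination (v₀ / 3 + v₂ * ω ^ 2 / 3 ) * hω + (v₁ * 2 / 3 - v₂ / 3) * h3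
  · rw [mul_assoc, mul_pow, mul_assoc, e1, e2]
    linear_combination (v₀ / 3 + v₁ / 3) * hω +
      (v₀ * ω / 3 + v₁ * ω / 3 + v₁ * ω ^ 2 / 3 + v₂ / 3 + v₂ * (ω ^ 3 + 1) / 3) * h3

theorem ift_cj {F : Type*} [Field F] [CharZero F] (ω μ : F) (ξ : Fin 3 → F)
    (hω : ω ^ 2 + ω + 1 = 0) (hμ : μ ≠ 0) :
    ift ω μ (cj ω μ ξ 0) (cj ω μ ξ 1) (cj ω μ ξ 2) = ξ := by
  have h3 : ω ^ 3 = 1 := by linear_combination (ω - 1) * hω
  funext i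
  fin_cases i
  · change (cj ω μ ξ 0 + cj ω μ ξ 1 + cj ω μ ξ 2) / 3 = ξ 0
    simp only [cj]
    rw [div_eq_iff (by norm_num)]
    linear_combination (μ * ξ 1 + μ ^ 2 * ξ 2) * hω + (μ ^ 2 * ξ 2 * ω) * h3
  · change (cj ω μ ξ 0 + ω ^ 2 * cj ω μ ξ 1 + ω * cj ω μ ξ 2) / (3 * μ) = ξ 1
    simp only [cj]
    rw [div_eq_iff (mul_ne_zero (by norm_num) hμ)]
    linear_combination (ξ 0 + μ ^ 2 * ξ 2) * hω + (2 * μ * ξ 1 + μ ^ 2 * ξ 2 * (ω + ω ^ 2)) * h3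
  · change (cj ω μ ξ 0 + ω * cj ω μ ξ 1 + ω ^ 2 * cj ω μ ξ 2) / (3 * μ ^ 2) = ξ 2
    simp only [cj]
    rw [div_eq_iff (mul_ne_zero (by norm_num) (pow_ne_zero _ hμ))]
    linear_combination (ξ 0 + μ * ξ 1) * hω + (μ * ξ 1 * ω + μ ^ 2 * ξ 2 * (2 + ω ^ 3)) * h3

theorem map_ift {F F' : Type*} [Field F] [Field F'] (f : F →+* F') (ω μ v₀ v₁ v₂ : F)
    (i : Fin 3) : f (ift ω μ v₀ v₁ v₂ i) = ift (f ω) (f μ) (f v₀) (f v₁) (f v₂) i := by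
  fin_cases i
  · change f ((v₀ + v₁ + v₂) / 3) = (f v₀ + f v₁ + f v₂) / 3
    simp only [map_div₀, map_add, map_ofNat]
  · change f ((v₀ + ω ^ 2 * v₁ + ω * v₂) / (3 * μ)) =
      (f v₀ + f ω ^ 2 * f v₁ + f ω * f v₂) / (3 * f μ)
    simp only [map_div₀, map_add, map_mul, map_pow, map_ofNat]
  · change f ((v₀ + ω * v₁ + ω ^ 2 * v₂) / (3 * μ ^ 2)) =
      (f v₀ + f ω * f v₁ + f ω ^ 2 * f v₂) / (3 * f μ ^ 2)
    simp only [map_div₀, map_add, map_mul, map_pow, map_ofNat]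

end RSL

open RSL in
/-- TASK RSL -/
theorem exists_rat_field (K : Type) [Field K] [CharZero K] (ω α β d a : K)
    (hω : ω ^ 2 + ω + 1 = 0) (hα : ∀ x : K, x ^ 3 ≠ α) (hβ : ∀ x : K, x ^ 3 ≠ β) (hd : d ≠ 0)
    (ha : ∀ j : ℕ, ¬ IsNm α (a * d ^ j))
    (L : Type) [Field L] [Algebra K L] (t : L) (ht : Transcendental K t)
    (hfin : FiniteDimensional (IntermediateField.adjoin K {t}) L)
    (hreg : ∀ (F : Type) [Field F] [Algebra K F], IsDomain (F ⊗[K] L))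
    (Kβ : Type) [Field Kβ] [Algebra K Kβ] (ν₀ : Kβ) (hν₀ : ν₀ ^ 3 = algebraMap K Kβ β)
    (hgen : IntermediateField.adjoin K {ν₀} = ⊤)
    (P₀ : L →ₐ[K] LaurentSeries Kβ) (t₀ : K)
    (hP₀ : P₀ t = algebraMap K (LaurentSeries Kβ) t₀ + HahnSeries.single 1 1)
    (Ω : Type) [Field Ω] [IsAlgClosed Ω] [Algebra K Ω] (μ ν : Ω)
    (hμ : μ ^ 3 = algebraMap K Ω α) (hν : ν ^ 3 = algebraMap K Ω β)
    (J : Type) [Finite J] (p : J × Fin 3 → (L →ₐ[K] Ω)) (v : Fin 2 → Ω)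
    (hind : AlgebraicIndependent K (Sum.elim (fun i => p i t) v)) :
    ∃ (F : IntermediateField K Ω) (ξ : Fin 3 → Ω),
      ¬ IsNm (algebraMap K F α) (algebraMap K F a) ∧ (∀ i, ξ i ∈ F) ∧
      nf (algebraMap K Ω α) (ξ 0) (ξ 1) (ξ 2) = algebraMap K Ω d ∧
      cj (algebraMap K Ω ω) μ ξ 0 = v 0 ∧ cj (algebraMap K Ω ω) μ ξ 1 = v 1 ∧
      ∀ j : J, Rat3 F (algebraMap K Ω ω) ν (fun r => p (j, r)) := by
  obtain ⟨Ω', _, _, _, F', hF', hstd⟩ := exists_std_model_fin K ω α β d a hω hα hβ hd ha L t hfin Kβ ν₀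
    hν₀ hgen P₀ t₀ hP₀ J
  have hωΩ : (algebraMap K Ω ω) ^ 2 + algebraMap K Ω ω + 1 = 0 := by
    rw [← map_pow, ← map_add, ← map_one (algebraMap K Ω), ← map_add, hω, map_zero]
  have hωΩ' : (algebraMap K Ω' ω) ^ 2 + algebraMap K Ω' ω + 1 = 0 := by
    rw [← map_pow, ← map_add, ← map_one (algebraMap K Ω'), ← map_add, hω, map_zero]
  have hα0 : α ≠ 0 := fun h => hα 0 (by rw [h]; norm_num)
  have hβ0 : β ≠ 0 := fun h => hβ 0 (by rw [h]; norm_num)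
  have : CharZero Ω := charZero_of_injective_algebraMap (algebraMap K Ω).injective
  have : CharZero Ω' := charZero_of_injective_algebraMap (algebraMap K Ω').injective
  have hroot : ∀ (c : K) (x : Ω), x ^ 3 = algebraMap K Ω c → x ∈ algebraicClosure K Ω := by
    intro c x hx
    rw [mem_algebraicClosure_iff']
    exact IsIntegral.of_pow (n := 3) (by norm_num) (by rw [hx]; exact isIntegral_algebraMap)
  have hμc := hroot α μ hμ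
  have hνc := hroot β ν hν
  let g₀ : algebraicClosure K Ω →ₐ[K] Ω' := IsAlgClosed.lift
  obtain ⟨μ', hμ'⟩ : ∃ μ', g₀ ⟨μ, hμc⟩ = μ' := ⟨_, rfl⟩
  obtain ⟨ν', hν'⟩ : ∃ ν', g₀ ⟨ν, hνc⟩ = ν' := ⟨_, rfl⟩
  have hμ3 : μ' ^ 3 = algebraMap K Ω' α := by
    rw [← hμ', ← map_pow, ← g₀.commutes]
    congr 1
    exact Subtype.ext hμ
  have hν3 : ν' ^ 3 = algebraMap K Ω' β := by
    rw [← hν', ← map_pow, ← g₀.commutes]
    congr 1
    exact Subtype.ext hν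
  obtain ⟨p', ξ', hξ', hnf', hind', hrat'⟩ := hstd μ' ν' hμ3 hν3
  obtain ⟨E, hE, g, hg0, hgp, hgv⟩ := exists_ext_hom K L t ht hfin hreg Ω Ω' g₀ (J × Fin 3) (Fin 2)
    p p' v _ hind hind'
  have hμE : μ ∈ E := hE hμc
  have hνE : ν ∈ E := hE hνc
  have hgμ : g ⟨μ, hμE⟩ = μ' := by rw [← hμ']; exact hg0 ⟨μ, hμc⟩
  have hgν : g ⟨ν, hνE⟩ = ν' := by rw [← hν']; exact hg0 ⟨ν, hνc⟩
  obtain ⟨hv0E, hgv0⟩ := hgv 0
  obtain ⟨hv1E, hgv1⟩ := hgv 1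
  simp only [Matrix.cons_val_zero, Matrix.cons_val_one] at hgv0 hgv1
  have hμ0' : μ' ≠ 0 := by
    intro h
    rw [h, zero_pow (by norm_num)] at hμ3
    exact hα0 ((map_eq_zero _).mp hμ3.symm)
  have hprod' : cj (algebraMap K Ω' ω) μ' ξ' 0 * cj (algebraMap K Ω' ω) μ' ξ' 1 *
      cj (algebraMap K Ω' ω) μ' ξ' 2 = algebraMap K Ω' d := by
    rw [← nf_eq_prod_cj _ _ _ hωΩ', hμ3, hnf']
  have hdΩ' : algebraMap K Ω' d ≠ 0 := by rwa [Ne, map_eq_zero]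
  have hc0' : cj (algebraMap K Ω' ω) μ' ξ' 0 ≠ 0 := by
    intro h
    rw [h, zero_mul, zero_mul] at hprod'
    exact hdΩ' hprod'.symm
  have hc1' : cj (algebraMap K Ω' ω) μ' ξ' 1 ≠ 0 := by
    intro h
    rw [h, mul_zero, zero_mul] at hprod'
    exact hdΩ' hprod'.symm
  -- the elements of `E`
  obtain ⟨w0, hw0⟩ : ∃ w : E, w = ⟨v 0, hv0E⟩ := ⟨_, rfl⟩
  obtain ⟨w1, hw1⟩ : ∃ w : E, w = ⟨v 1, hv1E⟩ := ⟨_, rfl⟩
  obtain ⟨m, hm⟩ : ∃ w : E, w = ⟨μ, hμE⟩ := ⟨_, rfl⟩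
  rw [← hw0] at hgv0
  rw [← hw1] at hgv1
  rw [← hm] at hgμ
  have hw0v : E.val w0 = v 0 := by rw [hw0]; rfl
  have hw1v : E.val w1 = v 1 := by rw [hw1]; rfl
  have hmv : E.val m = μ := by rw [hm]; rfl
  have hμ0 : μ ≠ 0 := by
    intro h
    rw [h, zero_pow (by norm_num)] at hμ
    exact hα0 ((map_eq_zero _).mp hμ.symm)
  have hw00 : w0 ≠ 0 := by
    intro h
    rw [h, map_zero] at hgv0
    exact hc0' hgv0.symm
  have hw10 : w1 ≠ 0 := by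
    intro h
    rw [h, map_zero] at hgv1
    exact hc1' hgv1.symm
  obtain ⟨w2, hw2⟩ : ∃ w : E, w = algebraMap K E d / (w0 * w1) := ⟨_, rfl⟩
  have hgw2 : g w2 = cj (algebraMap K Ω' ω) μ' ξ' 2 := by
    rw [hw2, map_div₀, map_mul, AlgHom.commutes, hgv0, hgv1, ← hprod',
      mul_div_cancel_left₀ _ (mul_ne_zero hc0' hc1')]
  have hmul2 : w0 * w1 * w2 = algebraMap K E d := by
    rw [hw2, mul_div_cancel₀ _ (mul_ne_zero hw00 hw10)]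
  obtain ⟨x, hx⟩ : ∃ x : Fin 3 → E, x = ift (algebraMap K E ω) m w0 w1 w2 := ⟨_, rfl⟩
  have hgx : ∀ i, g (x i) = ξ' i := by
    intro i
    have h1 := map_ift (g : E →+* Ω') (algebraMap K E ω) m w0 w1 w2 i
    simp only [AlgHom.coe_toRingHom] at h1
    rw [hx, h1, AlgHom.commutes, hgμ, hgv0, hgv1, hgw2, ift_cj _ _ _ hωΩ' hμ0']
  have hvx : (fun i => E.val (x i)) = ift (algebraMap K Ω ω) μ (v 0) (v 1) (E.val w2) := by
    funext i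
    have h1 := map_ift (E.val : E →+* Ω) (algebraMap K E ω) m w0 w1 w2 i
    simp only [AlgHom.coe_toRingHom] at h1
    rw [hx, h1, AlgHom.commutes, hmv, hw0v, hw1v]
  obtain ⟨h0, h1, h2⟩ := cj_ift (algebraMap K Ω ω) μ (v 0) (v 1) (E.val w2) hωΩ hμ0
  rw [← hvx] at h0 h1 h2
  let F : IntermediateField K Ω := IntermediateField.map E.val (IntermediateField.comap g F')
  have hmemF : ∀ y : E, g y ∈ F' → E.val y ∈ F := fun y hy => ⟨y, hy, rfl⟩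
  refine ⟨F, fun i => E.val (x i), ?_, ?_, ?_, h0, h1, ?_⟩
  · rintro ⟨⟨_, y0, hy0, rfl⟩, ⟨_, y1, hy1, rfl⟩, ⟨_, y2, hy2, rfl⟩, h⟩
    apply hF'
    have e1 : E.val (nf (algebraMap K E α) y0 y1 y2) = E.val (algebraMap K E a) := by
      have := congrArg (algebraMap F Ω) h
      rw [map_nf] at this
      rw [show E.val (nf (algebraMap K E α) y0 y1 y2) =
        (E.val : E →+* Ω) (nf (algebraMap K E α) y0 y1 y2) from rfl, map_nf]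
      exact this
    have e2 : nf (algebraMap K E α) y0 y1 y2 = algebraMap K E a := E.val.injective e1
    refine ⟨⟨g y0, hy0⟩, ⟨g y1, hy1⟩, ⟨g y2, hy2⟩, ?_⟩
    apply (algebraMap F' Ω').injective
    rw [map_nf]
    have e3 := congrArg (g : E →+* Ω') e2
    rw [map_nf] at e3
    simp only [AlgHom.coe_toRingHom, AlgHom.commutes] at e3
    exact e3
  · intro i
    exact hmemF _ (by rw [hgx]; exact hξ' i)
  · rw [← hμ, nf_eq_prod_cj _ _ (fun i => E.val (x i)) hωΩ, h0, h1, h2, ← hw0v, ← hw1v, ← map_mul,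
      ← map_mul, hmul2, AlgHom.commutes]
  · intro j l k
    have hex : ∀ i, ∃ q : E, E.val q = p i l ∧ g q = p' i l := by
      intro i
      obtain ⟨h, h'⟩ := hgp i l
      exact ⟨⟨p i l, h⟩, rfl, h'⟩
    choose q hq hq' using hex
    have e1 := hmemF (∑ r : Fin 3, (((algebraMap K E ω) ^ (r : ℕ) * ⟨ν, hνE⟩)⁻¹) ^ k * q (j, r)) ?_
    · rw [map_sum] at e1
      simp only [map_mul, map_pow, map_inv₀, AlgHom.commutes, hq] at e1
      exact e1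
    · rw [map_sum]
      simp only [map_mul, map_pow, map_inv₀, AlgHom.commutes, hq', hgν]
      exact hrat' j l k

end Pool.Agent.D5741
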