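import Mathlib
import Pool.Agent.Lib.MP_d5741c_al.FAFinal
import Pool.Agent.Lib.MP_d5741c_al.RSL
import Pool.Agent.Lib.MP_d5741c_al.DTheory

/-!
# The main theorem in the curve case
-/

set_option autoImplicit false

namespace Pool.Agent.D5741

open scoped TensorProduct

/-- MAIN (curve case) -/
theorem main_curve (K : Type) [Field K] [CharZero K] (ω α a b β : K) (hω : ω ^ 2 + ω + 1 = 0)
    (hP : Indep α a b)
    (hec : ∀ (K' : Type) [Field K'] [Algebra K K'],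
      Indep (algebraMap K K' α) (algebraMap K K' a) (algebraMap K K' b) → EC K K')
    (hβ : ∀ x : K, x ^ 3 ≠ β)
    (L : Type) [Field L] [Algebra K L] (t : L) (ht : Transcendental K t)
    (hfin : FiniteDimensional (IntermediateField.adjoin K {t}) L)
    (hreg : ∀ (F : Type) [Field F] [Algebra K F], IsDomain (F ⊗[K] L))
    (Kβ : Type) [Field Kβ] [Algebra K Kβ] (ν₀ : Kβ) (hν₀ : ν₀ ^ 3 = algebraMap K Kβ β)
    (hgen : IntermediateField.adjoin K {ν₀} = ⊤)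
    (P₀ : L →ₐ[K] LaurentSeries Kβ) (t₀ : K)
    (hP₀ : P₀ t = algebraMap K (LaurentSeries Kβ) t₀ + HahnSeries.single 1 1)
    (hL : IsNm (algebraMap K L α) (algebraMap K L a)) :
    IsNm (algebraMap K L α) (algebraMap K L b) := by
  obtain ⟨hα0, ha0, hb0, hind⟩ := hP
  have hna : ¬ IsNm α a := by
    intro h
    have := (hind 1 0 (by rwa [pow_one, pow_zero, mul_one])).1
    omega
  have hα : ∀ x : K, x ^ 3 ≠ α := by
    rintro x rfl
    refine hna (IsNm.of_cube ?_ a)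
    rintro rfl
    exact hα0 (by ring)
  have hβ0 : β ≠ 0 := fun h => hβ 0 (by rw [h]; ring)
  obtain ⟨x, y, z, hθ⟩ := hL
  let Ω := AlgebraicClosure (FractionRing (MvPolynomial ℕ K))
  let s : ℕ → Ω := fun i => algebraMap (FractionRing (MvPolynomial ℕ K)) Ω
    (algebraMap (MvPolynomial ℕ K) (FractionRing (MvPolynomial ℕ K)) (MvPolynomial.X i))
  have hs : AlgebraicIndependent K s := by
    have h1 := (MvPolynomial.algebraicIndependent_X ℕ K).map'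
      (f := IsScalarTower.toAlgHom K (MvPolynomial ℕ K) (FractionRing (MvPolynomial ℕ K)))
      (IsFractionRing.injective _ _)
    exact h1.map' (f := IsScalarTower.toAlgHom K (FractionRing (MvPolynomial ℕ K)) Ω)
      (algebraMap (FractionRing (MvPolynomial ℕ K)) Ω).injective
  obtain ⟨μ, hμ⟩ := IsAlgClosed.exists_pow_nat_eq (algebraMap K Ω α) (n := 3) (by norm_num)
  obtain ⟨ν, hν⟩ := IsAlgClosed.exists_pow_nat_eq (algebraMap K Ω β) (n := 3) (by norm_num)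
  obtain ⟨n₁, n₂, p₁, p₂, v, W₁, W₂, φ, hW₁, hW₂, hi₁, hi₂, hφ, hφ0, hφ1, hne, h12, h21⟩ :=
    d_theory K ω α a hω hα0 ha0 hna L t ht hfin hreg ![x, y, z] hθ Ω μ hμ s hs
  have ha1 : ∀ j : ℕ, ¬ IsNm α (a * (b / a) ^ j) := by
    intro j h
    have h1 : IsNm α (a ^ (2 * j + 1) * b ^ j) := by
      have h2 := h.mul (IsNm.cube α (a ^ j))
      have h3 : a * (b / a) ^ j * (a ^ j) ^ 3 = a ^ (2 * j + 1) * b ^ j := by
        rw [div_pow, pow_add, pow_mul, pow_one]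
        field_simp
        ring
      rwa [h3] at h2
    have h4 := hind _ _ h1
    omega
  have ha2 : ∀ j : ℕ, ¬ IsNm α (a * (b / a ^ 2) ^ j) := by
    intro j h
    have h1 : IsNm α (a ^ (j + 1) * b ^ j) := by
      have h2 := h.mul (IsNm.cube α (a ^ j))
      have h3 : a * (b / a ^ 2) ^ j * (a ^ j) ^ 3 = a ^ (j + 1) * b ^ j := by
        rw [div_pow, pow_add, pow_one, ← pow_mul a 2 j, mul_comm 2 j, pow_mul a j 2]
        field_simp
      rwa [h3] at h2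
    have h4 := hind _ _ h1
    omega
  obtain ⟨F₁, ξ₁, hF₁, hξ₁F, hξ₁, e10, e11, hr₁⟩ := exists_rat_field K ω α β (b / a) a hω hα hβ
    (div_ne_zero hb0 ha0) ha1 L t ht hfin hreg Kβ ν₀ hν₀ hgen P₀ t₀ hP₀ Ω μ ν hμ hν (Fin n₁) p₁ v
    hi₁
  obtain ⟨F₂, ξ₂, hF₂, hξ₂F, hξ₂, e20, e21, hr₂⟩ := exists_rat_field K ω α β (b / a ^ 2) a hω hα hβ
    (div_ne_zero hb0 (pow_ne_zero 2 ha0)) ha2 L t ht hfin hreg Kβ ν₀ hν₀ hgen P₀ t₀ hP₀ Ω μ ν hμ
    hν (Fin n₂) p₂ v hi₂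
  obtain ⟨hfd₁, hV₁⟩ := VSub_rational K L Ω ω β hω hβ0 ν hν W₁ hW₁ n₁ p₁ F₁ hr₁
  obtain ⟨hfd₂, hV₂⟩ := VSub_rational K L Ω ω β hω hβ0 ν hν W₂ hW₂ n₂ p₂ F₂ hr₂
  exact FA.final K ω α a b hω hα0 ha0 hb0 hec L hreg ![x, y, z] hθ Ω μ hμ F₁ F₂ hF₁ hF₂ ξ₁ ξ₂
    hξ₁F hξ₂F hξ₁ hξ₂ v e10 e11 e20 e21 (VSub W₁ p₁) (VSub W₂ p₂) hfd₁ hfd₂ hV₁ hV₂ φ hφ hφ0 hφ1
    hne h12 h21

end Pool.Agent.D5741
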