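import Pool.Agent.Lib.MP_d5741c_al.Basic

/-!
# Existentially closed subfields and tensor products (task REG)
-/

set_option autoImplicit false
open scoped TensorProduct nonZeroDivisors

namespace Pool.Agent.D5741

namespace Reg

variable {K E F : Type} [Field K] [Field E] [Algebra K E] [Field F] [Algebra K F]

/-- Evaluation of a functional on the left factor. -/
noncomputable def lamE (M : Type) [AddCommGroup M] [Module K M] (l : F →ₗ[K] K) :
    F ⊗[K] M →ₗ[K] M :=
  (TensorProduct.lid K M).toLinearMap ∘ₗ (LinearMap.rTensor M l)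

@[simp] lemma lamE_tmul (M : Type) [AddCommGroup M] [Module K M] (l : F →ₗ[K] K) (f : F) (e : M) :
    lamE M l (f ⊗ₜ[K] e) = l f • e := by
  simp [lamE]

lemma exists_lamE_ne (M : Type) [AddCommGroup M] [Module K M] {x : F ⊗[K] M} (hx : x ≠ 0) :
    ∃ l : F →ₗ[K] K, lamE M l x ≠ 0 := by
  classical
  by_contra hcon
  push Not at hcon
  apply hx
  let b := Module.Basis.ofVectorSpace K F
  apply (TensorProduct.equivFinsuppOfBasisLeft b).injective
  rw [map_zero]
  ext i
  rw [TensorProduct.equivFinsuppOfBasisLeft_apply]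
  exact hcon (b.coord i)

/-- The inclusion `F ⊗ S → F ⊗ E`. -/
noncomputable def inc (F : Type) [Field F] [Algebra K F] (S : Subalgebra K E) :
    F ⊗[K] S →ₐ[K] F ⊗[K] E :=
  Algebra.TensorProduct.map (AlgHom.id K F) S.val

@[simp] lemma inc_tmul (S : Subalgebra K E) (f : F) (s : S) :
    inc F S (f ⊗ₜ[K] s) = f ⊗ₜ[K] (s : E) := by
  simp [inc]

lemma inc_injective (S : Subalgebra K E) : Function.Injective (inc F S) := by
  have h := Module.Flat.lTensor_preserves_injective_linearMap (M := F) S.val.toLinearMap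
    Subtype.val_injective
  exact h

/-- Specialization. -/
noncomputable def ev (F : Type) [Field F] [Algebra K F] {S : Subalgebra K E} (ε : S →ₐ[K] K) :
    F ⊗[K] S →ₐ[K] F :=
  Algebra.TensorProduct.lift (AlgHom.id K F) ((Algebra.ofId K F).comp ε)
    (fun _ _ => Commute.all _ _)

@[simp] lemma ev_tmul {S : Subalgebra K E} (ε : S →ₐ[K] K) (f : F) (s : S) :
    ev F ε (f ⊗ₜ[K] s) = f * algebraMap K F (ε s) := by
  simp [ev, Algebra.ofId_apply]

lemma lam_ev {S : Subalgebra K E} (ε : S →ₐ[K] K) (l : F →ₗ[K] K) (x : F ⊗[K] S) :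
    l (ev F ε x) = ε (lamE S l x) := by
  induction x using TensorProduct.induction_on with
  | zero => simp
  | tmul f s =>
    rw [ev_tmul, lamE_tmul, map_smul, smul_eq_mul, mul_comm f, ← Algebra.smul_def, map_smul,
      smul_eq_mul, mul_comm]
  | add x y hx hy => simp only [map_add, hx, hy]

lemma lam_inc {S : Subalgebra K E} (l : F →ₗ[K] K) (x : F ⊗[K] S) :
    ((lamE S l x : S) : E) = lamE E l (inc F S x) := by
  induction x using TensorProduct.induction_on with
  | zero => simp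
  | tmul f s => simp
  | add x y hx hy => simp only [map_add, Subalgebra.coe_add, hx, hy]

lemma inc_mono {S S' : Subalgebra K E} (h : S ≤ S') (x : F ⊗[K] S) :
    inc F S' (Algebra.TensorProduct.map (AlgHom.id K F) (Subalgebra.inclusion h) x) =
      inc F S x := by
  induction x using TensorProduct.induction_on with
  | zero => simp
  | tmul f s => simp
  | add x y hx hy => simp only [map_add, hx, hy]

lemma exists_fg (x : F ⊗[K] E) : ∃ S : Subalgebra K E, S.FG ∧ ∀ S', S ≤ S' →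
    ∃ y : F ⊗[K] S', inc F S' y = x := by
  classical
  obtain ⟨T, hT⟩ := TensorProduct.exists_finset x
  refine ⟨Algebra.adjoin K (T.image fun j => j.2 : Finset E), Subalgebra.fg_adjoin_finset _, ?_⟩
  intro S' hS'
  have hmem : ∀ j ∈ T, j.2 ∈ S' := fun j hj =>
    hS' (Algebra.subset_adjoin (by simpa using ⟨j.1, hj⟩))
  refine ⟨∑ j ∈ T.attach, j.1.1 ⊗ₜ[K] (⟨j.1.2, hmem j.1 j.2⟩ : S'), ?_⟩
  rw [map_sum, hT]
  simp only [inc_tmul]
  exact Finset.sum_attach T (fun j => j.1 ⊗ₜ[K] j.2)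

lemma fg_sup {S T : Subalgebra K E} (hS : S.FG) (hT : T.FG) : (S ⊔ T).FG := hS.sup hT

lemma fg_adjoin1 (x : E) : (Algebra.adjoin K {x} : Subalgebra K E).FG :=
  ⟨{x}, by simp⟩

lemma ev_ne_zero {S : Subalgebra K E} (ε : S →ₐ[K] K) {x : F ⊗[K] S} (l : F →ₗ[K] K)
    (hl : lamE E l (inc F S x) ≠ 0) (hS : (lamE E l (inc F S x))⁻¹ ∈ S) : ev F ε x ≠ 0 := by
  intro h
  have h1 := lam_ev ε l x
  rw [h, map_zero] at h1
  have h2 : (lamE S l x) * (⟨(lamE E l (inc F S x))⁻¹, hS⟩ : S) = 1 := by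
    apply Subtype.ext
    rw [Subalgebra.coe_mul, lam_inc, Subalgebra.coe_one]
    exact mul_inv_cancel₀ hl
  have h3 := congrArg ε h2
  rw [map_mul, ← h1, zero_mul, map_one] at h3
  exact zero_ne_one h3

end Reg

open Reg in
/-- TASK REG (a) -/
theorem isDomain_of_ec (K E : Type) [Field K] [Field E] [Algebra K E] (hec : EC K E)
    (F : Type) [Field F] [Algebra K F] : IsDomain (F ⊗[K] E) := by
  have : Nontrivial (F ⊗[K] E) := inferInstance
  have : NoZeroDivisors (F ⊗[K] E) := by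
    constructor
    intro x y hxy
    by_contra hcon
    push Not at hcon
    obtain ⟨hx, hy⟩ := hcon
    obtain ⟨l, hl⟩ := exists_lamE_ne E hx
    obtain ⟨m, hm⟩ := exists_lamE_ne E hy
    obtain ⟨S₁, hS₁, h₁⟩ := exists_fg x
    obtain ⟨S₂, hS₂, h₂⟩ := exists_fg y
    let S := (S₁ ⊔ S₂) ⊔ (Algebra.adjoin K {(lamE E l x)⁻¹} ⊔ Algebra.adjoin K {(lamE E m y)⁻¹})
    have hS : S.FG := (hS₁.sup hS₂).sup ((fg_adjoin1 _).sup (fg_adjoin1 _))
    obtain ⟨x', hx'⟩ := h₁ S (le_sup_left.trans le_sup_left)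
    obtain ⟨y', hy'⟩ := h₂ S (le_sup_right.trans le_sup_left)
    obtain ⟨ε⟩ := hec S hS
    have hp : x' * y' = 0 := by
      apply inc_injective S
      rw [map_mul, hx', hy', hxy, map_zero]
    have e1 : ev F ε x' ≠ 0 := ev_ne_zero ε l (by rwa [hx']) (by
      rw [hx']
      exact (le_sup_left.trans le_sup_right : Algebra.adjoin K {(lamE E l x)⁻¹} ≤ S)
        (Algebra.subset_adjoin rfl))
    have e2 : ev F ε y' ≠ 0 := ev_ne_zero ε m (by rwa [hy']) (by
      rw [hy']
      exact (le_sup_right.trans le_sup_right : Algebra.adjoin K {(lamE E m y)⁻¹} ≤ S)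
        (Algebra.subset_adjoin rfl))
    have h3 := congrArg (ev F ε) hp
    rw [map_mul, map_zero] at h3
    exact mul_ne_zero e1 e2 h3
  exact NoZeroDivisors.to_isDomain _

namespace Reg

variable {K E F : Type} [Field K] [Field E] [Algebra K E] [Field F] [Algebra K F]

/-- A cube root that is not in `K` has a non-trivial pair of embeddings. -/
lemma exists_two_emb {ω : K} (hω : ω ^ 2 + ω + 1 = 0) [CharZero K] {c : F} {γ : K}
    (hc : c ^ 3 = algebraMap K F γ) (hcK : ∀ x : K, algebraMap K F x ≠ c) :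
    ∃ (F₂ : Type) (_ : Field F₂) (_ : Algebra K F₂) (i₁ i₂ : F →ₐ[K] F₂), i₁ c ≠ i₂ c := by
  have hω3 : ω ^ 3 = 1 := by linear_combination (ω - 1) * hω
  have hω1 : ω ≠ 1 := by
    rintro rfl
    have : (3 : K) = 0 := by linear_combination hω
    exact three_ne_zero this
  have hω0 : ω ≠ 0 := by
    rintro rfl
    have : (1 : K) = 0 := by linear_combination hω
    exact one_ne_zero this
  have hc0 : c ≠ 0 := by
    rintro rfl
    exact hcK 0 (map_zero _)
  -- the minimal polynomial of `c`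
  have hirr : Irreducible (Polynomial.X ^ 3 - Polynomial.C γ : Polynomial K) := by
    apply X_pow_sub_C_irreducible_of_prime Nat.prime_three
    intro b hb
    have h1 : (c - algebraMap K F b) * ((c - algebraMap K F (ω * b)) *
        (c - algebraMap K F (ω ^ 2 * b))) = 0 := by
      have e1 : algebraMap K F b ^ 3 = c ^ 3 := by rw [← map_pow, hb, hc]
      have e2 : (algebraMap K F ω) ^ 2 + algebraMap K F ω + 1 = 0 := by
        rw [← map_pow, ← map_add, ← map_one (algebraMap K F), ← map_add, hω, map_zero]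
      simp only [map_mul, map_pow]
      have e3 : (algebraMap K F ω) ^ 3 = 1 := by rw [← map_pow, hω3, map_one]
      linear_combination (-c ^ 2 * algebraMap K F b + c * algebraMap K F b ^ 2 *
        algebraMap K F ω) * e2 - algebraMap K F b ^ 3 * e3 - e1
    rcases mul_eq_zero.mp h1 with h2 | h2
    · exact hcK _ (sub_eq_zero.mp h2).symm
    · rcases mul_eq_zero.mp h2 with h3 | h3
      · exact hcK _ (sub_eq_zero.mp h3).symm
      · exact hcK _ (sub_eq_zero.mp h3).symm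
  have hmin : minpoly K c = Polynomial.X ^ 3 - Polynomial.C γ := by
    refine (minpoly.eq_of_irreducible_of_monic hirr ?_
      (Polynomial.monic_X_pow_sub_C γ three_ne_zero)).symm
    simp [hc]
  have hint : IsIntegral K c := by
    refine ⟨Polynomial.X ^ 3 - Polynomial.C γ, Polynomial.monic_X_pow_sub_C γ three_ne_zero, ?_⟩
    simp [hc]
  have hroot : algebraMap K F ω * c ∈ (minpoly K c).aroots F := by
    rw [Polynomial.mem_aroots, hmin]
    refine ⟨hirr.ne_zero, ?_⟩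
    have e3 : (algebraMap K F ω) ^ 3 = 1 := by rw [← map_pow, hω3, map_one]
    simp [mul_pow, hc, e3]
  let τ : IntermediateField.adjoin K {c} →ₐ[K] F :=
    (IntermediateField.algHomAdjoinIntegralEquiv K hint).symm ⟨_, hroot⟩
  have hτ : τ (IntermediateField.AdjoinSimple.gen K c) = algebraMap K F ω * c :=
    IntermediateField.algHomAdjoinIntegralEquiv_symm_apply_gen K hint ⟨_, hroot⟩
  -- the difference of the two copies of `c` is not nilpotent
  let e : F ⊗[K] F := c ⊗ₜ[K] 1 - 1 ⊗ₜ[K] c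
  let e₁ : (IntermediateField.adjoin K {c}) ⊗[K] (IntermediateField.adjoin K {c}) :=
    (IntermediateField.AdjoinSimple.gen K c) ⊗ₜ[K] 1 -
      1 ⊗ₜ[K] (IntermediateField.AdjoinSimple.gen K c)
  let j := Algebra.TensorProduct.map (IntermediateField.adjoin K {c}).val
    (IntermediateField.adjoin K {c}).val
  have hj : Function.Injective j :=
    TensorProduct.map_injective_of_flat_flat _ _ Subtype.val_injective Subtype.val_injective
  have hje : j e₁ = e := by
    simp only [e₁, e, j, map_sub, Algebra.TensorProduct.map_tmul, map_one]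
    rfl
  let m : (IntermediateField.adjoin K {c}) ⊗[K] (IntermediateField.adjoin K {c}) →ₐ[K] F :=
    Algebra.TensorProduct.lift (IntermediateField.adjoin K {c}).val τ
      (fun _ _ => Commute.all _ _)
  have hme : m e₁ = (1 - algebraMap K F ω) * c := by
    simp only [e₁, m, map_sub, Algebra.TensorProduct.lift_tmul, map_one, hτ]
    change c * 1 - 1 * (algebraMap K F ω * c) = _
    ring
  have hnil : ¬ IsNilpotent e := by
    rintro ⟨n, hn⟩
    have h1 : e₁ ^ n = 0 := by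
      apply hj
      rw [map_zero j, map_pow j, hje, hn]
    have h2 : (m e₁) ^ n = 0 := by
      rw [← RingHom.coe_coe m, ← map_pow, h1, map_zero]
    rw [hme] at h2
    have h3 : (1 - algebraMap K F ω) * c = 0 := by
      by_contra hne
      exact pow_ne_zero n hne h2
    rcases mul_eq_zero.mp h3 with h4 | h4
    · apply hω1
      apply (algebraMap K F).injective
      rw [map_one]
      exact (sub_eq_zero.mp h4).symm
    · exact hc0 h4
  rw [nilpotent_iff_mem_prime] at hnil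
  push Not at hnil
  obtain ⟨J, hJ, heJ⟩ := hnil
  have hJ' := hJ
  refine ⟨FractionRing ((F ⊗[K] F) ⧸ J), inferInstance, inferInstance,
    ((IsScalarTower.toAlgHom K ((F ⊗[K] F) ⧸ J) (FractionRing ((F ⊗[K] F) ⧸ J))).comp
      (Ideal.Quotient.mkₐ K J)).comp Algebra.TensorProduct.includeLeft,
    ((IsScalarTower.toAlgHom K ((F ⊗[K] F) ⧸ J) (FractionRing ((F ⊗[K] F) ⧸ J))).comp
      (Ideal.Quotient.mkₐ K J)).comp Algebra.TensorProduct.includeRight, ?_⟩
  intro h
  apply heJ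
  rw [← Ideal.Quotient.eq_zero_iff_mem]
  apply IsFractionRing.injective ((F ⊗[K] F) ⧸ J) (FractionRing ((F ⊗[K] F) ⧸ J))
  rw [map_zero]
  simp only [e, map_sub]
  rw [sub_eq_zero]
  exact h

lemma lam_mul_right (l : F →ₗ[K] K) (x : F ⊗[K] E) (e : E) :
    lamE E l (x * (1 ⊗ₜ[K] e)) = lamE E l x * e := by
  induction x using TensorProduct.induction_on with
  | zero => simp
  | tmul f s =>
    rw [Algebra.TensorProduct.tmul_mul_tmul, mul_one, lamE_tmul, lamE_tmul, smul_mul_assoc]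
  | add x y hx hy => simp only [add_mul, map_add, hx, hy]

/-- Change of the field on the left. -/
noncomputable def chg {F F₂ : Type} [Field F] [Algebra K F] [Field F₂] [Algebra K F₂]
    (i : F →ₐ[K] F₂) (M : Type) [CommRing M] [Algebra K M] : F ⊗[K] M →ₐ[K] F₂ ⊗[K] M :=
  Algebra.TensorProduct.map i (AlgHom.id K M)

@[simp] lemma chg_tmul {F₂ : Type} [Field F₂] [Algebra K F₂] (i : F →ₐ[K] F₂) (M : Type)
    [CommRing M] [Algebra K M] (f : F) (s : M) : chg i M (f ⊗ₜ[K] s) = i f ⊗ₜ[K] s := by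
  simp [chg]

lemma chg_inc {F₂ : Type} [Field F₂] [Algebra K F₂] (i : F →ₐ[K] F₂) (S : Subalgebra K E)
    (x : F ⊗[K] S) : inc F₂ S (chg i S x) = chg i E (inc F S x) := by
  induction x using TensorProduct.induction_on with
  | zero => simp
  | tmul f s => simp
  | add x y hx hy => simp only [map_add, hx, hy]

lemma ev_chg {F₂ : Type} [Field F₂] [Algebra K F₂] (i : F →ₐ[K] F₂) {S : Subalgebra K E}
    (ε : S →ₐ[K] K) (x : F ⊗[K] S) : ev F₂ ε (chg i S x) = i (ev F ε x) := by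
  induction x using TensorProduct.induction_on with
  | zero => simp
  | tmul f s => simp
  | add x y hx hy => simp only [map_add, hx, hy]

/-- A relation between ratios specializes. -/
lemma ratio {F₂ : Type} [Field F₂] [Algebra K F₂] (i₁ i₂ : F →ₐ[K] F₂) {S : Subalgebra K E}
    (ε : S →ₐ[K] K) (x y : F ⊗[K] S) (ζ : K)
    (h : chg i₁ E (inc F S x) * chg i₂ E (inc F S y) =
      ζ • (chg i₁ E (inc F S y) * chg i₂ E (inc F S x))) :
    i₁ (ev F ε x) * i₂ (ev F ε y) = ζ • (i₁ (ev F ε y) * i₂ (ev F ε x)) := by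
  have h1 : chg i₁ S x * chg i₂ S y = ζ • (chg i₁ S y * chg i₂ S x) := by
    apply inc_injective S
    rw [map_mul, chg_inc, chg_inc, h, map_smul, map_mul, chg_inc, chg_inc]
  have h2 := congrArg (ev F₂ ε) h1
  rw [map_mul, map_smul, map_mul, ev_chg, ev_chg, ev_chg, ev_chg] at h2
  exact h2

/-- The main step: a cube root of `h` in the fraction field of `F ⊗ E` comes from `K`. -/
lemma key [CharZero K] {ω : K} (hω : ω ^ 2 + ω + 1 = 0) (hec : EC K E) {u s : F ⊗[K] E}
    (hs : s ≠ 0) {h : E} (h0 : h ≠ 0) (hus : u ^ 3 = (1 ⊗ₜ[K] h) * s ^ 3) :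
    ∃ (γ : K) (v : E), h = algebraMap K E γ * v ^ 3 := by
  have hω3 : ω ^ 3 = 1 := by linear_combination (ω - 1) * hω
  have hdom := isDomain_of_ec K E hec F
  obtain ⟨l₀, hl₀⟩ := exists_lamE_ne E hs
  obtain ⟨Su, hSu, hu'⟩ := exists_fg u
  obtain ⟨Ss, hSs, hs'⟩ := exists_fg s
  -- first specialization
  let S₁ := (Su ⊔ Ss) ⊔ (Algebra.adjoin K {(lamE E l₀ s)⁻¹} ⊔
    (Algebra.adjoin K {h} ⊔ Algebra.adjoin K {h⁻¹}))
  have hS₁ : S₁.FG := (hSu.sup hSs).sup ((fg_adjoin1 _).sup ((fg_adjoin1 _).sup (fg_adjoin1 _)))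
  have memS₁ : ∀ S, S₁ ≤ S → (lamE E l₀ s)⁻¹ ∈ S ∧ h ∈ S ∧ h⁻¹ ∈ S := by
    intro S hS
    refine ⟨hS ?_, hS ?_, hS ?_⟩
    · exact (le_sup_left.trans le_sup_right :
        Algebra.adjoin K {(lamE E l₀ s)⁻¹} ≤ S₁) (Algebra.subset_adjoin rfl)
    · exact ((le_sup_left.trans le_sup_right).trans le_sup_right :
        Algebra.adjoin K {h} ≤ S₁) (Algebra.subset_adjoin rfl)
    · exact ((le_sup_right.trans le_sup_right).trans le_sup_right :
        Algebra.adjoin K {h⁻¹} ≤ S₁) (Algebra.subset_adjoin rfl)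
  -- facts valid for every specialization
  have spec : ∀ S, S₁ ≤ S → ∀ ε : S →ₐ[K] K, ∃ (u' s' : F ⊗[K] S) (β : K), inc F S u' = u ∧
      inc F S s' = s ∧ β ≠ 0 ∧ ev F ε s' ≠ 0 ∧
      ev F ε u' ^ 3 = algebraMap K F β * ev F ε s' ^ 3 := by
    intro S hS ε
    obtain ⟨u', hu'⟩ := hu' S ((le_sup_left.trans le_sup_left : Su ≤ S₁).trans hS)
    obtain ⟨s', hs'⟩ := hs' S ((le_sup_right.trans le_sup_left : Ss ≤ S₁).trans hS)
    obtain ⟨m1, m2, m3⟩ := memS₁ S hS
    refine ⟨u', s', ε ⟨h, m2⟩, hu', hs', ?_, ?_, ?_⟩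
    · intro hz
      have h1 : (⟨h, m2⟩ : S) * ⟨h⁻¹, m3⟩ = 1 := Subtype.ext (mul_inv_cancel₀ h0)
      have h2 := congrArg ε h1
      rw [map_mul, hz, zero_mul, map_one] at h2
      exact zero_ne_one h2
    · exact ev_ne_zero ε l₀ (by rwa [hs']) (by rwa [hs'])
    · have h1 : u' ^ 3 = (1 ⊗ₜ[K] (⟨h, m2⟩ : S)) * s' ^ 3 := by
        apply inc_injective S
        rw [map_pow, map_mul, map_pow, inc_tmul, hu', hs', hus]
      have h2 := congrArg (ev F ε) h1
      rw [map_pow, map_mul, map_pow, ev_tmul, one_mul] at h2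
      exact h2
  obtain ⟨ε₁⟩ := hec S₁ hS₁
  obtain ⟨u₁, s₁, β₁, eu₁, es₁, hβ₁, hs₁0, hus₁⟩ := spec S₁ le_rfl ε₁
  set w : F := ev F ε₁ u₁ / ev F ε₁ s₁ with hw
  have hw3 : w ^ 3 = algebraMap K F β₁ := by
    rw [hw, div_pow, hus₁, mul_div_assoc, div_self (pow_ne_zero 3 hs₁0), mul_one]
  have hβ₁F : algebraMap K F β₁ ≠ 0 := by
    rw [Ne, map_eq_zero]
    exact hβ₁
  have hw0 : w ≠ 0 := by
    intro hz
    rw [hz, zero_pow three_ne_zero] at hw3
    exact hβ₁F hw3.symm
  set U : F ⊗[K] E := (w⁻¹ ⊗ₜ[K] 1) * u with hU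
  have hU3 : U ^ 3 = (1 ⊗ₜ[K] (algebraMap K E β₁⁻¹ * h)) * s ^ 3 := by
    rw [hU, mul_pow, hus, Algebra.TensorProduct.tmul_pow, one_pow, inv_pow, hw3, ← mul_assoc,
      Algebra.TensorProduct.tmul_mul_tmul, mul_one, one_mul, ← map_inv₀]
    congr 1
    rw [← mul_one (algebraMap K F β₁⁻¹), ← Algebra.smul_def, TensorProduct.smul_tmul,
      Algebra.smul_def]
  by_cases hprop : ∀ l m : F →ₗ[K] K, lamE E l U * lamE E m s = lamE E m U * lamE E l s
  · -- proportional coordinates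
    have h1 : U * (1 ⊗ₜ[K] (lamE E l₀ s)) = s * (1 ⊗ₜ[K] (lamE E l₀ U)) := by
      by_contra hne
      obtain ⟨l, hl⟩ := exists_lamE_ne E (sub_ne_zero.mpr hne)
      apply hl
      rw [map_sub, lam_mul_right, lam_mul_right, hprop l l₀, mul_comm, sub_self]
    have h2 : (1 ⊗ₜ[K] (algebraMap K E β₁⁻¹ * h * lamE E l₀ s ^ 3) : F ⊗[K] E) =
        1 ⊗ₜ[K] (lamE E l₀ U ^ 3) := by
      have h3 : s ^ 3 ≠ 0 := pow_ne_zero 3 hs
      apply mul_left_cancel₀ h3
      have h4 := congrArg (fun x => x ^ 3) h1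
      simp only [mul_pow, hU3, Algebra.TensorProduct.tmul_pow, one_pow] at h4
      have e1 : (1 ⊗ₜ[K] (algebraMap K E β₁⁻¹ * h * lamE E l₀ s ^ 3) : F ⊗[K] E) =
          (1 ⊗ₜ[K] (algebraMap K E β₁⁻¹ * h)) * (1 ⊗ₜ[K] (lamE E l₀ s ^ 3)) := by
        rw [Algebra.TensorProduct.tmul_mul_tmul, one_mul]
      rw [← h4, e1]
      ring
    have h5 := Algebra.TensorProduct.includeRight_injective (R := K) (A := F) (B := E)
      (algebraMap K F).injective h2
    refine ⟨β₁, lamE E l₀ U / lamE E l₀ s, ?_⟩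
    have hb : algebraMap K E β₁ ≠ 0 := by
      rw [Ne, map_eq_zero]
      exact hβ₁
    rw [div_pow, ← h5, map_inv₀]
    field_simp
  · -- non-proportional: contradiction
    exfalso
    push Not at hprop
    obtain ⟨l, m, hlm⟩ := hprop
    set δ : E := lamE E l U * lamE E m s - lamE E m U * lamE E l s with hδ
    have hδ0 : δ ≠ 0 := sub_ne_zero.mpr hlm
    let S₂ := S₁ ⊔ Algebra.adjoin K {δ⁻¹}
    have hS₂ : S₂.FG := hS₁.sup (fg_adjoin1 _)
    obtain ⟨ε₂⟩ := hec S₂ hS₂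
    obtain ⟨u₂, s₂, β₂, eu₂, es₂, hβ₂, hs₂0, hus₂⟩ := spec S₂ le_sup_left ε₂
    set c : F := (w⁻¹ * ev F ε₂ u₂) / ev F ε₂ s₂ with hc
    have hc3 : c ^ 3 = algebraMap K F (β₂ / β₁) := by
      rw [hc, div_pow, mul_pow, hus₂, inv_pow, hw3, map_div₀]
      field_simp
    -- lifts of `U`
    have eU₁ : inc F S₁ ((w⁻¹ ⊗ₜ[K] 1) * u₁) = U := by
      rw [map_mul, eu₁, inc_tmul, Subalgebra.coe_one]
    have eU₂ : inc F S₂ ((w⁻¹ ⊗ₜ[K] 1) * u₂) = U := by
      rw [map_mul, eu₂, inc_tmul, Subalgebra.coe_one]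
    have vU₁ : ev F ε₁ ((w⁻¹ ⊗ₜ[K] 1) * u₁) = ev F ε₁ s₁ := by
      have : ev F ε₁ u₁ ≠ 0 := by
        intro hz
        rw [hw, hz, zero_div] at hw0
        exact hw0 rfl
      rw [map_mul, ev_tmul, map_one, map_one, mul_one, hw, inv_div]
      field_simp
    have vU₂ : ev F ε₂ ((w⁻¹ ⊗ₜ[K] 1) * u₂) = c * ev F ε₂ s₂ := by
      rw [map_mul, ev_tmul, map_one, map_one, mul_one, hc]
      field_simp
    have hcK : ∀ x : K, algebraMap K F x ≠ c := by
      intro x hx
      have k1 : ∀ l' : F →ₗ[K] K, ε₂ (lamE S₂ l' ((w⁻¹ ⊗ₜ[K] 1) * u₂)) =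
          x * ε₂ (lamE S₂ l' s₂) := by
        intro l'
        rw [← lam_ev, ← lam_ev, vU₂, ← hx, ← Algebra.smul_def, map_smul, smul_eq_mul]
      have hδm : δ⁻¹ ∈ S₂ :=
        (le_sup_right : Algebra.adjoin K {δ⁻¹} ≤ S₂) (Algebra.subset_adjoin rfl)
      have k2 : (lamE S₂ l ((w⁻¹ ⊗ₜ[K] 1) * u₂) * lamE S₂ m s₂ -
          lamE S₂ m ((w⁻¹ ⊗ₜ[K] 1) * u₂) * lamE S₂ l s₂) * ⟨δ⁻¹, hδm⟩ = 1 := by
        apply Subtype.ext
        simp only [Subalgebra.coe_mul, Subalgebra.coe_sub, lam_inc, eU₂, es₂, Subalgebra.coe_one]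
        exact mul_inv_cancel₀ hδ0
      have k3 := congrArg ε₂ k2
      rw [map_mul ε₂, map_sub ε₂, map_mul ε₂ (lamE S₂ l _) (lamE S₂ m _),
        map_mul ε₂ (lamE S₂ m _) (lamE S₂ l _), k1, k1, map_one] at k3
      apply zero_ne_one (α := K)
      rw [← k3]
      ring
    obtain ⟨F₂, _, _, i₁, i₂, hi⟩ := exists_two_emb hω hc3 hcK
    have hdom₂ := isDomain_of_ec K E hec F₂
    set X := chg i₁ E U * chg i₂ E s with hX
    set Y := chg i₁ E s * chg i₂ E U with hY
    have hXY : X ^ 3 = Y ^ 3 := by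
      rw [hX, hY, mul_pow, mul_pow, ← map_pow, ← map_pow, ← map_pow, ← map_pow, hU3, map_mul,
        map_mul, chg_tmul, chg_tmul, map_one, map_one]
      ring
    obtain ⟨ζ, hζ⟩ : ∃ ζ : K, X = ζ • Y := by
      have e2 : (algebraMap K (F₂ ⊗[K] E) ω) ^ 2 + algebraMap K (F₂ ⊗[K] E) ω + 1 = 0 := by
        rw [← map_pow, ← map_add, ← map_one (algebraMap K (F₂ ⊗[K] E)), ← map_add, hω, map_zero]
      have e3 : (algebraMap K (F₂ ⊗[K] E) ω) ^ 3 = 1 := by rw [← map_pow, hω3, map_one]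
      have h1 : (X - Y) * ((X - ω • Y) * (X - (ω ^ 2) • Y)) = 0 := by
        rw [Algebra.smul_def, Algebra.smul_def, map_pow]
        linear_combination (-X ^ 2 * Y + X * Y ^ 2 * algebraMap K (F₂ ⊗[K] E) ω) * e2 -
          Y ^ 3 * e3 + hXY
      rcases mul_eq_zero.mp h1 with h2 | h2
      · exact ⟨1, by rw [one_smul]; exact sub_eq_zero.mp h2⟩
      · rcases mul_eq_zero.mp h2 with h3 | h3
        · exact ⟨ω, sub_eq_zero.mp h3⟩
        · exact ⟨ω ^ 2, sub_eq_zero.mp h3⟩
    have r₁ := ratio i₁ i₂ ε₁ ((w⁻¹ ⊗ₜ[K] 1) * u₁) s₁ ζ (by rw [eU₁, es₁]; exact hζ)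
    have r₂ := ratio i₁ i₂ ε₂ ((w⁻¹ ⊗ₜ[K] 1) * u₂) s₂ ζ (by rw [eU₂, es₂]; exact hζ)
    rw [vU₁] at r₁
    have hn₁ : i₁ (ev F ε₁ s₁) * i₂ (ev F ε₁ s₁) ≠ 0 :=
      mul_ne_zero ((map_ne_zero i₁).mpr hs₁0) ((map_ne_zero i₂).mpr hs₁0)
    have hζ1 : ζ = 1 := by
      have h1 : (ζ - 1) • (i₁ (ev F ε₁ s₁) * i₂ (ev F ε₁ s₁)) = 0 := by
        rw [sub_smul, one_smul, ← r₁, sub_self]
      rcases smul_eq_zero.mp h1 with h2 | h2
      · exact sub_eq_zero.mp h2
      · exact absurd h2 hn₁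
    rw [vU₂, hζ1, one_smul, map_mul, map_mul] at r₂
    have hn₂ : i₁ (ev F ε₂ s₂) * i₂ (ev F ε₂ s₂) ≠ 0 :=
      mul_ne_zero ((map_ne_zero i₁).mpr hs₂0) ((map_ne_zero i₂).mpr hs₂0)
    apply hi
    apply mul_right_cancel₀ hn₂
    linear_combination r₂

end Reg

open Reg in
/-- TASK REG (b) -/
theorem isDomain_kummer (K E E' : Type) [Field K] [CharZero K] [Field E] [Field E'] [Algebra K E]
    [Algebra E E'] [Algebra K E'] [IsScalarTower K E E'] (ω : K) (hω : ω ^ 2 + ω + 1 = 0)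
    (hec : EC K E) (h : E) (ρ : E') (hρ : ρ ^ 3 = algebraMap E E' h)
    (htop : IntermediateField.adjoin E {ρ} = ⊤)
    (hnc : ∀ (γ : K) (v : E), h ≠ algebraMap K E γ * v ^ 3)
    (F : Type) [Field F] [Algebra K F] : IsDomain (F ⊗[K] E') := by
  have hR := isDomain_of_ec K E hec F
  have h0 : h ≠ 0 := by
    intro hz
    apply hnc 0 0
    rw [hz, map_zero, zero_mul]
  -- abbreviations
  let Q := FractionRing (F ⊗[K] E)
  let Ω := AlgebraicClosure Q
  let hh : F ⊗[K] E := 1 ⊗ₜ[K] h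
  have hQ : ∀ q : Q, q ^ 3 ≠ algebraMap (F ⊗[K] E) Q hh := by
    intro q hq
    obtain ⟨u, s, hs, rfl⟩ := IsFractionRing.div_surjective (A := F ⊗[K] E) q
    have hs0 : s ≠ 0 := nonZeroDivisors.ne_zero hs
    have hs1 : algebraMap (F ⊗[K] E) Q s ≠ 0 := by
      rw [Ne, IsFractionRing.to_map_eq_zero_iff]
      exact hs0
    have h1 : u ^ 3 = hh * s ^ 3 := by
      apply IsFractionRing.injective (F ⊗[K] E) Q
      rw [map_pow, map_mul, map_pow, ← hq, div_pow]
      exact (div_mul_cancel₀ _ (pow_ne_zero 3 hs1)).symm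
    obtain ⟨γ, v, hγ⟩ := key hω hec hs0 h0 h1
    exact hnc γ v hγ
  have hirr : Irreducible (Polynomial.X ^ 3 - Polynomial.C (algebraMap (F ⊗[K] E) Q hh)) :=
    X_pow_sub_C_irreducible_of_prime Nat.prime_three hQ
  -- integrality
  have hint : IsIntegral E ρ := by
    refine ⟨Polynomial.X ^ 3 - Polynomial.C h, Polynomial.monic_X_pow_sub_C h three_ne_zero, ?_⟩
    simp [hρ]
  have hadj : Algebra.adjoin E {ρ} = ⊤ := by
    rw [← IntermediateField.adjoin_simple_toSubalgebra_of_isAlgebraic hint.isAlgebraic, htop,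
      IntermediateField.top_toSubalgebra]
  have hpoly : ∀ e : E', ∃ p : Polynomial E, Polynomial.aeval ρ p = e := by
    intro e
    have h1 : e ∈ Algebra.adjoin E {ρ} := by rw [hadj]; exact Algebra.mem_top
    rw [Algebra.adjoin_singleton_eq_range_aeval] at h1
    exact h1
  have halg : Algebra.IsAlgebraic E E' := by
    constructor
    intro x
    have h1 : x ∈ integralClosure E E' :=
      (Algebra.adjoin_le (by
        rw [Set.singleton_subset_iff]
        exact hint) : Algebra.adjoin E {ρ} ≤ integralClosure E E') (by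
          rw [hadj]; exact Algebra.mem_top)
    exact IsIntegral.isAlgebraic h1
  -- the homomorphism to the algebraic closure
  let g : E →+* Ω := ((algebraMap Q Ω).comp (algebraMap (F ⊗[K] E) Q)).comp
    (Algebra.TensorProduct.includeRight : E →ₐ[K] F ⊗[K] E).toRingHom
  let instE : Algebra E Ω := g.toAlgebra
  let φ : E' →ₐ[E] Ω := IsAlgClosed.lift
  have hφE : ∀ x : E, φ (algebraMap E E' x) = g x := fun x => φ.commutes x
  let a : (F ⊗[K] E) →ₐ[K] Ω := (IsScalarTower.toAlgHom K (F ⊗[K] E) Ω)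
  let f₂ : E' →ₐ[K] Ω :=
    { φ.toRingHom with
      commutes' := by
        intro k
        change φ (algebraMap K E' k) = _
        rw [IsScalarTower.algebraMap_apply K E E', hφE]
        change a (1 ⊗ₜ[K] (algebraMap K E k)) = _
        rw [← a.commutes k]
        congr 1
        exact (Algebra.TensorProduct.includeRight : E →ₐ[K] F ⊗[K] E).commutes k }
  let ψ : F ⊗[K] E' →ₐ[K] Ω := Algebra.TensorProduct.lift
    (a.comp Algebra.TensorProduct.includeLeft) f₂ (fun _ _ => Commute.all _ _)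
  let j : F ⊗[K] E →ₐ[K] F ⊗[K] E' :=
    Algebra.TensorProduct.map (AlgHom.id K F) (IsScalarTower.toAlgHom K E E')
  have hψj : ∀ x, ψ (j x) = a x := by
    intro x
    induction x using TensorProduct.induction_on with
    | zero => simp
    | tmul f e =>
      simp only [j, ψ, Algebra.TensorProduct.map_tmul, Algebra.TensorProduct.lift_tmul]
      change a (f ⊗ₜ[K] 1) * φ (algebraMap E E' e) = _
      rw [hφE]
      change a (f ⊗ₜ[K] 1) * a (1 ⊗ₜ[K] e) = _
      rw [← map_mul, Algebra.TensorProduct.tmul_mul_tmul, mul_one, one_mul]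
    | add x y hx hy => simp only [map_add, hx, hy]
  -- polynomials over `F ⊗ E`
  have hsurj : ∀ z : F ⊗[K] E', ∃ P : Polynomial (F ⊗[K] E),
      Polynomial.eval₂ j.toRingHom (1 ⊗ₜ[K] ρ) P = z := by
    intro z
    induction z using TensorProduct.induction_on with
    | zero => exact ⟨0, by simp⟩
    | tmul f e =>
      obtain ⟨p, rfl⟩ := hpoly e
      refine ⟨Polynomial.C (f ⊗ₜ[K] 1) *
        p.map (Algebra.TensorProduct.includeRight : E →ₐ[K] F ⊗[K] E).toRingHom, ?_⟩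
      rw [Polynomial.eval₂_mul, Polynomial.eval₂_C, Polynomial.eval₂_map]
      have e1 : Polynomial.eval₂ (j.toRingHom.comp
          (Algebra.TensorProduct.includeRight : E →ₐ[K] F ⊗[K] E).toRingHom) (1 ⊗ₜ[K] ρ) p =
          1 ⊗ₜ[K] (Polynomial.aeval ρ p) := by
        rw [Polynomial.aeval_def]
        have e2 := Polynomial.hom_eval₂ p (algebraMap E E')
          (Algebra.TensorProduct.includeRight : E' →ₐ[K] F ⊗[K] E').toRingHom ρ
        have e3 : j.toRingHom.comp
            (Algebra.TensorProduct.includeRight : E →ₐ[K] F ⊗[K] E).toRingHom =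
            (Algebra.TensorProduct.includeRight : E' →ₐ[K] F ⊗[K] E').toRingHom.comp
              (algebraMap E E') := by
          ext x
          simp [j]
        rw [e3]
        exact e2.symm
      rw [e1]
      have e4 : j.toRingHom (f ⊗ₜ[K] 1) = f ⊗ₜ[K] (1 : E') := by
        simp [j]
      rw [e4, Algebra.TensorProduct.tmul_mul_tmul, mul_one, one_mul]
    | add x y hx hy =>
      obtain ⟨P, hP⟩ := hx
      obtain ⟨P', hP'⟩ := hy
      exact ⟨P + P', by rw [Polynomial.eval₂_add, hP, hP']⟩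
  have hρΩ : (ψ (1 ⊗ₜ[K] ρ)) ^ 3 = algebraMap Q Ω (algebraMap (F ⊗[K] E) Q hh) := by
    rw [← map_pow, Algebra.TensorProduct.tmul_pow, one_pow, hρ]
    have e1 : (1 ⊗ₜ[K] (algebraMap E E' h) : F ⊗[K] E') = j hh := by
      simp [j, hh]
    rw [e1, hψj]
    rfl
  have hmin : minpoly Q (ψ (1 ⊗ₜ[K] ρ)) =
      Polynomial.X ^ 3 - Polynomial.C (algebraMap (F ⊗[K] E) Q hh) := by
    refine (minpoly.eq_of_irreducible_of_monic hirr ?_
      (Polynomial.monic_X_pow_sub_C _ three_ne_zero)).symm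
    simp only [map_sub, map_pow, Polynomial.aeval_X, Polynomial.aeval_C]
    rw [hρΩ, sub_self]
  have hinj : Function.Injective ψ := by
    rw [injective_iff_map_eq_zero]
    intro z hz
    obtain ⟨P, rfl⟩ := hsurj z
    have h1 : Polynomial.aeval (ψ (1 ⊗ₜ[K] ρ)) (P.map (algebraMap (F ⊗[K] E) Q)) = 0 := by
      rw [Polynomial.aeval_def, Polynomial.eval₂_map, ← hz]
      have e2 := Polynomial.hom_eval₂ P j.toRingHom ψ.toRingHom (1 ⊗ₜ[K] ρ)
      have e3 : ψ.toRingHom.comp j.toRingHom =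
          (algebraMap Q Ω).comp (algebraMap (F ⊗[K] E) Q) := by
        apply RingHom.ext
        intro x
        exact hψj x
      rw [← e3]
      exact e2.symm
    have h2 := minpoly.dvd Q _ h1
    rw [hmin] at h2
    have h3 : (Polynomial.X ^ 3 - Polynomial.C hh : Polynomial (F ⊗[K] E)) ∣ P := by
      rw [← Polynomial.map_dvd_map (algebraMap (F ⊗[K] E) Q)
        (IsFractionRing.injective (F ⊗[K] E) Q) (Polynomial.monic_X_pow_sub_C _ three_ne_zero)]
      simpa using h2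
    obtain ⟨P', rfl⟩ := h3
    rw [Polynomial.eval₂_mul]
    have h4 : Polynomial.eval₂ j.toRingHom (1 ⊗ₜ[K] ρ)
        (Polynomial.X ^ 3 - Polynomial.C hh : Polynomial (F ⊗[K] E)) = 0 := by
      rw [Polynomial.eval₂_sub, Polynomial.eval₂_pow, Polynomial.eval₂_X, Polynomial.eval₂_C,
        Algebra.TensorProduct.tmul_pow, one_pow, hρ, sub_eq_zero]
      simp [j, hh]
    rw [h4, zero_mul]
  exact hinj.isDomain ψ.toRingHom

end Pool.Agent.D5741
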