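import Mathlib
import Pool.Agent.Lib.MP_d5741c_al.Basic
import Pool.Agent.Lib.MP_d5741c_al.Mg.G001
import Pool.Agent.Lib.MP_d5741c_al.Mg.G002
import Pool.Agent.Lib.MP_d5741c_al.Mg.G003
import Pool.Agent.Lib.MP_d5741c_al.Mg.G010
import Pool.Agent.Lib.MP_d5741c_al.CaseZ
import Pool.Agent.Lib.MP_d5741c_al.Reg
import Pool.Agent.Lib.MP_d5741c_al.FA

/-!
# The final assembly
-/

set_option autoImplicit false
open scoped TensorProduct

namespace Pool.Agent.D5741

theorem main_theorem (K : Type) [Field K] [CharZero K] (ω α a b : K) (hω : ω ^ 2 + ω + 1 = 0)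
    (hP : Indep α a b)
    (hec : ∀ (K' : Type) [Field K'] [Algebra K K'],
      Indep (algebraMap K K' α) (algebraMap K K' a) (algebraMap K K' b) → EC K K')
    (L : Type) [Field L] [Algebra K L] (htr : Algebra.trdeg K L ≤ 1)
    (hL : IsNm (algebraMap K L α) (algebraMap K L a)) :
    IsNm (algebraMap K L α) (algebraMap K L b) :=
  Red.main_theorem_of @case_zero @isDomain_kummer @exists_laurent_point @main_curve
    K ω α a b hω hP hec L htr hL

theorem Indep.symm {R : Type*} [CommRing R] {α a b : R} (h : Indep α a b) : Indep α b a :=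
  ⟨h.1, h.2.2.1, h.2.1, fun i j hij => (h.2.2.2 j i (by rwa [mul_comm])).symm⟩

theorem Indep.not_isNm_left {R : Type*} [CommRing R] {α a b : R} (h : Indep α a b) :
    ¬ IsNm α a := by
  intro h1
  have := (h.2.2.2 1 0 (by simpa using h1)).1
  omega

theorem Indep.not_cube {F : Type*} [Field F] [CharZero F] {α a b : F} (h : Indep α a b) (x : F) :
    x ^ 3 ≠ α := by
  rintro rfl
  exact h.not_isNm_left (IsNm.of_cube (fun h0 => h.1 (by rw [h0]; ring)) a)

/-- There is an extension over which `a` is a norm and `b` is not. -/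
theorem exists_field_left (K : Type) [Field K] [CharZero K] (ω α a b : K)
    (hω : ω ^ 2 + ω + 1 = 0) (hP : Indep α a b) :
    ∃ (L : Type) (_ : Field L) (_ : Algebra K L), IsNm (algebraMap K L α) (algebraMap K L a) ∧
      ¬ IsNm (algebraMap K L α) (algebraMap K L b) := by
  obtain ⟨F, _, _, x, y, z, h1, h2, -⟩ := exists_generic_norm K ω α a hω hP.not_cube hP.2.1
  refine ⟨F, inferInstance, inferInstance, ⟨x, y, z, h1⟩, ?_⟩
  intro hb
  obtain ⟨j, hj⟩ := h2 b hP.2.2.1 hb
  have := (hP.2.2.2 j 1 (by rwa [pow_one, mul_comm])).2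
  omega

theorem splits_congr {K D D' : Type} [Field K] [Ring D] [Ring D'] [Algebra K D] [Algebra K D']
    (e : D ≃ₐ[K] D') (L : Type) [Field L] [Algebra K L]
    (h : Nonempty ((L ⊗[K] D) ≃ₐ[L] Matrix (Fin 3) (Fin 3) L)) :
    Nonempty ((L ⊗[K] D') ≃ₐ[L] Matrix (Fin 3) (Fin 3) L) := by
  obtain ⟨f⟩ := h
  exact ⟨(Algebra.TensorProduct.congr AlgEquiv.refl e.symm).trans f⟩

theorem splits_op {K D : Type} [Field K] [Ring D] [Algebra K D] (L : Type) [Field L] [Algebra K L]
    (h : Nonempty ((L ⊗[K] D) ≃ₐ[L] Matrix (Fin 3) (Fin 3) L)) :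
    Nonempty ((L ⊗[K] Dᵐᵒᵖ) ≃ₐ[L] Matrix (Fin 3) (Fin 3) L) := by
  obtain ⟨f⟩ := h
  exact ⟨((Algebra.TensorProduct.congr (AlgEquiv.toOpposite L L) AlgEquiv.refl).trans
    (Algebra.TensorProduct.opAlgEquiv K L L D)).trans
    ((AlgEquiv.op f).trans (Matrix.transposeAlgEquiv (Fin 3) L L).symm)⟩

end Pool.Agent.D5741
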