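import Mathlib
import Pool.Agent.Lib.MP_d5741c_al.FinalLib

/-!
# Extensions in an arbitrary universe
-/

set_option autoImplicit false
open scoped TensorProduct

namespace Pool.Agent.D5741

universe u

namespace Cyc

variable {K : Type} [Field K] [CharZero K] {ω α a : K}

/-- The splitting criterion for extensions in an arbitrary universe. -/
theorem split_iff_univ (hω : ω ^ 2 + ω + 1 = 0) (hα : α ≠ 0) (ha : a ≠ 0) (L : Type u) [Field L]
    [Algebra K L] :
    Nonempty ((L ⊗[K] Sym ω α a) ≃ₐ[L] Matrix (Fin 3) (Fin 3) L) ↔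
      IsNm (algebraMap K L α) (algebraMap K L a) := by
  have : CharZero L := charZero_of_injective_algebraMap (algebraMap K L).injective
  have hω' : (algebraMap K L ω) ^ 2 + algebraMap K L ω + 1 = 0 := by
    rw [← map_pow, ← map_add, ← map_one (algebraMap K L), ← map_add, hω, map_zero]
  have hα' : algebraMap K L α ≠ 0 := by simpa using hα
  have ha' : algebraMap K L a ≠ 0 := by simpa using ha
  constructor
  · rintro ⟨e⟩
    have h1 : Rel ω α a ((1 : L) ⊗ₜ[K] gu ω α a) ((1 : L) ⊗ₜ[K] gv ω α a) :=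
      (rel_sym ω α a).map (Algebra.TensorProduct.includeRight : Sym ω α a →ₐ[K] L ⊗[K] Sym ω α a)
    have h2 := (Rel.baseChange (L := L)).mp h1
    exact (h2.map e.toAlgHom).isNm_matrix hω' hα'
  · intro h
    obtain ⟨u, v, huv⟩ := exists_rel hω' h
    obtain ⟨φ, hu, hv⟩ := exists_hom (Rel.baseChange.mpr huv)
    have hcom : ∀ (x : L) (y : Sym ω α a),
        Commute (Algebra.ofId L (Matrix (Fin 3) (Fin 3) L) x) (φ y) := fun x y => by
      rw [Algebra.ofId_apply]
      exact Algebra.commute_algebraMap_left x (φ y)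
    obtain ⟨Φ, hΦ'⟩ : ∃ Φ : (L ⊗[K] Sym ω α a) →ₐ[L] Matrix (Fin 3) (Fin 3) L,
        ∀ y, Φ (1 ⊗ₜ y) = φ y :=
      ⟨Algebra.TensorProduct.lift (Algebra.ofId L _) φ hcom, fun y => by
        rw [Algebra.TensorProduct.lift_tmul, map_one, one_mul]⟩
    have hΦ : ∀ p, Φ (1 ⊗ₜ mon (gu ω α a) (gv ω α a) p) = mon u v p := by
      intro p
      rw [hΦ']
      unfold mon
      rw [map_mul, map_pow, map_pow, hu, hv]
    have hli := huv.linearIndependent hω' (by norm_num) hα' ha'
    have hspan := hli.span_eq_top_of_card_eq_finrank (by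
      rw [Module.finrank_matrix]
      simp)
    have hsurj : Function.Surjective Φ.toLinearMap := by
      rw [← LinearMap.range_eq_top, eq_top_iff, ← hspan, Submodule.span_le]
      rintro _ ⟨p, rfl⟩
      exact ⟨1 ⊗ₜ mon (gu ω α a) (gv ω α a) p, hΦ p⟩
    have := finite_sym (ω := ω) (α := α) (a := a)
    have hfr : Module.finrank L (L ⊗[K] Sym ω α a) =
        Module.finrank L (Matrix (Fin 3) (Fin 3) L) := by
      rw [Module.finrank_baseChange, finrank_sym hω hα ha, Module.finrank_matrix]
      simp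
    have hinj : Function.Injective Φ.toLinearMap :=
      (LinearMap.injective_iff_surjective_of_finrank_eq_finrank hfr).mpr hsurj
    exact ⟨AlgEquiv.ofBijective Φ ⟨hinj, hsurj⟩⟩

end Cyc

/-- The central division algebra of degree 3 with its splitting criterion, for extensions in an
arbitrary universe. -/
theorem exists_cyclic_univ (K : Type) [Field K] [CharZero K] (ω α a : K) (hω : ω ^ 2 + ω + 1 = 0)
    (hα : α ≠ 0) (ha : a ≠ 0) (h : ¬ IsNm α a) :
    ∃ (D : Type) (_ : DivisionRing D) (_ : Algebra K D),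
      Algebra.IsCentral K D ∧ Module.finrank K D = 9 ∧
      (∀ (L : Type) [Field L] [Algebra K L],
        Nonempty ((L ⊗[K] D) ≃ₐ[L] Matrix (Fin 3) (Fin 3) L) ↔
          IsNm (algebraMap K L α) (algebraMap K L a)) ∧
      ∀ (L : Type u) [Field L] [Algebra K L],
        Nonempty ((L ⊗[K] D) ≃ₐ[L] Matrix (Fin 3) (Fin 3) L) ↔
          IsNm (algebraMap K L α) (algebraMap K L a) := by
  have h3 : (3 : K) ≠ 0 := by norm_num
  have := Cyc.nontrivial_sym (a := a) hω hα
  have hs := (Cyc.rel_sym ω α a).simple hω h3 hα ha Cyc.span_sym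
  have hcen := (Cyc.rel_sym ω α a).central hω h3 hα ha Cyc.span_sym
  have hfin := Cyc.finite_sym (ω := ω) (α := α) (a := a)
  have hrank := Cyc.finrank_sym hω hα ha
  have : IsArtinianRing (Cyc.Sym ω α a) := IsArtinianRing.of_finite K _
  obtain ⟨n, hn, D, _, _, _, ⟨e⟩⟩ :=
    IsSimpleRing.exists_algEquiv_matrix_divisionRing_finite K (Cyc.Sym ω α a)
  have h9 : n * n * Module.finrank K D = 9 := by
    rw [← hrank, e.toLinearEquiv.finrank_eq, Module.finrank_matrix]
    simp
  have hn0 : 0 < n := Nat.pos_of_ne_zero hn.ne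
  have hn3 : n ≤ 3 := by
    by_contra hcon
    have : 4 * 4 ≤ n * n := Nat.mul_le_mul (by omega) (by omega)
    have hpos : 0 < Module.finrank K D := by
      rcases Nat.eq_zero_or_pos (Module.finrank K D) with h0 | h0
      · rw [h0] at h9; omega
      · exact h0
    nlinarith
  have hcases : n = 1 ∨ n = 2 ∨ n = 3 := by omega
  rcases hcases with rfl | rfl | rfl
  · have e1 : Matrix (Fin 1) (Fin 1) D ≃ₐ[K] D :=
      { toFun := fun M => M 0 0
        invFun := fun d => Matrix.of fun _ _ => d
        left_inv := fun M => by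
          ext i j
          rw [Subsingleton.elim i 0, Subsingleton.elim j 0]
          rfl
        right_inv := fun d => rfl
        map_mul' := fun M N => by simp [Matrix.mul_apply]
        map_add' := fun M N => rfl
        commutes' := fun r => by simp [Matrix.algebraMap_matrix_apply] }
    have e' : Cyc.Sym ω α a ≃ₐ[K] D := e.trans e1
    refine ⟨D, inferInstance, inferInstance, ?_, ?_, ?_, ?_⟩
    · exact Algebra.IsCentral.of_algEquiv K (Cyc.Sym ω α a) D e'
    · omega
    · intro L _ _
      rw [← Cyc.split_iff_univ hω hα ha L]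
      have e2 : L ⊗[K] Cyc.Sym ω α a ≃ₐ[L] L ⊗[K] D :=
        Algebra.TensorProduct.congr AlgEquiv.refl e'
      exact ⟨fun ⟨f⟩ => ⟨e2.trans f⟩, fun ⟨f⟩ => ⟨e2.symm.trans f⟩⟩
    · intro L _ _
      rw [← Cyc.split_iff_univ hω hα ha L]
      have e2 : L ⊗[K] Cyc.Sym ω α a ≃ₐ[L] L ⊗[K] D :=
        Algebra.TensorProduct.congr AlgEquiv.refl e'
      exact ⟨fun ⟨f⟩ => ⟨e2.trans f⟩, fun ⟨f⟩ => ⟨e2.symm.trans f⟩⟩
  · omega
  · exfalso
    have h1 : Module.finrank K D = 1 := by omega
    have hinj : Function.Injective (Algebra.linearMap K D) := (algebraMap K D).injective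
    have hsurj := (LinearMap.injective_iff_surjective_of_finrank_eq_finrank
      (by rw [h1, Module.finrank_self])).mp hinj
    have eD : D ≃ₐ[K] K := (AlgEquiv.ofBijective (Algebra.ofId K D) ⟨hinj, hsurj⟩).symm
    have e3 : Cyc.Sym ω α a ≃ₐ[K] Matrix (Fin 3) (Fin 3) K := e.trans eD.mapMatrix
    exact h (((Cyc.rel_sym ω α a).map e3.toAlgHom).isNm_matrix hω hα)

open Cardinal in
/-- The main theorem for extensions in an arbitrary universe. -/
theorem main_theorem_univ (K : Type) [Field K] [CharZero K] (ω α a b : K)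
    (hω : ω ^ 2 + ω + 1 = 0) (hP : Indep α a b)
    (hec : ∀ (K' : Type) [Field K'] [Algebra K K'],
      Indep (algebraMap K K' α) (algebraMap K K' a) (algebraMap K K' b) → EC K K')
    (L : Type u) [Field L] [Algebra K L] (htr : Algebra.trdeg K L ≤ 1)
    (hL : IsNm (algebraMap K L α) (algebraMap K L a)) :
    IsNm (algebraMap K L α) (algebraMap K L b) := by
  obtain ⟨x, y, z, hxyz⟩ := hL
  set F : IntermediateField K L := IntermediateField.adjoin K {x, y, z} with hF
  have hx : x ∈ F := IntermediateField.subset_adjoin K _ (by simp)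
  have hy : y ∈ F := IntermediateField.subset_adjoin K _ (by simp)
  have hz : z ∈ F := IntermediateField.subset_adjoin K _ (by simp)
  have hcard : #F ≤ Cardinal.lift.{u} (#K ⊔ ℵ₀) := by
    have h1 := IntermediateField.lift_cardinalMk_adjoin_le K ({x, y, z} : Set L)
    rw [Cardinal.lift_uzero] at h1
    refine h1.trans ?_
    rw [Cardinal.lift_max, Cardinal.lift_aleph0]
    refine sup_le (sup_le le_sup_left ?_) le_sup_right
    refine le_trans ?_ le_sup_right
    rw [Cardinal.lift_uzero]
    exact (Set.toFinite _).lt_aleph0.le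
  have hsm : Small.{0} F := by
    obtain ⟨c, hc⟩ := Cardinal.mem_range_lift_of_le hcard
    have h2 : Cardinal.lift.{u} #c.out = Cardinal.lift.{0} #F := by
      rw [Cardinal.mk_out, hc, Cardinal.lift_uzero]
    obtain ⟨e⟩ := Cardinal.lift_mk_eq'.mp h2
    exact Small.mk' e.symm
  have e : Shrink.{0} F ≃ₐ[K] F := Shrink.algEquiv K F
  have htr' : Algebra.trdeg K (Shrink.{0} F) ≤ 1 := by
    have h3 := lift_trdeg_le_of_injective (F.val.comp e.toAlgHom)
      (F.val.injective.comp e.injective)
    rw [Cardinal.lift_uzero] at h3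
    have h4 := h3.trans htr
    rwa [Cardinal.lift_le_one_iff] at h4
  have hL' : IsNm (algebraMap K (Shrink.{0} F) α) (algebraMap K (Shrink.{0} F) a) := by
    refine ⟨e.symm ⟨x, hx⟩, e.symm ⟨y, hy⟩, e.symm ⟨z, hz⟩, ?_⟩
    apply e.injective
    apply F.val.injective
    have h5 := map_nf (F.val.comp e.toAlgHom).toRingHom (algebraMap K (Shrink.{0} F) α)
      (e.symm ⟨x, hx⟩) (e.symm ⟨y, hy⟩) (e.symm ⟨z, hz⟩)
    simpa [hxyz] using h5
  obtain ⟨x', y', z', h6⟩ := main_theorem K ω α a b hω hP hec (Shrink.{0} F) htr' hL'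
  have h7 := map_nf (F.val.comp e.toAlgHom).toRingHom (algebraMap K (Shrink.{0} F) α) x' y' z'
  refine ⟨F.val (e x'), F.val (e y'), F.val (e z'), ?_⟩
  rw [h6] at h7
  simpa using h7.symm

end Pool.Agent.D5741
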